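import Pool.Agent.Lib.VL.NuWin3
import Pool.Agent.Lib.HLT.MinorNu

/-!
# Minor arcs in short windows of length `x^ε`: the sieve model

The proof of `VK.minor_win_nu` (file `VK/MinorWinNu.lean`), i.e. of `HLT.minor_nu` for the window `(u, u + h]`, with `brun_param_eps 1 A (B + 2) (ε/2)` in place of `brun_param` and
`D = ⌊x^(ε/2)⌋₊ ≤ h` in place of `⌊√x⌋`: for `d ≤ D` the sum of `e(nα)` over the multiples `n` of `d` in `(u, u+h]` is at most `mn (2h/d) (dα)`, the number of multiples of `d ≤ D` in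
the window is at most `2h/d`; `sum_mn_div` gives `C (2h/q + D + q) log (4 q (D+1))`.
-/

set_option autoImplicit false

open Finset Filter Pool.Agent.HLT

namespace Pool.Agent.VL

namespace MinorWinNu3Aux

open Pool.Agent.HLB

lemma div_window (u h d : ℕ) (hd : 1 ≤ d) (hdh : d ≤ h) :
    (((u + h) / d : ℕ) : ℝ) - ((u / d : ℕ) : ℝ) ≤ 2 * h / d := by
  have hd0 : (0 : ℝ) < d := by exact_mod_cast hd
  have h1 : (((u + h) / d : ℕ) : ℝ) ≤ ((u : ℝ) + h) / d := by
    have := Nat.cast_div_le (m := u + h) (n := d) (α := ℝ)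
    push_cast at this
    exact this
  have h2 : (u : ℝ) / d ≤ ((u / d : ℕ) : ℝ) + 1 := by
    rw [div_le_iff₀ hd0]
    have h3 : u < d * (u / d + 1) := Nat.lt_mul_div_succ u hd
    have h4 : (u : ℝ) < d * ((u / d : ℕ) + 1) := by exact_mod_cast h3
    linarith
  have h5 : (1 : ℝ) ≤ h / d := by
    rw [le_div_iff₀ hd0, one_mul]
    exact_mod_cast hdh
  rw [add_div] at h1
  have h6 : 2 * (h : ℝ) / d = h / d + h / d := by ring
  rw [h6]
  linarith

lemma sum_dvi_ex_win (u h d : ℕ) (hd : 1 ≤ d) (α : ℝ) :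
    ∑ n ∈ Ioc u (u + h), (dvi n d : ℂ) * ex (n * α) =
      ∑ m ∈ Ioc (u / d) ((u + h) / d), ex (m * (α * d)) := by
  have h1 : ∑ n ∈ Ioc u (u + h), (dvi n d : ℂ) * ex (n * α) =
      ∑ n ∈ (Ioc u (u + h)).filter (fun n => d ∣ n), ex (n * α) := by
    rw [Finset.sum_filter]
    refine Finset.sum_congr rfl (fun n _ => ?_)
    unfold dvi
    split_ifs <;> simp
  rw [h1]
  symm
  refine Finset.sum_nbij' (fun m => d * m) (fun n => n / d) ?_ ?_ ?_ ?_ ?_
  · intro m hm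
    rw [Finset.mem_Ioc] at hm
    rw [Finset.mem_filter, Finset.mem_Ioc]
    refine ⟨⟨?_, ?_⟩, dvd_mul_right _ _⟩
    · have := (Nat.div_lt_iff_lt_mul hd).1 hm.1
      rwa [mul_comm] at this
    · calc d * m ≤ d * ((u + h) / d) := Nat.mul_le_mul_left _ hm.2
        _ ≤ u + h := Nat.mul_div_le (u + h) d
  · intro n hn
    rw [Finset.mem_filter, Finset.mem_Ioc] at hn
    rw [Finset.mem_Ioc]
    refine ⟨?_, Nat.div_le_div_right hn.1.2⟩
    rw [Nat.div_lt_iff_lt_mul hd, Nat.div_mul_cancel hn.2]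
    exact hn.1.1
  · intro m _
    exact Nat.mul_div_cancel_left m hd
  · intro n hn
    rw [Finset.mem_filter] at hn
    exact Nat.mul_div_cancel' hn.2
  · intro m _
    congr 1
    push_cast
    ring

lemma norm_sum_dvi_win (u h d : ℕ) (hd : 1 ≤ d) (hdh : d ≤ h) (α : ℝ) :
    ‖∑ n ∈ Ioc u (u + h), (dvi n d : ℂ) * ex (n * α)‖ ≤ mn (2 * h / d) (α * d) := by
  rw [sum_dvi_ex_win u h d hd α]
  have hle : u / d ≤ (u + h) / d := Nat.div_le_div_right (by omega)
  refine (geom_Ioc (u / d) ((u + h) / d) hle (α * d)).trans ?_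
  refine mn_mono ?_ (div_window u h d hd hdh) _
  have : ((u / d : ℕ) : ℝ) ≤ (((u + h) / d : ℕ) : ℝ) := by exact_mod_cast hle
  linarith

lemma sum_dvi_win (u h d : ℕ) (hd : 1 ≤ d) (hdh : d ≤ h) :
    ∑ n ∈ Ioc u (u + h), dvi n d ≤ 2 * (h : ℝ) / d := by
  have h1 : ∑ n ∈ Ioc u (u + h), dvi n d =
      (((Ioc u (u + h)).filter (fun n => d ∣ n)).card : ℝ) := by
    unfold dvi
    rw [← Finset.sum_filter, Finset.sum_const, nsmul_eq_mul, mul_one]
  rw [h1]
  have h2 : ((Ioc u (u + h)).filter (fun n => d ∣ n)).card ≤ (Ioc (u / d) ((u + h) / d)).card := by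
    apply Finset.card_le_card_of_injOn (fun n => n / d)
    · intro n hn
      rw [Finset.mem_coe, Finset.mem_filter, Finset.mem_Ioc] at hn
      rw [Finset.mem_coe, Finset.mem_Ioc]
      refine ⟨?_, Nat.div_le_div_right hn.1.2⟩
      rw [Nat.div_lt_iff_lt_mul hd, Nat.div_mul_cancel hn.2]
      exact hn.1.1
    · intro n hn n' hn' hnn
      rw [Finset.mem_coe, Finset.mem_filter] at hn hn'
      simp only at hnn
      rw [← Nat.div_mul_cancel hn.2, ← Nat.div_mul_cancel hn'.2, hnn]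
  rw [Nat.card_Ioc] at h2
  have hle : u / d ≤ (u + h) / d := Nat.div_le_div_right (by omega)
  refine le_trans ?_ (div_window u h d hd hdh)
  rw [← Nat.cast_sub hle]
  exact_mod_cast h2

/-- The main sum. -/
lemma norm_sum_TT_win (z k u h D : ℕ) (α : ℝ) (hD : ((1 + z) ^ k : ℕ) ≤ D) (hDh : D ≤ h) :
    ‖∑ n ∈ Ioc u (u + h), (TT (Nat.primesLE z) (dvi n) k : ℂ) * ex (n * α)‖ ≤
      ∑ d ∈ Icc 1 D, mn (2 * (h : ℝ) / d) (α * d) := by
  classical
  have h1 : ∑ n ∈ Ioc u (u + h), (TT (Nat.primesLE z) (dvi n) k : ℂ) * ex (n * α) =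
      ∑ s ∈ (Nat.primesLE z).powerset.filter (fun s => s.card ≤ k),
        (-1 : ℂ) ^ s.card * ∑ n ∈ Ioc u (u + h), (dvi n (∏ p ∈ s, p) : ℂ) * ex (n * α) := by
    have h2 : ∀ n ∈ Ioc u (u + h), (TT (Nat.primesLE z) (dvi n) k : ℂ) * ex (n * α) =
        ∑ s ∈ (Nat.primesLE z).powerset.filter (fun s => s.card ≤ k),
          (-1 : ℂ) ^ s.card * ((dvi n (∏ p ∈ s, p) : ℂ) * ex (n * α)) := by
      intro n _
      unfold TT
      rw [Complex.ofReal_sum, Finset.sum_mul]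
      refine Finset.sum_congr rfl (fun s hs => ?_)
      rw [Finset.mem_filter] at hs
      rw [prod_dvi s (fun p hp => (mem_pl hs.1 p hp).1)]
      push_cast
      ring
    rw [Finset.sum_congr rfl h2, Finset.sum_comm]
    refine Finset.sum_congr rfl (fun s _ => ?_)
    rw [Finset.mul_sum]
  rw [h1]
  refine (norm_sum_le _ _).trans ?_
  have hle : ∀ s ∈ (Nat.primesLE z).powerset.filter (fun s => s.card ≤ k), ∏ p ∈ s, p ≤ D := by
    intro s hs
    rw [Finset.mem_filter] at hs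
    calc ∏ p ∈ s, p ≤ ∏ _p ∈ s, (1 + z) :=
          Finset.prod_le_prod' (fun p hp => by have := (mem_pl hs.1 p hp).2; omega)
      _ = (1 + z) ^ s.card := by rw [Finset.prod_const]
      _ ≤ (1 + z) ^ k := Nat.pow_le_pow_right (by omega) hs.2
      _ ≤ D := hD
  have h3 : ∀ s ∈ (Nat.primesLE z).powerset.filter (fun s => s.card ≤ k),
      ‖(-1 : ℂ) ^ s.card * ∑ n ∈ Ioc u (u + h), (dvi n (∏ p ∈ s, p) : ℂ) * ex (n * α)‖ ≤
        mn (2 * (h : ℝ) / ((∏ p ∈ s, p : ℕ) : ℝ)) (α * ((∏ p ∈ s, p : ℕ) : ℝ)) := by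
    intro s hs
    have hs' := (Finset.mem_filter.1 hs)
    have h4 : 1 ≤ ∏ p ∈ s, p := Finset.prod_pos (fun p hp => (mem_pl hs'.1 p hp).1.pos)
    rw [norm_mul, norm_pow, norm_neg, norm_one, one_pow, one_mul]
    exact norm_sum_dvi_win u h _ h4 ((hle s hs).trans hDh) α
  refine (Finset.sum_le_sum h3).trans ?_
  have hinj : Set.InjOn (fun s : Finset ℕ => ∏ p ∈ s, p)
      ((Nat.primesLE z).powerset.filter (fun s => s.card ≤ k) : Set (Finset ℕ)) := by
    intro s hs t ht hst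
    have hs' := (Finset.mem_filter.mp (Finset.mem_coe.mp hs)).1
    have ht' := (Finset.mem_filter.mp (Finset.mem_coe.mp ht)).1
    have e1 := Nat.primeFactors_prod (s := s) (fun p hp => (mem_pl hs' p hp).1)
    have e2 := Nat.primeFactors_prod (s := t) (fun p hp => (mem_pl ht' p hp).1)
    simp only at hst
    rw [← e1, ← e2, hst]
  have h5 := Finset.sum_image (f := fun d : ℕ => mn (2 * (h : ℝ) / (d : ℝ)) (α * (d : ℝ))) hinj
  rw [← h5]
  refine Finset.sum_le_sum_of_subset_of_nonneg ?_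
    (fun d _ _ => mn_nonneg (by positivity) _)
  intro d hd
  rw [Finset.mem_image] at hd
  obtain ⟨s, hs, rfl⟩ := hd
  rw [Finset.mem_Icc]
  exact ⟨Finset.prod_pos (fun p hp => (mem_pl (Finset.mem_filter.1 hs).1 p hp).1.pos), hle s hs⟩

/-- The error term. -/
lemma sum_EE_win (z k u h : ℕ) (hD : ((1 + z) ^ k : ℕ) ≤ h) :
    ∑ n ∈ Ioc u (u + h), EE (Nat.primesLE z) (dvi n) k ≤
      2 * h * ((∑ p ∈ Nat.primesLE z, 1 / (p : ℝ)) ^ k / (k.factorial : ℝ)) := by
  have h1 : ∑ n ∈ Ioc u (u + h), EE (Nat.primesLE z) (dvi n) k =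
      ∑ s ∈ (Nat.primesLE z).powerset.filter (fun s => s.card = k),
        ∑ n ∈ Ioc u (u + h), dvi n (∏ p ∈ s, p) := by
    unfold EE
    rw [Finset.sum_comm]
    refine Finset.sum_congr rfl (fun s hs => ?_)
    rw [Finset.mem_filter] at hs
    refine Finset.sum_congr rfl (fun n _ => ?_)
    rw [prod_dvi s (fun p hp => (mem_pl hs.1 p hp).1)]
  rw [h1]
  have h2 := EE_le (Nat.primesLE z) (fun p => 1 / (p : ℝ)) (fun p _ => by positivity) k
  refine le_trans ?_ (mul_le_mul_of_nonneg_left h2 (by positivity : (0 : ℝ) ≤ 2 * h))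
  unfold EE
  rw [Finset.mul_sum]
  refine Finset.sum_le_sum (fun s hs => ?_)
  rw [Finset.mem_filter] at hs
  have h4 : 1 ≤ ∏ p ∈ s, p := Finset.prod_pos (fun p hp => (mem_pl hs.1 p hp).1.pos)
  have h5 : ∏ p ∈ s, p ≤ h := by
    calc ∏ p ∈ s, p ≤ ∏ _p ∈ s, (1 + z) :=
          Finset.prod_le_prod' (fun p hp => by have := (mem_pl hs.1 p hp).2; omega)
      _ = (1 + z) ^ s.card := by rw [Finset.prod_const]
      _ = (1 + z) ^ k := by rw [hs.2]
      _ ≤ h := hD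
  refine (sum_dvi_win u h _ h4 h5).trans (le_of_eq ?_)
  rw [div_eq_mul_one_div]
  congr 1
  rw [Finset.prod_div_distrib, Finset.prod_const_one]
  push_cast
  rfl

end MinorWinNu3Aux

open MinorWinNu3Aux Pool.Agent.HLB

theorem minor_win_nu3 (A B : ℕ) (ε : ℝ) (hε : 0 < ε) : ∃ C : ℝ, 0 < C ∧ ∀ᶠ x : ℕ in atTop, ∀ (u h q : ℕ) (a : ℤ) (α : ℝ),
    (x : ℝ) ^ ε ≤ h → h ≤ x → 1 ≤ q → q ≤ x → IsCoprime a (q : ℤ) → |α - a / q| ≤ 1 / (q : ℝ) ^ 2 →
    ‖∑ n ∈ Ioc u (u + h), (nuz (zA A x) n : ℂ) * ex (n * α)‖ ≤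
      C * (h / q + (x : ℝ) ^ (ε / 2) + q) * Real.log x ^ 3 + h / Real.log x ^ B := by
  obtain ⟨C, hC, hmn⟩ := sum_mn_div
  refine ⟨6 * C, by positivity, ?_⟩
  have hlog : Tendsto (fun x : ℕ => Real.log x) atTop atTop :=
    Real.tendsto_log_atTop.comp tendsto_natCast_atTop_atTop
  filter_upwards [hlog.eventually_ge_atTop 2, eventually_ge_atTop 64,
    brun_param_eps 1 A (B + 2) (ε / 2) (by positivity), DZ_inv_le A] with x hL hx hbr hDZ
  obtain ⟨k, hk, hk1, hk2⟩ := hbr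
  intro u h q a α hxh hhx hq hqx haq hα
  set L := Real.log x with hLdef
  set z := zA A x with hz
  have hx64 : (64 : ℝ) ≤ x := by exact_mod_cast hx
  have hx0 : (0 : ℝ) < x := by linarith only [hx64]
  have hL0 : 0 < L := by linarith only [hL]
  have hL1 : 1 ≤ L := by linarith only [hL]
  have hq0 : (1 : ℝ) ≤ q := by exact_mod_cast hq
  have hqx' : (q : ℝ) ≤ x := by exact_mod_cast hqx
  have hhx' : (h : ℝ) ≤ x := by exact_mod_cast hhx
  set X2 : ℝ := (x : ℝ) ^ (ε / 2) with hX2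
  have hX20 : 0 < X2 := Real.rpow_pos_of_pos hx0 _
  have hX2h : X2 ≤ h := by
    refine le_trans ?_ hxh
    exact Real.rpow_le_rpow_of_exponent_le (by linarith only [hx64]) (by linarith only [hε])
  -- the sum over `d`
  set D := ⌊X2⌋₊ with hDdef
  have hDle : (D : ℝ) ≤ X2 := Nat.floor_le hX20.le
  have hDh : D ≤ h := by
    have : (D : ℝ) ≤ h := hDle.trans hX2h
    exact_mod_cast this
  have hpow : (((1 + z) ^ (k + 1) : ℕ) : ℝ) ≤ X2 := by
    refine le_trans ?_ hk2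
    push_cast
    have h1 : (1 : ℝ) ≤ (1 + (z : ℝ)) := by
      have : (0 : ℝ) ≤ z := Nat.cast_nonneg z
      linarith
    have h2 : (1 + (z : ℝ)) ^ (k + 1) ≤ ((1 + (z : ℝ)) * (1 + 1)) ^ (k + 1) := by
      refine pow_le_pow_left₀ (by linarith) ?_ _
      nlinarith
    have h3 : (1 : ℝ) ≤ (k : ℝ) + 2 := by
      have : (0 : ℝ) ≤ k := Nat.cast_nonneg k
      linarith
    have h4 : 0 ≤ ((1 + (z : ℝ)) * (1 + 1)) ^ (k + 1) := by (clear * -; positivity)
    calc (1 + (z : ℝ)) ^ (k + 1) ≤ ((1 + (z : ℝ)) * (1 + 1)) ^ (k + 1) := h2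
      _ = 1 * ((1 + (z : ℝ)) * (1 + 1)) ^ (k + 1) := by rw [one_mul]
      _ ≤ ((k : ℝ) + 2) * ((1 + (z : ℝ)) * (1 + 1)) ^ (k + 1) :=
        mul_le_mul_of_nonneg_right h3 h4
  have hD1 : ((1 + z) ^ (k + 1) : ℕ) ≤ D := Nat.le_floor hpow
  have hD : ((1 + z) ^ k : ℕ) ≤ D :=
    (Nat.pow_le_pow_right (by omega) (by omega)).trans hD1
  have hmain := norm_sum_TT_win z k u h D α hD hDh
  have hmn1 := hmn q D a α (2 * h) hq haq hα (by (clear * -; positivity))
  have hDx : (D : ℝ) ≤ x := by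
    have : (D : ℝ) ≤ h := by exact_mod_cast hDh
    linarith only [hhx', hX2h, hDle]
  have hlog2 : Real.log (4 * q * ((D : ℝ) + 1)) ≤ 3 * L := by
    have h1 : 4 * (q : ℝ) * ((D : ℝ) + 1) ≤ (x : ℝ) ^ 3 := by
      have h2 : 4 * ((D : ℝ) + 1) ≤ x ^ 2 := by nlinarith only [hx64, hhx', hX2h, hDle]
      have h3 : (q : ℝ) * (4 * ((D : ℝ) + 1)) ≤ x * x ^ 2 :=
        mul_le_mul hqx' h2 (by (clear * -; positivity)) hx0.le
      nlinarith only [h3]
    have h4 : Real.log ((x : ℝ) ^ 3) = 3 * L := by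
      rw [Real.log_pow]
      norm_num
      rfl
    rw [← h4]
    exact Real.log_le_log (by (clear * - hq; positivity)) h1
  have hmn2 : C * (2 * (h : ℝ) / q + D + q) * Real.log (4 * q * ((D : ℝ) + 1)) ≤
      6 * C * (h / q + X2 + q) * L := by
    have h1 : 2 * (h : ℝ) / q + D + q ≤ 2 * (h / q + X2 + q) := by
      have h2 : 2 * (h : ℝ) / q = 2 * (h / q) := by ring
      rw [h2]
      linarith only [hq0, hX20, hDle]
    have h0 : 0 ≤ 2 * (h : ℝ) / q + D + q := by (clear * - hq; positivity)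
    have h3 : C * (2 * (h : ℝ) / q + D + q) * Real.log (4 * q * ((D : ℝ) + 1)) ≤
        C * (2 * (h : ℝ) / q + D + q) * (3 * L) :=
      mul_le_mul_of_nonneg_left hlog2 (by (clear * - hC hq; positivity))
    have h4 : C * (2 * (h : ℝ) / q + D + q) * (3 * L) ≤
        C * (2 * (h / q + X2 + q)) * (3 * L) := by
      refine mul_le_mul_of_nonneg_right (mul_le_mul_of_nonneg_left h1 hC.le) (by (clear * - hL; positivity))
    refine h3.trans (h4.trans (le_of_eq (by ring)))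
  have herr := sum_EE_win z (k + 1) u h (hD1.trans hDh)
  have herr2 : 2 * (h : ℝ) * ((∑ p ∈ Nat.primesLE z, 1 / (p : ℝ)) ^ (k + 1) / ((k + 1).factorial : ℝ)) ≤
      2 * h * (1 / L ^ (B + 2)) := by
    have h1 : (∑ p ∈ Nat.primesLE z, 1 / (p : ℝ)) ^ (k + 1) / ((k + 1).factorial : ℝ) ≤
        1 / L ^ (B + 2) := by
      have := hk1
      rw [Nat.cast_one, one_mul] at this
      exact this
    exact mul_le_mul_of_nonneg_left h1 (by (clear * -; positivity))
  -- assemble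
  have hsplit : ‖∑ n ∈ Ioc u (u + h), (ic z n : ℂ) * ex (n * α)‖ ≤
      6 * C * (h / q + X2 + q) * L + 2 * h * (1 / L ^ (B + 2)) := by
    have e1 : ∑ n ∈ Ioc u (u + h), (ic z n : ℂ) * ex (n * α) =
        ∑ n ∈ Ioc u (u + h), (TT (Nat.primesLE z) (dvi n) k : ℂ) * ex (n * α) +
        ∑ n ∈ Ioc u (u + h), ((ic z n - TT (Nat.primesLE z) (dvi n) k : ℝ) : ℂ) * ex (n * α) := by
      rw [← Finset.sum_add_distrib]
      refine Finset.sum_congr rfl (fun n _ => ?_)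
      push_cast
      ring
    have e2 : ‖∑ n ∈ Ioc u (u + h), ((ic z n - TT (Nat.primesLE z) (dvi n) k : ℝ) : ℂ) * ex (n * α)‖ ≤
        ∑ n ∈ Ioc u (u + h), EE (Nat.primesLE z) (dvi n) (k + 1) := by
      refine (norm_sum_le _ _).trans (Finset.sum_le_sum (fun n _ => ?_))
      rw [norm_mul, norm_ex, mul_one, Complex.norm_real, Real.norm_eq_abs]
      exact ic_sub_TT_abs z n k hk
    rw [e1]
    refine (norm_add_le _ _).trans (add_le_add ?_ ?_)
    · exact hmain.trans (hmn1.trans hmn2)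
    · exact e2.trans (herr.trans herr2)
  have hes : ∑ n ∈ Ioc u (u + h), (nuz z n : ℂ) * ex (n * α) =
      ((DZ z)⁻¹ : ℝ) * ∑ n ∈ Ioc u (u + h), (ic z n : ℂ) * ex (n * α) := by
    unfold nuz
    rw [Finset.mul_sum]
    refine Finset.sum_congr rfl (fun n _ => ?_)
    push_cast
    ring
  have hDZ0 : 0 ≤ (DZ z)⁻¹ := inv_nonneg.mpr (DZ_pos z).le
  rw [hes, norm_mul, Complex.norm_real, Real.norm_eq_abs, abs_of_nonneg hDZ0]
  have hR0 : 0 ≤ 6 * C * (h / q + X2 + q) * L + 2 * h * (1 / L ^ (B + 2)) := by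
    (clear * - hC hx hq hL; positivity)
  have h1 : (DZ z)⁻¹ * ‖∑ n ∈ Ioc u (u + h), (ic z n : ℂ) * ex (n * α)‖ ≤
      L * (6 * C * (h / q + X2 + q) * L + 2 * h * (1 / L ^ (B + 2))) :=
    mul_le_mul hDZ hsplit (norm_nonneg _) hL0.le
  refine h1.trans ?_
  rw [mul_add]
  refine add_le_add ?_ ?_
  · have h2 : 0 ≤ 6 * C * (h / q + X2 + q) := by (clear * - hC hx hq; positivity)
    have h3 : L * L ≤ L ^ 3 := by
      have : L ^ 3 = L * L * L := by ring
      rw [this]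
      nlinarith only [hL, hL0, mul_pos hL0 hL0]
    calc L * (6 * C * (h / q + X2 + q) * L) =
          6 * C * (h / q + X2 + q) * (L * L) := by ring
      _ ≤ 6 * C * (h / q + X2 + q) * L ^ 3 := mul_le_mul_of_nonneg_left h3 h2
  · have h4 : 0 < L ^ B := by (clear * - hL; positivity)
    have h5 : L * (2 * h * (1 / L ^ (B + 2))) = h / L ^ B * (2 / L) := by
      rw [pow_add]
      field_simp
    rw [h5]
    have h6 : 2 / L ≤ 1 := by rw [div_le_one hL0]; exact hL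
    have h7 : 0 ≤ (h : ℝ) / L ^ B := by (clear * - hL; positivity)
    calc (h : ℝ) / L ^ B * (2 / L) ≤ h / L ^ B * 1 := mul_le_mul_of_nonneg_left h6 h7
      _ = h / L ^ B := by rw [mul_one]

end Pool.Agent.VL
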