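import Pool.Agent.Lib.VL.LsDual

/-!
# Type I sums in short windows, mean square over the windows, by the large sieve

PROOF SKETCH. For `m ≥ 1`: `[m | n] = (1/m) sum_(h < m) ex (n h/m)`. Sorting the fractions `h/m` in lowest terms `b/d`, `0 ≤ b < d`, `(b, d) = 1` (`d = 1`: `b = 0`):
`sum_(m | n, m ≤ M) c m = sum_(d ≤ M) sum_(b < d, (b,d) = 1) γ d ex (n b/d)`, `γ d = sum_(m ≤ M, d | m) c m/m`, `|γ d| ≤ (K/d) (1 + log M)`. So the window sum at `u` is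
`sum_(b/d) γ d κ(b/d + α) ex (u (b/d + α))`, `κ(θ) = sum_(1 ≤ j ≤ H) ex (j θ)`, `|κ θ| ≤ mn H θ` (`geom`).
Dyadic classes `V ≤ d < 2V`, `V = 2^i ≤ M`, at most `1 + 2 log M` classes; Cauchy-Schwarz over the classes. One class: the fractions are `1/(4V^2)`-spaced modulo 1 (`|b/d - b'/d' - k| ≥ 1/(d d')` if not zero; zero only if the
fractions agree), so `ls_dual` (`X = x + 1`, `δ = 1/(4V^2)`) gives `≤ C (x + 1 + 4V^2) (K (1 + log M)/V)^2 sum_(b/d) mn H (b/d + α)^2`, and by `spaced_sum` the last sum is `≤ C (G + 4 V^2 H)`, `G` the maximum of the terms. Always `G ≤ H^2`.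
Claim: `G ≤ C V^2 (H^2/q^2 + q^2 + H^2/R^2)`. If `4V > R`: `G ≤ H^2 ≤ 16 V^2 H^2/R^2`. If `4 V ≤ R` and `b/d + a0/q` is not an integer: `nrm (b/d + a0/q) ≥ 1/(d q) ≥ 1/(2 V q)`, so
`nrm (b/d + α) ≥ 1/(2Vq) - 1/(qR) ≥ 1/(4 V q)` and `mn ≤ 2 V q`. If `b/d + a0/q` is an integer, then `d = q` (both in lowest terms), `q < 2V`, `G ≤ H^2 ≤ 4 V^2 H^2/q^2`.
So one class is `≤ C K^2 (1 + log M)^2 ((x + 1) (H^2/q^2 + q^2 + H^2/R^2 + H) + V^2 · (G/V^2 + H))` and `V^2 (G/V^2 + H) ≤ H^2 + V^2 H ≤ x H + M^2 H`.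
-/

set_option autoImplicit false

open Finset

namespace Pool.Agent.VL

open Pool.Agent.HLT

namespace TOWAux

/-- the reduced fractions with denominator at most `M` -/
def PP (M : ℕ) : Finset (ℕ × ℕ) :=
  ((Icc 1 M) ×ˢ (range M)).filter (fun p => p.2 < p.1 ∧ Nat.Coprime p.2 p.1)

lemma mem_PP {M : ℕ} {p : ℕ × ℕ} :
    p ∈ PP M ↔ 1 ≤ p.1 ∧ p.1 ≤ M ∧ p.2 < p.1 ∧ Nat.Coprime p.2 p.1 := by
  unfold PP
  simp only [Finset.mem_filter, Finset.mem_product, Finset.mem_Icc, Finset.mem_range]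
  constructor
  · rintro ⟨⟨⟨h1, h2⟩, _⟩, h3, h4⟩
    exact ⟨h1, h2, h3, h4⟩
  · rintro ⟨h1, h2, h3, h4⟩
    exact ⟨⟨⟨h1, h2⟩, by omega⟩, h3, h4⟩

/-- the complete sum -/
lemma sum_ex {m : ℕ} (hm : 1 ≤ m) (n : ℕ) :
    ∑ h ∈ range m, ex (n * ((h : ℝ) / m)) = if m ∣ n then (m : ℂ) else 0 := by
  have hm0 : (m : ℝ) ≠ 0 := by
    have : m ≠ 0 := by omega
    exact_mod_cast this
  have h1 : ∀ h : ℕ, ex (n * ((h : ℝ) / m)) = ex ((n : ℝ) / m) ^ h := by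
    intro h
    rw [← ex_nat_mul]
    congr 1
    ring
  simp only [h1]
  split_ifs with hd
  · obtain ⟨k, rfl⟩ := hd
    have h2 : ex (((m * k : ℕ) : ℝ) / m) = 1 := by
      have : (((m * k : ℕ) : ℝ) / m) = (k : ℕ) := by
        push_cast
        field_simp
      rw [this, ex_natCast]
    rw [h2]
    simp
  · have h2 : ex ((n : ℝ) / m) ≠ 1 := by
      intro h
      apply hd
      unfold ex at h
      rw [Complex.exp_eq_one_iff] at h
      obtain ⟨k, hk⟩ := h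
      have hpi : (2 * Real.pi * Complex.I : ℂ) ≠ 0 := by
        simp [Real.pi_ne_zero]
      have h3 : (((n : ℝ) / m : ℝ) : ℂ) = k := by
        have h4 : (2 * Real.pi * Complex.I : ℂ) * (((n : ℝ) / m : ℝ) : ℂ) =
            (2 * Real.pi * Complex.I : ℂ) * k := by
          rw [mul_comm (2 * Real.pi * Complex.I : ℂ) (k : ℂ), ← hk]
          ring
        exact mul_left_cancel₀ hpi h4
      have h5 : ((n : ℝ) / m : ℝ) = k := by exact_mod_cast h3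
      rw [div_eq_iff hm0] at h5
      have h6 : (n : ℤ) = k * m := by exact_mod_cast h5
      have h7 : (m : ℤ) ∣ n := ⟨k, by rw [h6]; ring⟩
      exact_mod_cast h7
    have h3 : ex ((n : ℝ) / m) ^ m = 1 := by
      rw [← ex_nat_mul]
      have : (m : ℝ) * ((n : ℝ) / m) = (n : ℕ) := by field_simp
      rw [this, ex_natCast]
    have h4 := geom_sum_mul (ex ((n : ℝ) / m)) m
    rw [h3, sub_self] at h4
    rcases mul_eq_zero.1 h4 with h5 | h5
    · exact h5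
    · exact absurd (sub_eq_zero.1 h5) h2

/-- sorting fractions in lowest terms -/
lemma sum_reduced {M m : ℕ} (hm : 1 ≤ m) (hmM : m ≤ M) (f : ℝ → ℂ) :
    ∑ h ∈ range m, f ((h : ℝ) / m) =
      ∑ p ∈ (PP M).filter (fun p => p.1 ∣ m), f ((p.2 : ℝ) / p.1) := by
  refine Finset.sum_bij' (fun h _ => (m / Nat.gcd h m, h / Nat.gcd h m))
    (fun p _ => p.2 * (m / p.1)) ?_ ?_ ?_ ?_ ?_
  · intro h hh
    have hlt := Finset.mem_range.1 hh
    have hg : 0 < Nat.gcd h m := Nat.gcd_pos_of_pos_right _ (by omega)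
    have hgm : Nat.gcd h m ∣ m := Nat.gcd_dvd_right _ _
    have hgh : Nat.gcd h m ∣ h := Nat.gcd_dvd_left _ _
    rw [Finset.mem_filter, mem_PP]
    refine ⟨⟨?_, ?_, ?_, ?_⟩, ?_⟩
    · exact Nat.div_pos (Nat.le_of_dvd (by omega) hgm) hg
    · exact (Nat.div_le_self _ _).trans hmM
    · exact Nat.div_lt_div_of_lt_of_dvd hgm hlt
    · exact Nat.coprime_div_gcd_div_gcd hg
    · exact Nat.div_dvd_of_dvd hgm
  · intro p hp
    rw [Finset.mem_filter, mem_PP] at hp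
    obtain ⟨⟨h1, h2, h3, h4⟩, h5⟩ := hp
    obtain ⟨k, hk⟩ := h5
    rw [Finset.mem_range]
    have hk0 : 0 < k := Nat.pos_of_ne_zero fun h => by
      rw [h, mul_zero] at hk
      omega
    have e : m / p.1 = k := by
      rw [hk]
      exact Nat.mul_div_cancel_left _ (by omega)
    simp only [e]
    rw [hk]
    exact Nat.mul_lt_mul_of_pos_right h3 hk0
  · intro h hh
    have hlt := Finset.mem_range.1 hh
    have hg : 0 < Nat.gcd h m := Nat.gcd_pos_of_pos_right _ (by omega)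
    have hgm : Nat.gcd h m ∣ m := Nat.gcd_dvd_right _ _
    have hgh : Nat.gcd h m ∣ h := Nat.gcd_dvd_left _ _
    simp only
    rw [Nat.div_div_self hgm (by omega), Nat.div_mul_cancel hgh]
  · rintro ⟨d, b⟩ hp
    rw [Finset.mem_filter, mem_PP] at hp
    obtain ⟨⟨h1, h2, h3, h4⟩, h5⟩ := hp
    simp only at h1 h2 h3 h4 h5 ⊢
    obtain ⟨k, hk⟩ := h5
    have hk0 : 0 < k := Nat.pos_of_ne_zero fun h => by
      rw [h, mul_zero] at hk
      omega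
    have e : m / d = k := by
      rw [hk]
      exact Nat.mul_div_cancel_left _ (by omega)
    rw [e]
    have e2 : Nat.gcd (b * k) m = k := by
      rw [hk, Nat.gcd_mul_right, Nat.Coprime.gcd_eq_one h4, one_mul]
    rw [e2, hk, Nat.mul_div_cancel _ hk0, Nat.mul_div_cancel _ hk0]
  · intro h hh
    have hlt := Finset.mem_range.1 hh
    have hg : 0 < Nat.gcd h m := Nat.gcd_pos_of_pos_right _ (by omega)
    have hgm : Nat.gcd h m ∣ m := Nat.gcd_dvd_right _ _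
    have hgh : Nat.gcd h m ∣ h := Nat.gcd_dvd_left _ _
    simp only
    congr 1
    have hg' : ((Nat.gcd h m : ℕ) : ℝ) ≠ 0 := by exact_mod_cast hg.ne'
    rw [Nat.cast_div hgh hg', Nat.cast_div hgm hg', div_div_div_cancel_right₀ hg']

/-- coefficient of the fractions with denominator `d` -/
noncomputable def gam (M : ℕ) (c : ℕ → ℂ) (d : ℕ) : ℂ :=
  ∑ m ∈ (Icc 1 M).filter (fun m => d ∣ m), c m / m

lemma norm_gam {M : ℕ} {c : ℕ → ℂ} {K : ℝ} (hK : 0 ≤ K) (hc : ∀ m, ‖c m‖ ≤ K) {d : ℕ}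
    (hd : 1 ≤ d) (hdM : d ≤ M) : ‖gam M c d‖ ≤ K / d * (1 + Real.log M) := by
  have hd0 : (0 : ℝ) < d := by exact_mod_cast hd
  unfold gam
  have h1 : (Icc 1 M).filter (fun m => d ∣ m) = (Icc 1 (M / d)).image (fun j => d * j) := by
    ext m
    simp only [Finset.mem_filter, Finset.mem_Icc, Finset.mem_image]
    constructor
    · rintro ⟨⟨h1, h2⟩, k, rfl⟩
      refine ⟨k, ⟨?_, ?_⟩, rfl⟩
      · exact Nat.pos_of_ne_zero fun h => by
          rw [h, mul_zero] at h1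
          omega
      · rw [Nat.le_div_iff_mul_le (by omega)]
        rw [mul_comm]
        exact h2
    · rintro ⟨j, ⟨h1, h2⟩, rfl⟩
      rw [Nat.le_div_iff_mul_le (by omega)] at h2
      refine ⟨⟨Nat.mul_pos (by omega) (by omega), by rw [mul_comm]; exact h2⟩, dvd_mul_right _ _⟩
  rw [h1, Finset.sum_image (fun a _ b _ hab => Nat.eq_of_mul_eq_mul_left (by omega) hab)]
  refine (norm_sum_le _ _).trans ?_
  have h2 : ∀ j ∈ Icc 1 (M / d), ‖c (d * j) / ((d * j : ℕ) : ℂ)‖ ≤ K / d * (1 / (j : ℝ)) := by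
    intro j hj
    have hj1 : (0 : ℝ) < j := by exact_mod_cast (Finset.mem_Icc.1 hj).1
    rw [norm_div, Complex.norm_natCast]
    push_cast
    calc ‖c (d * j)‖ / ((d : ℝ) * j) ≤ K / ((d : ℝ) * j) :=
          div_le_div_of_nonneg_right (hc _) (by positivity)
      _ = K / d * (1 / (j : ℝ)) := by
          field_simp
  refine (Finset.sum_le_sum h2).trans ?_
  rw [← Finset.mul_sum]
  refine mul_le_mul_of_nonneg_left ?_ (by positivity)
  have h3 := harmonic_le_one_add_log (M / d)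
  have h4 : ((harmonic (M / d) : ℚ) : ℝ) = ∑ j ∈ Icc 1 (M / d), 1 / (j : ℝ) := by
    rw [harmonic_eq_sum_Icc]
    push_cast
    exact Finset.sum_congr rfl fun j _ => by rw [one_div]
  rw [← h4]
  refine h3.trans ?_
  have h5 : Real.log ((M / d : ℕ) : ℝ) ≤ Real.log M := by
    have h6 : 1 ≤ M / d := by
      rw [Nat.le_div_iff_mul_le (by omega)]
      omega
    refine Real.log_le_log (by exact_mod_cast h6) ?_
    exact_mod_cast Nat.div_le_self _ _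
  linarith

/-- the window sum in terms of fractions -/
lemma window (M H u : ℕ) (α : ℝ) (c : ℕ → ℂ) :
    ∑ n ∈ Ioc u (u + H), (∑ m ∈ (Icc 1 M).filter (fun m => m ∣ n), c m) * ex (n * α) =
      ∑ p ∈ PP M, gam M c p.1 * (∑ j ∈ Icc 1 H, ex (j * ((p.2 : ℝ) / p.1 + α))) *
        ex (u * ((p.2 : ℝ) / p.1 + α)) := by
  have h1 : ∀ n : ℕ, ∑ m ∈ (Icc 1 M).filter (fun m => m ∣ n), c m =
      ∑ p ∈ PP M, gam M c p.1 * ex (n * ((p.2 : ℝ) / p.1)) := by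
    intro n
    have h2 : ∀ m ∈ Icc 1 M, (if m ∣ n then c m else 0) =
        ∑ p ∈ PP M, if p.1 ∣ m then c m / m * ex (n * ((p.2 : ℝ) / p.1)) else 0 := by
      intro m hm
      have hm1 := (Finset.mem_Icc.1 hm).1
      have hm0 : (m : ℂ) ≠ 0 := by
        have : m ≠ 0 := by omega
        exact_mod_cast this
      rw [← Finset.sum_filter, ← Finset.mul_sum,
        ← sum_reduced hm1 (Finset.mem_Icc.1 hm).2 (fun t => ex (n * t)), sum_ex hm1]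
      split_ifs
      · field_simp
      · simp
    rw [Finset.sum_filter, Finset.sum_congr rfl h2, Finset.sum_comm]
    refine Finset.sum_congr rfl fun p _ => ?_
    rw [← Finset.sum_filter, ← Finset.sum_mul]
    rfl
  simp only [h1, Finset.sum_mul]
  rw [Finset.sum_comm]
  refine Finset.sum_congr rfl fun p _ => ?_
  have h3 : Ioc u (u + H) = (Icc 1 H).image (fun j => u + j) := by
    ext y
    simp only [Finset.mem_Ioc, Finset.mem_image, Finset.mem_Icc]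
    constructor
    · rintro ⟨h1, h2⟩
      exact ⟨y - u, ⟨by omega, by omega⟩, by omega⟩
    · rintro ⟨j, ⟨h1, h2⟩, rfl⟩
      omega
  rw [h3, Finset.sum_image (fun a _ b _ hab => by omega), Finset.mul_sum, Finset.sum_mul]
  refine Finset.sum_congr rfl fun j _ => ?_
  rw [mul_assoc, ← ex_add, mul_assoc, ← ex_add]
  congr 2
  push_cast
  ring

/-- spacing of reduced fractions -/
lemma spacing {V : ℕ} (hV : 1 ≤ V) {p p' : ℕ × ℕ} (h1 : 1 ≤ p.1) (h1' : 1 ≤ p'.1)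
    (h2 : p.1 < 2 * V) (h2' : p'.1 < 2 * V) (h3 : p.2 < p.1) (h3' : p'.2 < p'.1)
    (h4 : Nat.Coprime p.2 p.1) (h4' : Nat.Coprime p'.2 p'.1) (hne : p ≠ p') (α : ℝ) :
    1 / (4 * (V : ℝ) ^ 2) ≤ nrm (((p.2 : ℝ) / p.1 + α) - ((p'.2 : ℝ) / p'.1 + α)) := by
  obtain ⟨d, b⟩ := p
  obtain ⟨d', b'⟩ := p'
  simp only at h1 h1' h2 h2' h3 h3' h4 h4' ⊢
  have hd : (0 : ℝ) < d := by exact_mod_cast h1
  have hd' : (0 : ℝ) < d' := by exact_mod_cast h1'
  have hdV : (d : ℝ) ≤ 2 * V := by exact_mod_cast h2.le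
  have hdV' : (d' : ℝ) ≤ 2 * V := by exact_mod_cast h2'.le
  have hV0 : (0 : ℝ) < V := by exact_mod_cast hV
  rw [add_sub_add_right_eq_sub]
  unfold nrm
  set k : ℤ := round ((b : ℝ) / d - (b' : ℝ) / d') with hk
  set z : ℤ := b * d' - b' * d - k * (d * d') with hz
  have e : (b : ℝ) / d - (b' : ℝ) / d' - k = z / (d * d') := by
    rw [hz]
    push_cast
    field_simp
  rw [e, abs_div, abs_of_pos (by positivity : (0 : ℝ) < d * d')]
  have hz0 : z ≠ 0 := by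
    intro h0
    have h5 : (b : ℝ) / d - (b' : ℝ) / d' = k := by
      have : (b : ℝ) / d - (b' : ℝ) / d' - k = 0 := by
        rw [e, h0]
        simp
      linarith only [this]
    have h6 : 0 ≤ (b : ℝ) / d := by positivity
    have h7 : (b : ℝ) / d < 1 := by
      rw [div_lt_one hd]
      exact_mod_cast h3
    have h8 : 0 ≤ (b' : ℝ) / d' := by positivity
    have h9 : (b' : ℝ) / d' < 1 := by
      rw [div_lt_one hd']
      exact_mod_cast h3'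
    have hk0 : k = 0 := by
      have h10 : (k : ℝ) < 1 := by linarith only [h5, h7, h8]
      have h11 : (-1 : ℝ) < k := by linarith only [h5, h6, h9]
      have h12 : k < 1 := by exact_mod_cast h10
      have h13 : -1 < k := by exact_mod_cast h11
      omega
    rw [hz, hk0] at h0
    have h14 : b * d' = b' * d := by
      have : (b : ℤ) * d' = b' * d := by linarith only [h0]
      exact_mod_cast this
    have h15 : d ∣ d' := by
      have : d ∣ b * d' := ⟨b', by rw [h14]; ring⟩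
      exact (Nat.Coprime.dvd_mul_left h4.symm).1 this
    have h16 : d' ∣ d := by
      have : d' ∣ b' * d := ⟨b, by rw [← h14]; ring⟩
      exact (Nat.Coprime.dvd_mul_left h4'.symm).1 this
    have h17 : d = d' := Nat.dvd_antisymm h15 h16
    subst h17
    have h18 : b = b' := Nat.eq_of_mul_eq_mul_right (by omega) h14
    subst h18
    exact hne rfl
  have h5 : (1 : ℝ) ≤ |(z : ℝ)| := by
    have : 1 ≤ |z| := Int.one_le_abs hz0
    exact_mod_cast this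
  have h6 : (d : ℝ) * d' ≤ 4 * (V : ℝ) ^ 2 := by
    calc (d : ℝ) * d' ≤ (2 * V) * (2 * V) := mul_le_mul hdV hdV' hd'.le (by positivity)
      _ = 4 * (V : ℝ) ^ 2 := by ring
  exact div_le_div₀ (by linarith only [h5]) h5 (by positivity) h6

/-- the size of one term -/
lemma term_le {V H q R : ℕ} (hV : 1 ≤ V) (hq : 1 ≤ q) (hR : 1 ≤ R) {a0 : ℤ}
    (ha : IsCoprime a0 (q : ℤ)) {α : ℝ} (hα : |α - a0 / q| ≤ 1 / ((q : ℝ) * R)) {d b : ℕ}
    (hd : 1 ≤ d) (hdV : d < 2 * V) (hb : Nat.Coprime b d) :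
    mn H ((b : ℝ) / d + α) ^ 2 ≤
      16 * (V : ℝ) ^ 2 * ((H : ℝ) ^ 2 / q ^ 2 + q ^ 2 + (H : ℝ) ^ 2 / R ^ 2) := by
  have hV0 : (0 : ℝ) < V := by exact_mod_cast hV
  have hq0 : (0 : ℝ) < q := by exact_mod_cast hq
  have hR0 : (0 : ℝ) < R := by exact_mod_cast hR
  have hd0 : (0 : ℝ) < d := by exact_mod_cast hd
  have hH0 : (0 : ℝ) ≤ H := Nat.cast_nonneg _
  have hdV' : (d : ℝ) ≤ 2 * V := by exact_mod_cast hdV.le
  have hmn0 := mn_nonneg hH0 ((b : ℝ) / d + α)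
  have hmn : mn H ((b : ℝ) / d + α) ^ 2 ≤ (H : ℝ) ^ 2 :=
    pow_le_pow_left₀ hmn0 (mn_le_left hH0 _) 2
  have t1 : 0 ≤ (H : ℝ) ^ 2 / q ^ 2 := by positivity
  have t2 : (0 : ℝ) ≤ (q : ℝ) ^ 2 := by positivity
  have t3 : 0 ≤ (H : ℝ) ^ 2 / R ^ 2 := by positivity
  have hV2 : 0 ≤ 16 * (V : ℝ) ^ 2 := by positivity
  by_cases hRV : R < 4 * V
  · -- `4 V > R`
    have h1 : (R : ℝ) ≤ 4 * V := by exact_mod_cast hRV.le
    have h2 : (H : ℝ) ^ 2 ≤ 16 * (V : ℝ) ^ 2 * ((H : ℝ) ^ 2 / R ^ 2) := by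
      rw [← mul_div_assoc, le_div_iff₀ (by positivity)]
      have h3 : (R : ℝ) ^ 2 ≤ 16 * (V : ℝ) ^ 2 := by
        calc (R : ℝ) ^ 2 ≤ (4 * V) ^ 2 := pow_le_pow_left₀ hR0.le h1 2
          _ = 16 * (V : ℝ) ^ 2 := by ring
      calc (H : ℝ) ^ 2 * (R : ℝ) ^ 2 ≤ (H : ℝ) ^ 2 * (16 * (V : ℝ) ^ 2) :=
            mul_le_mul_of_nonneg_left h3 (by positivity)
        _ = _ := by ring
    calc mn H ((b : ℝ) / d + α) ^ 2 ≤ 16 * (V : ℝ) ^ 2 * ((H : ℝ) ^ 2 / R ^ 2) := hmn.trans h2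
      _ ≤ _ := mul_le_mul_of_nonneg_left (by linarith only [t1, t2]) hV2
  · push Not at hRV
    have hRV' : 4 * (V : ℝ) ≤ R := by exact_mod_cast hRV
    set k : ℤ := round ((b : ℝ) / d + α) with hk
    set z : ℤ := b * q + a0 * d - k * (d * q) with hz
    have e : (b : ℝ) / d + a0 / q - k = z / (d * q) := by
      rw [hz]
      push_cast
      field_simp
    by_cases hz0 : z = 0
    · -- the fraction is an integer
      have h1 : (d : ℤ) ∣ q := by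
        have h2 : (d : ℤ) ∣ b * q := ⟨k * q - a0, by linarith only [hz0]⟩
        have h3 : IsCoprime (d : ℤ) (b : ℤ) := (Nat.isCoprime_iff_coprime.2 hb).symm
        exact h3.dvd_of_dvd_mul_left h2
      have h1' : (q : ℤ) ∣ d := by
        have h2 : (q : ℤ) ∣ a0 * d := ⟨k * d - b, by linarith only [hz0]⟩
        exact ha.symm.dvd_of_dvd_mul_left h2
      have h2 : d = q := Nat.dvd_antisymm (by exact_mod_cast h1) (by exact_mod_cast h1')
      have h3 : (q : ℝ) ≤ 2 * V := by rw [← h2]; exact hdV'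
      have h4 : (H : ℝ) ^ 2 ≤ 16 * (V : ℝ) ^ 2 * ((H : ℝ) ^ 2 / q ^ 2) := by
        rw [← mul_div_assoc, le_div_iff₀ (by (clear * - hq; positivity))]
        have h5 : (q : ℝ) ^ 2 ≤ 16 * (V : ℝ) ^ 2 := by
          calc (q : ℝ) ^ 2 ≤ (4 * V) ^ 2 := pow_le_pow_left₀ hq0.le (by linarith only [hV0, h3]) 2
            _ = 16 * (V : ℝ) ^ 2 := by ring
        calc (H : ℝ) ^ 2 * (q : ℝ) ^ 2 ≤ (H : ℝ) ^ 2 * (16 * (V : ℝ) ^ 2) :=
              mul_le_mul_of_nonneg_left h5 (by (clear * -; positivity))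
          _ = _ := by ring
      calc mn H ((b : ℝ) / d + α) ^ 2 ≤ 16 * (V : ℝ) ^ 2 * ((H : ℝ) ^ 2 / q ^ 2) := hmn.trans h4
        _ ≤ _ := mul_le_mul_of_nonneg_left (by linarith only [t2, t3]) hV2
    · -- the fraction is far from the integers
      have h5 : (1 : ℝ) ≤ |(z : ℝ)| := by
        have : 1 ≤ |z| := Int.one_le_abs hz0
        exact_mod_cast this
      have h6 : 1 / (2 * V * q) ≤ |(b : ℝ) / d + a0 / q - k| := by
        rw [e, abs_div, abs_of_pos (by (clear * - hq hd; positivity) : (0 : ℝ) < d * q)]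
        refine div_le_div₀ (by linarith only [h5]) h5 (by (clear * - hq hd; positivity)) ?_
        exact mul_le_mul_of_nonneg_right hdV' hq0.le
      have h7 : |α - a0 / q| ≤ 1 / (4 * V * q) := by
        refine hα.trans ?_
        refine div_le_div_of_nonneg_left zero_le_one (by (clear * - hV hq; positivity)) ?_
        calc 4 * (V : ℝ) * q ≤ R * q := mul_le_mul_of_nonneg_right hRV' hq0.le
          _ = q * R := mul_comm _ _
      have h8 : 1 / (2 * V * q) = 1 / (4 * V * q) + 1 / (4 * (V : ℝ) * q) := by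
        field_simp
        norm_num
      have h9 : 1 / (4 * V * q) ≤ nrm ((b : ℝ) / d + α) := by
        unfold nrm
        rw [← hk]
        have h10 : (b : ℝ) / d + a0 / q - k = ((b : ℝ) / d + α - k) - (α - a0 / q) := by ring
        have h11 : |(b : ℝ) / d + a0 / q - k| ≤ |(b : ℝ) / d + α - k| + |α - a0 / q| := by
          rw [h10]
          exact abs_sub _ _
        linarith only [h6, h7, h8, h11]
      have h12 : 0 < nrm ((b : ℝ) / d + α) := lt_of_lt_of_le (by (clear * - hV hq; positivity)) h9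
      have h13 : mn H ((b : ℝ) / d + α) ≤ 2 * V * q := by
        refine (mn_le_right hH0 h12).trans ?_
        calc 1 / (2 * nrm ((b : ℝ) / d + α)) ≤ 1 / (2 * (1 / (4 * V * q))) :=
              div_le_div_of_nonneg_left zero_le_one (by (clear * - hV hq; positivity)) (by linarith only [h9])
          _ = 2 * V * q := by
              field_simp
              norm_num
      calc mn H ((b : ℝ) / d + α) ^ 2 ≤ (2 * V * q) ^ 2 := pow_le_pow_left₀ hmn0 h13 2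
        _ = 4 * (V : ℝ) ^ 2 * (q : ℝ) ^ 2 := by ring
        _ ≤ 16 * (V : ℝ) ^ 2 * (q : ℝ) ^ 2 := by
            refine mul_le_mul_of_nonneg_right ?_ t2
            have : 0 ≤ (V : ℝ) ^ 2 := by (clear * - hV; positivity)
            linarith only [hV2]
        _ ≤ _ := mul_le_mul_of_nonneg_left (by linarith only [t1, t3]) hV2

/-- the dyadic classes -/
def PV (M i : ℕ) : Finset (ℕ × ℕ) := (PP M).filter (fun p => Nat.log 2 p.1 = i)

/-- one class -/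
lemma class_bound {C₁ C₂ : ℝ} (hC₁ : 1 ≤ C₁) (hC₂ : 1 ≤ C₂)
    (hsp : ∀ {ι : Type} (s : Finset ι) (β : ι → ℝ) (δ H G : ℝ), 0 < δ → δ ≤ 1 → 1 ≤ H →
      (∀ i ∈ s, ∀ j ∈ s, i ≠ j → δ ≤ nrm (β i - β j)) → 0 ≤ G → (∀ i ∈ s, mn H (β i) ^ 2 ≤ G) →
      ∑ i ∈ s, mn H (β i) ^ 2 ≤ C₂ * (G + H / δ))
    (hls : ∀ {ι : Type} (s : Finset ι) (β : ι → ℝ) (c : ι → ℂ) (δ : ℝ) (X : ℕ), 0 < δ → δ ≤ 1 →
      (∀ i ∈ s, ∀ j ∈ s, i ≠ j → δ ≤ nrm (β i - β j)) →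
      ∑ y ∈ range X, ‖∑ i ∈ s, c i * ex (y * β i)‖ ^ 2 ≤ C₁ * (X + 1 / δ) * ∑ i ∈ s, ‖c i‖ ^ 2)
    {M x H q R : ℕ} {a0 : ℤ} {α : ℝ} {c : ℕ → ℂ} {K : ℝ} (hM : 1 ≤ M) (hH : 1 ≤ H) (hHx : H ≤ x)
    (hq : 1 ≤ q) (hR : 1 ≤ R) (ha : IsCoprime a0 (q : ℤ))
    (hα : |α - a0 / q| ≤ 1 / ((q : ℝ) * R)) (hK : 0 ≤ K) (hc : ∀ m, ‖c m‖ ≤ K) (i : ℕ)
    (hi : i ≤ Nat.log 2 M) :
    ∑ u ∈ range (x + 1), ‖∑ p ∈ PV M i, gam M c p.1 *
      (∑ j ∈ Icc 1 H, ex (j * ((p.2 : ℝ) / p.1 + α))) * ex (u * ((p.2 : ℝ) / p.1 + α))‖ ^ 2 ≤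
      32 * (C₁ * C₂) * (K ^ 2 * (1 + Real.log M) ^ 2 *
        (x * ((H : ℝ) ^ 2 / q ^ 2 + q ^ 2 + H + (H : ℝ) ^ 2 / R ^ 2) + (M : ℝ) ^ 2 * H)) := by
  set V : ℕ := 2 ^ i with hV
  have hV1 : 1 ≤ V := Nat.one_le_two_pow
  have hVM : V ≤ M := by
    refine (Nat.pow_le_pow_right (by norm_num) hi).trans ?_
    exact Nat.pow_log_le_self 2 (by omega)
  have hVr : (1 : ℝ) ≤ V := by exact_mod_cast hV1
  have hV0 : (0 : ℝ) < V := by linarith only [hVr]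
  have hVMr : (V : ℝ) ≤ M := by exact_mod_cast hVM
  have hMr : (1 : ℝ) ≤ M := by exact_mod_cast hM
  have hHr : (1 : ℝ) ≤ H := by exact_mod_cast hH
  have hH0 : (0 : ℝ) ≤ H := by linarith only [hHr]
  have hxr : (H : ℝ) ≤ x := by exact_mod_cast hHx
  have hq0 : (0 : ℝ) < q := by exact_mod_cast hq
  have hR0 : (0 : ℝ) < R := by exact_mod_cast hR
  have hlog : 0 ≤ Real.log M := Real.log_nonneg hMr
  have hmem : ∀ p ∈ PV M i, 1 ≤ p.1 ∧ p.1 ≤ M ∧ p.2 < p.1 ∧ Nat.Coprime p.2 p.1 ∧ V ≤ p.1 ∧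
      p.1 < 2 * V := by
    intro p hp
    unfold PV at hp
    rw [Finset.mem_filter, mem_PP] at hp
    obtain ⟨⟨h1, h2, h3, h4⟩, h5⟩ := hp
    refine ⟨h1, h2, h3, h4, ?_, ?_⟩
    · rw [hV, ← h5]
      exact Nat.pow_log_le_self 2 (by omega)
    · have h6 := Nat.lt_pow_succ_log_self (b := 2) (by norm_num) p.1
      rw [h5, pow_succ] at h6
      rw [hV]
      omega
  set β : ℕ × ℕ → ℝ := fun p => (p.2 : ℝ) / p.1 + α with hβ
  set w : ℕ × ℕ → ℂ := fun p => gam M c p.1 * (∑ j ∈ Icc 1 H, ex (j * β p)) with hw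
  set δ : ℝ := 1 / (4 * (V : ℝ) ^ 2) with hδ
  have hδ0 : 0 < δ := by (clear * -; positivity)
  have hδ1 : δ ≤ 1 := by
    rw [hδ, div_le_one (by (clear * -; positivity))]
    nlinarith only [hVr]
  have hspace : ∀ p ∈ PV M i, ∀ p' ∈ PV M i, p ≠ p' → δ ≤ nrm (β p - β p') := by
    intro p hp p' hp' hne
    obtain ⟨h1, h2, h3, h4, h5, h6⟩ := hmem p hp
    obtain ⟨h1', h2', h3', h4', h5', h6'⟩ := hmem p' hp'
    exact spacing hV1 h1 h1' h6 h6' h3 h3' h4 h4' hne α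
  set Z : ℝ := (H : ℝ) ^ 2 / q ^ 2 + q ^ 2 + (H : ℝ) ^ 2 / R ^ 2 with hZ
  have hZ0 : 0 ≤ Z := by (clear * - hH hq hR; positivity)
  set G : ℝ := min ((H : ℝ) ^ 2) (16 * (V : ℝ) ^ 2 * Z) with hG
  have hG0 : 0 ≤ G := le_min (by (clear * - hH; positivity)) (by (clear * - hH hq hR; positivity))
  have hG1 : G ≤ (H : ℝ) ^ 2 := min_le_left _ _
  have hG2 : G ≤ 16 * (V : ℝ) ^ 2 * Z := min_le_right _ _
  have hterm : ∀ p ∈ PV M i, mn H (β p) ^ 2 ≤ G := by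
    intro p hp
    obtain ⟨h1, h2, h3, h4, h5, h6⟩ := hmem p hp
    refine le_min ?_ ?_
    · exact pow_le_pow_left₀ (mn_nonneg hH0 _) (mn_le_left hH0 _) 2
    · exact term_le hV1 hq hR ha hα h1 h6 h4
  have h1 := hls (PV M i) β w δ (x + 1) hδ0 hδ1 hspace
  have h2 := hsp (PV M i) β δ H G hδ0 hδ1 hHr hspace hG0 hterm
  have hwn : ∀ p ∈ PV M i, ‖w p‖ ^ 2 ≤ (K / V * (1 + Real.log M)) ^ 2 * mn H (β p) ^ 2 := by
    intro p hp
    obtain ⟨h1, h2, h3, h4, h5, h6⟩ := hmem p hp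
    rw [← mul_pow]
    refine pow_le_pow_left₀ (norm_nonneg _) ?_ 2
    rw [hw]
    simp only
    rw [norm_mul]
    refine mul_le_mul ?_ (geom H (β p)) (norm_nonneg _) (by (clear * - hK; positivity))
    refine (norm_gam hK hc h1 h2).trans ?_
    refine mul_le_mul_of_nonneg_right ?_ (by linarith only [hlog])
    exact div_le_div_of_nonneg_left hK hV0 (by exact_mod_cast h5)
  have h3 : ∑ p ∈ PV M i, ‖w p‖ ^ 2 ≤
      (K / V * (1 + Real.log M)) ^ 2 * (C₂ * (G + H / δ)) := by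
    refine (Finset.sum_le_sum hwn).trans ?_
    rw [← Finset.mul_sum]
    exact mul_le_mul_of_nonneg_left h2 (by (clear * -; positivity))
  have e1 : 1 / δ = 4 * (V : ℝ) ^ 2 := by rw [hδ, one_div_one_div]
  have e2 : (H : ℝ) / δ = 4 * (V : ℝ) ^ 2 * H := by
    rw [div_eq_mul_one_div, e1]
    ring
  rw [e1] at h1
  rw [e2] at h3
  refine h1.trans ?_
  have h4 : C₁ * (((x + 1 : ℕ) : ℝ) + 4 * (V : ℝ) ^ 2) * ∑ p ∈ PV M i, ‖w p‖ ^ 2 ≤
      C₁ * (((x + 1 : ℕ) : ℝ) + 4 * (V : ℝ) ^ 2) *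
        ((K / V * (1 + Real.log M)) ^ 2 * (C₂ * (G + 4 * (V : ℝ) ^ 2 * H))) := by
    refine mul_le_mul_of_nonneg_left h3 ?_
    have : (0 : ℝ) ≤ ((x + 1 : ℕ) : ℝ) := Nat.cast_nonneg _
    have : 0 ≤ 4 * (V : ℝ) ^ 2 := by (clear * -; positivity)
    exact mul_nonneg (by linarith only [hC₁]) (by linarith only [this])
  refine h4.trans ?_
  have e3 : C₁ * (((x + 1 : ℕ) : ℝ) + 4 * (V : ℝ) ^ 2) *
        ((K / V * (1 + Real.log M)) ^ 2 * (C₂ * (G + 4 * (V : ℝ) ^ 2 * H))) =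
      (C₁ * C₂) * (K ^ 2 * (1 + Real.log M) ^ 2 *
        ((((x + 1 : ℕ) : ℝ) + 4 * (V : ℝ) ^ 2) * ((G + 4 * (V : ℝ) ^ 2 * H) / (V : ℝ) ^ 2))) := by
    field_simp
  rw [e3]
  have hCC : 0 ≤ C₁ * C₂ := mul_nonneg (by linarith only [hC₁]) (by linarith only [hC₂])
  have e4 : 32 * (C₁ * C₂) * (K ^ 2 * (1 + Real.log M) ^ 2 *
        (x * ((H : ℝ) ^ 2 / q ^ 2 + q ^ 2 + H + (H : ℝ) ^ 2 / R ^ 2) + (M : ℝ) ^ 2 * H)) =
      (C₁ * C₂) * (K ^ 2 * (1 + Real.log M) ^ 2 *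
        (32 * (x * (Z + H) + (M : ℝ) ^ 2 * H))) := by
    rw [hZ]
    ring
  rw [e4]
  refine mul_le_mul_of_nonneg_left (mul_le_mul_of_nonneg_left ?_ (by (clear * -; positivity))) hCC
  -- the numerical inequality
  have f1 : (G + 4 * (V : ℝ) ^ 2 * H) / (V : ℝ) ^ 2 ≤ 16 * Z + 4 * H := by
    rw [div_le_iff₀ (by (clear * -; positivity))]
    calc G + 4 * (V : ℝ) ^ 2 * H ≤ 16 * (V : ℝ) ^ 2 * Z + 4 * (V : ℝ) ^ 2 * H := by linarith only [hG2]
      _ = (16 * Z + 4 * H) * (V : ℝ) ^ 2 := by ring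
  have f2 : 4 * (V : ℝ) ^ 2 * ((G + 4 * (V : ℝ) ^ 2 * H) / (V : ℝ) ^ 2) =
      4 * G + 16 * (V : ℝ) ^ 2 * H := by
    field_simp
    ring
  have f3 : ((x + 1 : ℕ) : ℝ) ≤ 2 * x := by
    push_cast
    linarith only [hHr, hxr]
  have f4 : (V : ℝ) ^ 2 ≤ (M : ℝ) ^ 2 := pow_le_pow_left₀ hV0.le hVMr 2
  have f5 : (V : ℝ) ^ 2 * H ≤ (M : ℝ) ^ 2 * H := mul_le_mul_of_nonneg_right f4 hH0
  have f6 : (H : ℝ) ^ 2 ≤ x * H := by
    rw [sq]
    exact mul_le_mul_of_nonneg_right hxr hH0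
  have f7 : 0 ≤ (x : ℝ) * Z := mul_nonneg (Nat.cast_nonneg _) hZ0
  have f8 : 0 ≤ (x : ℝ) * H := mul_nonneg (Nat.cast_nonneg _) hH0
  have f9 : 0 ≤ (M : ℝ) ^ 2 * H := by (clear * - hM hH; positivity)
  have f10 : 0 ≤ 16 * Z + 4 * (H : ℝ) := by (clear * - hH hq hR; positivity)
  calc (((x + 1 : ℕ) : ℝ) + 4 * (V : ℝ) ^ 2) * ((G + 4 * (V : ℝ) ^ 2 * H) / (V : ℝ) ^ 2) =
      ((x + 1 : ℕ) : ℝ) * ((G + 4 * (V : ℝ) ^ 2 * H) / (V : ℝ) ^ 2) +
        4 * (V : ℝ) ^ 2 * ((G + 4 * (V : ℝ) ^ 2 * H) / (V : ℝ) ^ 2) := by ring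
    _ ≤ (2 * x) * (16 * Z + 4 * H) + (4 * G + 16 * (V : ℝ) ^ 2 * H) := by
        rw [f2]
        refine add_le_add (mul_le_mul f3 f1 ?_ ?_) le_rfl
        · exact div_nonneg (by (clear * - hH hq hR; positivity)) (by (clear * -; positivity))
        · (clear * -; positivity)
    _ ≤ 32 * (x * (Z + H) + (M : ℝ) ^ 2 * H) := by
        have f11 : (2 * (x : ℝ)) * (16 * Z + 4 * H) = 32 * (x * Z) + 8 * (x * H) := by ring
        have f12 : 32 * (x * (Z + H) + (M : ℝ) ^ 2 * H) =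
          32 * (x * Z) + 32 * (x * H) + 32 * ((M : ℝ) ^ 2 * H) := by ring
        rw [f11, f12]
        have f13 : 16 * (V : ℝ) ^ 2 * H = 16 * ((V : ℝ) ^ 2 * H) := by ring
        rw [f13]
        linarith only [hG0, hG1, f5, f6, f9]

end TOWAux

open TOWAux

theorem type_one_win : ∃ C : ℝ, 1 ≤ C ∧ ∀ (M x H q R : ℕ) (a0 : ℤ) (α : ℝ) (c : ℕ → ℂ) (K : ℝ), 1 ≤ M → 1 ≤ H → H ≤ x →
    1 ≤ q → 1 ≤ R → IsCoprime a0 (q : ℤ) → |α - a0 / q| ≤ 1 / ((q : ℝ) * R) → 0 ≤ K → (∀ m, ‖c m‖ ≤ K) →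
    ∑ u ∈ range (x + 1), ‖∑ n ∈ Ioc u (u + H), (∑ m ∈ (Icc 1 M).filter (fun m => m ∣ n), c m) * ex (n * α)‖ ^ 2 ≤
      C * K ^ 2 * (1 + Real.log M) ^ 4 *
        (x * ((H : ℝ) ^ 2 / q ^ 2 + q ^ 2 + H + (H : ℝ) ^ 2 / R ^ 2) + (M : ℝ) ^ 2 * H) := by
  obtain ⟨C₂, hC₂, hsp⟩ := spaced_sum
  obtain ⟨C₁, hC₁, hls⟩ := ls_dual
  have hCC : 1 ≤ C₁ * C₂ := one_le_mul_of_one_le_of_one_le hC₁ hC₂
  refine ⟨128 * (C₁ * C₂), by linarith, ?_⟩
  intro M x H q R a0 α c K hM hH hHx hq hR ha hα hK hc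
  have hMr : (1 : ℝ) ≤ M := by exact_mod_cast hM
  have hlog : 0 ≤ Real.log M := Real.log_nonneg hMr
  set I : ℕ := Nat.log 2 M + 1 with hI
  have hIr : (I : ℝ) ≤ 2 * (1 + Real.log M) := by
    have h1 : ((Nat.log 2 M : ℕ) : ℝ) * Real.log 2 ≤ Real.log M := by
      rw [← Real.log_pow]
      refine Real.log_le_log (by positivity) ?_
      exact_mod_cast Nat.pow_log_le_self 2 (by omega : M ≠ 0)
    have h2 := Real.log_two_gt_d9
    have h3 : (0 : ℝ) ≤ ((Nat.log 2 M : ℕ) : ℝ) := Nat.cast_nonneg _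
    rw [hI]
    push_cast
    nlinarith only [hlog, h1, h2]
  set T : ℝ := x * ((H : ℝ) ^ 2 / q ^ 2 + q ^ 2 + H + (H : ℝ) ^ 2 / R ^ 2) + (M : ℝ) ^ 2 * H with hT
  have hT0 : 0 ≤ T := by positivity
  have hpt : ∀ u : ℕ, ‖∑ n ∈ Ioc u (u + H), (∑ m ∈ (Icc 1 M).filter (fun m => m ∣ n), c m) *
      ex (n * α)‖ ^ 2 ≤ I * ∑ i ∈ range I, ‖∑ p ∈ PV M i, gam M c p.1 *
      (∑ j ∈ Icc 1 H, ex (j * ((p.2 : ℝ) / p.1 + α))) * ex (u * ((p.2 : ℝ) / p.1 + α))‖ ^ 2 := by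
    intro u
    rw [window, ← Finset.sum_fiberwise_of_maps_to (s := PP M) (t := range I)
      (g := fun p => Nat.log 2 p.1) (fun p hp => by
        rw [Finset.mem_range, hI, Nat.lt_succ_iff]
        exact Nat.log_mono_right (mem_PP.1 hp).2.1)]
    have h1 : ‖∑ i ∈ range I, ∑ p ∈ PP M with Nat.log 2 p.1 = i, gam M c p.1 *
        (∑ j ∈ Icc 1 H, ex (j * ((p.2 : ℝ) / p.1 + α))) * ex (u * ((p.2 : ℝ) / p.1 + α))‖ ≤
        ∑ i ∈ range I, ‖∑ p ∈ PV M i, gam M c p.1 *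
        (∑ j ∈ Icc 1 H, ex (j * ((p.2 : ℝ) / p.1 + α))) * ex (u * ((p.2 : ℝ) / p.1 + α))‖ :=
      norm_sum_le _ _
    refine (pow_le_pow_left₀ (norm_nonneg _) h1 2).trans ?_
    have h2 := sq_sum_le_card_mul_sum_sq (s := range I) (f := fun i => ‖∑ p ∈ PV M i, gam M c p.1 *
      (∑ j ∈ Icc 1 H, ex (j * ((p.2 : ℝ) / p.1 + α))) * ex (u * ((p.2 : ℝ) / p.1 + α))‖)
    rw [card_range] at h2
    exact h2
  refine (Finset.sum_le_sum fun u _ => hpt u).trans ?_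
  rw [← Finset.mul_sum, Finset.sum_comm]
  have hcl : ∑ i ∈ range I, ∑ u ∈ range (x + 1), ‖∑ p ∈ PV M i, gam M c p.1 *
      (∑ j ∈ Icc 1 H, ex (j * ((p.2 : ℝ) / p.1 + α))) * ex (u * ((p.2 : ℝ) / p.1 + α))‖ ^ 2 ≤
      ∑ _i ∈ range I, 32 * (C₁ * C₂) * (K ^ 2 * (1 + Real.log M) ^ 2 * T) := by
    refine Finset.sum_le_sum fun i hi => ?_
    exact class_bound hC₁ hC₂ hsp hls hM hH hHx hq hR ha hα hK hc i
      (Nat.lt_succ_iff.1 (Finset.mem_range.1 hi))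
  rw [Finset.sum_const, card_range, nsmul_eq_mul] at hcl
  have hI0 : (0 : ℝ) ≤ I := Nat.cast_nonneg _
  have hW0 : 0 ≤ 32 * (C₁ * C₂) * (K ^ 2 * (1 + Real.log M) ^ 2 * T) := by positivity
  calc (I : ℝ) * _ ≤ I * (I * (32 * (C₁ * C₂) * (K ^ 2 * (1 + Real.log M) ^ 2 * T))) :=
        mul_le_mul_of_nonneg_left hcl hI0
    _ = (I * I) * (32 * (C₁ * C₂) * (K ^ 2 * (1 + Real.log M) ^ 2 * T)) := by ring
    _ ≤ ((2 * (1 + Real.log M)) * (2 * (1 + Real.log M))) *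
        (32 * (C₁ * C₂) * (K ^ 2 * (1 + Real.log M) ^ 2 * T)) :=
        mul_le_mul_of_nonneg_right (mul_le_mul hIr hIr hI0 (by positivity)) hW0
    _ = 128 * (C₁ * C₂) * K ^ 2 * (1 + Real.log M) ^ 4 * T := by ring

end Pool.Agent.VL
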