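import Pool.Agent.Lib.HLT.TauPow
import Pool.Agent.Lib.HLU.Base
import Pool.Agent.Lib.VK.WinBilin
import Pool.Agent.Lib.VL.TypeOneWin

/-!
# Minor arcs in short windows of length `x^(1/3 + ε)`: primes

PROOF SKETCH. `L = log x`, `S_u = sum_(u < n ≤ u+H) lp n e(nα)`, `u ≤ 2x`; everything in mean square over `u ≤ 2x`, `|a + b + ..|^2 ≤ 5 (|a|^2 + ..)`. Note `q ≤ R`, so `|α - a/q| ≤ 1/q^2`.
* `Λ` for `lp`: with `g = Λ - lp`: `sum_u (sum_window g)^2 ≤ H^2 sum_(n ≤ 3x) g^2 ≤ H^2 log (3x) (psi - theta)(3x) ≤ C H^2 √x L^2`.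
* Vaughan's identity `BV.vaughan U V` with `U = ⌈x^(ε/8)⌉₊` and `V = ⌈(x/H) L^(B+60)⌉₊` (compare `VK/MinorWinP.lean`, `HLT.MinorPrime.split`).
* `LU U`: `sum_u (sum_window)^2 ≤ H^2 sum_(n ≤ U) log^2 n ≤ H^2 U L^2`.
* `(LU U * muV V) * ζ`: coefficients at most `log m ≤ 3L` (`sum_(d | m) Λ d = log m`), zero for `m > U V`: `type_one_win` with `M = U V`, `x` replaced by `2x`, `K = 3L`: the total is
`≤ C L^6 (x (H^2/q^2 + q^2 + H + H^2/R^2) + (U V)^2 H)`; `H^2/q^2`, `q^2 ≤ H^2 L^(-2 A2)`, `H^2/R^2 ≤ L^(2 A2)`, and `(U V)^2 H ≤ 16 x^(ε/4) (x/H)^2 L^(2B+120) H ≤ x H^2 x^(-ε)` since `H^3 ≥ x^(1+3ε)`.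
* `muV V * log`: `sum_(m | n) muV m log (n/m) = log n · g(n) - sum_(m | n) muV m log m`, `g n = sum_(m | n) muV V m`. The second by `type_one_win` (`M = V`, `K = 3L`). The first: with `G_j(u) = sum_(u < n ≤ u + j) g n e(nα)`, Abel summation
`sum_(u < n ≤ u+H) log n g n e(nα) = log (u+H) G_H(u) - sum_(1 ≤ j < H) (log (u+j+1) - log (u+j)) G_j(u)`, `0 ≤ log (u+j+1) - log (u+j) ≤ 1/j`, so by Cauchy-Schwarz the square is
`≤ 2 (3L)^2 |G_H(u)|^2 + 2 (1 + log H) sum_(j < H) (1/j) |G_j(u)|^2`, and `sum_u |G_j(u)|^2` is bounded by `type_one_win` with `j ≤ H` in place of `H` (the bound is increasing in `H`).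
* `alphaU U * betaV V`: `sum_m alphaU m sum_(n ∈ Ioc (u/m) ((u+H)/m)) betaV n e(m n α)`, `m > U`, and `m ≤ 3x/V ≤ 3 H L^(-(B+60))` because `n > V`. Dyadic blocks `m ∈ (M, 2M]`, `M = U 2^i ≤ 3 H L^(-(B+60))`, at most `2 L` blocks
(Cauchy-Schwarz), each by `win_bilin` with `x` replaced by `2x`: `sum |alphaU|^2 ≤ M (3L)^2`, `sum_(n ≤ (2x+H)/M) |betaV|^2 ≤ C (3x/M) L^3` (`sum_tau_pow 2`; note `M ≤ 3x`), so one block is `≤ C H x L^6 (M + H/q + H/M + q)`, with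
`H/M ≤ H x^(-ε/8)`.
With `A2 = B + 60` everything is `≤ x H^2/L^B`.
-/

set_option autoImplicit false

open Finset Filter Pool.Agent.HLT

namespace Pool.Agent.VL

open Pool.Agent.VK

namespace MinorWinP3Aux

open Pool.Agent.Lib

/-- mean square over all windows -/
theorem win_l2 (g : ℕ → ℂ) (X H : ℕ) :
    ∑ u ∈ range X, ‖∑ n ∈ Ioc u (u + H), g n‖ ^ 2 ≤
      (H : ℝ) ^ 2 * ∑ n ∈ Icc 1 (X + H), ‖g n‖ ^ 2 := by
  have h1 : ∀ u ∈ range X, ‖∑ n ∈ Ioc u (u + H), g n‖ ^ 2 ≤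
      (H : ℝ) * ∑ n ∈ Ioc u (u + H), ‖g n‖ ^ 2 := by
    intro u _
    calc ‖∑ n ∈ Ioc u (u + H), g n‖ ^ 2 ≤ (∑ n ∈ Ioc u (u + H), ‖g n‖) ^ 2 :=
          pow_le_pow_left₀ (norm_nonneg _) (norm_sum_le _ _) 2
      _ ≤ ((Ioc u (u + H)).card : ℝ) * ∑ n ∈ Ioc u (u + H), ‖g n‖ ^ 2 :=
          sq_sum_le_card_mul_sum_sq
      _ = _ := by rw [Nat.card_Ioc, Nat.add_sub_cancel_left]
  refine (sum_le_sum h1).trans ?_
  rw [← mul_sum]
  have h2 : ∑ u ∈ range X, ∑ n ∈ Ioc u (u + H), ‖g n‖ ^ 2 ≤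
      (H : ℝ) * ∑ n ∈ Icc 1 (X + H), ‖g n‖ ^ 2 := by
    rw [sum_comm' (t' := Icc 1 (X + H))
      (s' := fun n => (range X).filter (fun u => u < n ∧ n ≤ u + H))]
    · rw [mul_sum]
      refine sum_le_sum fun n _ => ?_
      rw [sum_const, nsmul_eq_mul]
      refine mul_le_mul_of_nonneg_right ?_ (by positivity)
      have h3 : ((range X).filter (fun u => u < n ∧ n ≤ u + H)) ⊆ Ico (n - H) n := by
        intro u hu
        rw [mem_filter] at hu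
        rw [mem_Ico]
        omega
      have h4 := card_le_card h3
      rw [Nat.card_Ico] at h4
      have h5 : ((range X).filter (fun u => u < n ∧ n ≤ u + H)).card ≤ H := by omega
      exact_mod_cast h5
    · intro u n
      simp only [mem_range, mem_Ioc, mem_filter, mem_Icc]
      omega
  calc (H : ℝ) * ∑ u ∈ range X, ∑ n ∈ Ioc u (u + H), ‖g n‖ ^ 2 ≤
      (H : ℝ) * ((H : ℝ) * ∑ n ∈ Icc 1 (X + H), ‖g n‖ ^ 2) :=
        mul_le_mul_of_nonneg_left h2 (Nat.cast_nonneg _)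
    _ = _ := by ring

theorem div_filter (V : ℕ) {n : ℕ} (hn : 1 ≤ n) :
    (Icc 1 V).filter (fun m => m ∣ n) = n.divisors.filter (fun m => m ≤ V) := by
  ext m
  rw [mem_filter, mem_Icc, mem_filter, Nat.mem_divisors]
  constructor
  · rintro ⟨⟨_, h2⟩, h3⟩
    exact ⟨⟨h3, by omega⟩, h2⟩
  · rintro ⟨⟨h1, _⟩, h2⟩
    exact ⟨⟨Nat.pos_of_dvd_of_pos h1 hn, h2⟩, h1⟩

theorem sum_div_filter (f : ℕ → ℝ) (V : ℕ) (hf : ∀ m, V < m → f m = 0) {n : ℕ} (hn : 1 ≤ n) :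
    ∑ m ∈ n.divisors, f m = ∑ m ∈ (Icc 1 V).filter (fun m => m ∣ n), f m := by
  rw [div_filter V hn, sum_filter]
  refine sum_congr rfl fun m _ => ?_
  split_ifs with h
  · rfl
  · exact hf m (not_le.1 h)

theorem mul_zeta (f : ArithmeticFunction ℝ) (V : ℕ) (hf : ∀ m, V < m → f m = 0) {n : ℕ}
    (hn : 1 ≤ n) : (f * (ArithmeticFunction.zeta : ArithmeticFunction ℝ)) n =
      ∑ m ∈ (Icc 1 V).filter (fun m => m ∣ n), f m := by
  rw [ArithmeticFunction.coe_mul_zeta_apply]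
  exact sum_div_filter (fun m => f m) V hf hn

theorem mul_log (f : ArithmeticFunction ℝ) (V : ℕ) (hf : ∀ m, V < m → f m = 0) {n : ℕ}
    (hn : 1 ≤ n) : (f * ArithmeticFunction.log) n =
      Real.log n * ∑ m ∈ (Icc 1 V).filter (fun m => m ∣ n), f m -
      ∑ m ∈ (Icc 1 V).filter (fun m => m ∣ n), f m * Real.log m := by
  rw [ArithmeticFunction.mul_apply,
    Nat.sum_divisorsAntidiagonal (f := fun i j => f i * ArithmeticFunction.log j),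
    ← sum_div_filter (fun m => f m) V hf hn,
    ← sum_div_filter (fun m => f m * Real.log m) V (fun m hm => by rw [hf m hm, zero_mul]) hn,
    mul_sum, ← sum_sub_distrib]
  refine sum_congr rfl fun m hm => ?_
  rw [Nat.mem_divisors] at hm
  have hm0 : m ≠ 0 := by
    rintro rfl
    rw [zero_dvd_iff] at hm
    omega
  have hm0' : (m : ℝ) ≠ 0 := by exact_mod_cast hm0
  have hn0' : (n : ℝ) ≠ 0 := by exact_mod_cast (by omega : n ≠ 0)
  rw [ArithmeticFunction.log_apply, Nat.cast_div hm.1 hm0', Real.log_div hn0' hm0']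
  ring

theorem Icc_split (φ : ℕ → ℂ) {y z : ℕ} (hyz : y ≤ z) :
    ∑ n ∈ Icc 1 z, φ n = ∑ n ∈ Icc 1 y, φ n + ∑ n ∈ Ioc y z, φ n := by
  have e : ∀ w : ℕ, Icc 1 w = Ioc 0 w := by
    intro w
    ext n
    rw [mem_Icc, mem_Ioc]
    omega
  rw [e, e]
  exact (sum_Ioc_consecutive φ (Nat.zero_le y) hyz).symm

theorem conv_win (f g : ArithmeticFunction ℝ) (F : ℕ → ℂ) (u H : ℕ) :
    ∑ n ∈ Ioc u (u + H), (((f * g) n : ℝ) : ℂ) * F n =
      ∑ m ∈ Icc 1 (u + H), ∑ n ∈ Ioc (u / m) ((u + H) / m), ((f m * g n : ℝ) : ℂ) * F (m * n) := by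
  have h1 := MinorPrime.conv_sum f g F (u + H)
  have h2 := MinorPrime.conv_sum f g F u
  have h3 := Icc_split (fun n => (((f * g) n : ℝ) : ℂ) * F n) (Nat.le_add_right u H)
  have h4 : ∑ m ∈ Icc 1 u, ∑ n ∈ Icc 1 (u / m), ((f m * g n : ℝ) : ℂ) * F (m * n) =
      ∑ m ∈ Icc 1 (u + H), ∑ n ∈ Icc 1 (u / m), ((f m * g n : ℝ) : ℂ) * F (m * n) := by
    refine sum_subset (Icc_subset_Icc le_rfl (Nat.le_add_right u H)) fun m hm hm' => ?_
    rw [mem_Icc] at hm hm'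
    have : u / m = 0 := Nat.div_eq_of_lt (by omega)
    rw [this]
    simp
  have h5 : ∑ m ∈ Icc 1 (u + H), ∑ n ∈ Icc 1 ((u + H) / m), ((f m * g n : ℝ) : ℂ) * F (m * n) =
      ∑ m ∈ Icc 1 (u + H), ∑ n ∈ Icc 1 (u / m), ((f m * g n : ℝ) : ℂ) * F (m * n) +
      ∑ m ∈ Icc 1 (u + H), ∑ n ∈ Ioc (u / m) ((u + H) / m),
        ((f m * g n : ℝ) : ℂ) * F (m * n) := by
    rw [← sum_add_distrib]
    refine sum_congr rfl fun m _ => ?_
    exact Icc_split _ (Nat.div_le_div_right (Nat.le_add_right u H))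
  rw [h1, h2, h4, h5] at h3
  exact (add_left_cancel h3).symm

theorem dyadic_aux (φ : ℕ → ℂ) (U I : ℕ) :
    ∑ i ∈ range I, ∑ m ∈ Ioc (U * 2 ^ i) (2 * (U * 2 ^ i)), φ m = ∑ m ∈ Ioc U (U * 2 ^ I), φ m := by
  induction I with
  | zero => simp
  | succ I ih =>
    rw [sum_range_succ, ih]
    have e : 2 * (U * 2 ^ I) = U * 2 ^ (I + 1) := by ring
    rw [e]
    exact sum_Ioc_consecutive φ (Nat.le_mul_of_pos_right U (by positivity))
      (Nat.mul_le_mul_left U (Nat.pow_le_pow_right (by norm_num) (Nat.le_succ I)))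

theorem dyadic (φ : ℕ → ℂ) (U I Z : ℕ) (h0 : ∀ m, m ≤ U → φ m = 0) (h1 : ∀ m, Z < m → φ m = 0)
    (hI : Z ≤ U * 2 ^ I) :
    ∑ m ∈ Icc 1 Z, φ m = ∑ i ∈ range I, ∑ m ∈ Ioc (U * 2 ^ i) (2 * (U * 2 ^ i)), φ m := by
  rw [dyadic_aux]
  have e1 : ∑ m ∈ Icc 1 Z, φ m = ∑ m ∈ Icc 1 (U * 2 ^ I), φ m := by
    refine sum_subset (Icc_subset_Icc le_rfl hI) fun m hm hm' => ?_
    rw [mem_Icc] at hm hm'
    exact h1 m (by omega)
  have e2 : ∑ m ∈ Ioc U (U * 2 ^ I), φ m = ∑ m ∈ Icc 1 (U * 2 ^ I), φ m := by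
    refine sum_subset (fun m hm => ?_) fun m hm hm' => ?_
    · rw [mem_Ioc] at hm
      rw [mem_Icc]
      omega
    · rw [mem_Icc] at hm
      rw [mem_Ioc] at hm'
      exact h0 m (by omega)
  rw [e1, e2]

/-- Abel summation with the logarithm -/
theorem abel_log (φ : ℕ → ℂ) (u : ℕ) {H : ℕ} (hH : 1 ≤ H) :
    ∑ n ∈ Ioc u (u + H), ((Real.log n : ℝ) : ℂ) * φ n =
      ((Real.log ((u + H : ℕ) : ℝ) : ℝ) : ℂ) * ∑ n ∈ Ioc u (u + H), φ n -
      ∑ j ∈ Ico 1 H, ((Real.log ((u + j + 1 : ℕ) : ℝ) - Real.log ((u + j : ℕ) : ℝ) : ℝ) : ℂ) *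
        ∑ n ∈ Ioc u (u + j), φ n := by
  induction H, hH using Nat.le_induction with
  | base =>
    have e : Ioc u (u + 1) = {u + 1} := by
      ext n
      rw [mem_Ioc, mem_singleton]
      omega
    rw [e, sum_singleton, sum_singleton, Ico_self, sum_empty, sub_zero]
  | succ H hH ih =>
    have e : ∀ ψ : ℕ → ℂ, ∑ n ∈ Ioc u (u + (H + 1)), ψ n =
        ∑ n ∈ Ioc u (u + H), ψ n + ψ (u + H + 1) := by
      intro ψ
      rw [← add_assoc, sum_Ioc_succ_top (by omega)]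
    rw [e, e, ih, sum_Ico_succ_top hH]
    have e3 : u + (H + 1) = u + H + 1 := by ring
    rw [e3, Complex.ofReal_sub]
    ring

theorem log_diff {u j : ℕ} (hj : 1 ≤ j) :
    |Real.log ((u + j + 1 : ℕ) : ℝ) - Real.log ((u + j : ℕ) : ℝ)| ≤ 1 / (j : ℝ) := by
  have hj0 : (0 : ℝ) < j := by exact_mod_cast hj
  have h0 : (0 : ℝ) < ((u + j : ℕ) : ℝ) := by exact_mod_cast (by omega : 0 < u + j)
  have h1 : (0 : ℝ) < ((u + j + 1 : ℕ) : ℝ) := by positivity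
  rw [← Real.log_div h1.ne' h0.ne']
  have h2 : ((u + j + 1 : ℕ) : ℝ) / ((u + j : ℕ) : ℝ) = 1 + 1 / ((u + j : ℕ) : ℝ) := by
    field_simp
    push_cast
    ring
  have h3 : (0 : ℝ) < 1 / ((u + j : ℕ) : ℝ) := by positivity
  have h4 : 0 ≤ Real.log (((u + j + 1 : ℕ) : ℝ) / ((u + j : ℕ) : ℝ)) := by
    rw [h2]
    exact Real.log_nonneg (by linarith)
  rw [abs_of_nonneg h4, h2]
  have h5 := Real.log_le_sub_one_of_pos (show (0 : ℝ) < 1 + 1 / ((u + j : ℕ) : ℝ) by linarith)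
  have h6 : 1 / ((u + j : ℕ) : ℝ) ≤ 1 / (j : ℝ) := by
    apply one_div_le_one_div_of_le hj0
    push_cast
    have : (0 : ℝ) ≤ u := Nat.cast_nonneg _
    linarith
  linarith

theorem two (a b : ℂ) : ‖a - b‖ ^ 2 ≤ 2 * ‖a‖ ^ 2 + 2 * ‖b‖ ^ 2 := by
  have h1 := norm_sub_le a b
  have h2 : ‖a - b‖ ^ 2 ≤ (‖a‖ + ‖b‖) ^ 2 := pow_le_pow_left₀ (norm_nonneg _) h1 2
  nlinarith [sq_nonneg (‖a‖ - ‖b‖)]

theorem six (a b c d e f : ℂ) : ‖a - b + (c - d) + e - f‖ ^ 2 ≤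
    6 * (‖a‖ ^ 2 + ‖b‖ ^ 2 + ‖c‖ ^ 2 + ‖d‖ ^ 2 + ‖e‖ ^ 2 + ‖f‖ ^ 2) := by
  have h1 : ‖a - b + (c - d) + e - f‖ ≤ ‖a‖ + ‖b‖ + ‖c‖ + ‖d‖ + ‖e‖ + ‖f‖ := by
    have i1 := norm_sub_le (a - b + (c - d) + e) f
    have i2 := norm_add_le (a - b + (c - d)) e
    have i3 := norm_add_le (a - b) (c - d)
    have i4 := norm_sub_le a b
    have i5 := norm_sub_le c d
    linarith
  refine (pow_le_pow_left₀ (norm_nonneg _) h1 2).trans ?_
  obtain ⟨A, hA⟩ : ∃ A, A = ‖a‖ := ⟨_, rfl⟩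
  obtain ⟨B, hB⟩ : ∃ B, B = ‖b‖ := ⟨_, rfl⟩
  obtain ⟨C, hC⟩ : ∃ C, C = ‖c‖ := ⟨_, rfl⟩
  obtain ⟨D, hD⟩ : ∃ D, D = ‖d‖ := ⟨_, rfl⟩
  obtain ⟨E, hE⟩ : ∃ E, E = ‖e‖ := ⟨_, rfl⟩
  obtain ⟨F, hF⟩ : ∃ F, F = ‖f‖ := ⟨_, rfl⟩
  rw [← hA, ← hB, ← hC, ← hD, ← hE, ← hF]
  have h2 : 6 * (A ^ 2 + B ^ 2 + C ^ 2 + D ^ 2 + E ^ 2 + F ^ 2) - (A + B + C + D + E + F) ^ 2 =
      (A - B) ^ 2 + (A - C) ^ 2 + (A - D) ^ 2 + (A - E) ^ 2 + (A - F) ^ 2 + (B - C) ^ 2 +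
      (B - D) ^ 2 + (B - E) ^ 2 + (B - F) ^ 2 + (C - D) ^ 2 + (C - E) ^ 2 + (C - F) ^ 2 +
      (D - E) ^ 2 + (D - F) ^ 2 + (E - F) ^ 2 := by ring
  have h3 : 0 ≤ (A - B) ^ 2 + (A - C) ^ 2 + (A - D) ^ 2 + (A - E) ^ 2 + (A - F) ^ 2 + (B - C) ^ 2 +
      (B - D) ^ 2 + (B - E) ^ 2 + (B - F) ^ 2 + (C - D) ^ 2 + (C - E) ^ 2 + (C - F) ^ 2 +
      (D - E) ^ 2 + (D - F) ^ 2 + (E - F) ^ 2 := by positivity
  linarith

theorem harm (D : ℕ) : ∑ d ∈ Icc 1 D, (1 : ℝ) / d ≤ 1 + Real.log D := by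
  have h := sum_tau_pow_div 0 D
  simpa using h

/-- the mean square of a sum with the weight `log n` -/
theorem log_weight (φ : ℕ → ℂ) (X : ℕ) {H : ℕ} (hH : 1 ≤ H) {Λ T : ℝ} (hΛ0 : 0 ≤ Λ)
    (hΛ1 : Real.log ((X + H : ℕ) : ℝ) ≤ Λ) (hΛ2 : 1 + Real.log H ≤ Λ)
    (hT : ∀ j, 1 ≤ j → j ≤ H → ∑ u ∈ range X, ‖∑ n ∈ Ioc u (u + j), φ n‖ ^ 2 ≤ T) :
    ∑ u ∈ range X, ‖∑ n ∈ Ioc u (u + H), ((Real.log n : ℝ) : ℂ) * φ n‖ ^ 2 ≤ 4 * Λ ^ 2 * T := by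
  have hX0 : ∀ u ∈ range X, 0 ≤ Real.log ((u + H : ℕ) : ℝ) ∧ Real.log ((u + H : ℕ) : ℝ) ≤ Λ := by
    intro u hu
    rw [mem_range] at hu
    refine ⟨Real.log_natCast_nonneg _, le_trans ?_ hΛ1⟩
    apply Real.log_le_log (by exact_mod_cast (by omega : 0 < u + H))
    exact_mod_cast (by omega : u + H ≤ X + H)
  have hharm : ∑ j ∈ Ico 1 H, (1 : ℝ) / j ≤ Λ := by
    refine le_trans (sum_le_sum_of_subset_of_nonneg (t := Icc 1 H) (fun j hj => ?_)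
      fun j _ _ => by positivity) ((harm H).trans hΛ2)
    rw [mem_Ico] at hj
    rw [mem_Icc]
    omega
  have hT0 : 0 ≤ T := le_trans (sum_nonneg fun _ _ => by positivity) (hT H hH le_rfl)
  have key : ∀ u ∈ range X, ‖∑ n ∈ Ioc u (u + H), ((Real.log n : ℝ) : ℂ) * φ n‖ ^ 2 ≤
      2 * (Λ ^ 2 * ‖∑ n ∈ Ioc u (u + H), φ n‖ ^ 2) +
      2 * (Λ * ∑ j ∈ Ico 1 H, (1 / (j : ℝ)) * ‖∑ n ∈ Ioc u (u + j), φ n‖ ^ 2) := by
    intro u hu
    rw [abel_log φ u hH]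
    have e1 : ‖((Real.log ((u + H : ℕ) : ℝ) : ℝ) : ℂ) * ∑ n ∈ Ioc u (u + H), φ n‖ ^ 2 ≤
        Λ ^ 2 * ‖∑ n ∈ Ioc u (u + H), φ n‖ ^ 2 := by
      rw [norm_mul, mul_pow, Complex.norm_real, Real.norm_eq_abs, abs_of_nonneg (hX0 u hu).1]
      refine mul_le_mul_of_nonneg_right ?_ (by positivity)
      exact pow_le_pow_left₀ (hX0 u hu).1 (hX0 u hu).2 2
    have e2 : ‖∑ j ∈ Ico 1 H, ((Real.log ((u + j + 1 : ℕ) : ℝ) -
        Real.log ((u + j : ℕ) : ℝ) : ℝ) : ℂ) * ∑ n ∈ Ioc u (u + j), φ n‖ ^ 2 ≤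
        Λ * ∑ j ∈ Ico 1 H, (1 / (j : ℝ)) * ‖∑ n ∈ Ioc u (u + j), φ n‖ ^ 2 := by
      have e3 : ‖∑ j ∈ Ico 1 H, ((Real.log ((u + j + 1 : ℕ) : ℝ) -
          Real.log ((u + j : ℕ) : ℝ) : ℝ) : ℂ) * ∑ n ∈ Ioc u (u + j), φ n‖ ≤
          ∑ j ∈ Ico 1 H, (1 / (j : ℝ)) * ‖∑ n ∈ Ioc u (u + j), φ n‖ := by
        refine (norm_sum_le _ _).trans (sum_le_sum fun j hj => ?_)
        rw [mem_Ico] at hj
        rw [norm_mul, Complex.norm_real, Real.norm_eq_abs]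
        exact mul_le_mul_of_nonneg_right (log_diff hj.1) (norm_nonneg _)
      have e4 : (∑ j ∈ Ico 1 H, (1 / (j : ℝ)) * ‖∑ n ∈ Ioc u (u + j), φ n‖) ^ 2 ≤
          (∑ j ∈ Ico 1 H, 1 / (j : ℝ)) *
            ∑ j ∈ Ico 1 H, (1 / (j : ℝ)) * ‖∑ n ∈ Ioc u (u + j), φ n‖ ^ 2 := by
        refine sum_sq_le_sum_mul_sum_of_sq_le_mul _ (fun j _ => by positivity)
          (fun j _ => by positivity) (fun j _ => le_of_eq (by ring))
      calc _ ≤ (∑ j ∈ Ico 1 H, (1 / (j : ℝ)) * ‖∑ n ∈ Ioc u (u + j), φ n‖) ^ 2 :=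
            pow_le_pow_left₀ (norm_nonneg _) e3 2
        _ ≤ _ := e4
        _ ≤ _ := mul_le_mul_of_nonneg_right hharm (sum_nonneg fun _ _ => by positivity)
    refine (two _ _).trans ?_
    linarith
  refine (sum_le_sum key).trans ?_
  rw [sum_add_distrib, ← mul_sum, ← mul_sum, ← mul_sum, ← mul_sum, sum_comm]
  have f1 := hT H hH le_rfl
  have f2 : ∑ j ∈ Ico 1 H, ∑ u ∈ range X, (1 / (j : ℝ)) * ‖∑ n ∈ Ioc u (u + j), φ n‖ ^ 2 ≤
      Λ * T := by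
    calc _ ≤ ∑ j ∈ Ico 1 H, (1 / (j : ℝ)) * T := by
          refine sum_le_sum fun j hj => ?_
          rw [mem_Ico] at hj
          rw [← mul_sum]
          exact mul_le_mul_of_nonneg_left (hT j hj.1 hj.2.le) (by positivity)
      _ = (∑ j ∈ Ico 1 H, 1 / (j : ℝ)) * T := by rw [sum_mul]
      _ ≤ Λ * T := mul_le_mul_of_nonneg_right hharm hT0
  calc 2 * (Λ ^ 2 * ∑ u ∈ range X, ‖∑ n ∈ Ioc u (u + H), φ n‖ ^ 2) +
      2 * (Λ * ∑ j ∈ Ico 1 H, ∑ u ∈ range X, (1 / (j : ℝ)) * ‖∑ n ∈ Ioc u (u + j), φ n‖ ^ 2) ≤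
      2 * (Λ ^ 2 * T) + 2 * (Λ * (Λ * T)) := by gcongr
    _ = 4 * Λ ^ 2 * T := by ring

theorem log_le_two {x y : ℕ} {L : ℝ} (hx : 1 ≤ x) (hL : L = Real.log x) (hL2 : 3 ≤ L)
    (hy : y ≤ 6 * x) : Real.log y ≤ 2 * L := by
  have hx0 : (0 : ℝ) < x := by exact_mod_cast hx
  rcases Nat.eq_zero_or_pos y with h | h
  · rw [h]
    simp
    linarith
  have h1 : Real.log y ≤ Real.log (6 * x) := by
    apply Real.log_le_log (by exact_mod_cast h)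
    exact_mod_cast hy
  rw [Real.log_mul (by norm_num) hx0.ne', ← hL] at h1
  have h2 : Real.log 6 ≤ 3 := by
    have h3 : (6 : ℝ) ≤ Real.exp 3 := by
      have h4 := Real.exp_one_gt_d9
      have h5 : Real.exp 3 = Real.exp 1 ^ 3 := by
        rw [← Real.exp_nat_mul]
        norm_num
      rw [h5]
      calc (6 : ℝ) ≤ 2 ^ 3 := by norm_num
        _ ≤ Real.exp 1 ^ 3 := pow_le_pow_left₀ (by norm_num) (by linarith) 3
    calc Real.log 6 ≤ Real.log (Real.exp 3) := Real.log_le_log (by norm_num) h3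
      _ = 3 := Real.log_exp 3
  linarith

theorem log_le_two' {x y : ℕ} {L : ℝ} (hx : 1 ≤ x) (hL : L = Real.log x) (hL2 : 4 ≤ L)
    (hy : y ≤ 6 * x) : 1 + Real.log y ≤ 2 * L := by
  have hx0 : (0 : ℝ) < x := by exact_mod_cast hx
  rcases Nat.eq_zero_or_pos y with h | h
  · rw [h]
    simp
    linarith
  have h1 : Real.log y ≤ Real.log (6 * x) := by
    apply Real.log_le_log (by exact_mod_cast h)
    exact_mod_cast hy
  rw [Real.log_mul (by norm_num) hx0.ne', ← hL] at h1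
  have h2 : Real.log 6 ≤ 3 := by
    have h3 : (6 : ℝ) ≤ Real.exp 3 := by
      have h4 := Real.exp_one_gt_d9
      have h5 : Real.exp 3 = Real.exp 1 ^ 3 := by
        rw [← Real.exp_nat_mul]
        norm_num
      rw [h5]
      calc (6 : ℝ) ≤ 2 ^ 3 := by norm_num
        _ ≤ Real.exp 1 ^ 3 := pow_le_pow_left₀ (by norm_num) (by linarith) 3
    calc Real.log 6 ≤ Real.log (Real.exp 3) := Real.log_le_log (by norm_num) h3
      _ = 3 := Real.log_exp 3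
  linarith

/-- type I sums in the present range -/
theorem type1 : ∃ C : ℝ, 1 ≤ C ∧ ∀ (x H q R : ℕ) (a : ℤ) (α L P : ℝ), 1 ≤ H → H ≤ x → 1 ≤ q →
    1 ≤ R → IsCoprime a (q : ℤ) → |α - a / q| ≤ 1 / ((q : ℝ) * R) → 1 ≤ L → 1 ≤ P →
    P ≤ q → (q : ℝ) * P ≤ H → (H : ℝ) ≤ R * P → P ^ 2 ≤ H →
    ∀ (M j : ℕ) (K : ℝ) (c : ℕ → ℂ), 1 ≤ M → 1 ≤ j → j ≤ H →
      (M : ℝ) ^ 2 * P ^ 2 ≤ x * H → Real.log M ≤ L → 0 ≤ K → (∀ m, ‖c m‖ ≤ K) →
      ∑ u ∈ range (2 * x + 1), ‖∑ n ∈ Ioc u (u + j),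
        (∑ m ∈ (Icc 1 M).filter (fun m => m ∣ n), c m) * ex (n * α)‖ ^ 2 ≤
      C * K ^ 2 * L ^ 4 * (x * (H : ℝ) ^ 2 / P ^ 2) := by
  obtain ⟨C, hC, ht⟩ := type_one_win
  refine ⟨144 * C, by linarith, ?_⟩
  intro x H q R a α L P hH hHx hq hR hcop hα hL hP hPq hqP hHR hPH M j K c hM hj hjH hMP hlM hK hc
  have hP0 : 0 < P := by linarith only [hP]
  have hH0 : (0 : ℝ) < H := by exact_mod_cast hH
  have hH1 : (1 : ℝ) ≤ H := by exact_mod_cast hH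
  have hq0 : (0 : ℝ) < q := by exact_mod_cast hq
  have hR0 : (0 : ℝ) < R := by exact_mod_cast hR
  have hx0 : (0 : ℝ) < x := by exact_mod_cast (by omega : 0 < x)
  have hjr : (j : ℝ) ≤ H := by exact_mod_cast hjH
  have hj0 : (0 : ℝ) ≤ j := Nat.cast_nonneg _
  have hM0 : (0 : ℝ) ≤ M := Nat.cast_nonneg _
  have hlM0 : 0 ≤ Real.log M := Real.log_natCast_nonneg M
  refine (ht M (2 * x) j q R a α c K hM hj (by omega) hq hR hcop hα hK hc).trans ?_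
  obtain ⟨D, hD⟩ : ∃ D, D = (H : ℝ) ^ 2 / P ^ 2 := ⟨_, rfl⟩
  have hD0 : 0 ≤ D := by rw [hD]; (clear * - hH hP; positivity)
  have b1 : (j : ℝ) ^ 2 / (q : ℝ) ^ 2 ≤ D := by
    rw [hD]
    gcongr
  have b2 : (q : ℝ) ^ 2 ≤ D := by
    rw [hD, le_div_iff₀ (by (clear * - hP; positivity)), ← mul_pow]
    exact pow_le_pow_left₀ (by (clear * - hq hP; positivity)) hqP 2
  have b3 : (j : ℝ) ≤ D := by
    rw [hD, le_div_iff₀ (by (clear * - hP; positivity))]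
    nlinarith only [hPH, hjr]
  have b4 : (j : ℝ) ^ 2 / (R : ℝ) ^ 2 ≤ D := by
    have e1 : (j : ℝ) ^ 2 / (R : ℝ) ^ 2 ≤ P ^ 2 := by
      rw [div_le_iff₀ (by (clear * - hR; positivity)), ← mul_pow]
      exact pow_le_pow_left₀ hj0 (by nlinarith only [hHR, hjr]) 2
    refine e1.trans ?_
    rw [hD, le_div_iff₀ (by (clear * - hP; positivity))]
    nlinarith only [hP, hPH, hH0, mul_le_mul hPH hPH (by (clear * - hP; positivity)) hH0.le]
  have b5 : (M : ℝ) ^ 2 * j ≤ x * D := by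
    have e1 : (M : ℝ) ^ 2 * j ≤ (M : ℝ) ^ 2 * H := by gcongr
    refine e1.trans ?_
    rw [hD, ← mul_div_assoc, le_div_iff₀ (by (clear * - hP; positivity))]
    nlinarith only [hMP]
  have hcast : ((2 * x : ℕ) : ℝ) = 2 * x := by push_cast; ring
  rw [hcast]
  have hbr : 2 * (x : ℝ) * ((j : ℝ) ^ 2 / (q : ℝ) ^ 2 + (q : ℝ) ^ 2 + j + (j : ℝ) ^ 2 / (R : ℝ) ^ 2) +
      (M : ℝ) ^ 2 * j ≤ 9 * (x * D) := by
    have e1 : (j : ℝ) ^ 2 / (q : ℝ) ^ 2 + (q : ℝ) ^ 2 + j + (j : ℝ) ^ 2 / (R : ℝ) ^ 2 ≤ 4 * D := by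
      linarith only [b1, b2, b3, b4]
    have e2 : 2 * (x : ℝ) * ((j : ℝ) ^ 2 / (q : ℝ) ^ 2 + (q : ℝ) ^ 2 + j +
        (j : ℝ) ^ 2 / (R : ℝ) ^ 2) ≤ 2 * (x : ℝ) * (4 * D) := by gcongr
    linarith only [b5, e2]
  have hl4 : (1 + Real.log M) ^ 4 ≤ (2 * L) ^ 4 := by
    apply pow_le_pow_left₀ (by linarith only [hlM0])
    linarith only [hL, hlM]
  calc C * K ^ 2 * (1 + Real.log M) ^ 4 *
        (2 * (x : ℝ) * ((j : ℝ) ^ 2 / (q : ℝ) ^ 2 + (q : ℝ) ^ 2 + j + (j : ℝ) ^ 2 / (R : ℝ) ^ 2) +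
          (M : ℝ) ^ 2 * j) ≤ C * K ^ 2 * (2 * L) ^ 4 * (9 * (x * D)) := by gcongr
    _ = 144 * C * K ^ 2 * L ^ 4 * (x * (H : ℝ) ^ 2 / P ^ 2) := by
        rw [hD]
        ring

/-- the number of dyadic blocks -/
theorem log2_le {y : ℕ} (hy : 1 ≤ y) : ((Nat.log 2 y : ℕ) : ℝ) ≤ 3 / 2 * Real.log y := by
  have h1 : 2 ^ Nat.log 2 y ≤ y := Nat.pow_log_le_self 2 (by omega)
  have h2 : ((2 : ℝ)) ^ Nat.log 2 y ≤ y := by exact_mod_cast h1
  have h3 := Real.log_le_log (by positivity) h2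
  rw [Real.log_pow] at h3
  have h4 := Real.log_two_gt_d9
  have h5 : (0 : ℝ) ≤ ((Nat.log 2 y : ℕ) : ℝ) := Nat.cast_nonneg _
  nlinarith only [h3, h4]

/-- type II sums -/
theorem type2 : ∃ C : ℝ, 1 ≤ C ∧ ∀ (x H q U V : ℕ) (a : ℤ) (α L P : ℝ), 1 ≤ U → 1 ≤ V → 1 ≤ H →
    H ≤ x → 1 ≤ q → IsCoprime a (q : ℤ) → |α - a / q| ≤ 1 / (q : ℝ) ^ 2 → L = Real.log x →
    4 ≤ L → 1 ≤ P → P ≤ q → (q : ℝ) * P ≤ H → P ≤ U → x * P ≤ H * V →
    ∑ u ∈ range (2 * x + 1), ‖∑ n ∈ Ioc u (u + H), (((BV.alphaU U * BV.betaV V) n : ℝ) : ℂ) *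
      ex (n * α)‖ ^ 2 ≤ C * L ^ 9 * (x * (H : ℝ) ^ 2 / P) := by
  obtain ⟨C, hC, hw⟩ := win_bilin
  refine ⟨36864 * C, by linarith, ?_⟩
  intro x H q U V a α L P hU hV hH hHx hq hcop hα hL hL4 hP hPq hqP hPU hPV
  have hP0 : 0 < P := by linarith only [hP]
  have hL0 : 0 < L := by linarith only [hL4]
  have hx1 : 1 ≤ x := by omega
  have hx0 : (0 : ℝ) < x := by exact_mod_cast hx1
  have hH0 : (0 : ℝ) < H := by exact_mod_cast hH
  have hq0 : (0 : ℝ) < q := by exact_mod_cast hq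
  have hHxr : (H : ℝ) ≤ x := by exact_mod_cast hHx
  obtain ⟨I, hI⟩ : ∃ I, I = Nat.log 2 (3 * x) + 1 := ⟨_, rfl⟩
  obtain ⟨β, hβ⟩ : ∃ β : ℕ → ℕ → ℂ, β = fun i u => ∑ m ∈ Ioc (U * 2 ^ i) (2 * (U * 2 ^ i)),
      ∑ n ∈ Ioc (u / m) ((u + H) / m), (BV.alphaU U m : ℂ) * (BV.betaV V n : ℂ) *
        ex (m * n * α) := ⟨_, rfl⟩
  -- decomposition in blocks
  have hdec : ∀ u ∈ range (2 * x + 1), ∑ n ∈ Ioc u (u + H),
      (((BV.alphaU U * BV.betaV V) n : ℝ) : ℂ) * ex (n * α) = ∑ i ∈ range I, β i u := by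
    intro u hu
    rw [mem_range] at hu
    rw [conv_win (BV.alphaU U) (BV.betaV V) (fun n => ex (n * α)) u H,
      dyadic _ U I (u + H)]
    · rw [hβ]
      refine sum_congr rfl fun i _ => sum_congr rfl fun m _ => sum_congr rfl fun n _ => ?_
      push_cast
      ring_nf
    · intro m hm
      refine sum_eq_zero fun n _ => ?_
      rw [BV.alphaU_apply_of_le hm]
      simp
    · intro m hm
      have : (u + H) / m = 0 := Nat.div_eq_of_lt hm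
      rw [this]
      simp
    · have h1 : 3 * x < 2 ^ I := by
        rw [hI]
        exact Nat.lt_pow_succ_log_self (by norm_num) _
      have h2 : 2 ^ I ≤ U * 2 ^ I := Nat.le_mul_of_pos_left _ hU
      omega
  -- one block
  have hblock : ∀ i ∈ range I, ∑ u ∈ range (2 * x + 1), ‖β i u‖ ^ 2 ≤
      2304 * C * L ^ 7 * (x * (H : ℝ) ^ 2 / P) := by
    intro i _
    obtain ⟨M, hM⟩ : ∃ M, M = U * 2 ^ i := ⟨_, rfl⟩
    have hUM : U ≤ M := by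
      rw [hM]
      exact Nat.le_mul_of_pos_right U (by (clear * -; positivity))
    have hM1 : 1 ≤ M := hU.trans hUM
    have hM0 : (0 : ℝ) < M := by exact_mod_cast hM1
    rcases Nat.lt_or_ge (M * V) (3 * x) with hlt | hge
    · have h1 := hw M (2 * x) H q a α (fun m => (BV.alphaU U m : ℂ)) (fun n => (BV.betaV V n : ℂ))
        hM1 hH hq hcop hα
      have hMx : M ≤ 3 * x := by
        have : M ≤ M * V := Nat.le_mul_of_pos_right M hV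
        omega
      have e1 : ∑ u ∈ range (2 * x + 1), ‖β i u‖ ^ 2 = ∑ u ∈ range (2 * x + 1),
          ‖∑ m ∈ Ioc M (2 * M), ∑ n ∈ Ioc (u / m) ((u + H) / m), (BV.alphaU U m : ℂ) *
            (BV.betaV V n : ℂ) * ex (m * n * α)‖ ^ 2 := by
        rw [hβ, hM]
      rw [e1]
      refine h1.trans ?_
      obtain ⟨Y, hY⟩ : ∃ Y, Y = (2 * x + H) / M := ⟨_, rfl⟩
      rw [← hY]
      have s1 : ∑ m ∈ Ioc M (2 * M), ‖(BV.alphaU U m : ℂ)‖ ^ 2 ≤ M * (2 * L) ^ 2 := by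
        calc ∑ m ∈ Ioc M (2 * M), ‖(BV.alphaU U m : ℂ)‖ ^ 2 ≤ ∑ m ∈ Ioc M (2 * M), (2 * L) ^ 2 := by
              refine sum_le_sum fun m hm => ?_
              rw [mem_Ioc] at hm
              rw [Complex.norm_real, Real.norm_eq_abs]
              refine pow_le_pow_left₀ (abs_nonneg _) ?_ 2
              exact (BV.alphaU_abs_le U m).trans (log_le_two hx1 hL (by linarith only [hL4]) (by omega))
          _ = M * (2 * L) ^ 2 := by
              rw [sum_const, Nat.card_Ioc, nsmul_eq_mul]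
              congr 2
              omega
      have hYx : Y ≤ 3 * x := by
        rw [hY]
        exact (Nat.div_le_self _ _).trans (by omega)
      have hYr : (Y : ℝ) ≤ 3 * x / M := by
        rw [hY]
        refine Nat.cast_div_le.trans ?_
        push_cast
        gcongr
        linarith only [hHxr]
      have s2 : ∑ n ∈ Icc 1 Y, ‖(BV.betaV V n : ℂ)‖ ^ 2 ≤ 3 * x / M * (2 * L) ^ 4 := by
        calc ∑ n ∈ Icc 1 Y, ‖(BV.betaV V n : ℂ)‖ ^ 2 ≤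
            ∑ n ∈ Icc 1 Y, (n.divisors.card : ℝ) ^ 2 := by
              refine sum_le_sum fun n _ => ?_
              rw [Complex.norm_real, Real.norm_eq_abs]
              exact pow_le_pow_left₀ (abs_nonneg _) (BV.betaV_abs_le hV n) 2
          _ ≤ Y * (1 + Real.log Y) ^ (2 ^ 2) := sum_tau_pow 2 Y
          _ ≤ 3 * x / M * (2 * L) ^ 4 := by
              have h5 := log_le_two' hx1 hL (by linarith only [hL4]) (by omega : Y ≤ 6 * x)
              have h6 : 0 ≤ 1 + Real.log Y := by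
                have := Real.log_natCast_nonneg Y
                linarith only [this]
              have h7 : (1 + Real.log Y) ^ (2 ^ 2) ≤ (2 * L) ^ 4 := pow_le_pow_left₀ h6 h5 4
              exact mul_le_mul hYr h7 (by (clear * -; positivity)) (by (clear * - hx1 hM1; positivity))
      have hMP : (M : ℝ) ≤ 3 * (H / P) := by
        have h5 : (M : ℝ) * V < 3 * x := by exact_mod_cast hlt
        have h6 : (0 : ℝ) < V := by exact_mod_cast hV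
        have h7 : (M : ℝ) * P ≤ 3 * H := by
          refine le_of_mul_le_mul_right ?_ h6
          nlinarith only [hP, hPV, h5]
        have h8 : (M : ℝ) ≤ 3 * H / P := by
          rw [le_div_iff₀ hP0]
          exact h7
        calc (M : ℝ) ≤ 3 * H / P := h8
          _ = 3 * (H / P) := by ring
      have hPM : P ≤ M := hPU.trans (by exact_mod_cast hUM)
      have hfour : (M : ℝ) + H / q + H / M + q ≤ 6 * (H / P) := by
        have h5 : (H : ℝ) / q ≤ H / P := div_le_div_of_nonneg_left hH0.le hP0 hPq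
        have h6 : (H : ℝ) / M ≤ H / P := div_le_div_of_nonneg_left hH0.le hP0 hPM
        have h7 : (q : ℝ) ≤ H / P := by
          rw [le_div_iff₀ hP0]
          exact hqP
        linarith only [hMP, h5, h6, h7]
      have hlq : 1 + Real.log q ≤ 2 * L := by
        refine log_le_two' hx1 hL (by linarith only [hL4]) ?_
        have h5 : (q : ℝ) ≤ H := by nlinarith only [hP, hqP]
        have h6 : q ≤ H := by exact_mod_cast h5
        omega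
      have hlq0 : 0 ≤ 1 + Real.log q := by
        have := Real.log_natCast_nonneg q
        linarith only [this]
      have hS2 : 0 ≤ ∑ n ∈ Icc 1 Y, ‖(BV.betaV V n : ℂ)‖ ^ 2 := sum_nonneg fun _ _ => by (clear * -; positivity)
      have hS1 : 0 ≤ ∑ m ∈ Ioc M (2 * M), ‖(BV.alphaU U m : ℂ)‖ ^ 2 :=
        sum_nonneg fun _ _ => by (clear * -; positivity)
      have hlast : ((M : ℝ) + H / q + H / M + q) * (1 + Real.log q) ≤ 6 * (H / P) * (2 * L) :=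
        mul_le_mul hfour hlq hlq0 (by (clear * - hH hP; positivity))
      have hlast0 : 0 ≤ ((M : ℝ) + H / q + H / M + q) * (1 + Real.log q) := by (clear * - hH hq hM1; positivity)
      calc C * H * (∑ m ∈ Ioc M (2 * M), ‖(BV.alphaU U m : ℂ)‖ ^ 2) *
            (∑ n ∈ Icc 1 Y, ‖(BV.betaV V n : ℂ)‖ ^ 2) *
            (((M : ℝ) + H / q + H / M + q) * (1 + Real.log q)) ≤
          C * H * (M * (2 * L) ^ 2) * (3 * x / M * (2 * L) ^ 4) * (6 * (H / P) * (2 * L)) := by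
            gcongr
        _ = 2304 * C * L ^ 7 * (x * (H : ℝ) ^ 2 / P) := by
            field_simp
            ring
    · have e1 : ∀ u ∈ range (2 * x + 1), ‖β i u‖ ^ 2 = 0 := by
        intro u hu
        rw [mem_range] at hu
        have e2 : β i u = 0 := by
          rw [hβ]
          simp only
          refine sum_eq_zero fun m hm => sum_eq_zero fun n hn => ?_
          rw [← hM, mem_Ioc] at hm
          rw [mem_Ioc] at hn
          have hnm : n * m ≤ u + H := (Nat.le_div_iff_mul_le (by omega)).1 hn.2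
          have hnV : n ≤ V := by
            by_contra hcon
            have h5 : V < n := by omega
            have h6 : M * V < m * n := Nat.mul_lt_mul'' hm.1 h5
            rw [mul_comm m n] at h6
            omega
          rw [BV.betaV_apply_of_le hV hnV]
          simp
        rw [e2]
        simp
      rw [sum_congr rfl e1, sum_const_zero]
      (clear * - hC hH hL4 hP hx1; positivity)
  -- summation over the blocks
  have hI1 : (I : ℝ) ≤ 4 * L := by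
    rw [hI]
    push_cast
    have h1 := log2_le (by omega : 1 ≤ 3 * x)
    have h2 := log_le_two hx1 hL (by linarith only [hL4]) (by omega : 3 * x ≤ 6 * x)
    linarith only [hL4, h1, h2]
  have hI0 : (0 : ℝ) ≤ I := Nat.cast_nonneg _
  obtain ⟨Q, hQ⟩ : ∃ Q, Q = 2304 * C * L ^ 7 * (x * (H : ℝ) ^ 2 / P) := ⟨_, rfl⟩
  have hQ0 : 0 ≤ Q := by rw [hQ]; (clear * - hC hH hL4 hP hx1; positivity)
  rw [← hQ] at hblock
  calc ∑ u ∈ range (2 * x + 1), ‖∑ n ∈ Ioc u (u + H), (((BV.alphaU U * BV.betaV V) n : ℝ) : ℂ) *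
      ex (n * α)‖ ^ 2 = ∑ u ∈ range (2 * x + 1), ‖∑ i ∈ range I, β i u‖ ^ 2 :=
        sum_congr rfl fun u hu => by rw [hdec u hu]
    _ ≤ ∑ u ∈ range (2 * x + 1), (I : ℝ) * ∑ i ∈ range I, ‖β i u‖ ^ 2 := by
        refine sum_le_sum fun u _ => ?_
        calc ‖∑ i ∈ range I, β i u‖ ^ 2 ≤ (∑ i ∈ range I, ‖β i u‖) ^ 2 :=
              pow_le_pow_left₀ (norm_nonneg _) (norm_sum_le _ _) 2
          _ ≤ ((range I).card : ℝ) * ∑ i ∈ range I, ‖β i u‖ ^ 2 := sq_sum_le_card_mul_sum_sq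
          _ = _ := by rw [card_range]
    _ = (I : ℝ) * ∑ i ∈ range I, ∑ u ∈ range (2 * x + 1), ‖β i u‖ ^ 2 := by
        rw [← mul_sum, sum_comm]
    _ ≤ (I : ℝ) * ∑ i ∈ range I, Q := by
        gcongr with i hi
        exact hblock i hi
    _ = (I : ℝ) * (I * Q) := by rw [sum_const, card_range, nsmul_eq_mul]
    _ ≤ (4 * L) * ((4 * L) * Q) := by gcongr
    _ = 36864 * C * L ^ 9 * (x * (H : ℝ) ^ 2 / P) := by
        rw [hQ]
        ring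

/-- the first part of Vaughan's identity -/
theorem part1 {x H U : ℕ} {L : ℝ} (α : ℝ) (hx : 1 ≤ x) (hL : L = Real.log x) (hL4 : 4 ≤ L)
    (hU : U ≤ x) : ∑ u ∈ range (2 * x + 1), ‖∑ n ∈ Ioc u (u + H), (BV.LU U n : ℂ) *
      ex (n * α)‖ ^ 2 ≤ (H : ℝ) ^ 2 * (U * (2 * L) ^ 2) := by
  refine (win_l2 (fun n => (BV.LU U n : ℂ) * ex (n * α)) (2 * x + 1) H).trans ?_
  refine mul_le_mul_of_nonneg_left ?_ (by positivity)
  have h1 : ∀ n ∈ Icc 1 (2 * x + 1 + H), ‖(BV.LU U n : ℂ) * ex (n * α)‖ ^ 2 ≤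
      if n ≤ U then (2 * L) ^ 2 else 0 := by
    intro n _
    rw [norm_mul, norm_ex, mul_one, Complex.norm_real, Real.norm_eq_abs]
    split_ifs with h
    · refine pow_le_pow_left₀ (abs_nonneg _) ?_ 2
      rw [abs_of_nonneg (BV.vau_LU_nonneg U n)]
      refine (BV.vau_LU_le U n).trans ?_
      have h2 := log_le_two hx hL (by linarith) (by omega : U + 1 ≤ 6 * x)
      push_cast at h2
      exact h2
    · rw [BV.vau_LU_apply, if_neg h]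
      simp
  refine (sum_le_sum h1).trans ?_
  rw [← sum_filter, sum_const, nsmul_eq_mul]
  refine mul_le_mul_of_nonneg_right ?_ (by positivity)
  have h2 : ((Icc 1 (2 * x + 1 + H)).filter (fun n => n ≤ U)) ⊆ Icc 1 U := by
    intro n hn
    rw [mem_filter, mem_Icc] at hn
    rw [mem_Icc]
    exact ⟨hn.1.1, hn.2⟩
  have h3 := card_le_card h2
  rw [Nat.card_Icc, Nat.add_sub_cancel] at h3
  exact_mod_cast h3

/-- prime powers -/
theorem part0 {x H : ℕ} {L : ℝ} (α : ℝ) (hx : 1 ≤ x) (hL : L = Real.log x) (hL4 : 4 ≤ L)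
    (hH : H ≤ x) : ∑ u ∈ range (2 * x + 1), ‖∑ n ∈ Ioc u (u + H),
      (((ArithmeticFunction.vonMangoldt n - lp n : ℝ)) : ℂ) * ex (n * α)‖ ^ 2 ≤
      (H : ℝ) ^ 2 * (16 * L ^ 2 * Real.sqrt x) := by
  refine (win_l2 (fun n => (((ArithmeticFunction.vonMangoldt n - lp n : ℝ)) : ℂ) * ex (n * α))
    (2 * x + 1) H).trans ?_
  refine mul_le_mul_of_nonneg_left ?_ (by positivity)
  obtain ⟨N, hN⟩ : ∃ N, N = 2 * x + 1 + H := ⟨_, rfl⟩
  rw [← hN]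
  have hN4 : N ≤ 4 * x := by omega
  have hlN : Real.log N ≤ 2 * L := log_le_two hx hL (by linarith) (by omega)
  have hd : ∀ n, 0 ≤ ArithmeticFunction.vonMangoldt n - lp n := by
    intro n
    unfold HLT.lp
    split_ifs with hp
    · rw [ArithmeticFunction.vonMangoldt_apply_prime hp, sub_self]
    · rw [sub_zero]
      exact ArithmeticFunction.vonMangoldt_nonneg
  have h1 : ∀ n ∈ Icc 1 N, ‖(((ArithmeticFunction.vonMangoldt n - lp n : ℝ)) : ℂ) *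
      ex (n * α)‖ ^ 2 ≤ (2 * L) * (ArithmeticFunction.vonMangoldt n - lp n) := by
    intro n hn
    rw [mem_Icc] at hn
    rw [norm_mul, norm_ex, mul_one, Complex.norm_real, Real.norm_eq_abs, abs_of_nonneg (hd n), sq]
    refine mul_le_mul_of_nonneg_right ?_ (hd n)
    have h2 : Real.log n ≤ 2 * L := log_le_two hx hL (by linarith) (by omega)
    have h3 : ArithmeticFunction.vonMangoldt n ≤ Real.log n := ArithmeticFunction.vonMangoldt_le_log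
    have h4 := lp_nonneg n
    linarith only [h2, h3, h4]
  refine (sum_le_sum h1).trans ?_
  rw [← mul_sum, sum_sub_distrib, MinorPrime.psi_eq, MinorPrime.theta_eq]
  have hNr : (1 : ℝ) ≤ N := by exact_mod_cast (by omega : 1 ≤ N)
  have h5 := (le_abs_self _).trans (Chebyshev.abs_psi_sub_theta_le_sqrt_mul_log hNr)
  have h6 : Real.sqrt N ≤ 2 * Real.sqrt x := by
    rw [Real.sqrt_le_left (by positivity), mul_pow, Real.sq_sqrt (Nat.cast_nonneg _)]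
    have : (N : ℝ) ≤ 4 * x := by exact_mod_cast hN4
    linarith only [this]
  have h7 : 0 ≤ Real.log N := Real.log_nonneg hNr
  have h8 : 0 ≤ Real.sqrt N := Real.sqrt_nonneg _
  have hL0 : 0 ≤ L := by linarith only [hL4]
  calc 2 * L * (Chebyshev.psi N - Chebyshev.theta N) ≤ 2 * L * (2 * Real.sqrt N * Real.log N) := by
        gcongr
    _ ≤ 2 * L * (2 * (2 * Real.sqrt x) * (2 * L)) := by gcongr
    _ = 16 * L ^ 2 * Real.sqrt x := by ring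

theorem ev_log_pow (a : ℕ) {c s : ℝ} (hc : 0 < c) (hs : 0 < s) :
    ∀ᶠ x : ℕ in atTop, c * Real.log x ^ a ≤ (x : ℝ) ^ s := by
  have h1 := isLittleO_log_rpow_rpow_atTop ((a : ℕ) : ℝ) hs
  simp only [Real.rpow_natCast] at h1
  have h2 := (h1.comp_tendsto tendsto_natCast_atTop_atTop).bound (show (0 : ℝ) < 1 / c by positivity)
  filter_upwards [h2, Pool.Agent.HLU.ev_log 1] with x hx hL
  simp only [Function.comp_def] at hx
  rw [Real.norm_of_nonneg (by positivity), Real.norm_of_nonneg (by positivity)] at hx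
  calc c * Real.log x ^ a ≤ c * (1 / c * (x : ℝ) ^ s) := by gcongr
    _ = (x : ℝ) ^ s := by field_simp

end MinorWinP3Aux

open MinorWinP3Aux Pool.Agent.Lib

theorem minor_win_prime3 (B : ℕ) (ε : ℝ) (hε : 0 < ε) : ∃ A2 : ℕ, ∀ᶠ x : ℕ in atTop, ∀ (q H R : ℕ) (a : ℤ) (α : ℝ),
    IsCoprime a (q : ℤ) → |α - a / q| ≤ 1 / ((q : ℝ) * R) → Real.log x ^ A2 ≤ q → (q : ℝ) ≤ H / Real.log x ^ A2 →
    (H : ℝ) / Real.log x ^ A2 ≤ R → (x : ℝ) ^ (1 / 3 + ε) ≤ H → H ≤ x →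
    ∑ u ∈ range (2 * x + 1), ‖∑ n ∈ Ioc u (u + H), (lp n : ℂ) * ex (n * α)‖ ^ 2 ≤
      x * (H : ℝ) ^ 2 / Real.log x ^ B := by
  obtain ⟨C1, hC1, ht1⟩ := type1
  obtain ⟨C2, hC2, ht2⟩ := type2
  obtain ⟨δ, hδ⟩ : ∃ δ : ℝ, δ = min (ε / 8) (1 / 12) := ⟨_, rfl⟩
  have hδ0 : 0 < δ := by
    rw [hδ]
    exact lt_min (by linarith) (by norm_num)
  have hδ1 : δ ≤ ε / 8 := by rw [hδ]; exact min_le_left _ _
  have hδ2 : δ ≤ 1 / 12 := by rw [hδ]; exact min_le_right _ _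
  obtain ⟨A, hA⟩ : ∃ A : ℕ, A = B + 60 := ⟨_, rfl⟩
  refine ⟨A, ?_⟩
  filter_upwards [Pool.Agent.HLU.ev_log (600 * (C1 + C2)), ev_log_pow A one_pos hδ0,
    ev_log_pow (4 * A) (show (0 : ℝ) < 16 by norm_num) hε,
    ev_log_pow (2 * A) (show (0 : ℝ) < 600 by norm_num) (show (0 : ℝ) < 1 / 3 by norm_num),
    eventually_ge_atTop 1] with x hLm he1 he2 he3 hx1 q H R a α hcop hα hq1 hq2 hR1 hH hHx
  obtain ⟨L, hL⟩ : ∃ L, L = Real.log x := ⟨_, rfl⟩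
  rw [← hL] at hLm he1 he2 he3 hq1 hq2 hR1 ⊢
  have hL4 : 4 ≤ L := by linarith only [hC1, hC2, hδ0, hδ2, hLm]
  have hL1 : 1 ≤ L := by linarith only [hC1, hC2, hδ0, hδ2, hLm]
  have hL0 : 0 < L := by linarith only [hC1, hC2, hδ0, hδ2, hLm]
  obtain ⟨P, hP⟩ : ∃ P, P = L ^ A := ⟨_, rfl⟩
  have hP1 : 1 ≤ P := by
    rw [hP]
    exact one_le_pow₀ hL1
  have hP0 : 0 < P := by linarith only [hδ0, hδ2, hP1]
  rw [← hP] at he1 hq1 hq2 hR1
  have hP2 : L ^ (2 * A) = P ^ 2 := by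
    rw [hP, ← pow_mul, mul_comm]
  have hP4 : L ^ (4 * A) = P ^ 4 := by
    rw [hP, ← pow_mul, mul_comm]
  rw [hP2] at he3
  rw [hP4] at he2
  have hx0 : (0 : ℝ) < x := by exact_mod_cast hx1
  have hx1r : (1 : ℝ) ≤ x := by exact_mod_cast hx1
  have hHx3 : (x : ℝ) ^ (1 / 3 : ℝ) ≤ H :=
    (Real.rpow_le_rpow_of_exponent_le hx1r (by linarith only [hδ0, hδ1])).trans hH
  have hx3 : 1 ≤ (x : ℝ) ^ (1 / 3 : ℝ) := Real.one_le_rpow hx1r (by norm_num)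
  have hH1r : (1 : ℝ) ≤ H := hx3.trans hHx3
  have hH1 : 1 ≤ H := by exact_mod_cast hH1r
  have hH0 : (0 : ℝ) < H := by linarith only [hδ0, hδ2, hHx3, hx3]
  have hHxr : (H : ℝ) ≤ x := by exact_mod_cast hHx
  have hqr1 : (1 : ℝ) ≤ q := hP1.trans hq1
  have hq1' : 1 ≤ q := by exact_mod_cast hqr1
  have hqP : (q : ℝ) * P ≤ H := by
    rw [le_div_iff₀ hP0] at hq2
    exact hq2
  have hqR : (q : ℝ) ≤ R := hq2.trans hR1
  have hR1' : 1 ≤ R := by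
    have : (1 : ℝ) ≤ R := hqr1.trans hqR
    exact_mod_cast this
  have hHRP : (H : ℝ) ≤ R * P := by
    rw [div_le_iff₀ hP0] at hR1
    exact hR1
  have hα2 : |α - a / q| ≤ 1 / (q : ℝ) ^ 2 := by
    refine hα.trans ?_
    apply one_div_le_one_div_of_le (by (clear * - hq1'; positivity))
    rw [sq]
    exact mul_le_mul_of_nonneg_left hqR (by linarith only [hδ0, hδ2, hq1, hP1])
  have hPH : P ^ 2 ≤ H := by
    have : 0 ≤ P ^ 2 := by (clear * - hP1; positivity)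
    linarith only [hδ0, hδ2, he3, hHx3, hx3]
  -- the parameters of Vaughan's identity
  obtain ⟨y, hy⟩ : ∃ y : ℝ, y = (x : ℝ) ^ δ := ⟨_, rfl⟩
  have hy1 : 1 ≤ y := by
    rw [hy]
    exact Real.one_le_rpow hx1r hδ0.le
  obtain ⟨U, hU⟩ : ∃ U, U = ⌈y⌉₊ := ⟨_, rfl⟩
  have hUy : y ≤ U := by rw [hU]; exact Nat.le_ceil y
  have hUy2 : (U : ℝ) ≤ 2 * y := by
    have := Nat.ceil_lt_add_one (show 0 ≤ y by linarith only [hδ0, hδ2, he1, hP1, hy])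
    rw [← hU] at this
    linarith only [he1, hP1, hy, this]
  have hU1 : 1 ≤ U := by
    have : (1 : ℝ) ≤ U := hy1.trans hUy
    exact_mod_cast this
  obtain ⟨w, hw⟩ : ∃ w : ℝ, w = (x : ℝ) / H * P := ⟨_, rfl⟩
  have hxH : 1 ≤ (x : ℝ) / H := by
    rw [le_div_iff₀ hH0]
    linarith only [hHxr]
  have hw1 : 1 ≤ w := by
    rw [hw]
    nlinarith only [hδ0, hδ2, hP1, hxH]
  obtain ⟨V, hV⟩ : ∃ V, V = ⌈w⌉₊ := ⟨_, rfl⟩
  have hVw : w ≤ V := by rw [hV]; exact Nat.le_ceil w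
  have hVw2 : (V : ℝ) ≤ 2 * w := by
    have := Nat.ceil_lt_add_one (show 0 ≤ w by linarith only [hδ0, hδ2, hw1])
    rw [← hV] at this
    linarith only [hw1, this]
  have hV1 : 1 ≤ V := by
    have : (1 : ℝ) ≤ V := hw1.trans hVw
    exact_mod_cast this
  have hPU : P ≤ U := by
    rw [one_mul, ← hy] at he1
    linarith only [he1, hUy]
  have hxPV : x * P ≤ H * V := by
    have h1 : (H : ℝ) * w = x * P := by
      rw [hw]
      field_simp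
    rw [← h1]
    gcongr
  have hUVsq : ((U * V : ℕ) : ℝ) ^ 2 * P ^ 2 ≤ x * H := by
    have h1 : ((U * V : ℕ) : ℝ) ≤ (2 * y) * (2 * w) := by
      push_cast
      gcongr
    have h2 : ((U * V : ℕ) : ℝ) ^ 2 ≤ ((2 * y) * (2 * w)) ^ 2 := by gcongr
    have h3 : (x : ℝ) * (x : ℝ) ^ (3 * ε) ≤ (H : ℝ) ^ 3 := by
      calc (x : ℝ) * (x : ℝ) ^ (3 * ε) = ((x : ℝ) ^ (1 / 3 + ε)) ^ (3 : ℕ) := by
            rw [← Real.rpow_natCast, ← Real.rpow_mul hx0.le]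
            have : (1 / 3 + ε) * ((3 : ℕ) : ℝ) = 1 + 3 * ε := by
              push_cast
              ring
            rw [this, Real.rpow_add hx0, Real.rpow_one]
        _ ≤ (H : ℝ) ^ 3 := by gcongr
    have h4 : y ^ 2 ≤ (x : ℝ) ^ ε := by
      rw [hy, ← Real.rpow_natCast, ← Real.rpow_mul hx0.le]
      apply Real.rpow_le_rpow_of_exponent_le hx1r
      push_cast
      linarith only [hδ0, hδ1]
    have h5 : 1 ≤ (x : ℝ) ^ ε := Real.one_le_rpow hx1r hε.le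
    have h6 : (x : ℝ) ^ (3 * ε) = (x : ℝ) ^ ε * (x : ℝ) ^ ε * (x : ℝ) ^ ε := by
      rw [← Real.rpow_add hx0, ← Real.rpow_add hx0]
      congr 1
      ring
    have h7 : 16 * y ^ 2 * P ^ 4 ≤ (x : ℝ) ^ (3 * ε) := by
      rw [h6]
      calc 16 * y ^ 2 * P ^ 4 = y ^ 2 * (16 * P ^ 4) := by ring
        _ ≤ (x : ℝ) ^ ε * (x : ℝ) ^ ε := by gcongr
        _ = (x : ℝ) ^ ε * (x : ℝ) ^ ε * 1 := by ring
        _ ≤ (x : ℝ) ^ ε * (x : ℝ) ^ ε * (x : ℝ) ^ ε := by gcongr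
    have h8 : ((2 * y) * (2 * w)) ^ 2 * P ^ 2 = (16 * y ^ 2 * P ^ 4) * ((x : ℝ) ^ 2 / (H : ℝ) ^ 2) := by
      rw [hw]
      field_simp
      ring
    calc ((U * V : ℕ) : ℝ) ^ 2 * P ^ 2 ≤ ((2 * y) * (2 * w)) ^ 2 * P ^ 2 := by gcongr
      _ = (16 * y ^ 2 * P ^ 4) * ((x : ℝ) ^ 2 / (H : ℝ) ^ 2) := h8
      _ ≤ (x : ℝ) ^ (3 * ε) * ((x : ℝ) ^ 2 / (H : ℝ) ^ 2) := by gcongr
      _ = ((x : ℝ) * (x : ℝ) ^ (3 * ε)) * (x / (H : ℝ) ^ 2) := by ring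
      _ ≤ (H : ℝ) ^ 3 * (x / (H : ℝ) ^ 2) := by gcongr
      _ = x * H := by
          field_simp
  have hUVx : U * V ≤ x := by
    have h1 : ((U * V : ℕ) : ℝ) ^ 2 ≤ (x : ℝ) ^ 2 := by
      have h2 : ((U * V : ℕ) : ℝ) ^ 2 * 1 ≤ ((U * V : ℕ) : ℝ) ^ 2 * P ^ 2 := by
        gcongr
        nlinarith only [hP1]
      nlinarith only [hHxr, hUVsq, h2]
    have h2 := (pow_le_pow_iff_left₀ (by (clear * - hU1 hV1; positivity)) hx0.le (by norm_num)).1 h1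
    exact_mod_cast h2
  have hUx : U ≤ x := (Nat.le_mul_of_pos_right U hV1).trans hUVx
  have hVUV : V ≤ U * V := Nat.le_mul_of_pos_left V hU1
  have hVx : V ≤ x := hVUV.trans hUVx
  have hUV1 : 1 ≤ U * V := Nat.mul_pos hU1 hV1
  have hlog : ∀ m : ℕ, m ≤ x → Real.log m ≤ L := by
    intro m hm
    rcases Nat.eq_zero_or_pos m with h | h
    · rw [h]
      simpa using hL0.le
    · rw [hL]
      exact Real.log_le_log (by exact_mod_cast h) (by exact_mod_cast hm)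
  have hVsq : (V : ℝ) ^ 2 * P ^ 2 ≤ x * H := by
    refine le_trans ?_ hUVsq
    have : (V : ℝ) ≤ ((U * V : ℕ) : ℝ) := by exact_mod_cast hVUV
    gcongr
  have hT := ht1 x H q R a α L P hH1 hHx hq1' hR1' hcop hα hL1 hP1 hq1 hqP hHRP hPH
  -- the coefficients
  obtain ⟨f, hf⟩ : ∃ f : ArithmeticFunction ℝ, f = BV.LU U * BV.muV V := ⟨_, rfl⟩
  have hf0 : ∀ m, U * V < m → f m = 0 := by
    intro m hm
    rw [hf]
    exact BV.LU_mul_muV_apply_of_gt hm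
  have hfL : ∀ m, ‖((f m : ℝ) : ℂ)‖ ≤ L := by
    intro m
    rw [Complex.norm_real, Real.norm_eq_abs]
    rcases Nat.lt_or_ge (U * V) m with h | h
    · rw [hf0 m h, abs_zero]
      exact hL0.le
    · rw [hf]
      exact (MinorPrime.coeff_le U V m).trans (hlog m (h.trans hUVx))
  have hg0 : ∀ m, V < m → BV.muV V m = 0 := by
    intro m hm
    rw [BV.vau_muV_apply, if_neg (by omega)]
  have hg1 : ∀ m, ‖((BV.muV V m : ℝ) : ℂ)‖ ≤ 1 := by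
    intro m
    rw [Complex.norm_real, Real.norm_eq_abs]
    exact BV.vau_muV_abs_le V m
  have hgL : ∀ m : ℕ, ‖((BV.muV V m * Real.log m : ℝ) : ℂ)‖ ≤ L := by
    intro m
    rw [Complex.norm_real, Real.norm_eq_abs, abs_mul]
    rcases Nat.lt_or_ge V m with h | h
    · rw [hg0 m h, abs_zero, zero_mul]
      exact hL0.le
    · have h1 := BV.vau_muV_abs_le V m
      have h2 := hlog m (h.trans hVx)
      have h3 : 0 ≤ Real.log (m : ℝ) := Real.log_natCast_nonneg m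
      rw [abs_of_nonneg h3]
      calc |BV.muV V m| * Real.log m ≤ 1 * L := mul_le_mul h1 h2 h3 zero_le_one
        _ = L := one_mul L
  -- the six parts
  obtain ⟨E, hE⟩ : ∃ E, E = x * (H : ℝ) ^ 2 / L ^ B := ⟨_, rfl⟩
  have hxH2 : 0 < (x : ℝ) * (H : ℝ) ^ 2 := by (clear * - hx1 hH1; positivity)
  have hLB : 0 < L ^ B := pow_pos hL0 B
  have p1 := part1 (H := H) (U := U) α hx1 hL hL4 hUx
  have p0 := part0 (H := H) α hx1 hL hL4 hHx
  have p4 := ht2 x H q U V a α L P hU1 hV1 hH1 hHx hq1' hcop hα2 hL hL4 hP1 hq1 hqP hPU hxPV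
  have p2 := hT (U * V) H L (fun m => ((f m : ℝ) : ℂ)) hUV1 hH1 le_rfl hUVsq (hlog _ hUVx)
    hL0.le hfL
  have p3b := hT V H L (fun m => ((BV.muV V m * Real.log m : ℝ) : ℂ)) hV1 hH1 le_rfl hVsq
    (hlog _ hVx) hL0.le hgL
  have p3a := log_weight (fun n => (∑ m ∈ (Icc 1 V).filter (fun m => m ∣ n),
      ((BV.muV V m : ℝ) : ℂ)) * ex (n * α)) (2 * x + 1) hH1 (Λ := 2 * L)
      (T := C1 * 1 ^ 2 * L ^ 4 * (x * (H : ℝ) ^ 2 / P ^ 2)) (by linarith only [hC1, hC2, hδ0, hδ2, hLm])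
      (log_le_two hx1 hL (by linarith only [hC1, hC2, hδ0, hδ2, hLm]) (by omega))
      (log_le_two' hx1 hL hL4 (by omega))
      (fun j hj1 hjH => hT V j 1 (fun m => ((BV.muV V m : ℝ) : ℂ)) hV1 hj1 hjH hVsq
        (hlog _ hVx) zero_le_one hg1)
  -- comparison with the target
  have hPB : P = L ^ B * L ^ 60 := by rw [hP, hA, pow_add]
  have hL60 : L ^ 60 = L * L ^ 59 := by ring
  have b4 : C2 * L ^ 9 * (x * (H : ℝ) ^ 2 / P) ≤ E / 36 := by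
    have h1 : C2 * 36 * L ^ 9 ≤ L ^ 60 := by
      calc C2 * 36 * L ^ 9 ≤ L * L ^ 9 := by gcongr; linarith only [hC1, hC2, hδ0, hδ2, hLm]
        _ = L ^ 10 := by ring
        _ ≤ L ^ 60 := pow_le_pow_right₀ hL1 (by norm_num)
    rw [hE, hPB]
    have h2 : C2 * L ^ 9 * (x * (H : ℝ) ^ 2 / (L ^ B * L ^ 60)) =
        (x * (H : ℝ) ^ 2 / L ^ B / 36) * (C2 * 36 * L ^ 9 / L ^ 60) := by
      field_simp
    rw [h2]
    refine mul_le_of_le_one_right (by (clear * - hx1 hL4 hH1; positivity)) ?_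
    rw [div_le_one (by (clear * - hL4; positivity))]
    exact h1
  have hgen : ∀ c : ℝ, 0 ≤ c → 36 * c ≤ L → c * L ^ 6 * (x * (H : ℝ) ^ 2 / P ^ 2) ≤ E / 36 := by
    intro c hc0 hc
    have h1 : c * 36 * L ^ 6 ≤ L ^ B * L ^ 120 := by
      have h3 : 1 ≤ L ^ B := one_le_pow₀ hL1
      calc c * 36 * L ^ 6 ≤ L * L ^ 6 := by gcongr; linarith only [hc]
        _ = L ^ 7 := by ring
        _ ≤ L ^ 120 := pow_le_pow_right₀ hL1 (by norm_num)
        _ = 1 * L ^ 120 := (one_mul _).symm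
        _ ≤ L ^ B * L ^ 120 := by gcongr
    rw [hE, hPB]
    have h2 : c * L ^ 6 * (x * (H : ℝ) ^ 2 / (L ^ B * L ^ 60) ^ 2) =
        (x * (H : ℝ) ^ 2 / L ^ B / 36) * (c * 36 * L ^ 6 / (L ^ B * L ^ 120)) := by
      have h3 : (L ^ B * L ^ 60) ^ 2 = L ^ B * (L ^ B * L ^ 120) := by ring
      rw [h3]
      field_simp
    rw [h2]
    refine mul_le_of_le_one_right (by (clear * - hx1 hL4 hH1; positivity)) ?_
    rw [div_le_one (by (clear * - hL4; positivity))]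
    exact h1
  have b2 : C1 * L ^ 2 * L ^ 4 * (x * (H : ℝ) ^ 2 / P ^ 2) ≤ E / 36 := by
    have h1 := hgen C1 (by linarith only [hC1, hδ0, hδ2]) (by linarith only [hC1, hC2, hδ0, hδ2, hLm])
    calc C1 * L ^ 2 * L ^ 4 * (x * (H : ℝ) ^ 2 / P ^ 2) = C1 * L ^ 6 * (x * (H : ℝ) ^ 2 / P ^ 2) := by
          ring
      _ ≤ E / 36 := h1
  have b3a : 4 * (2 * L) ^ 2 * (C1 * 1 ^ 2 * L ^ 4 * (x * (H : ℝ) ^ 2 / P ^ 2)) ≤ E / 36 := by
    have h1 := hgen (16 * C1) (by linarith only [hC1, hδ0, hδ2]) (by linarith only [hC1, hC2, hδ0, hδ2, hLm])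
    calc 4 * (2 * L) ^ 2 * (C1 * 1 ^ 2 * L ^ 4 * (x * (H : ℝ) ^ 2 / P ^ 2)) =
        16 * C1 * L ^ 6 * (x * (H : ℝ) ^ 2 / P ^ 2) := by
          ring
      _ ≤ E / 36 := h1
  have hPL : 600 * (L ^ B * L ^ 2) ≤ (x : ℝ) ^ (1 / 3 : ℝ) := by
    refine le_trans ?_ he3
    have h1 : L ^ B * L ^ 2 ≤ P ^ 2 := by
      have h2 : L ^ 2 ≤ L ^ 60 := pow_le_pow_right₀ hL1 (by norm_num)
      calc L ^ B * L ^ 2 ≤ L ^ B * L ^ 60 := by gcongr
        _ = P := hPB.symm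
        _ ≤ P ^ 2 := by nlinarith only [hP1]
    linarith only [h1]
  have b0 : (H : ℝ) ^ 2 * (16 * L ^ 2 * Real.sqrt x) ≤ E / 36 := by
    rw [hE, div_div, le_div_iff₀ (by (clear * - hL4; positivity))]
    have h1 : Real.sqrt x * (x : ℝ) ^ (1 / 3 : ℝ) ≤ x := by
      rw [Real.sqrt_eq_rpow, ← Real.rpow_add hx0]
      calc (x : ℝ) ^ (1 / 2 + 1 / 3 : ℝ) ≤ (x : ℝ) ^ (1 : ℝ) :=
            Real.rpow_le_rpow_of_exponent_le hx1r (by norm_num)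
        _ = x := Real.rpow_one _
    have h2 : 0 ≤ Real.sqrt x := Real.sqrt_nonneg _
    calc (H : ℝ) ^ 2 * (16 * L ^ 2 * Real.sqrt x) * (L ^ B * 36) =
        (H : ℝ) ^ 2 * (Real.sqrt x * (576 * (L ^ B * L ^ 2))) := by ring
      _ ≤ (H : ℝ) ^ 2 * (Real.sqrt x * (x : ℝ) ^ (1 / 3 : ℝ)) := by
          gcongr
          have : 0 ≤ L ^ B * L ^ 2 := by (clear * - hL4; positivity)
          linarith only [hδ0, hδ2, hx3, hPL]
      _ ≤ (H : ℝ) ^ 2 * x := by gcongr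
      _ = x * (H : ℝ) ^ 2 := by ring
  have b1 : (H : ℝ) ^ 2 * (U * (2 * L) ^ 2) ≤ E / 36 := by
    rw [hE, div_div, le_div_iff₀ (by (clear * - hL4; positivity))]
    have h1 : y * (x : ℝ) ^ (1 / 3 : ℝ) ≤ x := by
      rw [hy, ← Real.rpow_add hx0]
      calc (x : ℝ) ^ (δ + 1 / 3 : ℝ) ≤ (x : ℝ) ^ (1 : ℝ) :=
            Real.rpow_le_rpow_of_exponent_le hx1r (by linarith only [hδ0, hδ2])
        _ = x := Real.rpow_one _
    calc (H : ℝ) ^ 2 * (U * (2 * L) ^ 2) * (L ^ B * 36) ≤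
        (H : ℝ) ^ 2 * ((2 * y) * (2 * L) ^ 2) * (L ^ B * 36) := by gcongr
      _ = (H : ℝ) ^ 2 * (y * (288 * (L ^ B * L ^ 2))) := by ring
      _ ≤ (H : ℝ) ^ 2 * (y * (x : ℝ) ^ (1 / 3 : ℝ)) := by
          gcongr
          have : 0 ≤ L ^ B * L ^ 2 := by (clear * - hL4; positivity)
          linarith only [hδ0, hδ2, hx3, hPL]
      _ ≤ (H : ℝ) ^ 2 * x := by gcongr
      _ = x * (H : ℝ) ^ 2 := by ring
  -- the identity
  have hid : ∀ u : ℕ, ∑ n ∈ Ioc u (u + H), (lp n : ℂ) * ex (n * α) =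
      ∑ n ∈ Ioc u (u + H), (BV.LU U n : ℂ) * ex (n * α) -
      ∑ n ∈ Ioc u (u + H), (∑ m ∈ (Icc 1 (U * V)).filter (fun m => m ∣ n), ((f m : ℝ) : ℂ)) *
        ex (n * α) +
      (∑ n ∈ Ioc u (u + H), ((Real.log n : ℝ) : ℂ) * ((∑ m ∈ (Icc 1 V).filter (fun m => m ∣ n),
        ((BV.muV V m : ℝ) : ℂ)) * ex (n * α)) -
      ∑ n ∈ Ioc u (u + H), (∑ m ∈ (Icc 1 V).filter (fun m => m ∣ n),
        ((BV.muV V m * Real.log m : ℝ) : ℂ)) * ex (n * α)) +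
      ∑ n ∈ Ioc u (u + H), (((BV.alphaU U * BV.betaV V) n : ℝ) : ℂ) * ex (n * α) -
      ∑ n ∈ Ioc u (u + H), (((ArithmeticFunction.vonMangoldt n - lp n : ℝ)) : ℂ) *
        ex (n * α) := by
    intro u
    rw [← sum_sub_distrib, ← sum_sub_distrib, ← sum_add_distrib, ← sum_add_distrib,
      ← sum_sub_distrib]
    refine sum_congr rfl fun n hn => ?_
    rw [mem_Ioc] at hn
    have hn1 : 1 ≤ n := by omega
    have h1 := congrArg (fun g : ArithmeticFunction ℝ => g n) (BV.vaughan U V)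
    simp only [ArithmeticFunction.add_apply, sub_eq_add_neg, ArithmeticFunction.neg_apply] at h1
    have h2 := mul_zeta f (U * V) hf0 hn1
    rw [hf] at h2
    have h3 := mul_log (BV.muV V) V hg0 hn1
    rw [h2, h3] at h1
    rw [h1]
    rw [hf]
    push_cast
    ring
  calc ∑ u ∈ range (2 * x + 1), ‖∑ n ∈ Ioc u (u + H), (lp n : ℂ) * ex (n * α)‖ ^ 2 ≤
      ∑ u ∈ range (2 * x + 1), 6 * (‖∑ n ∈ Ioc u (u + H), (BV.LU U n : ℂ) * ex (n * α)‖ ^ 2 +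
      ‖∑ n ∈ Ioc u (u + H), (∑ m ∈ (Icc 1 (U * V)).filter (fun m => m ∣ n), ((f m : ℝ) : ℂ)) *
        ex (n * α)‖ ^ 2 +
      ‖∑ n ∈ Ioc u (u + H), ((Real.log n : ℝ) : ℂ) * ((∑ m ∈ (Icc 1 V).filter (fun m => m ∣ n),
        ((BV.muV V m : ℝ) : ℂ)) * ex (n * α))‖ ^ 2 +
      ‖∑ n ∈ Ioc u (u + H), (∑ m ∈ (Icc 1 V).filter (fun m => m ∣ n),
        ((BV.muV V m * Real.log m : ℝ) : ℂ)) * ex (n * α)‖ ^ 2 +
      ‖∑ n ∈ Ioc u (u + H), (((BV.alphaU U * BV.betaV V) n : ℝ) : ℂ) * ex (n * α)‖ ^ 2 +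
      ‖∑ n ∈ Ioc u (u + H), (((ArithmeticFunction.vonMangoldt n - lp n : ℝ)) : ℂ) *
        ex (n * α)‖ ^ 2) := by
        refine sum_le_sum fun u _ => ?_
        rw [hid u]
        exact six _ _ _ _ _ _
    _ ≤ 6 * (E / 36 + E / 36 + E / 36 + E / 36 + E / 36 + E / 36) := by
        rw [← mul_sum, sum_add_distrib, sum_add_distrib, sum_add_distrib, sum_add_distrib,
          sum_add_distrib]
        refine mul_le_mul_of_nonneg_left ?_ (by norm_num)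
        exact add_le_add (add_le_add (add_le_add (add_le_add (add_le_add (p1.trans b1)
          (p2.trans b2)) (p3a.trans b3a)) (p3b.trans b2)) (p4.trans b4)) (p0.trans b0)
    _ = x * (H : ℝ) ^ 2 / L ^ B := by
        rw [hE]
        ring

end Pool.Agent.VL
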