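import Pool.Agent.Lib.VL.MajorWin3
import Pool.Agent.Lib.VL.MinorWinNu3
import Pool.Agent.Lib.VL.MinorWinP3

/-!
# All frequencies: primes minus sieve model in almost all windows of length `x^(1/3 + ε)`

The proof is that of `VK.si` (file `VK/SI.lean`) with `major_win3`, `minor_win_prime3`, `minor_win_nu3` in place of `major_win`, `minor_win_prime`, `minor_win_nu`. Differences: Dirichlet's theorem with
`Q = ⌊H/L^A2⌋₊` gives `|α - a/q| ≤ 1/(q (Q+1))`, `q ≤ Q`: take `R = Q + 1` (`≥ H/L^A2`) in `minor_win_prime3`; the subwindows of the major arcs have length `h ≥ x^(1/3 + ε/2)`, so use `major_win3 .. (ε/2)`;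
`minor_win_nu3 A (B+4) (1/4)` (or any exponent `< 1/3`): the pointwise bound `C (H/q + x^(1/8) + q) L^3 + H/L^(B+4)` is `≤ H L^(-(B+2))` if `A2 ≥ B + 10`.
-/

set_option autoImplicit false

open Finset Filter Pool.Agent.HLT

namespace Pool.Agent.VL

namespace SI3Aux

lemma ex_lip (a b : ℝ) : ‖ex a - ex b‖ ≤ 2 * Real.pi * |a - b| := by
  have h1 : ex a - ex b = ex b * (ex (a - b) - 1) := by
    rw [mul_sub, ← ex_add, mul_one]
    congr 2
    ring
  rw [h1, norm_mul, norm_ex, one_mul, norm_ex_sub_one]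
  have h2 : |Real.sin (Real.pi * (a - b))| ≤ |Real.pi * (a - b)| := Real.abs_sin_le_abs
  rw [abs_mul, abs_of_pos Real.pi_pos] at h2
  nlinarith

/-- Cutting at `N`. -/
lemma cut (N H : ℕ) (F : ℝ) (hF : 0 ≤ F) (f : ℕ → ℂ) (hf : ∀ n ≤ N, ‖f n‖ ≤ F) :
    ∑ u ∈ range (N + 1), ‖∑ n ∈ (Ioc u (u + H)).filter (fun n => n ≤ N), f n‖ ^ 2 ≤
      ∑ u ∈ (range (N + 1)).filter (fun u => u + H ≤ N), ‖∑ n ∈ Ioc u (u + H), f n‖ ^ 2 +
        H * (H * F) ^ 2 := by
  rw [← Finset.sum_filter_add_sum_filter_not (range (N + 1)) (fun u => u + H ≤ N)]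
  refine add_le_add (le_of_eq ?_) ?_
  · refine Finset.sum_congr rfl (fun u hu => ?_)
    rw [Finset.mem_filter] at hu
    congr 2
    apply Finset.sum_congr _ (fun _ _ => rfl)
    rw [Finset.filter_true_of_mem]
    intro n hn
    rw [Finset.mem_Ioc] at hn
    omega
  · have h1 : ∀ u ∈ (range (N + 1)).filter (fun u => ¬ u + H ≤ N),
        ‖∑ n ∈ (Ioc u (u + H)).filter (fun n => n ≤ N), f n‖ ^ 2 ≤ (H * F) ^ 2 := by
      intro u _
      refine pow_le_pow_left₀ (norm_nonneg _) ?_ 2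
      refine (norm_sum_le _ _).trans ?_
      have h2 : ∀ n ∈ (Ioc u (u + H)).filter (fun n => n ≤ N), ‖f n‖ ≤ F := by
        intro n hn
        exact hf n (Finset.mem_filter.1 hn).2
      refine (Finset.sum_le_card_nsmul _ _ _ h2).trans ?_
      rw [nsmul_eq_mul]
      refine mul_le_mul_of_nonneg_right ?_ hF
      have h3 := Finset.card_filter_le (Ioc u (u + H)) (fun n => n ≤ N)
      rw [Nat.card_Ioc] at h3
      have h4 : ((Ioc u (u + H)).filter (fun n => n ≤ N)).card ≤ H := by omega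
      exact_mod_cast h4
    refine (Finset.sum_le_card_nsmul _ _ _ h1).trans ?_
    rw [nsmul_eq_mul]
    refine mul_le_mul_of_nonneg_right ?_ (by positivity)
    have h5 : (range (N + 1)).filter (fun u => ¬ u + H ≤ N) ⊆ Ico (N + 1 - H) (N + 1) := by
      intro u hu
      rw [Finset.mem_filter, Finset.mem_range] at hu
      rw [Finset.mem_Ico]
      omega
    have h6 := Finset.card_le_card h5
    rw [Nat.card_Ico] at h6
    have h7 : ((range (N + 1)).filter (fun u => ¬ u + H ≤ N)).card ≤ H := by omega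
    exact_mod_cast h7

lemma split_window (h R u H : ℕ) (hRH : R * h ≤ H) (f : ℕ → ℂ) :
    ∑ n ∈ Ioc u (u + H), f n =
      ∑ i ∈ range R, ∑ n ∈ Ioc (u + i * h) (u + i * h + h), f n +
        ∑ n ∈ Ioc (u + R * h) (u + H), f n := by
  have h1 : ∀ r : ℕ, ∑ i ∈ range r, ∑ n ∈ Ioc (u + i * h) (u + i * h + h), f n =
      ∑ n ∈ Ioc u (u + r * h), f n := by
    intro r
    induction r with
    | zero => simp
    | succ r ih =>
      rw [Finset.sum_range_succ, ih]
      have e : u + (r + 1) * h = u + r * h + h := by ring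
      rw [e]
      exact Finset.sum_Ioc_consecutive f (by omega) (by omega)
  rw [h1, Finset.sum_Ioc_consecutive f (by omega) (by omega)]

lemma sub_le (c : ℕ → ℂ) (v h : ℕ) (F r η : ℝ) (hF : 0 ≤ F)
    (hc : ∀ n ∈ Ioc v (v + h), ‖c n‖ ≤ F) :
    ‖∑ n ∈ Ioc v (v + h), c n * ex (n * (r + η))‖ ≤
      ‖∑ n ∈ Ioc v (v + h), c n * ex (n * r)‖ + h * (F * (2 * Real.pi * (|η| * h))) := by
  have h1 : ∑ n ∈ Ioc v (v + h), c n * ex (n * (r + η)) =
      ex (v * η) * ∑ n ∈ Ioc v (v + h), c n * ex (n * r) +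
        ∑ n ∈ Ioc v (v + h), c n * ex (n * r) * (ex (n * η) - ex (v * η)) := by
    rw [Finset.mul_sum, ← Finset.sum_add_distrib]
    refine Finset.sum_congr rfl (fun n _ => ?_)
    rw [mul_add (n : ℝ) r η, ex_add]
    ring
  rw [h1]
  refine (norm_add_le _ _).trans (add_le_add (le_of_eq ?_) ?_)
  · rw [norm_mul, norm_ex, one_mul]
  · refine (norm_sum_le _ _).trans ?_
    have h2 : ∀ n ∈ Ioc v (v + h), ‖c n * ex (n * r) * (ex (n * η) - ex (v * η))‖ ≤
        F * (2 * Real.pi * (|η| * h)) := by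
      intro n hn
      rw [norm_mul, norm_mul, norm_ex, mul_one]
      refine mul_le_mul (hc n hn) ?_ (norm_nonneg _) hF
      refine (ex_lip _ _).trans ?_
      refine mul_le_mul_of_nonneg_left ?_ (by positivity)
      rw [← sub_mul, abs_mul, mul_comm]
      refine mul_le_mul_of_nonneg_left ?_ (abs_nonneg _)
      rw [Finset.mem_Ioc] at hn
      have h3 : (v : ℝ) ≤ n := by exact_mod_cast hn.1.le
      have h4 : (n : ℝ) ≤ v + h := by exact_mod_cast hn.2
      rw [abs_of_nonneg (by linarith)]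
      linarith
    refine (Finset.sum_le_card_nsmul _ _ _ h2).trans ?_
    rw [nsmul_eq_mul, Nat.card_Ioc, Nat.add_sub_cancel_left]

/-- Major arcs: from the windows of length `H` to those of length `h`. -/
lemma major_red (c : ℕ → ℂ) (N H h R : ℕ) (F r η : ℝ) (hF : 0 ≤ F)
    (hc : ∀ n ≤ N, ‖c n‖ ≤ F) (hRH : R * h ≤ H) (hRH2 : H ≤ R * h + R) :
    ∑ u ∈ (range (N + 1)).filter (fun u => u + H ≤ N), ‖∑ n ∈ Ioc u (u + H), c n * ex (n * (r + η))‖ ^ 2 ≤
      2 * R ^ 2 * ∑ v ∈ range (N + 1), ‖∑ n ∈ Ioc v (v + h), c n * ex (n * r)‖ ^ 2 +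
      2 * (N + 1) * (F * (2 * Real.pi * |η| * (R * h) * h + R)) ^ 2 := by
  set S : ℕ → ℂ := fun v => ∑ n ∈ Ioc v (v + h), c n * ex (n * r) with hS
  set E : ℝ := F * (2 * Real.pi * |η| * (R * h) * h + R) with hE
  have hE0 : 0 ≤ E := by positivity
  have h1 : ∀ u ∈ (range (N + 1)).filter (fun u => u + H ≤ N),
      ‖∑ n ∈ Ioc u (u + H), c n * ex (n * (r + η))‖ ^ 2 ≤
        2 * R * ∑ i ∈ range R, ‖S (u + i * h)‖ ^ 2 + 2 * E ^ 2 := by
    intro u hu
    rw [Finset.mem_filter] at hu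
    have huH := hu.2
    have h2 : ‖∑ n ∈ Ioc u (u + H), c n * ex (n * (r + η))‖ ≤
        ∑ i ∈ range R, ‖S (u + i * h)‖ + E := by
      rw [split_window h R u H hRH]
      refine (norm_add_le _ _).trans ?_
      have h3 : ‖∑ i ∈ range R, ∑ n ∈ Ioc (u + i * h) (u + i * h + h), c n * ex (n * (r + η))‖ ≤
          ∑ i ∈ range R, ‖S (u + i * h)‖ + R * (h * (F * (2 * Real.pi * (|η| * h)))) := by
        refine (norm_sum_le _ _).trans ?_
        have h4 : (R : ℝ) * (h * (F * (2 * Real.pi * (|η| * h)))) =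
            ∑ _i ∈ range R, (h * (F * (2 * Real.pi * (|η| * h)))) := by
          rw [Finset.sum_const, Finset.card_range, nsmul_eq_mul]
        rw [h4, ← Finset.sum_add_distrib]
        refine Finset.sum_le_sum (fun i hi => ?_)
        rw [Finset.mem_range] at hi
        refine sub_le c (u + i * h) h F r η hF ?_
        intro n hn
        apply hc
        rw [Finset.mem_Ioc] at hn
        have h5 : i * h + h ≤ R * h := by
          have : (i + 1) * h ≤ R * h := Nat.mul_le_mul_right h (by omega)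
          linarith only [this]
        omega
      have h6 : ‖∑ n ∈ Ioc (u + R * h) (u + H), c n * ex (n * (r + η))‖ ≤ R * F := by
        refine (norm_sum_le _ _).trans ?_
        have h7 : ∀ n ∈ Ioc (u + R * h) (u + H), ‖c n * ex (n * (r + η))‖ ≤ F := by
          intro n hn
          rw [norm_mul, norm_ex, mul_one]
          apply hc
          rw [Finset.mem_Ioc] at hn
          omega
        refine (Finset.sum_le_card_nsmul _ _ _ h7).trans ?_
        rw [nsmul_eq_mul, Nat.card_Ioc]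
        refine mul_le_mul_of_nonneg_right ?_ hF
        have h8 : u + H - (u + R * h) ≤ R := by omega
        exact_mod_cast h8
      have h9 : (R : ℝ) * (h * (F * (2 * Real.pi * (|η| * h)))) + R * F = E := by
        rw [hE]; ring
      linarith only [h3, h6]
    have h10 : (∑ i ∈ range R, ‖S (u + i * h)‖) ^ 2 ≤ R * ∑ i ∈ range R, ‖S (u + i * h)‖ ^ 2 := by
      have := sq_sum_le_card_mul_sum_sq (s := range R) (f := fun i => ‖S (u + i * h)‖)
      rwa [Finset.card_range] at this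
    have h11 : 0 ≤ ∑ i ∈ range R, ‖S (u + i * h)‖ := Finset.sum_nonneg (fun _ _ => norm_nonneg _)
    calc ‖∑ n ∈ Ioc u (u + H), c n * ex (n * (r + η))‖ ^ 2 ≤
          (∑ i ∈ range R, ‖S (u + i * h)‖ + E) ^ 2 := pow_le_pow_left₀ (norm_nonneg _) h2 2
      _ ≤ 2 * (∑ i ∈ range R, ‖S (u + i * h)‖) ^ 2 + 2 * E ^ 2 := by
          nlinarith only [sq_nonneg (∑ i ∈ range R, ‖S (u + i * h)‖ - E)]
      _ ≤ 2 * R * ∑ i ∈ range R, ‖S (u + i * h)‖ ^ 2 + 2 * E ^ 2 := by
          nlinarith only [h10]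
  refine (Finset.sum_le_sum h1).trans ?_
  rw [Finset.sum_add_distrib]
  refine add_le_add ?_ ?_
  · rw [← Finset.mul_sum, Finset.sum_comm]
    have h12 : ∀ i ∈ range R, ∑ u ∈ (range (N + 1)).filter (fun u => u + H ≤ N), ‖S (u + i * h)‖ ^ 2 ≤
        ∑ v ∈ range (N + 1), ‖S v‖ ^ 2 := by
      intro i hi
      rw [Finset.mem_range] at hi
      have hinj : Set.InjOn (fun u : ℕ => u + i * h)
          (((range (N + 1)).filter (fun u => u + H ≤ N) : Finset ℕ) : Set ℕ) := by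
        intro a _ b _ hab
        simpa using hab
      have h13 := Finset.sum_image (f := fun v => ‖S v‖ ^ 2) hinj
      rw [← h13]
      refine Finset.sum_le_sum_of_subset_of_nonneg ?_ (fun v _ _ => by positivity)
      intro v hv
      rw [Finset.mem_image] at hv
      obtain ⟨u, hu, rfl⟩ := hv
      rw [Finset.mem_filter] at hu
      rw [Finset.mem_range]
      have h5 : i * h ≤ R * h := Nat.mul_le_mul_right h (by omega)
      omega
    have h14 := Finset.sum_le_sum h12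
    rw [Finset.sum_const, Finset.card_range, nsmul_eq_mul] at h14
    have h15 : 2 * (R : ℝ) * ∑ i ∈ range R, ∑ u ∈ (range (N + 1)).filter (fun u => u + H ≤ N), ‖S (u + i * h)‖ ^ 2 ≤
        2 * R * (R * ∑ v ∈ range (N + 1), ‖S v‖ ^ 2) :=
      mul_le_mul_of_nonneg_left h14 (by positivity)
    refine h15.trans (le_of_eq (by ring))
  · rw [Finset.sum_const, nsmul_eq_mul]
    have h16 : (((range (N + 1)).filter (fun u => u + H ≤ N)).card : ℝ) ≤ N + 1 := by
      have := Finset.card_filter_le (range (N + 1)) (fun u => u + H ≤ N)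
      rw [Finset.card_range] at this
      exact_mod_cast this
    have h17 : 0 ≤ 2 * E ^ 2 := by positivity
    calc (((range (N + 1)).filter (fun u => u + H ≤ N)).card : ℝ) * (2 * E ^ 2) ≤
          (N + 1) * (2 * E ^ 2) := mul_le_mul_of_nonneg_right h16 h17
      _ = 2 * (N + 1) * E ^ 2 := by ring

end SI3Aux

namespace SI3Aux

open Pool.Agent.HLB Pool.Agent.HLU

/-- Powers of `log x` are at most powers of `x`. -/
lemma ev_lp (a : ℕ) (K δ : ℝ) (hδ : 0 < δ) : ∀ᶠ x : ℕ in atTop, K * Real.log x ^ a ≤ (x : ℝ) ^ δ := by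
  have h1 : (fun x : ℝ => Real.log x ^ a) =o[atTop] (fun x : ℝ => x ^ δ) := by
    have h := isLittleO_log_rpow_rpow_atTop (a : ℝ) hδ
    simp only [Real.rpow_natCast] at h
    exact h
  have hK : (0 : ℝ) < 1 / (|K| + 1) := by positivity
  have h2 := (h1.comp_tendsto tendsto_natCast_atTop_atTop).bound hK
  filter_upwards [h2, ev_log 1, eventually_ge_atTop 1] with x hx hL hx1
  have hL0 : 0 < Real.log x := by linarith
  simp only [Function.comp_def] at hx
  have hxp : 0 ≤ (x : ℝ) ^ δ := Real.rpow_nonneg (Nat.cast_nonneg _) _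
  rw [Real.norm_of_nonneg (by positivity), Real.norm_of_nonneg hxp] at hx
  have h3 : (|K| + 1) * Real.log x ^ a ≤ (x : ℝ) ^ δ := by
    calc (|K| + 1) * Real.log x ^ a ≤ (|K| + 1) * (1 / (|K| + 1) * (x : ℝ) ^ δ) :=
          mul_le_mul_of_nonneg_left hx (by positivity)
      _ = (x : ℝ) ^ δ := by field_simp
  have h4 : K ≤ |K| + 1 := by linarith [le_abs_self K]
  exact (mul_le_mul_of_nonneg_right h4 (by positivity)).trans h3

lemma ff_norm {A x n : ℕ} (hL : 2 ≤ Real.log x) (hD : (DZ (zA A x))⁻¹ ≤ Real.log x)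
    (hn : n ≤ 2 * x) : ‖(ff (zA A x) n : ℂ)‖ ≤ Real.log x ^ 2 := by
  rw [Complex.norm_real, Real.norm_eq_abs]
  unfold ff
  have h1 := lp_le_sq hL hn
  have h2 := lp_nonneg n
  have h3 := nuz_nonneg (zA A x) n
  have h4 : nuz (zA A x) n ≤ Real.log x ^ 2 := by
    refine (nuz_le _ _).trans (hD.trans ?_)
    nlinarith only [hL]
  rw [abs_le]
  constructor <;> linarith

/-- Dirichlet's theorem. -/
lemma dirichlet (α H P : ℝ) (hP : 0 < P) (hPH : P ≤ H) : ∃ (q Q : ℕ) (a : ℤ), 1 ≤ q ∧ q ≤ Q ∧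
    (Q : ℝ) ≤ H / P ∧ H / P ≤ (Q + 1 : ℕ) ∧ IsCoprime a (q : ℤ) ∧
    |α - a / q| ≤ 1 / ((q : ℝ) * (Q + 1 : ℕ)) := by
  have hH : 0 < H := lt_of_lt_of_le hP hPH
  have hn1 : 0 < ⌊H / P⌋₊ := by
    rw [Nat.floor_pos, le_div_iff₀ hP]
    simpa using hPH
  obtain ⟨r, hr1, hr2⟩ := Real.exists_rat_abs_sub_le_and_den_le α hn1
  have hcast : (r : ℝ) = (r.num : ℝ) / (r.den : ℝ) := by
    exact_mod_cast congrArg (fun t : ℚ => (t : ℝ)) (Rat.num_div_den r).symm
  rw [hcast] at hr1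
  refine ⟨r.den, ⌊H / P⌋₊, r.num, r.den_pos, hr2, Nat.floor_le (by positivity), ?_, ?_, ?_⟩
  · push_cast
    exact (Nat.lt_floor_add_one _).le
  · rw [Int.isCoprime_iff_gcd_eq_one]
    have := r.reduced
    rwa [Nat.Coprime] at this
  · refine hr1.trans (le_of_eq ?_)
    push_cast
    rw [mul_comm]

end SI3Aux

open SI3Aux Pool.Agent.HLU

theorem si3 (A0 B : ℕ) (ε : ℝ) (hε : 0 < ε) : ∃ A c : ℕ, A0 ≤ A ∧ ∀ᶠ x : ℕ in atTop, ∀ (H : ℕ) (α : ℝ),
    (x : ℝ) ^ (1 / 3 + ε) ≤ H → (H : ℝ) ≤ x / Real.log x ^ c →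
    ∑ u ∈ range (2 * x + 1), ‖∑ n ∈ (Ioc u (u + H)).filter (fun n => n ≤ 2 * x), (ff (zA A x) n : ℂ) * ex (n * α)‖ ^ 2 ≤
      x * (H : ℝ) ^ 2 / Real.log x ^ B := by
  obtain ⟨A2, hmp⟩ := minor_win_prime3 (B + 4) ε hε
  obtain ⟨M, hM⟩ : ∃ M, M = max A2 (B + 10) := ⟨_, rfl⟩
  have hMA : A2 ≤ M := by omega
  have hMB : B + 10 ≤ M := by omega
  obtain ⟨K, hK⟩ : ∃ K, K = M + B + 10 := ⟨_, rfl⟩
  obtain ⟨c0, hmaj⟩ := major_win3 M (B + 4) (ε / 2) (by positivity)
  obtain ⟨A, hA⟩ : ∃ A, A = max A0 M := ⟨_, rfl⟩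
  have hmaj' := hmaj A (by omega)
  obtain ⟨C, hC, hnu⟩ := minor_win_nu3 A (B + 4) (1 / 4) (by norm_num)
  refine ⟨A, max c0 (B + 8), by omega, ?_⟩
  filter_upwards [hmp, hmaj', hnu, DZ_inv_le A, ev_log 3, ev_log (3 * C), eventually_ge_atTop 1,
    ev_lp M 1 (1 / 6) (by norm_num), ev_lp (K + B + 10) 2 (1 / 3) (by norm_num),
    ev_lp K 4 (ε / 2) (by positivity)] with x hmp hmaj hnu hDZ hL3 hLC hx1 e2 e3 e4
  intro H α hxH hHx
  set L := Real.log x with hLdef
  have hx1' : (1 : ℝ) ≤ x := by exact_mod_cast hx1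
  have hx0 : (0 : ℝ) < x := by linarith only [hx1']
  have hL0 : 0 < L := by linarith only [hL3]
  have hL1 : 1 ≤ L := by linarith only [hL3]
  -- sizes
  have hx13 : (x : ℝ) ^ (1 / 3 : ℝ) ≤ (x : ℝ) ^ (1 / 3 + ε) :=
    Real.rpow_le_rpow_of_exponent_le hx1' (by linarith only [hε])
  have hH13 : (x : ℝ) ^ (1 / 3 : ℝ) ≤ H := hx13.trans hxH
  have hx13' : (1 : ℝ) ≤ (x : ℝ) ^ (1 / 3 : ℝ) := Real.one_le_rpow hx1' (by norm_num)
  have hH1 : (1 : ℝ) ≤ H := hx13'.trans hH13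
  have hH0 : (0 : ℝ) < H := by linarith only [hxH, hx13, hx13']
  have hHx' : (H : ℝ) ≤ x := hHx.trans (div_le_self hx0.le (one_le_pow₀ hL1))
  have hHxN : H ≤ x := by exact_mod_cast hHx'
  have hHc0 : (H : ℝ) ≤ x / L ^ c0 := by
    refine hHx.trans (div_le_div_of_nonneg_left hx0.le (by (clear * - hL3; positivity)) ?_)
    exact pow_le_pow_right₀ hL1 (le_max_left _ _)
  have hHcB : (H : ℝ) ≤ x / L ^ (B + 8) := by
    refine hHx.trans (div_le_div_of_nonneg_left hx0.le (by (clear * - hL3; positivity)) ?_)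
    exact pow_le_pow_right₀ hL1 (le_max_right _ _)
  have hLM1 : 1 ≤ L ^ M := one_le_pow₀ hL1
  have hx16 : (x : ℝ) ^ (1 / 6 : ℝ) ≤ H := by
    refine le_trans ?_ hH13
    exact Real.rpow_le_rpow_of_exponent_le hx1' (by norm_num)
  rw [one_mul] at e2
  have hLMH : L ^ M ≤ H := e2.trans hx16
  have hLA2H : L ^ A2 ≤ H := (pow_le_pow_right₀ hL1 hMA).trans hLMH
  have hfn : ∀ n ≤ 2 * x, ‖(ff (zA A x) n : ℂ) * ex (n * α)‖ ≤ L ^ 2 := by
    intro n hn
    rw [norm_mul, norm_ex, mul_one]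
    exact ff_norm (by linarith only [hL3]) hDZ hn
  have hcut := cut (2 * x) H (L ^ 2) (by (clear * - hL3; positivity)) (fun n => (ff (zA A x) n : ℂ) * ex (n * α)) hfn
  refine hcut.trans ?_
  -- the cut term
  have hcut2 : (H : ℝ) * (H * L ^ 2) ^ 2 ≤ x * (H : ℝ) ^ 2 / L ^ (B + 4) := by
    have h1 : (H : ℝ) * (H * L ^ 2) ^ 2 = H * ((H : ℝ) ^ 2 * L ^ 4) := by ring
    rw [h1]
    have h2 : (x : ℝ) * (H : ℝ) ^ 2 / L ^ (B + 4) = x / L ^ (B + 8) * ((H : ℝ) ^ 2 * L ^ 4) := by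
      have : L ^ (B + 8) = L ^ (B + 4) * L ^ 4 := by rw [← pow_add]
      rw [this]
      field_simp
    rw [h2]
    exact mul_le_mul_of_nonneg_right hHcB (by (clear * - hL3 hH1; positivity))
  -- it suffices to prove three quarters
  have hfin : 4 * (x * (H : ℝ) ^ 2 / L ^ (B + 4)) ≤ x * (H : ℝ) ^ 2 / L ^ B := by
    have h2 : (x : ℝ) * (H : ℝ) ^ 2 / L ^ B = L ^ 4 * (x * (H : ℝ) ^ 2 / L ^ (B + 4)) := by
      have : L ^ (B + 4) = L ^ B * L ^ 4 := by rw [← pow_add]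
      rw [this]
      field_simp
    rw [h2]
    refine mul_le_mul_of_nonneg_right ?_ (by (clear * - hx1 hL3 hH1; positivity))
    have : (1 : ℝ) ≤ L ^ 3 := one_le_pow₀ hL1
    nlinarith
  suffices hmain : ∑ u ∈ (range (2 * x + 1)).filter (fun u => u + H ≤ 2 * x),
      ‖∑ n ∈ Ioc u (u + H), (ff (zA A x) n : ℂ) * ex (n * α)‖ ^ 2 ≤
      3 * (x * (H : ℝ) ^ 2 / L ^ (B + 4)) by linarith only [hcut2, hfin, hmain]
  have hT0 : 0 ≤ x * (H : ℝ) ^ 2 / L ^ (B + 4) := by (clear * - hx1 hL3 hH1; positivity)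
  -- the major arc argument
  have hmajor : ∀ (q : ℕ) (a : ℤ), 1 ≤ q → (q : ℝ) ≤ L ^ M → |α - a / q| ≤ L ^ M / H →
      ∑ u ∈ (range (2 * x + 1)).filter (fun u => u + H ≤ 2 * x),
      ‖∑ n ∈ Ioc u (u + H), (ff (zA A x) n : ℂ) * ex (n * α)‖ ^ 2 ≤
      3 * (x * (H : ℝ) ^ 2 / L ^ (B + 4)) := by
    intro q a hq hqM hα
    set η : ℝ := α - a / q with hη
    have hαη : α = a / q + η := by rw [hη]; ring
    have hLK1 : 1 ≤ L ^ K := one_le_pow₀ hL1
    set R : ℕ := ⌈L ^ K⌉₊ with hR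
    have hR1 : L ^ K ≤ R := Nat.le_ceil _
    have hR2 : (R : ℝ) ≤ 2 * L ^ K := by
      have := (Nat.ceil_lt_add_one (by (clear * - hL3; positivity) : (0 : ℝ) ≤ L ^ K)).le
      linarith only [hLK1, this]
    have hR0 : 0 < R := by
      have : (0 : ℝ) < R := by linarith only [hLK1, hR1]
      exact_mod_cast this
    have hR0' : (0 : ℝ) < R := by exact_mod_cast hR0
    obtain ⟨h, hh⟩ : ∃ h, h = H / R := ⟨_, rfl⟩
    have hRh : R * h ≤ H := by rw [hh]; exact Nat.mul_div_le H R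
    have hRh2 : H ≤ R * h + R := by
      have := Nat.lt_mul_div_succ H hR0
      rw [← hh] at this
      have h3 : R * (h + 1) = R * h + R := by ring
      omega
    have hRhr : (R : ℝ) * h ≤ H := by exact_mod_cast hRh
    have hRh2r : (H : ℝ) ≤ R * h + R := by exact_mod_cast hRh2
    have hcN : ∀ n ≤ 2 * x, ‖(ff (zA A x) n : ℂ)‖ ≤ L ^ 2 := fun n hn =>
      ff_norm (by linarith only [hL3]) hDZ hn
    have hred := major_red (fun n => (ff (zA A x) n : ℂ)) (2 * x) H h R (L ^ 2) (a / q) η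
      (by (clear * - hL3; positivity)) hcN hRh hRh2
    rw [← hαη] at hred
    refine hred.trans ?_
    -- size of `h`
    have hhx : (x : ℝ) ^ (1 / 3 + ε / 2) ≤ h := by
      have h1 : (x : ℝ) ^ (1 / 3 + ε) = (x : ℝ) ^ (1 / 3 + ε / 2) * (x : ℝ) ^ (ε / 2) := by
        rw [← Real.rpow_add hx0]
        congr 1
        ring
      have h2 : (1 : ℝ) ≤ (x : ℝ) ^ (1 / 3 + ε / 2) := Real.one_le_rpow hx1' (by (clear * - hε; positivity))
      have h3 : (x : ℝ) ^ (1 / 3 + ε / 2) * (4 * L ^ K) ≤ H := by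
        refine le_trans ?_ hxH
        rw [h1]
        exact mul_le_mul_of_nonneg_left e4 (by (clear * - hx1; positivity))
      have h4 : (x : ℝ) ^ (1 / 3 + ε / 2) * (2 * R) ≤ H := by
        refine le_trans ?_ h3
        exact mul_le_mul_of_nonneg_left (by linarith only [hR2]) (by (clear * - hx1; positivity))
      have h5 : (R : ℝ) * (2 * (x : ℝ) ^ (1 / 3 + ε / 2)) ≤ R * (h + 1) := by linarith only [hRh2r, h4]
      have h6 := le_of_mul_le_mul_left h5 hR0'
      linarith only [h2, h6]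
    have hhH : (h : ℝ) ≤ H := by
      have : h ≤ H := by rw [hh]; exact Nat.div_le_self _ _
      exact_mod_cast this
    have hT := hmaj q a hq hqM h hhx (hhH.trans hHc0)
    have hpart1 : 2 * (R : ℝ) ^ 2 * ∑ v ∈ range (2 * x + 1), ‖∑ n ∈ Ioc v (v + h), (ff (zA A x) n : ℂ) * ex (n * (a / q))‖ ^ 2 ≤
        2 * (x * (H : ℝ) ^ 2 / L ^ (B + 4)) := by
      have h1 : 2 * (R : ℝ) ^ 2 * ∑ v ∈ range (2 * x + 1), ‖∑ n ∈ Ioc v (v + h), (ff (zA A x) n : ℂ) * ex (n * (a / q))‖ ^ 2 ≤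
          2 * (R : ℝ) ^ 2 * (x * (h : ℝ) ^ 2 / L ^ (B + 4)) :=
        mul_le_mul_of_nonneg_left hT (by (clear * - hL3; positivity))
      refine h1.trans ?_
      have h2 : 2 * (R : ℝ) ^ 2 * (x * (h : ℝ) ^ 2 / L ^ (B + 4)) =
          2 * (x * (R * h : ℝ) ^ 2 / L ^ (B + 4)) := by ring
      rw [h2]
      refine mul_le_mul_of_nonneg_left ?_ (by norm_num)
      refine div_le_div_of_nonneg_right ?_ (by (clear * - hL3; positivity))
      refine mul_le_mul_of_nonneg_left ?_ hx0.le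
      exact pow_le_pow_left₀ (by (clear * - hL3; positivity)) hRhr 2
    have hE : L ^ 2 * (2 * Real.pi * |η| * (R * h) * h + R) ≤ 8 * (H / L ^ (B + 8)) := by
      have hpi : 2 * Real.pi ≤ 7 := by
        have := Real.pi_lt_d2
        linarith only [this]
      have hLMpos : 0 < L ^ M := by (clear * - hL3; positivity)
      have h1 : 2 * Real.pi * |η| * (R * h) ≤ 7 * L ^ M := by
        have h2 : |η| * (R * h) ≤ L ^ M / H * H :=
          mul_le_mul hα hRhr (by (clear * - hL3; positivity)) (by (clear * - hL3 hH1; positivity))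
        rw [div_mul_cancel₀ _ hH0.ne'] at h2
        have h3 : 2 * Real.pi * (|η| * (R * h)) ≤ 7 * L ^ M :=
          mul_le_mul hpi h2 (by (clear * - hL3; positivity)) (by norm_num)
        linarith only [h3]
      have h2 : (h : ℝ) ≤ H / L ^ K := by
        rw [le_div_iff₀ (by (clear * - hL3; positivity))]
        calc (h : ℝ) * L ^ K ≤ h * R := mul_le_mul_of_nonneg_left hR1 (Nat.cast_nonneg _)
          _ ≤ H := by linarith only [hRhr]
      have h3 : 2 * Real.pi * |η| * (R * h) * h ≤ 7 * L ^ M * (H / L ^ K) :=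
        mul_le_mul h1 h2 (Nat.cast_nonneg _) (by (clear * - hL3; positivity))
      have h4 : L ^ 2 * (7 * L ^ M * (H / L ^ K)) = 7 * (H / L ^ (B + 8)) := by
        have e : L ^ K = L ^ 2 * L ^ M * L ^ (B + 8) := by
          rw [hK, ← pow_add, ← pow_add]
          congr 1
          ring
        rw [e]
        field_simp
      have h5 : L ^ 2 * (R : ℝ) ≤ H / L ^ (B + 8) := by
        rw [le_div_iff₀ (by (clear * - hL3; positivity))]
        have e : L ^ 2 * (2 * L ^ K) * L ^ (B + 8) = 2 * L ^ (K + B + 10) := by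
          have : L ^ (K + B + 10) = L ^ 2 * L ^ K * L ^ (B + 8) := by
            rw [← pow_add, ← pow_add]
            congr 1
            ring
          rw [this]; ring
        calc L ^ 2 * (R : ℝ) * L ^ (B + 8) ≤ L ^ 2 * (2 * L ^ K) * L ^ (B + 8) := by
              refine mul_le_mul_of_nonneg_right ?_ (by (clear * - hL3; positivity))
              exact mul_le_mul_of_nonneg_left hR2 (by (clear * - hL3; positivity))
          _ = 2 * L ^ (K + B + 10) := e
          _ ≤ (x : ℝ) ^ (1 / 3 : ℝ) := e3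
          _ ≤ H := hH13
      calc L ^ 2 * (2 * Real.pi * |η| * (R * h) * h + R) =
            L ^ 2 * (2 * Real.pi * |η| * (R * h) * h) + L ^ 2 * R := by ring
        _ ≤ L ^ 2 * (7 * L ^ M * (H / L ^ K)) + H / L ^ (B + 8) :=
            add_le_add (mul_le_mul_of_nonneg_left h3 (by (clear * - hL3; positivity))) h5
        _ = 8 * (H / L ^ (B + 8)) := by rw [h4]; ring
    have hpart2 : 2 * (((2 * x : ℕ) : ℝ) + 1) * (L ^ 2 * (2 * Real.pi * |η| * (R * h) * h + R)) ^ 2 ≤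
        x * (H : ℝ) ^ 2 / L ^ (B + 4) := by
      have h1 : (L ^ 2 * (2 * Real.pi * |η| * (R * h) * h + R)) ^ 2 ≤ (8 * (H / L ^ (B + 8))) ^ 2 :=
        pow_le_pow_left₀ (by (clear * - hL3; positivity)) hE 2
      have h2 : 2 * (((2 * x : ℕ) : ℝ) + 1) ≤ 6 * x := by
        push_cast
        linarith only [hx1']
      calc 2 * (((2 * x : ℕ) : ℝ) + 1) * (L ^ 2 * (2 * Real.pi * |η| * (R * h) * h + R)) ^ 2 ≤
            6 * x * (8 * (H / L ^ (B + 8))) ^ 2 :=
              mul_le_mul h2 h1 (by (clear * - hL3; positivity)) (by (clear * - hx1; positivity))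
        _ = 384 / L ^ (B + 12) * (x * (H : ℝ) ^ 2 / L ^ (B + 4)) := by
              have e : L ^ (B + 12) * L ^ (B + 4) = (L ^ (B + 8)) ^ 2 := by
                rw [← pow_add, ← pow_mul]
                congr 1
                ring
              rw [div_mul_div_comm, e]
              field_simp
              norm_num
        _ ≤ 1 * (x * (H : ℝ) ^ 2 / L ^ (B + 4)) := by
              refine mul_le_mul_of_nonneg_right ?_ hT0
              rw [div_le_one (by (clear * - hL3; positivity))]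
              have h3 : (3 : ℝ) ^ 12 ≤ L ^ 12 := pow_le_pow_left₀ (by norm_num) hL3 12
              have h4 : L ^ 12 ≤ L ^ (B + 12) := pow_le_pow_right₀ hL1 (by omega)
              have h5 : (384 : ℝ) ≤ 3 ^ 12 := by norm_num
              linarith only [h3, h4]
        _ = x * (H : ℝ) ^ 2 / L ^ (B + 4) := one_mul _
    have := add_le_add hpart1 hpart2
    refine le_trans (le_of_eq ?_) (this.trans (le_of_eq (by ring)))
    rfl
  -- Dirichlet
  obtain ⟨q, Q, a, hq1, hqQ, hQH, hHQ, hcop, hα⟩ := dirichlet α H (L ^ A2) (by (clear * - hL3; positivity)) hLA2H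
  obtain ⟨q', Q', a', hq1', hqQ', hQH', hHQ', hcop', hα'⟩ :=
    dirichlet α H (L ^ M) (by (clear * - hL3; positivity)) hLMH
  have hq1r : (1 : ℝ) ≤ q := by exact_mod_cast hq1
  have hq1r' : (1 : ℝ) ≤ q' := by exact_mod_cast hq1'
  have harc : ∀ (P : ℝ) (q Q : ℕ) (a : ℤ), 0 < P → P ≤ L ^ M → 1 ≤ q → (H : ℝ) / P ≤ (Q + 1 : ℕ) →
      |α - a / q| ≤ 1 / ((q : ℝ) * (Q + 1 : ℕ)) → |α - a / q| ≤ L ^ M / H := by
    intro P q Q a hP hPM hq hHQ hα
    refine hα.trans ?_
    have hq' : (1 : ℝ) ≤ q := by exact_mod_cast hq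
    have h1 : (H : ℝ) ≤ P * (Q + 1 : ℕ) := by
      rw [div_le_iff₀ hP] at hHQ
      linarith only [hHQ]
    have hQ0 : (0 : ℝ) < (Q + 1 : ℕ) := by (clear * -; positivity)
    rw [div_le_div_iff₀ (by (clear * - hq; positivity)) hH0, one_mul]
    calc (H : ℝ) ≤ P * (Q + 1 : ℕ) := h1
      _ ≤ L ^ M * (q * (Q + 1 : ℕ)) := by
          refine mul_le_mul hPM ?_ hQ0.le (by (clear * - hL3; positivity))
          nlinarith only [hq']
  rcases le_or_gt (q : ℝ) (L ^ M) with hqM | hqM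
  · exact hmajor q a hq1 hqM (harc _ q Q a (by (clear * - hL3; positivity)) (pow_le_pow_right₀ hL1 hMA) hq1 hHQ hα)
  rcases le_or_gt (q' : ℝ) (L ^ M) with hqM' | hqM'
  · exact hmajor q' a' hq1' hqM' (harc _ q' Q' a' (by (clear * - hL3; positivity)) le_rfl hq1' hHQ' hα')
  -- minor arcs
  have hqQr : (q : ℝ) ≤ Q := by exact_mod_cast hqQ
  have hqQr' : (q' : ℝ) ≤ Q' := by exact_mod_cast hqQ'
  have hP := hmp q H (Q + 1) a α hcop hα ((pow_le_pow_right₀ hL1 hMA).trans hqM.le)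
    (hqQr.trans hQH) hHQ hxH hHxN
  have hq'H : (q' : ℝ) ≤ H / L ^ M := hqQr'.trans hQH'
  have hq'x : q' ≤ x := by
    have : (q' : ℝ) ≤ x := (hq'H.trans (div_le_self hH0.le hLM1)).trans hHx'
    exact_mod_cast this
  have hα2 : |α - a' / q'| ≤ 1 / (q' : ℝ) ^ 2 := by
    refine hα'.trans (one_div_le_one_div_of_le (by (clear * - hq1'; positivity)) ?_)
    rw [sq]
    refine mul_le_mul_of_nonneg_left ?_ (by linarith only [hLM1, hqM'])
    push_cast
    linarith only [hqQr']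
  have hx14 : (x : ℝ) ^ (1 / 4 : ℝ) ≤ H := by
    refine le_trans ?_ hH13
    exact Real.rpow_le_rpow_of_exponent_le hx1' (by norm_num)
  have hnu1 : ∀ u : ℕ, ‖∑ n ∈ Ioc u (u + H), (nuz (zA A x) n : ℂ) * ex (n * α)‖ ≤
      2 * (H / L ^ (B + 4)) := by
    intro u
    refine (hnu u H q' a' α hx14 hHxN hq1' hq'x hcop' hα2).trans ?_
    have h1 : (H : ℝ) / q' ≤ H / L ^ M := div_le_div_of_nonneg_left hH0.le (by (clear * - hL3; positivity)) hqM'.le
    have h2 : (x : ℝ) ^ ((1 / 4 : ℝ) / 2) ≤ H / L ^ M := by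
      rw [le_div_iff₀ (by (clear * - hL3; positivity))]
      calc (x : ℝ) ^ ((1 / 4 : ℝ) / 2) * L ^ M ≤ (x : ℝ) ^ ((1 / 4 : ℝ) / 2) * (x : ℝ) ^ (1 / 6 : ℝ) :=
            mul_le_mul_of_nonneg_left e2 (by (clear * - hx1; positivity))
        _ = (x : ℝ) ^ ((1 / 4 : ℝ) / 2 + 1 / 6) := by rw [← Real.rpow_add hx0]
        _ ≤ (x : ℝ) ^ (1 / 3 : ℝ) := Real.rpow_le_rpow_of_exponent_le hx1' (by norm_num)
        _ ≤ H := hH13
    have h3 : (H : ℝ) / q' + (x : ℝ) ^ ((1 / 4 : ℝ) / 2) + q' ≤ 3 * (H / L ^ M) := by linarith only [hQH', hqQr', h1, h2]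
    have h4 : C * ((H : ℝ) / q' + (x : ℝ) ^ ((1 / 4 : ℝ) / 2) + q') * L ^ 3 ≤ H / L ^ (B + 4) := by
      have h5 : C * ((H : ℝ) / q' + (x : ℝ) ^ ((1 / 4 : ℝ) / 2) + q') * L ^ 3 ≤
          C * (3 * (H / L ^ M)) * L ^ 3 := by
        refine mul_le_mul_of_nonneg_right (mul_le_mul_of_nonneg_left h3 hC.le) (by (clear * - hL3; positivity))
      refine h5.trans ?_
      have h6 : (H : ℝ) / L ^ M ≤ H / L ^ (B + 10) :=
        div_le_div_of_nonneg_left hH0.le (by (clear * - hL3; positivity)) (pow_le_pow_right₀ hL1 hMB)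
      have h7 : C * (3 * (H / L ^ M)) * L ^ 3 ≤ C * (3 * (H / L ^ (B + 10))) * L ^ 3 := by
        refine mul_le_mul_of_nonneg_right (mul_le_mul_of_nonneg_left ?_ hC.le) (by (clear * - hL3; positivity))
        linarith only [h6]
      refine h7.trans ?_
      have h8 : C * (3 * (H / L ^ (B + 10))) * L ^ 3 = 3 * C / L ^ 3 * (H / L ^ (B + 4)) := by
        have e : L ^ (B + 10) = L ^ (B + 4) * (L ^ 3 * L ^ 3) := by
          rw [← pow_add, ← pow_add]
        rw [e]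
        field_simp
      rw [h8]
      calc 3 * C / L ^ 3 * (H / L ^ (B + 4)) ≤ 1 * (H / L ^ (B + 4)) := by
            refine mul_le_mul_of_nonneg_right ?_ (by (clear * - hL3 hH1; positivity))
            rw [div_le_one (by (clear * - hL3; positivity))]
            have : L ≤ L ^ 3 := le_self_pow₀ hL1 (by norm_num)
            linarith only [hLC, this]
        _ = H / L ^ (B + 4) := one_mul _
    linarith only [h4]
  have hsplit : ∀ u ∈ (range (2 * x + 1)).filter (fun u => u + H ≤ 2 * x),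
      ‖∑ n ∈ Ioc u (u + H), (ff (zA A x) n : ℂ) * ex (n * α)‖ ^ 2 ≤
      2 * ‖∑ n ∈ Ioc u (u + H), (lp n : ℂ) * ex (n * α)‖ ^ 2 + 2 * (2 * (H / L ^ (B + 4))) ^ 2 := by
    intro u _
    have h1 : ∑ n ∈ Ioc u (u + H), (ff (zA A x) n : ℂ) * ex (n * α) =
        ∑ n ∈ Ioc u (u + H), (lp n : ℂ) * ex (n * α) -
        ∑ n ∈ Ioc u (u + H), (nuz (zA A x) n : ℂ) * ex (n * α) := by
      rw [← Finset.sum_sub_distrib]
      refine Finset.sum_congr rfl (fun n _ => ?_)
      unfold ff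
      push_cast
      ring
    rw [h1]
    have h2 := norm_sub_le (∑ n ∈ Ioc u (u + H), (lp n : ℂ) * ex (n * α))
      (∑ n ∈ Ioc u (u + H), (nuz (zA A x) n : ℂ) * ex (n * α))
    have h3 := hnu1 u
    set X := ‖∑ n ∈ Ioc u (u + H), (lp n : ℂ) * ex (n * α)‖ with hX
    have hX0 : 0 ≤ X := norm_nonneg _
    have h4 : ‖∑ n ∈ Ioc u (u + H), (lp n : ℂ) * ex (n * α) -
        ∑ n ∈ Ioc u (u + H), (nuz (zA A x) n : ℂ) * ex (n * α)‖ ≤ X + 2 * (H / L ^ (B + 4)) := by
      linarith only [h3, h2]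
    calc _ ≤ (X + 2 * (H / L ^ (B + 4))) ^ 2 := pow_le_pow_left₀ (norm_nonneg _) h4 2
      _ ≤ 2 * X ^ 2 + 2 * (2 * (H / L ^ (B + 4))) ^ 2 := by
          nlinarith only [sq_nonneg (X - 2 * (H / L ^ (B + 4)))]
  refine (Finset.sum_le_sum hsplit).trans ?_
  rw [Finset.sum_add_distrib, ← Finset.mul_sum, Finset.sum_const, nsmul_eq_mul]
  have h1 : ∑ u ∈ (range (2 * x + 1)).filter (fun u => u + H ≤ 2 * x),
      ‖∑ n ∈ Ioc u (u + H), (lp n : ℂ) * ex (n * α)‖ ^ 2 ≤ x * (H : ℝ) ^ 2 / L ^ (B + 4) := by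
    refine le_trans ?_ hP
    exact Finset.sum_le_sum_of_subset_of_nonneg (Finset.filter_subset _ _)
      (fun _ _ _ => by (clear * -; positivity))
  have h2 : (((range (2 * x + 1)).filter (fun u => u + H ≤ 2 * x)).card : ℝ) *
      (2 * (2 * (H / L ^ (B + 4))) ^ 2) ≤ x * (H : ℝ) ^ 2 / L ^ (B + 4) := by
    have h3 : (((range (2 * x + 1)).filter (fun u => u + H ≤ 2 * x)).card : ℝ) ≤ 3 * x := by
      have h4 := Finset.card_filter_le (range (2 * x + 1)) (fun u => u + H ≤ 2 * x)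
      rw [Finset.card_range] at h4
      have h5 : ((range (2 * x + 1)).filter (fun u => u + H ≤ 2 * x)).card ≤ 3 * x := by omega
      exact_mod_cast h5
    calc _ ≤ 3 * (x : ℝ) * (2 * (2 * (H / L ^ (B + 4))) ^ 2) :=
          mul_le_mul_of_nonneg_right h3 (by (clear * - hL3 hH1; positivity))
      _ = 24 / L ^ (B + 4) * (x * (H : ℝ) ^ 2 / L ^ (B + 4)) := by
          field_simp
          norm_num
      _ ≤ 1 * (x * (H : ℝ) ^ 2 / L ^ (B + 4)) := by
          refine mul_le_mul_of_nonneg_right ?_ hT0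
          rw [div_le_one (by (clear * - hL3; positivity))]
          have h6 : (3 : ℝ) ^ 4 ≤ L ^ 4 := pow_le_pow_left₀ (by norm_num) hL3 4
          have h7 : L ^ 4 ≤ L ^ (B + 4) := pow_le_pow_right₀ hL1 (by omega)
          have h8 : (24 : ℝ) ≤ 3 ^ 4 := by norm_num
          linarith only [h6, h7]
      _ = x * (H : ℝ) ^ 2 / L ^ (B + 4) := one_mul _
  linarith only [h1, h2]

end Pool.Agent.VL
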