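import Pool.Agent.Lib.VK.MeanVal
import Pool.Agent.Lib.HLT.TauPow

/-!
# Bilinear Dirichlet polynomials with a hyperbolic cutoff, general form

The proof is that of `VK.block_bilin` (file `VK/Block.lean`), with bounded coefficients, a bound `F + D y` for the sums of `b`, and no condition `T ≤ U`.

PROOF SKETCH. `κ = 1/J`, `M_j = U (1+κ)^j` (real), block `j`: `M_j < m ≤ M_(j+1)`; only the blocks with `M_j ≤ D2` matter (`a m = 0` for `m > D2`), and those with `M_j ≤ 3X`; their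
number is `R ≤ 1 + log (3X)/log (1+κ) ≤ C J log (X+3)`. For `m` in block `j` replace the condition `X < m n ≤ 3X` by `X < M_j n ≤ 3X`. The conditions differ
only if `m n ∈ (X, (1+κ)X]` or `m n ∈ (3X, 3(1+κ)X]`. So the polynomial is `sum_j A_j(t) B_j(t) + E(t)`,
`A_j = sum_(m in block j) a m m^(-it)`, `B_j = sum_(X/M_j < n ≤ 3X/M_j) b n n^(-it)`, a difference of two sums of the hypothesis (`y = ⌊X/M_j⌋` and `y = ⌊3X/M_j⌋`; either `y = 0`, the sum is zero, or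
`y ≥ 1` and `y ≥ X/(2 M_j) ≥ X/(2 D2)`; and `y U ≤ y M_j ≤ 3X`): `|B_j| ≤ 2F + 6 D X/M_j`. `E = sum e_l l^(-it)` over `l` in the two short intervals, `|e_l| ≤ K^2 τ(l)`.
`∫ |E|^2 ≤ C (1 + T + 6X) sum |e_l|^2` (`mean_value`), `sum_(l ∈ I) τ(l)^2 ≤ (#I)^(1/2) (sum_(l ≤ 6X) τ^4)^(1/2)`, `#I ≤ 4 κ X + 2 ≤ 6 κ X`
(`J ≤ X`), `HLT.sum_tau_pow 4`: total `≤ C K^4 X^2 J^(-1/2) log^10`.
`|sum_j A_j B_j|^2 ≤ R sum_j |A_j|^2 (8 F^2 + 72 D^2 X^2/M_j^2)` and `∫ |A_j|^2 ≤ C (1 + T + 2 M_j) K^2 · 2 M_j` (block inside `[1, 2 M_j]`), where `M_j ≥ U ≥ 1`, `M_j ≤ D2`. So the total is at most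
`C R^2 K^2 (F^2 D2 (1 + T + 2 D2) + D^2 X^2 (2 + (1+T)/U))`.
-/

set_option autoImplicit false

open Finset MeasureTheory

namespace Pool.Agent.VL

open Pool.Agent.VK

private lemma bk_nit_mul (m n : ℕ) (t : ℝ) : nit (m * n) t = nit m t * nit n t := by
  unfold nit
  push_cast
  exact Complex.natCast_mul_natCast_cpow m n _

private lemma bk_nit_cont {n : ℕ} (hn : 1 ≤ n) : Continuous (fun t : ℝ => nit n t) := by
  unfold nit
  have h0 : (((n : ℝ)) : ℂ) ≠ 0 := by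
    have : (n : ℝ) ≠ 0 := by exact_mod_cast (by omega : n ≠ 0)
    exact_mod_cast this
  refine Continuous.const_cpow ?_ (Or.inl h0)
  fun_prop

/-- Logarithm bounds. -/
private lemma bk_logs {X : ℕ} (hX : 1 ≤ X) : 1 ≤ Real.log (X + 3) ∧
    Real.log (6 * X) ≤ 2 * Real.log (X + 3) ∧ 0 ≤ Real.log (6 * X) := by
  have hXr : (1 : ℝ) ≤ X := by exact_mod_cast hX
  refine ⟨?_, ?_, ?_⟩
  · rw [Real.le_log_iff_exp_le (by linarith)]
    have := Real.exp_one_lt_d9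
    linarith
  · have h : Real.log ((6 : ℝ) * X) ≤ Real.log (((X : ℝ) + 3) ^ 2) :=
      Real.log_le_log (by linarith) (by nlinarith)
    rw [Real.log_pow] at h
    exact_mod_cast h
  · exact Real.log_nonneg (by linarith)

/-- Number of blocks. -/
private lemma bk_index {X U J m j : ℕ} (hU : 1 ≤ U) (hX : 1 ≤ X) (hJ : 1 ≤ J) (hm : m ≤ 3 * X)
    (hj : (U : ℝ) * (1 + 1 / (J : ℝ)) ^ j ≤ m) : (j : ℝ) ≤ 4 * J * Real.log (X + 3) := by
  have hUr : (1 : ℝ) ≤ U := by exact_mod_cast hU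
  have hXr : (1 : ℝ) ≤ X := by exact_mod_cast hX
  have hJr : (1 : ℝ) ≤ J := by exact_mod_cast hJ
  have hmr : (m : ℝ) ≤ 3 * X := by exact_mod_cast hm
  have hk : (0 : ℝ) < 1 / (J : ℝ) := by positivity
  have h1 : (1 + 1 / (J : ℝ)) ^ j ≤ 6 * X := by
    have hp : (0 : ℝ) < (1 + 1 / (J : ℝ)) ^ j := by positivity
    nlinarith only [hj, hUr, hXr, hmr]
  have h2 : (j : ℝ) * Real.log (1 + 1 / (J : ℝ)) ≤ Real.log (6 * X) := by
    rw [← Real.log_pow]
    exact Real.log_le_log (by positivity) h1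
  have h3 : 1 / (2 * (J : ℝ)) ≤ Real.log (1 + 1 / (J : ℝ)) := by
    have h4 := Real.one_sub_inv_le_log_of_pos (show (0 : ℝ) < 1 + 1 / (J : ℝ) by positivity)
    refine le_trans ?_ h4
    have h5 : (1 + 1 / (J : ℝ))⁻¹ = J / (J + 1) := by
      field_simp
    rw [h5]
    rw [div_le_iff₀ (by positivity)]
    have h6 : (1 - (J : ℝ) / (J + 1)) = 1 / (J + 1) := by field_simp; ring
    rw [h6, div_mul_eq_mul_div, le_div_iff₀ (by positivity)]
    linarith only [hJr]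
  have h7 := (bk_logs hX).2.1
  have h8 : (j : ℝ) * (1 / (2 * (J : ℝ))) ≤ 2 * Real.log (X + 3) :=
    (mul_le_mul_of_nonneg_left h3 (by positivity)).trans (h2.trans h7)
  rw [mul_one_div, div_le_iff₀ (by positivity)] at h8
  linarith only [h8]

/-- Second moment of `τ` over a set, by the fourth moment. -/
private lemma bk_tau_set (Y : ℕ) (I : Finset ℕ) (hI : I ⊆ Icc 1 Y) :
    ∑ l ∈ I, (l.divisors.card : ℝ) ^ 2 ≤
      Real.sqrt (I.card) * Real.sqrt (Y * (1 + Real.log Y) ^ 16) := by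
  have h1 := Finset.sum_mul_sq_le_sq_mul_sq I (fun _ => (1 : ℝ)) (fun l => (l.divisors.card : ℝ) ^ 2)
  have h2 : ∑ l ∈ I, ((l.divisors.card : ℝ) ^ 2) ^ 2 ≤ Y * (1 + Real.log Y) ^ 16 := by
    have h3 := HLT.sum_tau_pow 4 Y
    refine le_trans ?_ h3
    refine le_trans (Finset.sum_le_sum_of_subset_of_nonneg hI fun _ _ _ => by positivity) ?_
    exact Finset.sum_le_sum fun l _ => by rw [← pow_mul]
  rw [← Real.sqrt_mul (by positivity)]
  refine Real.le_sqrt_of_sq_le ?_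
  have h4 : (∑ l ∈ I, (l.divisors.card : ℝ) ^ 2) ^ 2 ≤ (I.card : ℝ) * ∑ l ∈ I, ((l.divisors.card : ℝ) ^ 2) ^ 2 := by
    simpa using h1
  exact h4.trans (mul_le_mul_of_nonneg_left h2 (by positivity))

private def MV (C : ℝ) : Prop := ∀ (N : ℕ) (a : ℕ → ℂ) (t0 T : ℝ), 1 ≤ N → 0 ≤ T →
    ∫ t in t0..(t0 + T), ‖∑ n ∈ Icc 1 N, a n * nit n t‖ ^ 2 ≤ C * (1 + T + N) * ∑ n ∈ Icc 1 N, ‖a n‖ ^ 2

/-- Mean value theorem for a sum over a finite set. -/
private lemma bk_mv {C : ℝ} (hC : MV C) (N : ℕ) (S : Finset ℕ) (hS : S ⊆ Icc 1 N) (a : ℕ → ℂ) (t0 T : ℝ)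
    (hN : 1 ≤ N) (hT : 0 ≤ T) :
    ∫ t in t0..(t0 + T), ‖∑ n ∈ S, a n * nit n t‖ ^ 2 ≤ C * (1 + T + N) * ∑ n ∈ S, ‖a n‖ ^ 2 := by
  have h := hC N (fun n => if n ∈ S then a n else 0) t0 T hN hT
  have h1 : ∀ t : ℝ, ∑ n ∈ Icc 1 N, (if n ∈ S then a n else 0) * nit n t = ∑ n ∈ S, a n * nit n t := by
    intro t
    rw [← Finset.sum_subset hS (fun n _ hn => by simp [hn])]
    exact Finset.sum_congr rfl fun n hn => by simp [hn]
  have h2 : ∑ n ∈ Icc 1 N, ‖(if n ∈ S then a n else 0)‖ ^ 2 = ∑ n ∈ S, ‖a n‖ ^ 2 := by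
    rw [← Finset.sum_subset hS (fun n _ hn => by simp [hn])]
    exact Finset.sum_congr rfl fun n hn => by simp [hn]
  rw [h2] at h
  simp only [h1] at h
  exact h

/-- One block. -/
private lemma bk_A {C : ℝ} (hC0 : 0 ≤ C) (hC : MV C) (S : Finset ℕ) (M K : ℝ) (a : ℕ → ℂ) (t0 T : ℝ)
    (hM1 : 1 ≤ M) (hT : 0 ≤ T)
    (hS : ∀ m ∈ S, 1 ≤ m ∧ (m : ℝ) ≤ 2 * M) (ha : ∀ m, ‖a m‖ ≤ K) :
    ∫ t in t0..(t0 + T), ‖∑ n ∈ S, a n * nit n t‖ ^ 2 ≤ C * (1 + T + 2 * M) * (2 * M * K ^ 2) := by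
  have hN1 : 1 ≤ ⌊2 * M⌋₊ := by
    rw [Nat.one_le_floor_iff]
    linarith
  have hNr : (⌊2 * M⌋₊ : ℝ) ≤ 2 * M := Nat.floor_le (by linarith)
  have hS' : S ⊆ Icc 1 ⌊2 * M⌋₊ := by
    intro m hm
    rw [Finset.mem_Icc]
    exact ⟨(hS m hm).1, Nat.le_floor (hS m hm).2⟩
  refine (bk_mv hC _ S hS' a t0 T hN1 hT).trans ?_
  have h1 : ∑ n ∈ S, ‖a n‖ ^ 2 ≤ 2 * M * K ^ 2 := by
    calc ∑ n ∈ S, ‖a n‖ ^ 2 ≤ ∑ n ∈ S, K ^ 2 :=
          Finset.sum_le_sum fun n _ => by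
            have := ha n
            gcongr
      _ ≤ ∑ n ∈ Icc 1 ⌊2 * M⌋₊, K ^ 2 :=
          Finset.sum_le_sum_of_subset_of_nonneg hS' fun _ _ _ => by positivity
      _ = ⌊2 * M⌋₊ * K ^ 2 := by
          rw [Finset.sum_const, Nat.card_Icc, nsmul_eq_mul]
          simp
      _ ≤ 2 * M * K ^ 2 := by gcongr
  have h4 : C * (1 + T + ⌊2 * M⌋₊) ≤ C * (1 + T + 2 * M) := by
    refine mul_le_mul_of_nonneg_left ?_ hC0
    linarith
  have h5 : (0 : ℝ) ≤ ∑ n ∈ S, ‖a n‖ ^ 2 := Finset.sum_nonneg fun _ _ => by positivity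
  exact mul_le_mul h4 h1 h5 (by positivity)

/-- The exceptional intervals. -/
private def bI (X J : ℕ) : Finset ℕ := Ioc X (X + X / J) ∪ Ioc (3 * X) (3 * X + 3 * X / J)

private lemma bI_card (X J : ℕ) : ((bI X J).card : ℝ) ≤ 4 * X / J := by
  have h1 : (bI X J).card ≤ X / J + 3 * X / J := by
    unfold bI
    refine (Finset.card_union_le _ _).trans ?_
    simp
  have h2 : ((X / J : ℕ) : ℝ) ≤ X / J := Nat.cast_div_le
  have h3 : ((3 * X / J : ℕ) : ℝ) ≤ 3 * X / J := by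
    have := Nat.cast_div_le (α := ℝ) (m := 3 * X) (n := J)
    push_cast at this
    exact this
  have h4 : ((bI X J).card : ℝ) ≤ ((X / J + 3 * X / J : ℕ) : ℝ) := by exact_mod_cast h1
  push_cast at h4
  calc ((bI X J).card : ℝ) ≤ X / J + 3 * X / J := by linarith
    _ = 4 * X / J := by ring

private lemma bI_sub (X J : ℕ) : bI X J ⊆ Icc 1 (6 * X) := by
  intro l hl
  unfold bI at hl
  rw [Finset.mem_union, Finset.mem_Ioc, Finset.mem_Ioc] at hl
  have h1 : X / J ≤ X := Nat.div_le_self _ _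
  have h2 : 3 * X / J ≤ 3 * X := Nat.div_le_self _ _
  rw [Finset.mem_Icc]
  omega

/-- The error term. -/
private lemma bk_E {C : ℝ} (hC0 : 0 ≤ C) (hC : MV C) (X J : ℕ) (e : ℕ → ℂ) (t0 T K : ℝ)
    (hX : 1 ≤ X) (hJ : 1 ≤ J) (hT : 0 ≤ T) (hTX : T ≤ X)
    (he : ∀ l, 1 ≤ l → ‖e l‖ ≤ K ^ 2 * (l.divisors.card : ℝ)) :
    ∫ t in t0..(t0 + T), ‖∑ l ∈ bI X J, e l * nit l t‖ ^ 2 ≤
      C * (8 * X * (K ^ 4 * (5 * X / Real.sqrt J * (3 * Real.log (X + 3)) ^ 8))) := by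
  obtain ⟨hl1, hl2, hl3⟩ := bk_logs hX
  have hXr : (1 : ℝ) ≤ X := by exact_mod_cast hX
  have hJr : (1 : ℝ) ≤ J := by exact_mod_cast hJ
  refine (bk_mv hC (6 * X) (bI X J) (bI_sub X J) e t0 T (by omega) hT).trans ?_
  have h5 : (0 : ℝ) ≤ ∑ n ∈ bI X J, ‖e n‖ ^ 2 := Finset.sum_nonneg fun _ _ => by positivity
  have h1 : ∑ l ∈ bI X J, ‖e l‖ ^ 2 ≤
      K ^ 4 * (5 * X / Real.sqrt J * (3 * Real.log (X + 3)) ^ 8) := by
    calc ∑ l ∈ bI X J, ‖e l‖ ^ 2
        ≤ ∑ l ∈ bI X J, K ^ 4 * (l.divisors.card : ℝ) ^ 2 := by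
          refine Finset.sum_le_sum fun l hl => ?_
          have hl4 := Finset.mem_Icc.1 (bI_sub X J hl)
          have h6 := he l hl4.1
          calc ‖e l‖ ^ 2 ≤ (K ^ 2 * (l.divisors.card : ℝ)) ^ 2 := by gcongr
            _ = _ := by ring
      _ = K ^ 4 * ∑ l ∈ bI X J, (l.divisors.card : ℝ) ^ 2 := by rw [Finset.mul_sum]
      _ ≤ K ^ 4 * (5 * X / Real.sqrt J * (3 * Real.log (X + 3)) ^ 8) := by
          refine mul_le_mul_of_nonneg_left ?_ (by positivity)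
          refine (bk_tau_set (6 * X) (bI X J) (bI_sub X J)).trans ?_
          have h10 : Real.sqrt ((bI X J).card) ≤ Real.sqrt (4 * X / J) := Real.sqrt_le_sqrt (bI_card X J)
          have h11 : Real.sqrt (((6 * X : ℕ) : ℝ) * (1 + Real.log ((6 * X : ℕ) : ℝ)) ^ 16) ≤
              Real.sqrt (6 * X) * (3 * Real.log (X + 3)) ^ 8 := by
            push_cast
            rw [Real.sqrt_mul (by positivity)]
            refine mul_le_mul_of_nonneg_left ?_ (by positivity)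
            have h12 : (1 + Real.log (6 * X)) ^ 16 = ((1 + Real.log (6 * (X : ℝ))) ^ 8) ^ 2 := by
              rw [← pow_mul]
            rw [h12, Real.sqrt_sq (by positivity)]
            gcongr
            linarith only [hl1, hl2]
          refine (mul_le_mul h10 h11 (by positivity) (by positivity)).trans ?_
          rw [← mul_assoc]
          refine mul_le_mul_of_nonneg_right ?_ (by positivity)
          rw [← Real.sqrt_mul (by positivity)]
          have h13 : (4 * (X : ℝ) / J * (6 * X)) ≤ (5 * X / Real.sqrt J) ^ 2 := by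
            rw [div_pow, Real.sq_sqrt (by positivity), div_mul_eq_mul_div]
            gcongr
            nlinarith
          exact (Real.sqrt_le_sqrt h13).trans (le_of_eq (Real.sqrt_sq (by positivity)))
  have h4 : C * (1 + T + ((6 * X : ℕ) : ℝ)) ≤ C * (8 * X) := by
    refine mul_le_mul_of_nonneg_left ?_ hC0
    push_cast
    linarith only [hTX, hXr]
  calc C * (1 + T + ((6 * X : ℕ) : ℝ)) * ∑ n ∈ bI X J, ‖e n‖ ^ 2
      ≤ C * (8 * X) * (K ^ 4 * (5 * X / Real.sqrt J * (3 * Real.log (X + 3)) ^ 8)) := by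
        refine mul_le_mul h4 h1 h5 (by positivity)
    _ = _ := by ring


/-- Left end of the block `j`. -/
private noncomputable def bM (U J j : ℕ) : ℝ := U * (1 + 1 / (J : ℝ)) ^ j

private lemma bM_ge {U J : ℕ} (hU : 1 ≤ U) (j : ℕ) : (U : ℝ) ≤ bM U J j := by
  unfold bM
  have hUr : (1 : ℝ) ≤ U := by exact_mod_cast hU
  have h1 : (1 : ℝ) ≤ (1 + 1 / (J : ℝ)) ^ j := by
    refine one_le_pow₀ ?_
    have : (0 : ℝ) ≤ 1 / (J : ℝ) := by positivity
    linarith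
  nlinarith

private lemma bM_exists {U J m : ℕ} (hU : 1 ≤ U) (hJ : 1 ≤ J) (hm : U ≤ m) :
    ∃ j : ℕ, bM U J j ≤ m ∧ (m : ℝ) < bM U J j * (1 + 1 / (J : ℝ)) := by
  have hUr : (1 : ℝ) ≤ U := by exact_mod_cast hU
  have hmr : (U : ℝ) ≤ m := by exact_mod_cast hm
  have hJr : (1 : ℝ) ≤ J := by exact_mod_cast hJ
  have hk : (0 : ℝ) < 1 / (J : ℝ) := by positivity
  obtain ⟨j, h1, h2⟩ := exists_nat_pow_near (x := (m : ℝ) / U) (y := 1 + 1 / (J : ℝ))
    (by rw [le_div_iff₀ (by linarith)]; linarith) (by linarith)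
  refine ⟨j, ?_, ?_⟩
  · unfold bM
    rw [le_div_iff₀ (by linarith)] at h1
    linarith
  · unfold bM
    rw [div_lt_iff₀ (by linarith)] at h2
    rw [pow_succ] at h2
    linarith

private def bD (X U V : ℕ) : Finset (ℕ × ℕ) := Ioc U V ×ˢ Icc 1 (3 * X)

private def bP1 (X : ℕ) (p : ℕ × ℕ) : Prop := X < p.1 * p.2 ∧ p.1 * p.2 ≤ 3 * X

private def bP2 (X U J : ℕ) (jm : ℕ → ℕ) (p : ℕ × ℕ) : Prop :=
  (X : ℝ) < bM U J (jm p.1) * p.2 ∧ bM U J (jm p.1) * p.2 ≤ 3 * X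

open Classical in
private lemma bk_dec1 (X U V : ℕ) (a b : ℕ → ℂ) (ha0 : ∀ m, m ≤ U → a m = 0)
    (haV : ∀ m, V < m → m ≤ 3 * X → a m = 0) (t : ℝ) :
    ∑ k ∈ Ioc X (3 * X), (∑ p ∈ k.divisorsAntidiagonal, a p.1 * b p.2) * nit k t =
      ∑ p ∈ bD X U V, (if bP1 X p then (1 : ℂ) else 0) * (a p.1 * b p.2 * nit (p.1 * p.2) t) := by
  have h1 : ∑ p ∈ bD X U V, (if bP1 X p then (1 : ℂ) else 0) * (a p.1 * b p.2 * nit (p.1 * p.2) t) =
      ∑ p ∈ (bD X U V).filter (fun p => bP1 X p), a p.1 * b p.2 * nit (p.1 * p.2) t := by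
    rw [Finset.sum_filter]
    refine Finset.sum_congr rfl fun p _ => ?_
    split_ifs <;> simp
  rw [h1, ← Finset.sum_fiberwise_of_maps_to (s := (bD X U V).filter (fun p => bP1 X p)) (t := Ioc X (3 * X))
    (g := fun p => p.1 * p.2)]
  · refine Finset.sum_congr rfl fun k hk => ?_
    rw [Finset.mem_Ioc] at hk
    rw [Finset.sum_mul]
    symm
    refine Finset.sum_subset_zero_on_sdiff ?_ ?_ ?_
    · intro p hp
      rw [Finset.mem_filter, Finset.mem_filter] at hp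
      rw [Nat.mem_divisorsAntidiagonal]
      exact ⟨hp.2, by omega⟩
    · intro p hp
      rw [Finset.mem_sdiff, Nat.mem_divisorsAntidiagonal] at hp
      obtain ⟨⟨h2, h3⟩, h4⟩ := hp
      have h5 : a p.1 = 0 := by
        by_contra h6
        apply h4
        have h61 : ¬ p.1 ≤ U := fun h => h6 (ha0 _ h)
        rw [Finset.mem_filter, Finset.mem_filter]
        have h7 : p.1 ∣ k := ⟨p.2, h2.symm⟩
        have h8 : p.2 ∣ k := ⟨p.1, by rw [mul_comm]; exact h2.symm⟩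
        have h9 := Nat.le_of_dvd (by omega) h7
        have h10 := Nat.le_of_dvd (by omega) h8
        have h11 : 1 ≤ p.2 := Nat.pos_of_dvd_of_pos h8 (by omega)
        refine ⟨⟨?_, ?_⟩, h2⟩
        · unfold bD
          rw [Finset.mem_product, Finset.mem_Ioc, Finset.mem_Icc]
          have h62 : p.1 ≤ V := by
            by_contra h63
            exact h6 (haV _ (not_le.1 h63) (by omega))
          omega
        · unfold bP1
          rw [h2]
          exact hk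
      rw [h5]
      simp
    · intro p hp
      rw [Finset.mem_filter] at hp
      rw [hp.2]
  · intro p hp
    rw [Finset.mem_filter] at hp
    rw [Finset.mem_Ioc]
    exact hp.2

open Classical in
private lemma bk_dec2 (X U V J R : ℕ) (a b : ℕ → ℂ) (jm : ℕ → ℕ) (hjm : ∀ m ∈ Ioc U V, jm m < R) (t : ℝ) :
    ∑ p ∈ bD X U V, (if bP2 X U J jm p then (1 : ℂ) else 0) * (a p.1 * b p.2 * nit (p.1 * p.2) t) =
      ∑ j ∈ range R, (∑ m ∈ (Ioc U V).filter (fun m => jm m = j), a m * nit m t) *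
        (∑ n ∈ (Icc 1 (3 * X)).filter (fun n : ℕ => (X : ℝ) < bM U J j * (n : ℝ) ∧ bM U J j * (n : ℝ) ≤ 3 * X), b n * nit n t) := by
  have h1 : ∀ j ∈ range R, (∑ m ∈ (Ioc U V).filter (fun m => jm m = j), a m * nit m t) *
        (∑ n ∈ (Icc 1 (3 * X)).filter (fun n : ℕ => (X : ℝ) < bM U J j * (n : ℝ) ∧ bM U J j * (n : ℝ) ≤ 3 * X), b n * nit n t) =
      ∑ m ∈ (Ioc U V).filter (fun m => jm m = j), a m * nit m t *
        (∑ n ∈ (Icc 1 (3 * X)).filter (fun n : ℕ => (X : ℝ) < bM U J (jm m) * (n : ℝ) ∧ bM U J (jm m) * (n : ℝ) ≤ 3 * X),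
          b n * nit n t) := by
    intro j _
    rw [Finset.sum_mul]
    refine Finset.sum_congr rfl fun m hm => ?_
    rw [Finset.mem_filter] at hm
    rw [hm.2]
  rw [Finset.sum_congr rfl h1, Finset.sum_fiberwise_of_maps_to
    (fun m hm => Finset.mem_range.2 (hjm m hm))]
  unfold bD
  rw [Finset.sum_product]
  refine Finset.sum_congr rfl fun m _ => ?_
  rw [Finset.sum_filter, Finset.mul_sum]
  refine Finset.sum_congr rfl fun n _ => ?_
  have e : bP2 X U J jm (m, n) = ((X : ℝ) < bM U J (jm m) * n ∧ bM U J (jm m) * n ≤ 3 * X) := rfl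
  simp only [e]
  rw [bk_nit_mul]
  split_ifs <;> ring

private lemma bk_diff (X U V J : ℕ) (jm : ℕ → ℕ) (hJ : 1 ≤ J)
    (hjm : ∀ m ∈ Ioc U V, bM U J (jm m) ≤ m ∧ (m : ℝ) < bM U J (jm m) * (1 + 1 / (J : ℝ)))
    (p : ℕ × ℕ) (hp : p ∈ bD X U V) (h : ¬ (bP1 X p ↔ bP2 X U J jm p)) : p.1 * p.2 ∈ bI X J := by
  unfold bD at hp
  rw [Finset.mem_product, Finset.mem_Icc] at hp
  obtain ⟨hp1, hp2, hp3⟩ := hp
  obtain ⟨h1, h2⟩ := hjm _ hp1
  have hJr : (1 : ℝ) ≤ J := by exact_mod_cast hJ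
  have hn : (1 : ℝ) ≤ p.2 := by exact_mod_cast hp2
  set M := bM U J (jm p.1) with hM
  have h3 : M * p.2 ≤ p.1 * p.2 := by nlinarith only [h1]
  have h4 : (p.1 : ℝ) * p.2 < M * p.2 * (1 + 1 / (J : ℝ)) := by nlinarith only [hn, h2]
  have key : ∀ Y : ℕ, (M * p.2 ≤ Y) → p.1 * p.2 ≤ Y + Y / J := by
    intro Y hY
    have h5 : (p.1 : ℝ) * p.2 < Y * (1 + 1 / (J : ℝ)) := by
      refine lt_of_lt_of_le h4 ?_
      gcongr
    have h6 : (p.1 : ℝ) * p.2 - Y ≤ Y / J := by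
      have : (Y : ℝ) * (1 + 1 / (J : ℝ)) = Y + Y / J := by ring
      linarith only [h5, this]
    rcases Nat.lt_or_ge Y (p.1 * p.2) with h7 | h7
    · obtain ⟨c, hc⟩ := Nat.exists_eq_add_of_lt h7
      have h8 : c + 1 ≤ Y / J := by
        rw [Nat.le_div_iff_mul_le (by omega)]
        have h9 : ((c : ℝ) + 1) ≤ Y / J := by
          have h10 : (p.1 : ℝ) * p.2 = Y + c + 1 := by exact_mod_cast hc
          linarith only [h6, h10]
        rw [le_div_iff₀ (by linarith only [hJr])] at h9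
        exact_mod_cast h9
      omega
    · exact le_trans h7 (Nat.le_add_right _ _)
  unfold bI
  rw [Finset.mem_union, Finset.mem_Ioc, Finset.mem_Ioc]
  unfold bP1 bP2 at h
  rw [← hM] at h
  by_cases hA : X < p.1 * p.2 ∧ p.1 * p.2 ≤ 3 * X
  · left
    refine ⟨hA.1, key X ?_⟩
    by_contra h5
    apply h
    refine ⟨fun _ => ⟨lt_of_not_ge h5, h3.trans ?_⟩, fun _ => hA⟩
    exact_mod_cast hA.2
  · right
    have hB : (X : ℝ) < M * p.2 ∧ M * p.2 ≤ 3 * X := by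
      by_contra h5
      exact h ⟨fun h6 => absurd h6 hA, fun h6 => absurd h6 h5⟩
    have h6 : X < p.1 * p.2 := by
      have : (X : ℝ) < (p.1 : ℝ) * p.2 := lt_of_lt_of_le hB.1 h3
      exact_mod_cast this
    refine ⟨?_, ?_⟩
    · by_contra h7
      exact hA ⟨h6, by omega⟩
    · refine key (3 * X) ?_
      push_cast
      exact hB.2

open Classical in
private lemma bk_dec3 (X U V J : ℕ) (a b : ℕ → ℂ) (jm : ℕ → ℕ) (hJ : 1 ≤ J)
    (hjm : ∀ m ∈ Ioc U V, bM U J (jm m) ≤ m ∧ (m : ℝ) < bM U J (jm m) * (1 + 1 / (J : ℝ))) (t : ℝ) :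
    ∑ p ∈ bD X U V, (if bP1 X p then (1 : ℂ) else 0) * (a p.1 * b p.2 * nit (p.1 * p.2) t) =
    ∑ p ∈ bD X U V, (if bP2 X U J jm p then (1 : ℂ) else 0) * (a p.1 * b p.2 * nit (p.1 * p.2) t) +
      ∑ l ∈ bI X J, (∑ p ∈ ((bD X U V).filter (fun p => p.1 * p.2 ∈ bI X J)).filter (fun p => p.1 * p.2 = l),
        ((if bP1 X p then (1 : ℂ) else 0) - (if bP2 X U J jm p then (1 : ℂ) else 0)) * (a p.1 * b p.2)) * nit l t := by
  have h1 : ∀ l ∈ bI X J, (∑ p ∈ ((bD X U V).filter (fun p => p.1 * p.2 ∈ bI X J)).filter (fun p => p.1 * p.2 = l),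
        ((if bP1 X p then (1 : ℂ) else 0) - (if bP2 X U J jm p then (1 : ℂ) else 0)) * (a p.1 * b p.2)) * nit l t =
      ∑ p ∈ ((bD X U V).filter (fun p => p.1 * p.2 ∈ bI X J)).filter (fun p => p.1 * p.2 = l),
        ((if bP1 X p then (1 : ℂ) else 0) - (if bP2 X U J jm p then (1 : ℂ) else 0)) *
          (a p.1 * b p.2 * nit (p.1 * p.2) t) := by
    intro l _
    rw [Finset.sum_mul]
    refine Finset.sum_congr rfl fun p hp => ?_
    rw [Finset.mem_filter] at hp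
    rw [hp.2]
    ring
  rw [Finset.sum_congr rfl h1, Finset.sum_fiberwise_of_maps_to
    (fun p hp => (Finset.mem_filter.1 hp).2)]
  have h2 : ∑ p ∈ (bD X U V).filter (fun p => p.1 * p.2 ∈ bI X J),
        ((if bP1 X p then (1 : ℂ) else 0) - (if bP2 X U J jm p then (1 : ℂ) else 0)) *
          (a p.1 * b p.2 * nit (p.1 * p.2) t) =
      ∑ p ∈ bD X U V, ((if bP1 X p then (1 : ℂ) else 0) - (if bP2 X U J jm p then (1 : ℂ) else 0)) *
          (a p.1 * b p.2 * nit (p.1 * p.2) t) := by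
    refine Finset.sum_subset (Finset.filter_subset _ _) fun p hp hp' => ?_
    have h3 : bP1 X p ↔ bP2 X U J jm p := by
      by_contra h4
      exact hp' (Finset.mem_filter.2 ⟨hp, bk_diff X U V J jm hJ hjm p hp h4⟩)
    by_cases h5 : bP1 X p
    · rw [if_pos h5, if_pos (h3.1 h5)]
      ring
    · rw [if_neg h5, if_neg (fun h6 => h5 (h3.2 h6))]
      ring
  rw [h2, ← Finset.sum_add_distrib]
  exact Finset.sum_congr rfl fun p _ => by ring

open Classical in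
private lemma bk_e (X U V J : ℕ) (a b : ℕ → ℂ) (jm : ℕ → ℕ) {K : ℝ} (hK : 1 ≤ K)
    (ha : ∀ m, ‖a m‖ ≤ K) (hb : ∀ n, n ≤ 3 * X → ‖b n‖ ≤ K)
    (l : ℕ) (hl : 1 ≤ l) :
    ‖∑ p ∈ ((bD X U V).filter (fun p => p.1 * p.2 ∈ bI X J)).filter (fun p => p.1 * p.2 = l),
        ((if bP1 X p then (1 : ℂ) else 0) - (if bP2 X U J jm p then (1 : ℂ) else 0)) * (a p.1 * b p.2)‖ ≤
      K ^ 2 * (l.divisors.card : ℝ) := by
  refine le_trans (norm_sum_le _ _) ?_
  have h1 : ∀ p ∈ ((bD X U V).filter (fun p => p.1 * p.2 ∈ bI X J)).filter (fun p => p.1 * p.2 = l),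
      ‖((if bP1 X p then (1 : ℂ) else 0) - (if bP2 X U J jm p then (1 : ℂ) else 0)) *
      (a p.1 * b p.2)‖ ≤ K ^ 2 := by
    intro p hp
    have hp1 := (Finset.mem_filter.1 (Finset.mem_filter.1 hp).1).1
    unfold bD at hp1
    rw [Finset.mem_product, Finset.mem_Icc] at hp1
    rw [norm_mul, norm_mul]
    have h2 : ‖((if bP1 X p then (1 : ℂ) else 0) - (if bP2 X U J jm p then (1 : ℂ) else 0))‖ ≤ 1 := by
      split_ifs <;> simp
    have h3 : ‖a p.1‖ * ‖b p.2‖ ≤ K * K :=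
      mul_le_mul (ha _) (hb _ hp1.2.2) (norm_nonneg _) (by positivity)
    calc _ ≤ 1 * (‖a p.1‖ * ‖b p.2‖) := mul_le_mul_of_nonneg_right h2 (by positivity)
      _ ≤ K ^ 2 := by rw [one_mul, sq]; exact h3
  refine le_trans (Finset.sum_le_sum h1) ?_
  rw [Finset.sum_const, nsmul_eq_mul, mul_comm]
  refine mul_le_mul_of_nonneg_left ?_ (by positivity)
  have h4 : (((bD X U V).filter (fun p => p.1 * p.2 ∈ bI X J)).filter (fun p => p.1 * p.2 = l)).card ≤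
      l.divisorsAntidiagonal.card := by
    refine Finset.card_le_card fun p hp => ?_
    rw [Finset.mem_filter] at hp
    rw [Nat.mem_divisorsAntidiagonal]
    exact ⟨hp.2, by omega⟩
  have h5 : l.divisorsAntidiagonal.card = l.divisors.card := by
    rw [← Nat.map_div_right_divisors, Finset.card_map]
  rw [h5] at h4
  exact_mod_cast h4

open Classical in
private lemma bk_B (X U D2 J j : ℕ) (b : ℕ → ℂ) (F D t : ℝ) (hU : 1 ≤ U) (hF : 0 ≤ F) (hD : 0 ≤ D)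
    (hMD : bM U J j ≤ D2)
    (h : ∀ y : ℕ, X ≤ 2 * D2 * y → y * U ≤ 3 * X → ‖∑ n ∈ Icc 1 y, b n * nit n t‖ ≤ F + D * y) :
    ‖∑ n ∈ (Icc 1 (3 * X)).filter (fun n : ℕ => (X : ℝ) < bM U J j * (n : ℝ) ∧ bM U J j * (n : ℝ) ≤ 3 * X), b n * nit n t‖ ≤
      2 * F + 4 * D * X / bM U J j := by
  have hM := bM_ge (J := J) hU j
  set M := bM U J j with hM'
  have hUr : (1 : ℝ) ≤ U := by exact_mod_cast hU
  have hM1 : 1 ≤ M := hUr.trans hM
  have hM0 : 0 < M := by linarith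
  have hX0 : (0 : ℝ) ≤ X := by positivity
  have f1 : (⌊(X : ℝ) / M⌋₊ : ℝ) ≤ X / M := Nat.floor_le (by positivity)
  have f3 : (⌊(3 * X : ℝ) / M⌋₊ : ℝ) ≤ 3 * X / M := Nat.floor_le (by positivity)
  have f4 : ⌊(X : ℝ) / M⌋₊ ≤ ⌊(3 * X : ℝ) / M⌋₊ := by
    apply Nat.floor_mono
    gcongr
    linarith
  have hset : (Icc 1 (3 * X)).filter (fun n : ℕ => (X : ℝ) < M * n ∧ M * n ≤ 3 * X) =
      Icc 1 ⌊(3 * X : ℝ) / M⌋₊ \ Icc 1 ⌊(X : ℝ) / M⌋₊ := by
    ext n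
    rw [Finset.mem_filter, Finset.mem_sdiff, Finset.mem_Icc, Finset.mem_Icc, Finset.mem_Icc]
    have e1 : n ≤ ⌊(X : ℝ) / M⌋₊ ↔ M * n ≤ X := by
      rw [Nat.le_floor_iff (by positivity), le_div_iff₀ hM0, mul_comm]
    have e3 : n ≤ ⌊(3 * X : ℝ) / M⌋₊ ↔ M * n ≤ 3 * X := by
      rw [Nat.le_floor_iff (by positivity), le_div_iff₀ hM0, mul_comm]
    rw [e1, e3]
    constructor
    · rintro ⟨⟨h1, h2⟩, h3, h4⟩
      exact ⟨⟨h1, h4⟩, fun h5 => absurd h5.2 (not_le.2 h3)⟩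
    · rintro ⟨⟨h1, h2⟩, h3⟩
      refine ⟨⟨h1, ?_⟩, ?_, h2⟩
      · have h4 : (n : ℝ) ≤ 3 * X := by
          have : (0 : ℝ) ≤ n := by positivity
          nlinarith only [hM, hUr, h2]
        exact_mod_cast h4
      · by_contra h5
        exact h3 ⟨h1, not_lt.1 h5⟩
  rw [hset]
  have hsub : Icc 1 ⌊(X : ℝ) / M⌋₊ ⊆ Icc 1 ⌊(3 * X : ℝ) / M⌋₊ := Finset.Icc_subset_Icc_right f4
  have hsum := Finset.sum_sdiff (f := fun n => b n * nit n t) hsub
  have hs2 : ∑ n ∈ Icc 1 ⌊(3 * X : ℝ) / M⌋₊ \ Icc 1 ⌊(X : ℝ) / M⌋₊, b n * nit n t =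
      ∑ n ∈ Icc 1 ⌊(3 * X : ℝ) / M⌋₊, b n * nit n t - ∑ n ∈ Icc 1 ⌊(X : ℝ) / M⌋₊, b n * nit n t := by
    rw [← hsum]
    ring
  rw [hs2]
  have g3 : ⌊(3 * X : ℝ) / M⌋₊ * U ≤ 3 * X := by
    have : (⌊(3 * X : ℝ) / M⌋₊ : ℝ) * U ≤ 3 * X := by
      calc (⌊(3 * X : ℝ) / M⌋₊ : ℝ) * U ≤ (3 * X / M) * M := by gcongr
        _ = 3 * X := by field_simp
    exact_mod_cast this
  have g1 : ⌊(X : ℝ) / M⌋₊ * U ≤ 3 * X := le_trans (Nat.mul_le_mul_right _ f4) g3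
  have key : ∀ y : ℕ, ∀ x : ℝ, (X : ℝ) / M ≤ x → y = ⌊x⌋₊ → y * U ≤ 3 * X →
      ‖∑ n ∈ Icc 1 y, b n * nit n t‖ ≤ F + D * y := by
    intro y x hx hy hyU
    rcases Nat.eq_zero_or_pos y with hy0 | hy0
    · rw [hy0]
      simpa using hF
    · refine h y ?_ hyU
      have h1 : x < y + 1 := by
        rw [hy]
        exact Nat.lt_floor_add_one x
      have h2 : (1 : ℝ) ≤ y := by exact_mod_cast hy0
      have h3 : (X : ℝ) ≤ x * M := by
        rw [div_le_iff₀ hM0] at hx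
        exact hx
      have h4 : (X : ℝ) ≤ 2 * D2 * y := by
        calc (X : ℝ) ≤ x * M := h3
          _ ≤ (2 * y) * D2 := by
              refine mul_le_mul (by linarith only [h1, h2]) hMD hM0.le (by (clear * - hy0; positivity))
          _ = _ := by ring
      exact_mod_cast h4
  have k3 := key _ _ (by gcongr; linarith) rfl g3
  have k1 := key _ _ le_rfl rfl g1
  calc _ ≤ ‖∑ n ∈ Icc 1 ⌊(3 * X : ℝ) / M⌋₊, b n * nit n t‖ + ‖∑ n ∈ Icc 1 ⌊(X : ℝ) / M⌋₊, b n * nit n t‖ :=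
        norm_sub_le _ _
    _ ≤ (F + D * ⌊(3 * X : ℝ) / M⌋₊) + (F + D * ⌊(X : ℝ) / M⌋₊) := add_le_add k3 k1
    _ ≤ (F + D * (3 * X / M)) + (F + D * (X / M)) := by gcongr
    _ = _ := by ring


private lemma bk_cont (S : Finset ℕ) (hS : ∀ m ∈ S, 1 ≤ m) (c : ℕ → ℂ) :
    Continuous (fun t : ℝ => ∑ n ∈ S, c n * nit n t) :=
  continuous_finsetSum _ fun n hn => continuous_const.mul (bk_nit_cont (hS n hn))

theorem block_gen : ∃ C : ℝ, 1 ≤ C ∧ ∀ (X U D2 J : ℕ) (a b : ℕ → ℂ) (t0 T F D K : ℝ), 1 ≤ U → U ≤ X →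
    1 ≤ D2 → 1 ≤ J → J ≤ X → 0 ≤ T → T ≤ X → 0 ≤ F → 0 ≤ D → 1 ≤ K →
    (∀ m, ‖a m‖ ≤ K) → (∀ m, m ≤ U → a m = 0) → (∀ m, D2 < m → a m = 0) →
    (∀ n, n ≤ 3 * X → ‖b n‖ ≤ K) →
    (∀ t : ℝ, t0 ≤ t → t ≤ t0 + T → ∀ y : ℕ, X ≤ 2 * D2 * y → y * U ≤ 3 * X →
      ‖∑ n ∈ Icc 1 y, b n * nit n t‖ ≤ F + D * y) →
    ∫ t in t0..(t0 + T), ‖∑ k ∈ Ioc X (3 * X), (∑ p ∈ k.divisorsAntidiagonal, a p.1 * b p.2) * nit k t‖ ^ 2 ≤
      C * K ^ 4 * Real.log (X + 3) ^ 20 * ((J : ℝ) ^ 2 * (F ^ 2 * D2 * (T + D2) + D ^ 2 * (X : ℝ) ^ 2 * (1 + T / U)) +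
        (X : ℝ) ^ 2 / Real.sqrt J) := by
  classical
  obtain ⟨C, hC1, hC⟩ := mean_value
  have hMV : MV C := hC
  have hC0 : 0 ≤ C := by linarith
  refine ⟨C * 5000000, by nlinarith, ?_⟩
  intro X U D2 J a b t0 T F D K hU hUX hD2 hJ _ hT hTX hF hD hK ha ha0 haD hb hB
  have hX : 1 ≤ X := hU.trans hUX
  obtain ⟨hl1, hl2, hl3⟩ := bk_logs hX
  set L := Real.log ((X : ℝ) + 3) with hL
  have hXr : (1 : ℝ) ≤ X := by exact_mod_cast hX
  have hJr : (1 : ℝ) ≤ J := by exact_mod_cast hJ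
  have hUr : (1 : ℝ) ≤ U := by exact_mod_cast hU
  have hDr : (1 : ℝ) ≤ D2 := by exact_mod_cast hD2
  set V : ℕ := min (3 * X) D2 with hV
  have hV1 : V ≤ 3 * X := min_le_left _ _
  have hV2 : V ≤ D2 := min_le_right _ _
  have haV : ∀ m, V < m → m ≤ 3 * X → a m = 0 := by
    intro m h1 h2
    refine haD m ?_
    rw [hV, min_lt_iff] at h1
    omega
  -- the block index
  have hex : ∀ m : ℕ, ∃ j : ℕ, m ∈ Ioc U V → bM U J j ≤ m ∧ (m : ℝ) < bM U J j * (1 + 1 / (J : ℝ)) := by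
    intro m
    by_cases hm : m ∈ Ioc U V
    · obtain ⟨j, h1⟩ := bM_exists (J := J) hU hJ (le_of_lt (Finset.mem_Ioc.1 hm).1)
      exact ⟨j, fun _ => h1⟩
    · exact ⟨0, fun h => absurd h hm⟩
  choose jm hjm using hex
  set R : ℕ := ⌊4 * (J : ℝ) * L⌋₊ + 1 with hR
  have hRr : (R : ℝ) ≤ 5 * J * L := by
    rw [hR]
    push_cast
    have h1 : (⌊4 * (J : ℝ) * L⌋₊ : ℝ) ≤ 4 * J * L := Nat.floor_le (by (clear * - hJ hl1; positivity))
    nlinarith only [hl1, hJr, h1]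
  have hjR : ∀ m ∈ Ioc U V, jm m < R := by
    intro m hm
    rw [hR, Nat.lt_add_one_iff]
    refine Nat.le_floor ?_
    exact bk_index hU hX hJ ((Finset.mem_Ioc.1 hm).2.trans hV1) (hjm m hm).1
  -- the pieces
  set A : ℕ → ℝ → ℂ := fun j t => ∑ m ∈ (Ioc U V).filter (fun m => jm m = j), a m * nit m t with hA
  set B : ℕ → ℝ → ℂ := fun j t => ∑ n ∈ (Icc 1 (3 * X)).filter
    (fun n : ℕ => (X : ℝ) < bM U J j * (n : ℝ) ∧ bM U J j * (n : ℝ) ≤ 3 * X), b n * nit n t with hBdef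
  set e : ℕ → ℂ := fun l => ∑ p ∈ ((bD X U V).filter (fun p => p.1 * p.2 ∈ bI X J)).filter (fun p => p.1 * p.2 = l),
        ((if bP1 X p then (1 : ℂ) else 0) - (if bP2 X U J jm p then (1 : ℂ) else 0)) * (a p.1 * b p.2) with he
  set E : ℝ → ℂ := fun t => ∑ l ∈ bI X J, e l * nit l t with hE
  have hdec : ∀ t : ℝ, ∑ k ∈ Ioc X (3 * X), (∑ p ∈ k.divisorsAntidiagonal, a p.1 * b p.2) * nit k t =
      ∑ j ∈ range R, A j t * B j t + E t := by
    intro t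
    rw [bk_dec1 X U V a b ha0 haV t, bk_dec3 X U V J a b jm hJ hjm t, bk_dec2 X U V J R a b jm hjR t]
  have hAc : ∀ j, Continuous (A j) := fun j => bk_cont _ (fun m hm => by
    have := (Finset.mem_Ioc.1 (Finset.mem_filter.1 hm).1).1
    omega) _
  have hEc : Continuous E := bk_cont _ (fun m hm => (Finset.mem_Icc.1 (bI_sub X J hm)).1) _
  -- blocks which do not matter
  have hA0 : ∀ j, ¬ bM U J j ≤ D2 → ∀ t, A j t = 0 := by
    intro j hj t
    rw [hA]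
    refine Finset.sum_eq_zero fun m hm => ?_
    exfalso
    rw [Finset.mem_filter] at hm
    have h1 := (hjm m hm.1).1
    rw [hm.2] at h1
    have h2 : (m : ℝ) ≤ D2 := by exact_mod_cast (Finset.mem_Ioc.1 hm.1).2.trans hV2
    exact hj (h1.trans h2)
  -- pointwise bound
  have hpt : ∀ t ∈ Set.Icc t0 (t0 + T),
      ‖∑ k ∈ Ioc X (3 * X), (∑ p ∈ k.divisorsAntidiagonal, a p.1 * b p.2) * nit k t‖ ^ 2 ≤
        (∑ j ∈ range R, 2 * R * (2 * F + 4 * D * X / bM U J j) ^ 2 * ‖A j t‖ ^ 2) + 2 * ‖E t‖ ^ 2 := by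
    intro t ht
    rw [hdec t]
    have h1 : ‖∑ j ∈ range R, A j t * B j t‖ ^ 2 ≤
        R * ∑ j ∈ range R, (2 * F + 4 * D * X / bM U J j) ^ 2 * ‖A j t‖ ^ 2 := by
      have h2 : ‖∑ j ∈ range R, A j t * B j t‖ ≤ ∑ j ∈ range R, (2 * F + 4 * D * X / bM U J j) * ‖A j t‖ := by
        refine (norm_sum_le _ _).trans (Finset.sum_le_sum fun j _ => ?_)
        rw [norm_mul, mul_comm]
        by_cases hj : bM U J j ≤ D2
        · exact mul_le_mul_of_nonneg_right (bk_B X U D2 J j b F D t hU hF hD hj (hB t ht.1 ht.2)) (norm_nonneg _)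
        · rw [hA0 j hj t, norm_zero, mul_zero, mul_zero]
      have h3 := Finset.sum_mul_sq_le_sq_mul_sq (range R) (fun _ => (1 : ℝ))
        (fun j => (2 * F + 4 * D * X / bM U J j) * ‖A j t‖)
      have h4 : (∑ j ∈ range R, (2 * F + 4 * D * X / bM U J j) * ‖A j t‖) ^ 2 ≤
          R * ∑ j ∈ range R, (2 * F + 4 * D * X / bM U J j) ^ 2 * ‖A j t‖ ^ 2 := by
        simpa [mul_pow] using h3
      exact (pow_le_pow_left₀ (norm_nonneg _) h2 2).trans h4
    have h5 : ‖∑ j ∈ range R, A j t * B j t + E t‖ ^ 2 ≤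
        2 * ‖∑ j ∈ range R, A j t * B j t‖ ^ 2 + 2 * ‖E t‖ ^ 2 := by
      have h6 := norm_add_le (∑ j ∈ range R, A j t * B j t) (E t)
      have h7 := pow_le_pow_left₀ (norm_nonneg _) h6 2
      nlinarith only [h7, sq_nonneg (‖∑ j ∈ range R, A j t * B j t‖ - ‖E t‖)]
    refine h5.trans ?_
    have h8 : ∑ j ∈ range R, 2 * (R : ℝ) * (2 * F + 4 * D * X / bM U J j) ^ 2 * ‖A j t‖ ^ 2 =
        2 * ((R : ℝ) * ∑ j ∈ range R, (2 * F + 4 * D * X / bM U J j) ^ 2 * ‖A j t‖ ^ 2) := by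
      rw [Finset.mul_sum, Finset.mul_sum]
      exact Finset.sum_congr rfl fun j _ => by ring
    rw [h8]
    linarith only [h1]
  -- one block
  set W : ℝ := F ^ 2 * D2 * (T + D2) + D ^ 2 * (X : ℝ) ^ 2 * (1 + T / U) with hW
  have hW0 : 0 ≤ W := by (clear * - hU hD2 hT hX; positivity)
  have hblk : ∀ j, (2 * F + 4 * D * X / bM U J j) ^ 2 * ∫ t in t0..(t0 + T), ‖A j t‖ ^ 2 ≤
      C * (192 * K ^ 2 * W) := by
    intro j
    have hMU := bM_ge (J := J) hU j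
    have hM0 : 0 < bM U J j := by linarith only [hUr, hMU]
    by_cases hj : bM U J j ≤ D2
    · set M := bM U J j with hM
      have h3 := bk_A hC0 hMV ((Ioc U V).filter (fun m => jm m = j)) M K a t0 T
        (hUr.trans hMU) hT (fun n hn => by
          rw [Finset.mem_filter] at hn
          refine ⟨by have := (Finset.mem_Ioc.1 hn.1).1; omega, ?_⟩
          have h4 := (hjm n hn.1).2
          rw [hn.2, ← hM] at h4
          have h5 : (1 : ℝ) / J ≤ 1 := by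
            rw [div_le_one (by linarith only [hJr])]
            exact hJr
          nlinarith only [hMU, h4, h5]) ha
      have h6 : (2 * F + 4 * D * X / M) ^ 2 ≤ 8 * F ^ 2 + 32 * (D ^ 2 * X ^ 2) / M ^ 2 := by
        have h7 : 8 * F ^ 2 + 32 * (D ^ 2 * X ^ 2) / M ^ 2 - (2 * F + 4 * D * X / M) ^ 2 =
            (2 * F - 4 * D * X / M) ^ 2 := by
          field_simp
          ring
        nlinarith only [h7, sq_nonneg (2 * F - 4 * D * X / M)]
      have h8 : M * (1 + T + 2 * M) ≤ 3 * (D2 * (T + D2)) := by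
        calc M * (1 + T + 2 * M) ≤ D2 * (1 + T + 2 * D2) := by gcongr
          _ ≤ D2 * (3 * (T + D2)) := by
              refine mul_le_mul_of_nonneg_left ?_ (by (clear * - hD2; positivity))
              linarith only [hT, hDr]
          _ = _ := by ring
      have h9 : (1 + T + 2 * M) / M ≤ 3 * (1 + T / U) := by
        have h10 : (1 + T + 2 * M) / M = (1 + T) / M + 2 := by field_simp
        have h11 : (1 + T) / M ≤ (1 + T) / U := by gcongr
        have h12 : (1 + T) / U = 1 / U + T / U := by ring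
        have h13 : 1 / (U : ℝ) ≤ 1 := by
          rw [div_le_one (by linarith only [hUr])]
          exact hUr
        have h14 : 0 ≤ T / U := by (clear * - hU hT; positivity)
        rw [h10]
        linarith only [h11, h12, h13, h14]
      calc (2 * F + 4 * D * X / M) ^ 2 * ∫ t in t0..(t0 + T), ‖A j t‖ ^ 2
          ≤ (8 * F ^ 2 + 32 * (D ^ 2 * X ^ 2) / M ^ 2) * (C * (1 + T + 2 * M) * (2 * M * K ^ 2)) := by
            refine mul_le_mul h6 h3 ?_ (by (clear * - hX hM0; positivity))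
            exact intervalIntegral.integral_nonneg (by linarith only [hT]) (fun t _ => by (clear * -; positivity))
        _ = C * (K ^ 2 * (16 * F ^ 2 * (M * (1 + T + 2 * M)) +
              64 * (D ^ 2 * X ^ 2) * ((1 + T + 2 * M) / M))) := by
            field_simp
            ring
        _ ≤ C * (K ^ 2 * (16 * F ^ 2 * (3 * (D2 * (T + D2))) +
              64 * (D ^ 2 * X ^ 2) * (3 * (1 + T / U)))) := by gcongr
        _ ≤ C * (K ^ 2 * (192 * W)) := by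
            refine mul_le_mul_of_nonneg_left (mul_le_mul_of_nonneg_left ?_ (by (clear * - hK; positivity))) hC0
            rw [hW]
            have h15 : 0 ≤ F ^ 2 * D2 * (T + D2) := by (clear * - hD2 hT; positivity)
            nlinarith only [h15]
        _ = C * (192 * K ^ 2 * W) := by ring
    · simp only [hA0 j hj, norm_zero]
      have h2 : ∫ _ in t0..(t0 + T), (0 : ℝ) ^ 2 = 0 := by simp
      rw [h2, mul_zero]
      (clear * - hC1 hU hD2 hT hK hX; positivity)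
  -- the error
  have herr : ∫ t in t0..(t0 + T), ‖E t‖ ^ 2 ≤
      C * (8 * X * (K ^ 4 * (5 * X / Real.sqrt J * (3 * L) ^ 8))) :=
    bk_E hC0 hMV X J e t0 T K hX hJ hT hTX (fun l hl => bk_e X U V J a b jm hK ha hb l hl)
  have hPc : Continuous (fun t : ℝ =>
      ∑ k ∈ Ioc X (3 * X), (∑ p ∈ k.divisorsAntidiagonal, a p.1 * b p.2) * nit k t) :=
    bk_cont _ (fun m hm => by have := (Finset.mem_Ioc.1 hm).1; omega) _
  have hint : ∫ t in t0..(t0 + T),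
      ‖∑ k ∈ Ioc X (3 * X), (∑ p ∈ k.divisorsAntidiagonal, a p.1 * b p.2) * nit k t‖ ^ 2 ≤
      (∑ j ∈ range R, 2 * R * ((2 * F + 4 * D * X / bM U J j) ^ 2 * ∫ t in t0..(t0 + T), ‖A j t‖ ^ 2)) +
        2 * ∫ t in t0..(t0 + T), ‖E t‖ ^ 2 := by
    have i1 : ∀ j ∈ range R, IntervalIntegrable
        (fun t => 2 * R * (2 * F + 4 * D * X / bM U J j) ^ 2 * ‖A j t‖ ^ 2) volume t0 (t0 + T) := fun j _ =>
      (continuous_const.mul ((hAc j).norm.pow 2)).intervalIntegrable _ _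
    have i2 : IntervalIntegrable (fun t => 2 * ‖E t‖ ^ 2) volume t0 (t0 + T) :=
      (continuous_const.mul (hEc.norm.pow 2)).intervalIntegrable _ _
    have h1 := intervalIntegral.integral_mono_on (by linarith only [hT])
      ((hPc.norm.pow 2).intervalIntegrable t0 (t0 + T))
      ((IntervalIntegrable.sum (range R) i1).add i2) (fun t ht => by
        have := hpt t ht
        simpa using this)
    refine h1.trans (le_of_eq ?_)
    rw [intervalIntegral.integral_add (IntervalIntegrable.sum (range R) i1) i2,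
      intervalIntegral.integral_const_mul]
    congr 1
    simp only [Finset.sum_apply]
    rw [intervalIntegral.integral_finsetSum i1]
    refine Finset.sum_congr rfl fun j _ => ?_
    rw [intervalIntegral.integral_const_mul]
    ring
  refine hint.trans ?_
  have hK2 : K ^ 2 ≤ K ^ 4 := pow_le_pow_right₀ hK (by norm_num)
  have hmain : ∑ j ∈ range R, 2 * R * ((2 * F + 4 * D * X / bM U J j) ^ 2 * ∫ t in t0..(t0 + T), ‖A j t‖ ^ 2) ≤
      C * 2500000 * K ^ 4 * L ^ 20 * ((J : ℝ) ^ 2 * W) := by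
    calc ∑ j ∈ range R, 2 * R * ((2 * F + 4 * D * X / bM U J j) ^ 2 * ∫ t in t0..(t0 + T), ‖A j t‖ ^ 2)
        ≤ ∑ j ∈ range R, 2 * R * (C * (192 * K ^ 2 * W)) :=
          Finset.sum_le_sum fun j _ => mul_le_mul_of_nonneg_left (hblk j) (by (clear * -; positivity))
      _ = (R : ℝ) ^ 2 * (2 * (C * (192 * K ^ 2 * W))) := by
          rw [Finset.sum_const, Finset.card_range, nsmul_eq_mul]
          ring
      _ ≤ (5 * J * L) ^ 2 * (2 * (C * (192 * K ^ 2 * W))) := by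
          gcongr
      _ = C * 9600 * K ^ 2 * L ^ 2 * ((J : ℝ) ^ 2 * W) := by ring
      _ ≤ C * 2500000 * K ^ 4 * L ^ 20 * ((J : ℝ) ^ 2 * W) := by
          gcongr
          · norm_num
          · norm_num
  have herr2 : 2 * ∫ t in t0..(t0 + T), ‖E t‖ ^ 2 ≤
      C * 2500000 * K ^ 4 * L ^ 20 * ((X : ℝ) ^ 2 / Real.sqrt J) := by
    calc 2 * ∫ t in t0..(t0 + T), ‖E t‖ ^ 2
        ≤ 2 * (C * (8 * X * (K ^ 4 * (5 * X / Real.sqrt J * (3 * L) ^ 8)))) :=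
          mul_le_mul_of_nonneg_left herr (by norm_num)
      _ = C * 524880 * K ^ 4 * L ^ 8 * ((X : ℝ) ^ 2 / Real.sqrt J) := by ring
      _ ≤ C * 2500000 * K ^ 4 * L ^ 20 * ((X : ℝ) ^ 2 / Real.sqrt J) := by
          gcongr
          · norm_num
          · norm_num
  calc _ ≤ C * 2500000 * K ^ 4 * L ^ 20 * ((J : ℝ) ^ 2 * W) +
        C * 2500000 * K ^ 4 * L ^ 20 * ((X : ℝ) ^ 2 / Real.sqrt J) := add_le_add hmain herr2
    _ = C * 2500000 * K ^ 4 * L ^ 20 * ((J : ℝ) ^ 2 * W + (X : ℝ) ^ 2 / Real.sqrt J) := by ring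
    _ ≤ C * 5000000 * K ^ 4 * L ^ 20 * ((J : ℝ) ^ 2 * W + (X : ℝ) ^ 2 / Real.sqrt J) := by
        gcongr
        norm_num

end Pool.Agent.VL
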