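import Pool.Agent.Lib.VL.VdC
import Pool.Agent.Lib.VL.BlockGen
import Pool.Agent.Lib.VK.Block
import Pool.Agent.Lib.VK.TypeOne
import Pool.Agent.Lib.VK.Prime
import Pool.Agent.Lib.BV.Vaughan

/-!
# Mean squares of `sum Λ(n) χ(n) n^(-it)` up to height `X^(2/3 - ε)`

The proof is that of `VK.dir_poly` (file `VK/DirPoly.lean`) with a third part. We may assume `ε ≤ 1/4`. `L = log X`. Vaughan's identity (`BV.vaughan U V`) with `U = ⌈X^(ε/8)⌉₊`,
`V = ⌈X^(2/3 - ε/2)⌉₊`, for `n > X ≥ U`: `Λ = - (LU U * muV V) * ζ + muV V * log + alphaU U * betaV V`, times `χ(n) n^(-it)`.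
Type II part: as in `VK.dir_poly`: `block_bilin` with `a m = betaV V m χ(m)` (zero for `m ≤ V`, its `U` is our `V`), `b n = alphaU U n χ(n)`, `T = t1 - t0 ≤ 2 X^(2/3-ε) ≤ V`, and
`J = ⌈L^(4A+100)⌉₊`; the hypothesis for `U < y ≤ 3X/V` from `vk_prime` (`y ≥ X^(ε/8)`, `C0 = ⌈8/ε⌉₊`).
Type I parts: coefficients `c d` (`LU U * muV V`: at most `log d`, zero for `d > U V`, `BV.LU_mul_muV_apply_of_gt`; `muV V`: at most `1`, zero for `d > V`), `d ≤ D := U V ≤ 4 X^(2/3 - 3ε/8)`,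
and `g = 1` or `g = log`. Let `D1 = ⌊X^(1/3)⌋₊`.
* `d ≤ D1` (coefficients cut at `D1`): `type_one` with `D = D1`: `4 q |v| D1 ≤ 4 L^A X^(1-ε) ≤ X`: bound `C X L^4/|t|`, the integral of the square over `|t| ≥ L^B` is `≤ C X^2 L^8/L^B`.
* `D1 < d ≤ D`: divide `[t0, t1]` into at most `2 L` intervals on which `τ ≤ |t| ≤ 2τ`, `τ ≥ L^B` (dyadic). On each of them `block_gen` with `U = D1`, `D2 = D`, `a m = c m χ(m)`, `b n = g n χ(n)`, `K = 2 log (X+3)`, `T ≤ τ`,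
`J = ⌈L^(2A+100)⌉₊`, `D = C L/τ` and `F = C q √τ L^4`. The hypothesis, `X/(2D) ≤ y ≤ 3X/D1`: for `g = 1` divide `[1, y]`: the `n ≤ N0 := ⌈q √(2τ)⌉` trivially; the rest in at most `2 L` dyadic
intervals `(N, N']`, `N' ≤ 2N`, `N ≥ N0`: if `N ≤ q |t|`: `vdc_sum`, `≤ C q √|t| (1 + log N)`; if `N ≥ q |t|`: `kl_sum`, `≤ C N/|t|`. Total `≤ C q √τ L^2 + C y/τ`. For `g = log` partial summation, factor `2 log (3X)`.
(Here `y ≥ X/(2D)` is not even needed.) Result: `≤ C L^24·(J^2 (F^2 D (τ + D) + D_b^2 X^2 (1 + τ/D1)) + X^2/√J)`, `F^2 D (τ + D) ≤ C L^(2A+8) X^(2/3-ε) X^(2/3-3ε/8) · 5 X^(2/3 - 3ε/8) ≤ X^(2-ε)`,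
`D_b^2 X^2 (1 + τ/D1) ≤ C L^2 X^2 (τ^(-2) + τ^(-1) X^(-1/3)·2) ≤ X^2 L^(3-2B)`: fine if `B` is large in terms of `A`.
-/

set_option autoImplicit false

open Finset Filter MeasureTheory Pool.Agent.Lib.SW

namespace Pool.Agent.VL

open Pool.Agent.VK

namespace DP3Aux

lemma nit_cont {n : ℕ} (hn : 1 ≤ n) : Continuous (fun t : ℝ => nit n t) := by
  unfold nit
  have h0 : (((n : ℝ)) : ℂ) ≠ 0 := by
    have : (n : ℝ) ≠ 0 := by exact_mod_cast (by omega : n ≠ 0)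
    exact_mod_cast this
  refine Continuous.const_cpow ?_ (Or.inl h0)
  fun_prop

/-- The exponential sum up to `y`. -/
lemma expo {C1 C2 : ℝ} (hC1 : 1 ≤ C1) (hC2 : 1 ≤ C2)
    (h1 : ∀ (q N N' : ℕ) (f : ZMod q → ℂ) (v : ℝ), 1 ≤ q → 1 ≤ N → N' ≤ 2 * N → (∀ a, ‖f a‖ ≤ 1) →
      1 ≤ |v| → q * |v| ≤ N → ‖∑ n ∈ Ioc N N', f (n : ZMod q) * nit n v‖ ≤ C1 * N / |v|)
    (h2 : ∀ (q N N' : ℕ) (f : ZMod q → ℂ) (v : ℝ), 1 ≤ q → 1 ≤ N → N' ≤ 2 * N → (∀ a, ‖f a‖ ≤ 1) →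
      1 ≤ |v| → (N : ℝ) ≤ q * |v| → (q : ℝ) ^ 2 * |v| ≤ (N : ℝ) ^ 2 →
      ‖∑ n ∈ Ioc N N', f (n : ZMod q) * nit n v‖ ≤ C2 * q * Real.sqrt |v| * (1 + Real.log N))
    (q : ℕ) (hq : 1 ≤ q) (f : ZMod q → ℂ) (hf : ∀ a, ‖f a‖ ≤ 1) (v : ℝ) (hv : 1 ≤ |v|) (k : ℕ) :
    ∀ y : ℕ, y ≤ 2 ^ k → ‖∑ n ∈ Ioc 0 y, f (n : ZMod q) * nit n v‖ ≤
      2 * (C1 + C2) * q * Real.sqrt |v| * ((k : ℝ) + 1) ^ 2 + C1 * y / |v| := by
  have hqr : (1 : ℝ) ≤ q := by exact_mod_cast hq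
  have hv0 : 0 < |v| := by linarith
  have hs1 : 1 ≤ Real.sqrt |v| := by
    rw [Real.one_le_sqrt]
    exact hv
  have hqs : 1 ≤ q * Real.sqrt |v| := by nlinarith only [hqr, hs1]
  have htriv : ∀ y : ℕ, ‖∑ n ∈ Ioc 0 y, f (n : ZMod q) * nit n v‖ ≤ y := by
    intro y
    refine (norm_sum_le _ _).trans ?_
    have h3 : ∀ n ∈ Ioc 0 y, ‖f (n : ZMod q) * nit n v‖ ≤ 1 := by
      intro n hn
      rw [norm_mul, norm_nit (Finset.mem_Ioc.1 hn).1, mul_one]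
      exact hf _
    refine (sum_le_sum h3).trans ?_
    simp
  induction k with
  | zero =>
    intro y hy
    refine (htriv y).trans ?_
    have h3 : (y : ℝ) ≤ 1 := by exact_mod_cast (by simpa using hy)
    have h4 : 0 ≤ C1 * y / |v| := by positivity
    have h5 : 1 ≤ 2 * (C1 + C2) * q * Real.sqrt |v| * (((0 : ℕ) : ℝ) + 1) ^ 2 := by
      have : 2 * (C1 + C2) * q * Real.sqrt |v| * (((0 : ℕ) : ℝ) + 1) ^ 2 =
        2 * (C1 + C2) * (q * Real.sqrt |v|) := by push_cast; ring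
      rw [this]
      nlinarith only [hC1, hC2, hqs]
    exact (h3.trans h5).trans (le_add_of_nonneg_right h4)
  | succ k ih =>
    intro y hy
    rcases Nat.eq_zero_or_pos y with h0 | h0
    · subst h0
      simp only [Ioc_self, sum_empty, norm_zero]
      positivity
    obtain ⟨N, hN⟩ : ∃ N, N = (y + 1) / 2 := ⟨_, rfl⟩
    have hN1 : 1 ≤ N := by omega
    have hNy : N ≤ y := by omega
    have hy2 : y ≤ 2 * N := by omega
    have hNk : N ≤ 2 ^ k := by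
      have : 2 ^ (k + 1) = 2 * 2 ^ k := by ring
      omega
    have hyr : (1 : ℝ) ≤ y := by exact_mod_cast h0
    have hNyr : (N : ℝ) ≤ y := by exact_mod_cast hNy
    have hN1r : (1 : ℝ) ≤ N := by exact_mod_cast hN1
    have h2Nr : 2 * (N : ℝ) ≤ y + 1 := by exact_mod_cast (by omega : 2 * N ≤ y + 1)
    have hy2r : (y : ℝ) ≤ 2 * N := by exact_mod_cast hy2
    have hlogN : Real.log N ≤ k := by
      have h3 : (N : ℝ) ≤ 2 ^ k := by exact_mod_cast hNk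
      have h4 : Real.log N ≤ Real.log (2 ^ k) := Real.log_le_log (by linarith only [hN1r]) h3
      rw [Real.log_pow] at h4
      have h5 : Real.log 2 ≤ 1 := by
        have := Real.log_two_lt_d9
        linarith only [this]
      have h6 : (k : ℝ) * Real.log 2 ≤ k * 1 := mul_le_mul_of_nonneg_left h5 (Nat.cast_nonneg k)
      linarith only [h4, h6]
    have hsplit : ∑ n ∈ Ioc 0 y, f (n : ZMod q) * nit n v =
        ∑ n ∈ Ioc 0 N, f (n : ZMod q) * nit n v + ∑ n ∈ Ioc N y, f (n : ZMod q) * nit n v :=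
      (sum_Ioc_consecutive _ (Nat.zero_le N) hNy).symm
    have hih := ih N hNk
    have hkk : (0 : ℝ) ≤ k := Nat.cast_nonneg k
    obtain ⟨Q, hQ⟩ : ∃ Q, Q = q * Real.sqrt |v| := ⟨_, rfl⟩
    have hQ1 : 1 ≤ Q := by rw [hQ]; exact hqs
    have e1 : 2 * (C1 + C2) * q * Real.sqrt |v| * ((k : ℝ) + 1) ^ 2 =
      2 * (C1 + C2) * Q * ((k : ℝ) + 1) ^ 2 := by rw [hQ]; ring
    have e2 : 2 * (C1 + C2) * q * Real.sqrt |v| * (((k + 1 : ℕ) : ℝ) + 1) ^ 2 =
      2 * (C1 + C2) * Q * ((k : ℝ) + 2) ^ 2 := by rw [hQ]; push_cast; ring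
    rw [e2]
    rw [e1] at hih
    have e3 : 2 * (C1 + C2) * Q * ((k : ℝ) + 2) ^ 2 = 2 * (C1 + C2) * Q * ((k : ℝ) + 1) ^ 2 +
      2 * (C1 + C2) * Q * (2 * k + 3) := by ring
    have hP : 0 ≤ 2 * (C1 + C2) * Q * ((k : ℝ) + 1) ^ 2 := by (clear * - hC1 hC2 hQ1; positivity)
    rcases le_or_gt (q * |v|) (N : ℝ) with hA | hA
    · have h3 := h1 q N y f v hq hN1 hy2 hf hv hA
      rw [hsplit]
      refine (norm_add_le _ _).trans ?_
      have h4 : C1 * N / |v| + C1 * N / |v| ≤ C1 * y / |v| + C1 := by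
        have h5 : C1 * N / |v| + C1 * N / |v| = C1 * (2 * N) / |v| := by ring
        rw [h5]
        have h6 : C1 * (2 * N) / |v| ≤ C1 * (y + 1) / |v| := by gcongr
        have h7 : C1 * (y + 1) / |v| = C1 * y / |v| + C1 / |v| := by ring
        have h8 : C1 / |v| ≤ C1 := div_le_self (by linarith only [hC1]) hv
        linarith only [h6, h7, h8]
      have h9 : C1 ≤ 2 * (C1 + C2) * Q * (2 * k + 3) := by
        have h10 : C1 * 1 ≤ (2 * (C1 + C2)) * (Q * (2 * k + 3)) := by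
          apply mul_le_mul (by linarith only [hC1, hC2]) _ (by norm_num) (by linarith only [hC1, hC2])
          nlinarith only [hqs, hQ]
        nlinarith only [h10]
      linarith only [hih, h3, h4, h9]
    rcases le_or_gt ((q : ℝ) ^ 2 * |v|) ((N : ℝ) ^ 2) with hB | hB
    · have h3 := h2 q N y f v hq hN1 hy2 hf hv hA.le hB
      rw [hsplit]
      refine (norm_add_le _ _).trans ?_
      have h4 : C1 * N / |v| ≤ C1 * y / |v| := by gcongr
      have h5 : C2 * q * Real.sqrt |v| * (1 + Real.log N) ≤ 2 * (C1 + C2) * Q * (2 * k + 3) := by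
        have h6 : C2 * q * Real.sqrt |v| * (1 + Real.log N) = C2 * Q * (1 + Real.log N) := by
          rw [hQ]; ring
        rw [h6]
        have hl0 : 0 ≤ Real.log N := Real.log_nonneg hN1r
        apply mul_le_mul _ (by linarith only [hlogN]) (by linarith only [hl0]) (by (clear * - hC1 hC2 hQ1; positivity))
        apply mul_le_mul_of_nonneg_right (by linarith only [hC1, hC2]) (by linarith only [hqs, hQ])
      linarith only [hih, h3, h4, h5]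
    · refine (htriv y).trans ?_
      have h3 : (N : ℝ) ≤ Q := by
        have h4 : (q : ℝ) ^ 2 * |v| = Q ^ 2 := by
          rw [hQ, mul_pow, Real.sq_sqrt hv0.le]
        rw [h4] at hB
        nlinarith only [hqs, hQ, hB]
      have h4 : 0 ≤ C1 * y / |v| := by (clear * - hC1 hv h0; positivity)
      have h5 : 2 * Q ≤ 2 * (C1 + C2) * Q * (2 * k + 3) := by
        have h10 : (2 * Q) * 1 ≤ (2 * (C1 + C2) * Q) * (2 * k + 3) := by
          apply mul_le_mul _ (by linarith) (by norm_num) (by (clear * - hC1 hC2 hQ1; positivity))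
          nlinarith only [hC1, hC2, hqs, hQ]
        linarith only [h10]
      linarith only [hy2r, hP, h3, h4, h5]

/-- Dyadic division, positive side. -/
lemma dyad_pos (f : ℝ → ℝ) (hf : Continuous f) (M : ℝ) (hM : 0 ≤ M) (n : ℕ) :
    ∀ a b : ℝ, 0 < a → a ≤ b → b ≤ 2 ^ n * a →
      (∀ c d : ℝ, a ≤ c → c ≤ d → d ≤ b → d ≤ 2 * c → ∫ t in c..d, f t ≤ M) →
      ∫ t in a..b, f t ≤ n * M := by
  induction n with
  | zero =>
    intro a b ha hab hb _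
    have h : b = a := by
      simp at hb
      linarith
    rw [h]
    simp
  | succ n ih =>
    intro a b ha hab hb H
    rcases le_or_gt b (2 * a) with h | h
    · have h1 := H a b le_rfl hab le_rfl h
      push_cast
      have : 0 ≤ (n : ℝ) * M := by positivity
      linarith
    · have h1 := H a (2 * a) le_rfl (by linarith) h.le le_rfl
      have h2 := ih (2 * a) b (by linarith) h.le (by
        have : (2 : ℝ) ^ (n + 1) * a = 2 ^ n * (2 * a) := by ring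
        linarith) (fun c d hc hcd hd h3 => H c d (by linarith only [ha, hc]) hcd hd h3)
      rw [← intervalIntegral.integral_add_adjacent_intervals (b := 2 * a)
        (hf.intervalIntegrable _ _) (hf.intervalIntegrable _ _)]
      push_cast
      linarith

/-- Dyadic division. -/
lemma dyad (f : ℝ → ℝ) (hf : Continuous f) (M : ℝ) (hM : 0 ≤ M) (n : ℕ) (a b : ℝ) (hab : a ≤ b)
    (h0 : ∀ t : ℝ, a ≤ t → t ≤ b → 1 ≤ |t| ∧ |t| ≤ 2 ^ n)
    (H : ∀ c d τ : ℝ, a ≤ c → c ≤ d → d ≤ b → (τ = |c| ∨ τ = |d|) →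
      (∀ t : ℝ, c ≤ t → t ≤ d → τ ≤ |t| ∧ |t| ≤ 2 * τ) → ∫ t in c..d, f t ≤ M) :
    ∫ t in a..b, f t ≤ n * M := by
  have hpos : 0 < a ∨ b < 0 := by
    by_contra hcon
    push Not at hcon
    have := h0 0 hcon.1 hcon.2
    rw [abs_zero] at this
    linarith [this.1]
  rcases hpos with ha | hb
  · apply dyad_pos f hf M hM n a b ha hab
    · have h1 := (h0 a le_rfl hab).1
      have h2 := (h0 b hab le_rfl).2
      rw [abs_of_pos ha] at h1
      rw [abs_of_pos (by linarith)] at h2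
      have : (2 : ℝ) ^ n * 1 ≤ 2 ^ n * a := by gcongr
      linarith
    · intro c d hc hcd hd h1
      apply H c d c hc hcd hd (Or.inl (abs_of_pos (by linarith)).symm)
      intro t h2 h3
      rw [abs_of_pos (by linarith only [ha, hc, h2])]
      exact ⟨h2, by linarith only [h1, h3]⟩
  · have h1 : ∫ t in a..b, f t = ∫ t in (-b)..(-a), f (-t) := by
      rw [intervalIntegral.integral_comp_neg]
      simp
    rw [h1]
    apply dyad_pos (fun t => f (-t)) (hf.comp continuous_neg) M hM n (-b) (-a) (by linarith)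
      (by linarith)
    · have h1 := (h0 b hab le_rfl).1
      have h2 := (h0 a le_rfl hab).2
      rw [abs_of_neg hb] at h1
      rw [abs_of_neg (by linarith)] at h2
      have : (2 : ℝ) ^ n * 1 ≤ 2 ^ n * (-b) := by gcongr
      linarith
    · intro c d hc hcd hd h1
      have h4 : ∫ t in c..d, f (-t) = ∫ t in (-d)..(-c), f t := by
        rw [intervalIntegral.integral_comp_neg]
      rw [h4]
      apply H (-d) (-c) c (by linarith only [hd]) (by linarith only [hcd]) (by linarith only [hc])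
        (Or.inr (by rw [abs_neg, abs_of_pos (by linarith only [hb, hc])]))
      intro t h2 h3
      rw [abs_of_neg (by linarith only [hb, hc, h3])]
      constructor <;> linarith only [h3, h1, h2]

lemma log3_ge_one {X : ℕ} (hX : 1 ≤ X) : 1 ≤ Real.log (X + 3) := by
  have hXr : (1 : ℝ) ≤ X := by exact_mod_cast hX
  rw [Real.le_log_iff_exp_le (by linarith)]
  have := Real.exp_one_lt_d9
  linarith

/-- The exponential sum with a monotone weight. -/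
lemma genhyp {C1 C2 : ℝ} (hC1 : 1 ≤ C1) (hC2 : 1 ≤ C2)
    (h1 : ∀ (q N N' : ℕ) (f : ZMod q → ℂ) (v : ℝ), 1 ≤ q → 1 ≤ N → N' ≤ 2 * N → (∀ a, ‖f a‖ ≤ 1) →
      1 ≤ |v| → q * |v| ≤ N → ‖∑ n ∈ Ioc N N', f (n : ZMod q) * nit n v‖ ≤ C1 * N / |v|)
    (h2 : ∀ (q N N' : ℕ) (f : ZMod q → ℂ) (v : ℝ), 1 ≤ q → 1 ≤ N → N' ≤ 2 * N → (∀ a, ‖f a‖ ≤ 1) →
      1 ≤ |v| → (N : ℝ) ≤ q * |v| → (q : ℝ) ^ 2 * |v| ≤ (N : ℝ) ^ 2 →
      ‖∑ n ∈ Ioc N N', f (n : ZMod q) * nit n v‖ ≤ C2 * q * Real.sqrt |v| * (1 + Real.log N))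
    {q : ℕ} [NeZero q] (χ : DirichletCharacter ℂ q) (g : ℕ → ℝ) (X : ℕ) (hX : 1 ≤ X)
    (hg : Monotone g) (hg0 : ∀ n, 0 ≤ g n) (hgX : g (3 * X) ≤ 2 * Real.log (X + 3)) (v τ : ℝ)
    (hτ : 1 ≤ τ) (hv1 : τ ≤ |v|) (hv2 : |v| ≤ 2 * τ) (y : ℕ) (hy : y ≤ 3 * X) :
    ‖∑ n ∈ Icc 1 y, ((g n : ℂ) * χ (n : ZMod q)) * nit n v‖ ≤
      400 * (C1 + C2) * q * Real.sqrt τ * Real.log (X + 3) ^ 3 + 4 * C1 * Real.log (X + 3) / τ * y := by
  have hl := log3_ge_one hX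
  obtain ⟨l, hl'⟩ : ∃ l : ℝ, l = Real.log (X + 3) := ⟨_, rfl⟩
  rw [← hl'] at hl hgX ⊢
  have hq : 1 ≤ q := Nat.one_le_iff_ne_zero.2 (NeZero.ne q)
  have hqr : (1 : ℝ) ≤ q := by exact_mod_cast hq
  have hXr : (1 : ℝ) ≤ X := by exact_mod_cast hX
  have hv : 1 ≤ |v| := hτ.trans hv1
  have hτ0 : 0 < τ := by linarith only [hτ]
  obtain ⟨k, hk⟩ : ∃ k : ℕ, k = ⌈3 * l⌉₊ := ⟨_, rfl⟩
  have hk1 : 3 * l ≤ k := by rw [hk]; exact Nat.le_ceil _
  have hk2 : (k : ℝ) < 3 * l + 1 := by rw [hk]; exact Nat.ceil_lt_add_one (by positivity)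
  have hk3 : (k : ℝ) + 1 ≤ 5 * l := by linarith only [hl, hk2]
  have h2k : 3 * X ≤ 2 ^ k := by
    have h3 : Real.log (3 * X) ≤ Real.log ((2 : ℝ) ^ k) := by
      rw [Real.log_pow]
      have h4 : Real.log (3 * X) ≤ Real.log (((X : ℝ) + 3) ^ 2) := by
        apply Real.log_le_log (by linarith only [hXr])
        nlinarith only [hXr]
      rw [Real.log_pow, ← hl'] at h4
      push_cast at h4
      have h5 := Real.log_two_gt_d9
      have h6 : (3 * l) * 0.69 ≤ k * Real.log 2 := by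
        apply mul_le_mul hk1 (by linarith only [h5]) (by norm_num) (by linarith only [hl, hk1])
      linarith only [hl, h4, h6]
    have h4 := (Real.log_le_log_iff (by linarith only [hXr]) (by (clear * -; positivity))).1 h3
    exact_mod_cast h4
  -- the bound for the unweighted sums
  obtain ⟨B, hB⟩ : ∃ B : ℝ, B = 100 * (C1 + C2) * q * Real.sqrt τ * l ^ 2 + C1 * y / τ := ⟨_, rfl⟩
  have hsq : Real.sqrt |v| ≤ 2 * Real.sqrt τ := by
    have h3 : Real.sqrt |v| ≤ Real.sqrt (2 ^ 2 * τ) := Real.sqrt_le_sqrt (by linarith only [hτ, hv2])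
    rw [Real.sqrt_mul (by norm_num), Real.sqrt_sq (by norm_num)] at h3
    exact h3
  have hun : ∀ m : ℕ, m ≤ y → ‖∑ n ∈ Ioc 0 m, χ (n : ZMod q) * nit n v‖ ≤ B := by
    intro m hm
    refine (expo hC1 hC2 h1 h2 q hq (fun a => χ a) (fun a => χ.norm_le_one a) v hv k m
      ((hm.trans hy).trans h2k)).trans ?_
    rw [hB]
    have hmr : (m : ℝ) ≤ y := by exact_mod_cast hm
    have h3 : C1 * m / |v| ≤ C1 * y / τ := by gcongr
    have h4 : 2 * (C1 + C2) * q * Real.sqrt |v| * ((k : ℝ) + 1) ^ 2 ≤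
        2 * (C1 + C2) * q * (2 * Real.sqrt τ) * (5 * l) ^ 2 := by gcongr
    have h5 : 2 * (C1 + C2) * q * (2 * Real.sqrt τ) * (5 * l) ^ 2 =
      100 * (C1 + C2) * q * Real.sqrt τ * l ^ 2 := by ring
    linarith only [h3, h4]
  have hB0 : 0 ≤ B := (norm_nonneg _).trans (hun 0 (Nat.zero_le _))
  have hab := TypeOneAux.abel g (fun n => if n ≤ y then χ (n : ZMod q) * nit n v else 0) hg hg0
    (M := 0) (M' := y) (B := B) (by
      intro m
      have h3 : ∑ n ∈ Ioc 0 m, (if n ≤ y then χ (n : ZMod q) * nit n v else 0) =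
          ∑ n ∈ Ioc 0 (min m y), χ (n : ZMod q) * nit n v := by
        rw [← sum_filter]
        apply sum_congr _ (fun _ _ => rfl)
        ext n
        simp only [mem_filter, mem_Ioc]
        omega
      rw [h3]
      exact hun _ (min_le_right _ _)) (Nat.zero_le y)
  have h3 : ∑ n ∈ Icc 1 y, ((g n : ℂ) * χ (n : ZMod q)) * nit n v =
      ∑ n ∈ Ioc 0 y, (g n : ℂ) * (if n ≤ y then χ (n : ZMod q) * nit n v else 0) := by
    have h4 : Icc 1 y = Ioc 0 y := by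
      ext n
      simp only [mem_Icc, mem_Ioc]
      omega
    rw [h4]
    apply sum_congr rfl
    intro n hn
    rw [if_pos (Finset.mem_Ioc.1 hn).2]
    ring
  rw [h3]
  refine hab.trans ?_
  have h5 : g y ≤ 2 * l := (hg hy).trans hgX
  have h6 : 2 * g y * B ≤ 2 * (2 * l) * B := by gcongr
  refine h6.trans (le_of_eq ?_)
  rw [hB]
  ring

lemma conv_eq {q : ℕ} (χ : DirichletCharacter ℂ q) (c g : ℕ → ℝ) (S : Finset ℕ) (t : ℝ) :
    ∑ k ∈ S, ((∑ p ∈ k.divisorsAntidiagonal, c p.1 * g p.2 : ℝ) : ℂ) * (χ (k : ZMod q) * nit k t) =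
    ∑ k ∈ S, (∑ p ∈ k.divisorsAntidiagonal, ((c p.1 : ℂ) * χ (p.1 : ZMod q)) *
      ((g p.2 : ℂ) * χ (p.2 : ZMod q))) * nit k t := by
  apply sum_congr rfl
  intro k _
  rw [← mul_assoc]
  congr 1
  rw [Complex.ofReal_sum, sum_mul]
  apply sum_congr rfl
  intro p hp
  have h1 : p.1 * p.2 = k := (Nat.mem_divisorsAntidiagonal.1 hp).1
  rw [← h1]
  push_cast
  rw [map_mul]
  ring

lemma cont_sum (w : ℕ → ℂ) (X Y : ℕ) : Continuous (fun t : ℝ => ∑ k ∈ Ioc X Y, w k * nit k t) := by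
  apply continuous_finsetSum
  intro k hk
  have h1 : 1 ≤ k := by
    have := (Finset.mem_Ioc.1 hk).1
    omega
  exact continuous_const.mul (nit_cont h1)

lemma one_piece : ∃ C : ℝ, 1 ≤ C ∧ ∀ (q X D2 J : ℕ) [NeZero q] (χ : DirichletCharacter ℂ q)
    (c g : ℕ → ℝ) (c0 d0 τ : ℝ), 1 ≤ X → 1 ≤ D2 → 1 ≤ J → J ≤ X → 1 ≤ τ → 8 * q * τ ≤ X → c0 ≤ d0 →
    (∀ t, c0 ≤ t → t ≤ d0 → τ ≤ |t| ∧ |t| ≤ 2 * τ) → (∀ d, |c d| ≤ Real.log (X + 3)) →
    (∀ d, D2 < d → c d = 0) → Monotone g → (∀ n, 0 ≤ g n) → g (3 * X) ≤ 2 * Real.log (X + 3) →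
    ∫ t in c0..d0, ‖∑ k ∈ Ioc X (3 * X), ((∑ p ∈ k.divisorsAntidiagonal, c p.1 * g p.2 : ℝ) : ℂ) *
      (χ (k : ZMod q) * nit k t)‖ ^ 2 ≤
    C * Real.log (X + 3) ^ 24 * ((J : ℝ) ^ 2 * ((q : ℝ) ^ 2 * τ * Real.log (X + 3) ^ 6 * D2 * (4 * τ + D2) +
      Real.log (X + 3) ^ 2 * (X : ℝ) ^ 2 / τ) + (X : ℝ) ^ 2 / Real.sqrt J) := by
  obtain ⟨C1, hC1, h1⟩ := kl_sum
  obtain ⟨C2, hC2, h2⟩ := vdc_sum
  obtain ⟨C3, hC3, h3⟩ := block_gen
  refine ⟨8 * (56 * C1) ^ 2 + 32 * C3 * (160000 * (C1 + C2) ^ 2), by nlinarith only [hC1, hC3, sq_nonneg (C1 + C2)], ?_⟩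
  intro q X D2 J _ χ c g c0 d0 τ hX hD2 hJ hJX hτ hqτ hcd hrange hc hc0 hg hg0 hgX
  have hl := log3_ge_one hX
  have hq : 1 ≤ q := Nat.one_le_iff_ne_zero.2 (NeZero.ne q)
  have hqr : (1 : ℝ) ≤ q := by exact_mod_cast hq
  have hXr : (1 : ℝ) ≤ X := by exact_mod_cast hX
  have hJr : (1 : ℝ) ≤ J := by exact_mod_cast hJ
  have hD2r : (1 : ℝ) ≤ D2 := by exact_mod_cast hD2
  have hτ0 : 0 < τ := by linarith only [hτ]
  obtain ⟨l, hl'⟩ : ∃ l : ℝ, l = Real.log (X + 3) := ⟨_, rfl⟩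
  rw [← hl'] at hl ⊢
  have hT : d0 - c0 ≤ 4 * τ := by
    have e1 := (hrange c0 le_rfl hcd).2
    have e2 := (hrange d0 hcd le_rfl).2
    have e3 := neg_abs_le c0
    have e4 := le_abs_self d0
    linarith only [e1, e2, e3, e4]
  have hτX : 4 * τ ≤ X := by nlinarith only [hτ, hqτ, hqr]
  -- the two parts
  obtain ⟨ca, hca⟩ : ∃ ca : ℕ → ℝ, ca = fun d => if d ≤ 1 then c d else 0 := ⟨_, rfl⟩
  obtain ⟨cb, hcb⟩ : ∃ cb : ℕ → ℝ, cb = fun d => if d ≤ 1 then 0 else c d := ⟨_, rfl⟩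
  have hcab : ∀ d, c d = ca d + cb d := by
    intro d
    rw [hca, hcb]
    dsimp only
    split_ifs <;> simp
  have hca1 : ∀ d, |ca d| ≤ Real.log (X + 3) := by
    intro d
    rw [hca]
    dsimp only
    split_ifs
    · exact hc d
    · rw [abs_zero, ← hl']
      linarith only [hl]
  have hca0 : ∀ d, 1 < d → ca d = 0 := by
    intro d hd
    rw [hca]
    dsimp only
    rw [if_neg (by omega)]
  obtain ⟨Sa, hSa⟩ : ∃ Sa : ℝ → ℂ, Sa = fun t => ∑ k ∈ Ioc X (3 * X),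
    ((∑ p ∈ k.divisorsAntidiagonal, ca p.1 * g p.2 : ℝ) : ℂ) * (χ (k : ZMod q) * nit k t) := ⟨_, rfl⟩
  obtain ⟨Sb, hSb⟩ : ∃ Sb : ℝ → ℂ, Sb = fun t => ∑ k ∈ Ioc X (3 * X),
    (∑ p ∈ k.divisorsAntidiagonal, ((cb p.1 : ℂ) * χ (p.1 : ZMod q)) *
      ((g p.2 : ℂ) * χ (p.2 : ZMod q))) * nit k t := ⟨_, rfl⟩
  have hS : ∀ t : ℝ, ∑ k ∈ Ioc X (3 * X), ((∑ p ∈ k.divisorsAntidiagonal, c p.1 * g p.2 : ℝ) : ℂ) *
      (χ (k : ZMod q) * nit k t) = Sa t + Sb t := by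
    intro t
    rw [hSa, hSb]
    dsimp only
    rw [← conv_eq χ cb g, ← sum_add_distrib]
    apply sum_congr rfl
    intro k _
    rw [← add_mul, ← Complex.ofReal_add, ← sum_add_distrib]
    congr 2
    apply sum_congr rfl
    intro p _
    rw [hcab]
    ring
  have hSac : Continuous Sa := by
    have e1 : Sa = fun t => ∑ k ∈ Ioc X (3 * X),
      (((∑ p ∈ k.divisorsAntidiagonal, ca p.1 * g p.2 : ℝ) : ℂ) * χ (k : ZMod q)) * nit k t := by
      rw [hSa]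
      funext t
      apply sum_congr rfl
      intro k _
      ring
    rw [e1]
    exact cont_sum _ _ _
  have hSbc : Continuous Sb := by
    rw [hSb]
    exact cont_sum _ _ _
  -- the first part
  have hIa : ∫ t in c0..d0, ‖Sa t‖ ^ 2 ≤ 4 * (56 * C1) ^ 2 * (l ^ 8 * (X : ℝ) ^ 2 / τ) := by
    have e1 : ∀ t ∈ Set.Icc c0 d0, ‖Sa t‖ ^ 2 ≤ (56 * C1 * X / τ * l ^ 4) ^ 2 := by
      intro t ht
      obtain ⟨e2, e3⟩ := hrange t ht.1 ht.2
      have e4 := TypeOneAux.main hC1 h1 χ ca g t (D := 1) le_rfl hX (hτ.trans e2) (by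
        push_cast
        have : 4 * (q : ℝ) * |t| * 1 ≤ 4 * q * (2 * τ) * 1 := by gcongr
        linarith only [hqτ, this]) hca1 hca0 hg hg0 hgX
      rw [← hl'] at e4
      rw [hSa]
      dsimp only
      apply pow_le_pow_left₀ (norm_nonneg _)
      refine e4.trans ?_
      gcongr
    have e2 : ∫ t in c0..d0, ‖Sa t‖ ^ 2 ≤ ∫ _ in c0..d0, (56 * C1 * X / τ * l ^ 4) ^ 2 :=
      intervalIntegral.integral_mono_on hcd ((hSac.norm.pow 2).intervalIntegrable _ _)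
        (continuous_const.intervalIntegrable _ _) e1
    rw [intervalIntegral.integral_const, smul_eq_mul] at e2
    refine e2.trans ?_
    have e3 : (d0 - c0) * (56 * C1 * X / τ * l ^ 4) ^ 2 ≤ (4 * τ) * (56 * C1 * X / τ * l ^ 4) ^ 2 := by
      gcongr
    refine e3.trans (le_of_eq ?_)
    field_simp
  -- the second part
  obtain ⟨F, hF⟩ : ∃ F : ℝ, F = 400 * (C1 + C2) * q * Real.sqrt τ * l ^ 3 := ⟨_, rfl⟩
  obtain ⟨G, hG⟩ : ∃ G : ℝ, G = 4 * C1 * l / τ := ⟨_, rfl⟩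
  have hF0 : 0 ≤ F := by rw [hF]; (clear * - hC1 hC2 hτ hq hl; positivity)
  have hG0 : 0 ≤ G := by rw [hG]; (clear * - hC1 hτ hl; positivity)
  have hχ : ∀ a : ZMod q, ‖χ a‖ ≤ 1 := fun a => χ.norm_le_one a
  have hIb : ∫ t in c0..d0, ‖Sb t‖ ^ 2 ≤ C3 * (2 * l) ^ 4 * l ^ 20 * ((J : ℝ) ^ 2 *
      (F ^ 2 * D2 * ((d0 - c0) + D2) + G ^ 2 * (X : ℝ) ^ 2 * (1 + (d0 - c0) / ((1 : ℕ) : ℝ))) +
        (X : ℝ) ^ 2 / Real.sqrt J) := by
    have e1 := h3 X 1 D2 J (fun m => (cb m : ℂ) * χ (m : ZMod q)) (fun n => (g n : ℂ) * χ (n : ZMod q))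
      c0 (d0 - c0) F G (2 * l) le_rfl hX hD2 hJ hJX (by linarith only [hcd]) (by linarith only [hT, hτX]) hF0 hG0 (by linarith only [hl])
      (by
        intro m
        rw [norm_mul, Complex.norm_real, Real.norm_eq_abs]
        have e2 : |cb m| ≤ l := by
          rw [hcb]
          dsimp only
          split_ifs
          · rw [abs_zero]; linarith only [hl]
          · rw [hl']; exact hc m
        have e3 : |cb m| * ‖χ (m : ZMod q)‖ ≤ l * 1 := by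
          apply mul_le_mul e2 (hχ _) (norm_nonneg _) (by linarith only [hl])
        linarith only [hl, e3])
      (by
        intro m hm
        rw [hcb]
        dsimp only
        rw [if_pos hm]
        simp)
      (by
        intro m hm
        rw [hcb]
        dsimp only
        split_ifs
        · simp
        · rw [hc0 m hm]
          simp)
      (by
        intro n hn
        rw [norm_mul, Complex.norm_real, Real.norm_eq_abs, abs_of_nonneg (hg0 n)]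
        have e2 : g n ≤ 2 * l := (hg hn).trans (by rw [hl']; exact hgX)
        have e3 : g n * ‖χ (n : ZMod q)‖ ≤ 2 * l * 1 := by
          apply mul_le_mul e2 (hχ _) (norm_nonneg _) (by linarith only [hl])
        linarith only [e3])
      (by
        intro t ht1 ht2 y _ hy
        obtain ⟨e2, e3⟩ := hrange t ht1 (by linarith only [ht2])
        have e4 := genhyp hC1 hC2 h1 h2 χ g X hX hg hg0 hgX t τ hτ e2 e3 y (by omega)
        rw [← hl'] at e4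
        rw [hF, hG]
        exact e4)
    rw [← hl', show c0 + (d0 - c0) = d0 by ring] at e1
    rw [hSb]
    exact e1
  -- together
  have hI : ∫ t in c0..d0, ‖∑ k ∈ Ioc X (3 * X), ((∑ p ∈ k.divisorsAntidiagonal, c p.1 * g p.2 : ℝ) : ℂ) *
      (χ (k : ZMod q) * nit k t)‖ ^ 2 ≤ 2 * (∫ t in c0..d0, ‖Sa t‖ ^ 2) + 2 * ∫ t in c0..d0, ‖Sb t‖ ^ 2 := by
    have e1 : ∫ t in c0..d0, ‖∑ k ∈ Ioc X (3 * X), ((∑ p ∈ k.divisorsAntidiagonal, c p.1 * g p.2 : ℝ) : ℂ) *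
      (χ (k : ZMod q) * nit k t)‖ ^ 2 = ∫ t in c0..d0, ‖Sa t + Sb t‖ ^ 2 := by
      apply intervalIntegral.integral_congr
      intro t _
      dsimp only
      rw [hS t]
    rw [e1, ← intervalIntegral.integral_const_mul, ← intervalIntegral.integral_const_mul,
      ← intervalIntegral.integral_add]
    · apply intervalIntegral.integral_mono_on hcd
      · exact ((hSac.add hSbc).norm.pow 2).intervalIntegrable _ _
      · exact ((continuous_const.mul (hSac.norm.pow 2)).add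
          (continuous_const.mul (hSbc.norm.pow 2))).intervalIntegrable _ _
      · intro t _
        have e2 := norm_add_le (Sa t) (Sb t)
        have e3 : ‖Sa t + Sb t‖ ^ 2 ≤ (‖Sa t‖ + ‖Sb t‖) ^ 2 :=
          pow_le_pow_left₀ (norm_nonneg _) e2 2
        nlinarith only [e3, sq_nonneg (‖Sa t‖ - ‖Sb t‖)]
    · exact (continuous_const.mul (hSac.norm.pow 2)).intervalIntegrable _ _
    · exact (continuous_const.mul (hSbc.norm.pow 2)).intervalIntegrable _ _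
  refine hI.trans ?_
  have hF2 : F ^ 2 = 160000 * (C1 + C2) ^ 2 * ((q : ℝ) ^ 2 * τ * l ^ 6) := by
    rw [hF]
    have : Real.sqrt τ ^ 2 = τ := Real.sq_sqrt hτ0.le
    calc (400 * (C1 + C2) * q * Real.sqrt τ * l ^ 3) ^ 2 =
        160000 * (C1 + C2) ^ 2 * ((q : ℝ) ^ 2 * (Real.sqrt τ ^ 2) * l ^ 6) := by ring
      _ = _ := by rw [this]
  have hG2 : G ^ 2 * (X : ℝ) ^ 2 * (1 + (d0 - c0) / ((1 : ℕ) : ℝ)) ≤
      160000 * (C1 + C2) ^ 2 * (l ^ 2 * (X : ℝ) ^ 2 / τ) := by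
    have e1 : 1 + (d0 - c0) / ((1 : ℕ) : ℝ) ≤ 5 * τ := by
      push_cast
      rw [div_one]
      linarith only [hτ, hT]
    have e2 : G ^ 2 * (X : ℝ) ^ 2 * (1 + (d0 - c0) / ((1 : ℕ) : ℝ)) ≤ G ^ 2 * (X : ℝ) ^ 2 * (5 * τ) := by
      gcongr
    have e3 : G ^ 2 * (X : ℝ) ^ 2 * (5 * τ) = 80 * C1 ^ 2 * (l ^ 2 * (X : ℝ) ^ 2 / τ) := by
      rw [hG]
      field_simp
      norm_num
    have e4 : 80 * C1 ^ 2 ≤ 160000 * (C1 + C2) ^ 2 := by nlinarith only [hC1, hC2]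
    have e5 : 80 * C1 ^ 2 * (l ^ 2 * (X : ℝ) ^ 2 / τ) ≤
      160000 * (C1 + C2) ^ 2 * (l ^ 2 * (X : ℝ) ^ 2 / τ) := by gcongr
    linarith only [e2, e3, e5]
  obtain ⟨K, hK⟩ : ∃ K : ℝ, K = 160000 * (C1 + C2) ^ 2 := ⟨_, rfl⟩
  rw [← hK] at hF2 hG2
  rw [← hK]
  have hK1 : 1 ≤ K := by rw [hK]; nlinarith only [hC1, hC2, sq_nonneg (C1 + C2)]
  have hIb2 : ∫ t in c0..d0, ‖Sb t‖ ^ 2 ≤ 16 * C3 * K * l ^ 24 * ((J : ℝ) ^ 2 *
      ((q : ℝ) ^ 2 * τ * l ^ 6 * D2 * (4 * τ + D2) + l ^ 2 * (X : ℝ) ^ 2 / τ) + (X : ℝ) ^ 2 / Real.sqrt J) := by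
    refine hIb.trans ?_
    rw [hF2]
    have e1 : K * ((q : ℝ) ^ 2 * τ * l ^ 6) * D2 * (d0 - c0 + D2) + G ^ 2 * (X : ℝ) ^ 2 * (1 + (d0 - c0) / ((1 : ℕ) : ℝ)) ≤
        K * ((q : ℝ) ^ 2 * τ * l ^ 6 * D2 * (4 * τ + D2) + l ^ 2 * (X : ℝ) ^ 2 / τ) := by
      have e2 : K * ((q : ℝ) ^ 2 * τ * l ^ 6) * D2 * (d0 - c0 + D2) ≤
        K * ((q : ℝ) ^ 2 * τ * l ^ 6) * D2 * (4 * τ + D2) := by gcongr
      have e3 : K * ((q : ℝ) ^ 2 * τ * l ^ 6 * D2 * (4 * τ + D2) + l ^ 2 * (X : ℝ) ^ 2 / τ) =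
        K * ((q : ℝ) ^ 2 * τ * l ^ 6) * D2 * (4 * τ + D2) + K * (l ^ 2 * (X : ℝ) ^ 2 / τ) := by ring
      rw [e3]
      linarith only [hG2, e2]
    have e4 : (X : ℝ) ^ 2 / Real.sqrt J ≤ K * ((X : ℝ) ^ 2 / Real.sqrt J) :=
      le_mul_of_one_le_left (by (clear * - hX hJ; positivity)) hK1
    have e5 : C3 * (2 * l) ^ 4 * l ^ 20 * ((J : ℝ) ^ 2 *
      (K * ((q : ℝ) ^ 2 * τ * l ^ 6) * D2 * (d0 - c0 + D2) + G ^ 2 * (X : ℝ) ^ 2 * (1 + (d0 - c0) / ((1 : ℕ) : ℝ))) +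
        (X : ℝ) ^ 2 / Real.sqrt J) ≤ C3 * (2 * l) ^ 4 * l ^ 20 * ((J : ℝ) ^ 2 *
      (K * ((q : ℝ) ^ 2 * τ * l ^ 6 * D2 * (4 * τ + D2) + l ^ 2 * (X : ℝ) ^ 2 / τ)) + K * ((X : ℝ) ^ 2 / Real.sqrt J)) := by
      gcongr
    refine e5.trans (le_of_eq ?_)
    ring
  have hIa2 : ∫ t in c0..d0, ‖Sa t‖ ^ 2 ≤ 4 * (56 * C1) ^ 2 * l ^ 24 * ((J : ℝ) ^ 2 *
      ((q : ℝ) ^ 2 * τ * l ^ 6 * D2 * (4 * τ + D2) + l ^ 2 * (X : ℝ) ^ 2 / τ) + (X : ℝ) ^ 2 / Real.sqrt J) := by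
    refine hIa.trans ?_
    have e1 : l ^ 8 * (X : ℝ) ^ 2 / τ ≤ l ^ 24 * (J ^ 2 * (l ^ 2 * (X : ℝ) ^ 2 / τ)) := by
      have e2 : l ^ 8 ≤ l ^ 26 := pow_le_pow_right₀ hl (by norm_num)
      have e3 : (1 : ℝ) ≤ (J : ℝ) ^ 2 := one_le_pow₀ hJr
      calc l ^ 8 * (X : ℝ) ^ 2 / τ ≤ l ^ 26 * (X : ℝ) ^ 2 / τ := by gcongr
        _ = 1 * (l ^ 26 * (X : ℝ) ^ 2 / τ) := by ring
        _ ≤ (J : ℝ) ^ 2 * (l ^ 26 * (X : ℝ) ^ 2 / τ) := by gcongr
        _ = _ := by ring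
    have e4 : l ^ 24 * ((J : ℝ) ^ 2 * (l ^ 2 * (X : ℝ) ^ 2 / τ)) ≤ l ^ 24 * ((J : ℝ) ^ 2 *
      ((q : ℝ) ^ 2 * τ * l ^ 6 * D2 * (4 * τ + D2) + l ^ 2 * (X : ℝ) ^ 2 / τ) + (X : ℝ) ^ 2 / Real.sqrt J) := by
      have e5 : 0 ≤ (J : ℝ) ^ 2 * ((q : ℝ) ^ 2 * τ * l ^ 6 * D2 * (4 * τ + D2)) := by (clear * - hD2 hJ hτ hq hl; positivity)
      have e6 : 0 ≤ (X : ℝ) ^ 2 / Real.sqrt J := by (clear * - hX hJ; positivity)
      apply mul_le_mul_of_nonneg_left _ (by (clear * - hl; positivity))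
      rw [mul_add]
      linarith only [e5, e6]
    have e7 : 4 * (56 * C1) ^ 2 * (l ^ 8 * (X : ℝ) ^ 2 / τ) ≤ 4 * (56 * C1) ^ 2 * (l ^ 24 * ((J : ℝ) ^ 2 *
      ((q : ℝ) ^ 2 * τ * l ^ 6 * D2 * (4 * τ + D2) + l ^ 2 * (X : ℝ) ^ 2 / τ) + (X : ℝ) ^ 2 / Real.sqrt J)) :=
      mul_le_mul_of_nonneg_left (e1.trans e4) (by (clear * - hC1; positivity))
    linarith only [e7]
  have hfin : 2 * (4 * (56 * C1) ^ 2 * l ^ 24 * ((J : ℝ) ^ 2 *
      ((q : ℝ) ^ 2 * τ * l ^ 6 * D2 * (4 * τ + D2) + l ^ 2 * (X : ℝ) ^ 2 / τ) + (X : ℝ) ^ 2 / Real.sqrt J)) +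
      2 * (16 * C3 * K * l ^ 24 * ((J : ℝ) ^ 2 *
      ((q : ℝ) ^ 2 * τ * l ^ 6 * D2 * (4 * τ + D2) + l ^ 2 * (X : ℝ) ^ 2 / τ) + (X : ℝ) ^ 2 / Real.sqrt J)) =
      (8 * (56 * C1) ^ 2 + 32 * C3 * K) * l ^ 24 * ((J : ℝ) ^ 2 *
      ((q : ℝ) ^ 2 * τ * l ^ 6 * D2 * (4 * τ + D2) + l ^ 2 * (X : ℝ) ^ 2 / τ) + (X : ℝ) ^ 2 / Real.sqrt J) := by
    ring
  linarith only [hIb2, hIa2]

lemma ev_log (C : ℝ) : ∀ᶠ X : ℕ in atTop, C ≤ Real.log X :=
  (Real.tendsto_log_atTop.comp tendsto_natCast_atTop_atTop).eventually_ge_atTop C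

lemma ev_pow (K : ℕ) (ε : ℝ) (hε : 0 < ε) : ∀ᶠ X : ℕ in atTop, Real.log X ^ K ≤ (X : ℝ) ^ ε := by
  have h := (isLittleO_log_rpow_rpow_atTop (K : ℝ) hε).bound (c := 1) one_pos
  have h2 := tendsto_natCast_atTop_atTop (R := ℝ) |>.eventually h
  filter_upwards [h2, eventually_ge_atTop 1] with X hX hX1
  rw [Real.rpow_natCast, one_mul] at hX
  have h3 : (0 : ℝ) ≤ Real.log X := Real.log_nonneg (by exact_mod_cast hX1)
  rw [Real.norm_of_nonneg (by positivity), Real.norm_of_nonneg (by positivity)] at hX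
  exact hX

lemma log3_le {X : ℕ} (hX : 1 ≤ X) (hL : 2 ≤ Real.log X) : Real.log ((X : ℝ) + 3) ≤ 2 * Real.log X := by
  have hXr : (1 : ℝ) ≤ X := by exact_mod_cast hX
  have h1 : Real.log ((X : ℝ) + 3) ≤ Real.log (X * 4) := Real.log_le_log (by linarith) (by linarith)
  rw [Real.log_mul (by linarith) (by norm_num)] at h1
  have h2 : Real.log 4 ≤ 2 := by
    have h3 : Real.log 4 = 2 * Real.log 2 := by
      rw [show (4 : ℝ) = 2 ^ 2 by norm_num, Real.log_pow]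
      push_cast
      ring
    rw [h3]
    have := Real.log_two_lt_d9
    linarith
  linarith

/-- The type I sums. -/
lemma type_I (A : ℕ) (ε : ℝ) (hε : 0 < ε) (hε4 : ε ≤ 1 / 4) : ∃ B : ℕ, ∀ᶠ X : ℕ in atTop,
    ∀ (q : ℕ) [NeZero q] (χ : DirichletCharacter ℂ q) (c g : ℕ → ℝ) (D2 : ℕ) (t0 t1 : ℝ),
    (q : ℝ) ≤ Real.log X ^ A → 1 ≤ D2 → (D2 : ℝ) ≤ 4 * (X : ℝ) ^ (2 / 3 - 3 * ε / 8) →
    (∀ d, |c d| ≤ Real.log (X + 3)) → (∀ d, D2 < d → c d = 0) → Monotone g → (∀ n, 0 ≤ g n) →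
    g (3 * X) ≤ 2 * Real.log (X + 3) → t0 ≤ t1 →
    (∀ t : ℝ, t0 ≤ t → t ≤ t1 → Real.log X ^ B ≤ |t| ∧ |t| ≤ (X : ℝ) ^ (2 / 3 - ε)) →
    ∫ t in t0..t1, ‖∑ k ∈ Ioc X (3 * X), ((∑ p ∈ k.divisorsAntidiagonal, c p.1 * g p.2 : ℝ) : ℂ) *
      (χ (k : ZMod q) * nit k t)‖ ^ 2 ≤ X ^ 2 / (9 * Real.log X ^ A) := by
  obtain ⟨C, hC, hone⟩ := one_piece
  obtain ⟨m, hm⟩ : ∃ m : ℕ, m = 2 * A + 100 := ⟨_, rfl⟩
  obtain ⟨K, hK⟩ : ∃ K : ℕ, K = 2 * m + 3 * A + 39 := ⟨_, rfl⟩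
  refine ⟨2 * m + A + 34, ?_⟩
  filter_upwards [ev_log C, ev_log 1000000, ev_pow K ε hε, ev_pow (m + 1) (1 : ℝ) one_pos,
    eventually_ge_atTop 1] with X e1 e2 e3 e4 e5
  intro q _ χ c g D2 t0 t1 hq hD2 hD2' hc hc0 hg hg0 hgX ht hr
  have hXr : (1 : ℝ) ≤ X := by exact_mod_cast e5
  have hX0 : (0 : ℝ) < X := by linarith only [hε, hε4, hXr]
  have hl2 := log3_le e5 (by linarith only [hε, hε4, e2])
  have hl1 := log3_ge_one e5
  obtain ⟨L, hL⟩ : ∃ L : ℝ, L = Real.log X := ⟨_, rfl⟩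
  obtain ⟨l, hl⟩ : ∃ l : ℝ, l = Real.log (X + 3) := ⟨_, rfl⟩
  rw [← hL] at e1 e2 e3 e4 hq hr hl2 ⊢
  rw [← hl] at hl1 hl2
  have hL1 : 1 ≤ L := by linarith only [hε, hε4, e2]
  have hL0 : 0 < L := by linarith only [hε, hε4, e2]
  have hl0 : 0 ≤ l := by linarith only [hε, hε4, hl1]
  -- the parameter `J`
  obtain ⟨J, hJ⟩ : ∃ J : ℕ, J = ⌈L ^ m⌉₊ := ⟨_, rfl⟩
  have hJ1 : L ^ m ≤ J := by rw [hJ]; exact Nat.le_ceil _
  have hLm : 1 ≤ L ^ m := one_le_pow₀ hL1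
  have hJ2 : (J : ℝ) ≤ 2 * L ^ m := by
    have : (J : ℝ) < L ^ m + 1 := by rw [hJ]; exact Nat.ceil_lt_add_one (by (clear * - e2; positivity))
    linarith only [hLm, this]
  have hJ3 : 1 ≤ J := by
    have : (1 : ℝ) ≤ J := hLm.trans hJ1
    exact_mod_cast this
  have hJX : J ≤ X := by
    have h1 : (J : ℝ) ≤ X := by
      rw [Real.rpow_one] at e4
      have h2 : L ^ (m + 1) = L ^ m * L := pow_succ _ _
      have h3 : L ^ m * 2 ≤ L ^ m * L := by gcongr; linarith only [hε, hε4, e2]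
      linarith only [e4, hJ2, h2, h3]
    exact_mod_cast h1
  have hsJ : L ^ (A + 50) ≤ Real.sqrt J := by
    apply Real.le_sqrt_of_sq_le
    rw [← pow_mul]
    refine le_trans (le_of_eq ?_) hJ1
    rw [hm]
    congr 1
    ring
  -- powers of `X`
  obtain ⟨Y1, hY1⟩ : ∃ Y1 : ℝ, Y1 = (X : ℝ) ^ (2 / 3 - ε) := ⟨_, rfl⟩
  obtain ⟨Y2, hY2⟩ : ∃ Y2 : ℝ, Y2 = (X : ℝ) ^ (2 / 3 - 3 * ε / 8) := ⟨_, rfl⟩
  have hY10 : 0 < Y1 := by rw [hY1]; (clear * - e5; positivity)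
  have hY20 : 0 < Y2 := by rw [hY2]; (clear * - e5; positivity)
  have hY12 : Y1 ≤ Y2 := by
    rw [hY1, hY2]
    apply Real.rpow_le_rpow_of_exponent_le hXr
    linarith only [hε]
  have hYe : Y1 * (X : ℝ) ^ ε ≤ X := by
    rw [hY1, ← Real.rpow_add hX0]
    calc (X : ℝ) ^ (2 / 3 - ε + ε) ≤ (X : ℝ) ^ (1 : ℝ) :=
          Real.rpow_le_rpow_of_exponent_le hXr (by linarith only [hε, hε4])
      _ = X := Real.rpow_one _
  have hYY : Y1 * Y2 ^ 2 ≤ (X : ℝ) ^ 2 / L ^ K := by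
    rw [le_div_iff₀ (by (clear * - e2; positivity))]
    have h1 : Y1 * Y2 ^ 2 * L ^ K ≤ Y1 * Y2 ^ 2 * (X : ℝ) ^ ε := by gcongr
    refine h1.trans ?_
    rw [hY1, hY2, sq, ← Real.rpow_add hX0, ← Real.rpow_add hX0, ← Real.rpow_add hX0,
      ← Real.rpow_natCast]
    apply Real.rpow_le_rpow_of_exponent_le hXr
    push_cast
    linarith only [hε]
  rw [← hY1] at hr
  rw [← hY2] at hD2'
  obtain ⟨u, hu⟩ : ∃ u : ℝ, u = (X : ℝ) ^ 2 / L ^ (A + 5) := ⟨_, rfl⟩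
  have hu0 : 0 ≤ u := by rw [hu]; (clear * - e5 e2; positivity)
  have hX2 : (X : ℝ) ^ 2 = u * L ^ (A + 5) := by
    rw [hu]
    field_simp
  -- number of dyadic intervals
  obtain ⟨n, hn⟩ : ∃ n : ℕ, n = ⌈2 * L⌉₊ := ⟨_, rfl⟩
  have hn1 : 2 * L ≤ n := by rw [hn]; exact Nat.le_ceil _
  have hn2 : (n : ℝ) ≤ 3 * L := by
    have : (n : ℝ) < 2 * L + 1 := by rw [hn]; exact Nat.ceil_lt_add_one (by (clear * - e2; positivity))
    linarith only [hε, hε4, e2, this]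
  have h2n : (X : ℝ) ≤ 2 ^ n := by
    have h3 : Real.log X ≤ Real.log ((2 : ℝ) ^ n) := by
      rw [Real.log_pow, ← hL]
      have h5 := Real.log_two_gt_d9
      have h6 : (2 * L) * 0.69 ≤ n * Real.log 2 := by
        apply mul_le_mul hn1 (by linarith only [hε, hε4, h5]) (by norm_num) (by linarith only [hε, hε4, e2, hn1])
      linarith only [hε, hε4, e2, h6]
    exact (Real.log_le_log_iff hX0 (by (clear * -; positivity))).1 h3
  have hY1X : Y1 ≤ X := by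
    have h1 : 1 ≤ (X : ℝ) ^ ε := Real.one_le_rpow hXr hε.le
    nlinarith only [hε, hε4, hY10, hYe, h1]
  have hcont : Continuous (fun t : ℝ => ‖∑ k ∈ Ioc X (3 * X),
      ((∑ p ∈ k.divisorsAntidiagonal, c p.1 * g p.2 : ℝ) : ℂ) * (χ (k : ZMod q) * nit k t)‖ ^ 2) := by
    have h1 : (fun t : ℝ => ∑ k ∈ Ioc X (3 * X),
      ((∑ p ∈ k.divisorsAntidiagonal, c p.1 * g p.2 : ℝ) : ℂ) * (χ (k : ZMod q) * nit k t)) =
      fun t => ∑ k ∈ Ioc X (3 * X), (((∑ p ∈ k.divisorsAntidiagonal, c p.1 * g p.2 : ℝ) : ℂ) *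
        χ (k : ZMod q)) * nit k t := by
      funext t
      apply sum_congr rfl
      intro k _
      ring
    have h2 : Continuous (fun t : ℝ => ∑ k ∈ Ioc X (3 * X),
      ((∑ p ∈ k.divisorsAntidiagonal, c p.1 * g p.2 : ℝ) : ℂ) * (χ (k : ZMod q) * nit k t)) := by
      rw [h1]
      exact cont_sum _ _ _
    exact h2.norm.pow 2
  have hLB : 1 ≤ L ^ (2 * m + A + 34) := one_le_pow₀ hL1
  have hmain := dyad _ hcont (21 * u) (by (clear * - hu0; positivity)) n t0 t1 ht (by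
      intro t h1 h2
      obtain ⟨h3, h4⟩ := hr t h1 h2
      exact ⟨hLB.trans h3, (h4.trans hY1X).trans h2n⟩) (by
      intro a b τ ha hab hb hτ hrange
      have hτ2 : L ^ (2 * m + A + 34) ≤ τ ∧ τ ≤ Y1 := by
        rcases hτ with h | h
        · rw [h]; exact hr a ha (by linarith only [hab, hb])
        · rw [h]; exact hr b (by linarith only [ha, hab]) hb
      obtain ⟨hτ3, hτ4⟩ := hτ2
      have hτ1 : 1 ≤ τ := hLB.trans hτ3
      have h1 := hone q X D2 J χ c g a b τ e5 hD2 hJ3 hJX hτ1 (by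
        have h2 : 8 * (q : ℝ) * τ ≤ 8 * L ^ A * Y1 := by gcongr
        have h3 : 8 * L ^ A ≤ L ^ K := by
          have h4 : L ^ K = L ^ A * L ^ (2 * m + 2 * A + 39) := by
            rw [← pow_add, hK]
            congr 1
            ring
          rw [h4]
          have h5 : L ^ 1 ≤ L ^ (2 * m + 2 * A + 39) := pow_le_pow_right₀ hL1 (by omega)
          rw [pow_one] at h5
          have h6 : L ^ A * 8 ≤ L ^ A * L ^ (2 * m + 2 * A + 39) := by
            apply mul_le_mul_of_nonneg_left _ (by (clear * - e2; positivity))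
            linarith only [hε, hε4, e2, h5]
          linarith only [h6]
        have h4 : 8 * L ^ A * Y1 ≤ (X : ℝ) ^ ε * Y1 := by
          apply mul_le_mul_of_nonneg_right (h3.trans e3) hY10.le
        linarith only [hYe, h2, h4]) hab hrange hc hc0 hg hg0 hgX
      rw [← hl] at h1
      refine h1.trans ?_
      -- the final computation
      have f1 : (q : ℝ) ^ 2 * τ * l ^ 6 * D2 * (4 * τ + D2) ≤
          (L ^ A) ^ 2 * Y1 * (2 * L) ^ 6 * (4 * Y2) * (8 * Y2) := by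
        have : 4 * τ + D2 ≤ 8 * Y2 := by linarith only [hD2', hY12, hτ4]
        gcongr
      have f2 : (L ^ A) ^ 2 * Y1 * (2 * L) ^ 6 * (4 * Y2) * (8 * Y2) ≤ L ^ (2 * A + 7) * (Y1 * Y2 ^ 2) := by
        have h2 : (L ^ A) ^ 2 * Y1 * (2 * L) ^ 6 * (4 * Y2) * (8 * Y2) =
          2048 * (L ^ (2 * A + 6) * (Y1 * Y2 ^ 2)) := by ring
        have h3 : L ^ (2 * A + 7) * (Y1 * Y2 ^ 2) = L * (L ^ (2 * A + 6) * (Y1 * Y2 ^ 2)) := by ring
        rw [h2, h3]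
        gcongr
        linarith only [hε, hε4, e2]
      have f3 : L ^ (2 * A + 7) * (Y1 * Y2 ^ 2) ≤ L ^ (2 * A + 7) * ((X : ℝ) ^ 2 / L ^ K) := by gcongr
      have f4 : l ^ 2 * (X : ℝ) ^ 2 / τ ≤ (2 * L) ^ 2 * (X : ℝ) ^ 2 / L ^ (2 * m + A + 34) := by gcongr
      have f5 : (X : ℝ) ^ 2 / Real.sqrt J ≤ (X : ℝ) ^ 2 / L ^ (A + 50) := by gcongr
      have f6 : C * l ^ 24 ≤ L * (2 * L) ^ 24 := by gcongr
      have f7 : L * (2 * L) ^ 24 ≤ L ^ 27 := by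
        have h2 : L * (2 * L) ^ 24 = 16777216 * L ^ 25 := by ring
        have h3 : L ^ 27 = L ^ 2 * L ^ 25 := by ring
        rw [h2, h3]
        gcongr
        nlinarith only [e2]
      have f8 : (J : ℝ) ^ 2 ≤ (2 * L ^ m) ^ 2 := by gcongr
      have f9 : C * l ^ 24 * ((J : ℝ) ^ 2 * ((q : ℝ) ^ 2 * τ * l ^ 6 * D2 * (4 * τ + D2) +
          l ^ 2 * (X : ℝ) ^ 2 / τ) + (X : ℝ) ^ 2 / Real.sqrt J) ≤
          L ^ 27 * ((2 * L ^ m) ^ 2 * (L ^ (2 * A + 7) * ((X : ℝ) ^ 2 / L ^ K) +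
          (2 * L) ^ 2 * (X : ℝ) ^ 2 / L ^ (2 * m + A + 34)) + (X : ℝ) ^ 2 / L ^ (A + 50)) := by
        have h2 := (f1.trans f2).trans f3
        have h3 := f6.trans f7
        have h4 : (J : ℝ) ^ 2 * ((q : ℝ) ^ 2 * τ * l ^ 6 * D2 * (4 * τ + D2) +
          l ^ 2 * (X : ℝ) ^ 2 / τ) ≤ (2 * L ^ m) ^ 2 * (L ^ (2 * A + 7) * ((X : ℝ) ^ 2 / L ^ K) +
          (2 * L) ^ 2 * (X : ℝ) ^ 2 / L ^ (2 * m + A + 34)) := by
          apply mul_le_mul f8 (add_le_add h2 f4) (by (clear * - e5 hD2 hl1 hτ1; positivity)) (by (clear * - e2; positivity))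
        apply mul_le_mul h3 (add_le_add h4 f5) (by (clear * - e5 hD2 hl1 hJ3 hτ1; positivity)) (by (clear * - e2; positivity))
      refine f9.trans ?_
      have g1 : L ^ K = L ^ (A + 5) * L ^ (2 * m + 2 * A + 34) := by
        rw [← pow_add, hK]
        congr 1
        ring
      have g2 : L ^ (2 * m + A + 34) = L ^ (A + 5) * L ^ (2 * m + 29) := by
        rw [← pow_add]
        congr 1
        ring
      have g3 : L ^ (A + 50) = L ^ (A + 5) * L ^ 45 := by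
        rw [← pow_add]
      have k1 : (X : ℝ) ^ 2 / L ^ K = u / L ^ (2 * m + 2 * A + 34) := by
        rw [g1, hu, div_div]
      have k2 : (2 * L) ^ 2 * (X : ℝ) ^ 2 / L ^ (2 * m + A + 34) = 4 * L ^ 2 * (u / L ^ (2 * m + 29)) := by
        rw [g2, hu, div_div]
        ring
      have k3 : (X : ℝ) ^ 2 / L ^ (A + 50) = u / L ^ 45 := by
        rw [g3, hu, div_div]
      rw [k1, k2, k3]
      have w1 : L ^ 27 * ((2 * L ^ m) ^ 2 * (L ^ (2 * A + 7) * (u / L ^ (2 * m + 2 * A + 34)))) = 4 * u := by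
        have h2 : L ^ 27 * ((2 * L ^ m) ^ 2 * (L ^ (2 * A + 7) * (u / L ^ (2 * m + 2 * A + 34)))) =
          4 * u * (L ^ (2 * m + 2 * A + 34) / L ^ (2 * m + 2 * A + 34)) := by ring
        rw [h2, div_self (by (clear * - e2; positivity)), mul_one]
      have w2 : L ^ 27 * ((2 * L ^ m) ^ 2 * (4 * L ^ 2 * (u / L ^ (2 * m + 29)))) = 16 * u := by
        have h2 : L ^ 27 * ((2 * L ^ m) ^ 2 * (4 * L ^ 2 * (u / L ^ (2 * m + 29)))) =
          16 * u * (L ^ (2 * m + 29) / L ^ (2 * m + 29)) := by ring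
        rw [h2, div_self (by (clear * - e2; positivity)), mul_one]
      have w3 : L ^ 27 * (u / L ^ 45) ≤ u := by
        have h2 : L ^ 27 * (u / L ^ 45) = u * (L ^ 27 / L ^ 45) := by ring
        rw [h2]
        have h3 : L ^ 27 / L ^ 45 ≤ 1 := by
          rw [div_le_one (by (clear * - e2; positivity))]
          exact pow_le_pow_right₀ hL1 (by norm_num)
        calc u * (L ^ 27 / L ^ 45) ≤ u * 1 := by gcongr
          _ = u := mul_one u
      have w4 : L ^ 27 * ((2 * L ^ m) ^ 2 * (L ^ (2 * A + 7) * (u / L ^ (2 * m + 2 * A + 34)) +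
          4 * L ^ 2 * (u / L ^ (2 * m + 29))) + u / L ^ 45) =
          L ^ 27 * ((2 * L ^ m) ^ 2 * (L ^ (2 * A + 7) * (u / L ^ (2 * m + 2 * A + 34)))) +
          L ^ 27 * ((2 * L ^ m) ^ 2 * (4 * L ^ 2 * (u / L ^ (2 * m + 29)))) + L ^ 27 * (u / L ^ 45) := by
        ring
      rw [w4, w1, w2]
      linarith only [w3])
  refine hmain.trans ?_
  rw [le_div_iff₀ (by (clear * - e2; positivity))]
  have h1 : (n : ℝ) * (21 * u) * (9 * L ^ A) ≤ (3 * L) * (21 * u) * (9 * L ^ A) := by gcongr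
  have h2 : (3 * L) * (21 * u) * (9 * L ^ A) = u * (567 * L ^ (A + 1)) := by ring
  have h3 : 567 * L ^ (A + 1) ≤ L ^ (A + 5) := by
    have h4 : L ^ (A + 5) = L ^ 4 * L ^ (A + 1) := by ring
    rw [h4]
    have h5 : L ^ 1 ≤ L ^ 4 := pow_le_pow_right₀ hL1 (by norm_num)
    gcongr
    linarith only [hε, hε4, e2, h5]
  have h4 : u * (567 * L ^ (A + 1)) ≤ u * L ^ (A + 5) := by gcongr
  rw [← hX2] at h4
  linarith only [h1, h2, h4]

open Pool.Agent.Lib.BV in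
/-- The sums of `alphaU U n χ(n) n^(-it)`. -/
lemma alpha_sum {q : ℕ} (χ : DirichletCharacter ℂ q) (U y : ℕ) (hy : U ≤ y) (t : ℝ) :
    ∑ n ∈ Icc 1 y, (((alphaU U n : ℝ) : ℂ) * χ (n : ZMod q)) * nit n t =
      ∑ n ∈ Icc 1 y, lam (chf χ) n * nit n t - ∑ n ∈ Icc 1 U, lam (chf χ) n * nit n t := by
  rw [eq_sub_iff_add_eq]
  have h1 : ∑ n ∈ Icc 1 U, lam (chf χ) n * nit n t =
      ∑ n ∈ Icc 1 y, (if n ≤ U then lam (chf χ) n * nit n t else 0) := by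
    rw [← sum_filter]
    apply sum_congr _ (fun _ _ => rfl)
    ext n
    simp only [mem_filter, mem_Icc]
    omega
  rw [h1, ← sum_add_distrib]
  apply sum_congr rfl
  intro n _
  by_cases h : n ≤ U
  · rw [if_pos h, alphaU_apply_of_le h]
    simp
  · rw [if_neg h, vau_alphaU_apply, vau_LU_apply, if_neg h, sub_zero, add_zero]
    unfold lam chf
    ring

lemma alphaU_nonneg_le (U n : ℕ) : ‖((Pool.Agent.Lib.BV.alphaU U n : ℝ) : ℂ)‖ ≤
    ArithmeticFunction.vonMangoldt n := by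
  rw [Complex.norm_real, Real.norm_eq_abs, Pool.Agent.Lib.BV.vau_alphaU_apply,
    Pool.Agent.Lib.BV.vau_LU_apply]
  have h : 0 ≤ ArithmeticFunction.vonMangoldt n := ArithmeticFunction.vonMangoldt_nonneg
  split_ifs
  · rw [sub_self, abs_zero]
    exact h
  · rw [sub_zero, abs_of_nonneg h]

open Pool.Agent.Lib.BV in
/-- The type II sum. -/
lemma type_II (A : ℕ) (ε : ℝ) (hε : 0 < ε) (hε4 : ε ≤ 1 / 4) : ∃ B : ℕ, ∀ᶠ X : ℕ in atTop,
    ∀ (q : ℕ) [NeZero q] (χ : DirichletCharacter ℂ q) (U V : ℕ) (t0 t1 : ℝ),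
    (q : ℝ) ≤ Real.log X ^ A → (X : ℝ) ^ (ε / 8) ≤ U → (X : ℝ) ^ (2 / 3 - ε / 2) ≤ V →
    (V : ℝ) ≤ 2 * (X : ℝ) ^ (2 / 3 - ε / 2) → t0 ≤ t1 →
    (∀ t : ℝ, t0 ≤ t → t ≤ t1 → Real.log X ^ B ≤ |t| ∧ |t| ≤ (X : ℝ) ^ (2 / 3 - ε)) →
    ∫ t in t0..t1, ‖∑ k ∈ Ioc X (3 * X), (∑ p ∈ k.divisorsAntidiagonal,
      (((betaV V p.1 : ℝ) : ℂ) * χ (p.1 : ZMod q)) * (((alphaU U p.2 : ℝ) : ℂ) * χ (p.2 : ZMod q))) *
        nit k t‖ ^ 2 ≤ X ^ 2 / (9 * Real.log X ^ A) := by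
  obtain ⟨C, hC, hbil⟩ := block_bilin
  obtain ⟨m, hm⟩ : ∃ m : ℕ, m = 2 * A + 100 := ⟨_, rfl⟩
  obtain ⟨A', hA'⟩ : ∃ A' : ℕ, A' = m + A + 13 := ⟨_, rfl⟩
  obtain ⟨C0, hC0⟩ : ∃ C0 : ℕ, C0 = ⌈8 / ε⌉₊ := ⟨_, rfl⟩
  obtain ⟨B, hB⟩ := vk_prime A' C0
  obtain ⟨N0, hN0⟩ := eventually_atTop.1 hB
  refine ⟨B, ?_⟩
  have hU0 : ∀ᶠ X : ℕ in atTop, (N0 : ℝ) + 3 ≤ (X : ℝ) ^ (ε / 8) :=
    ((tendsto_rpow_atTop (by positivity : (0 : ℝ) < ε / 8)).comp
      tendsto_natCast_atTop_atTop).eventually_ge_atTop _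
  filter_upwards [ev_log C, ev_log 1000000, ev_log ((8 / ε) ^ (2 * A')), ev_log ((8 / ε) ^ A'), hU0,
    ev_pow (m + 1) (1 : ℝ) one_pos, ev_pow 1 (ε / 2) (by positivity),
    eventually_ge_atTop 1] with X e1 e2 e3 e3' e4 e5 e6 e7
  intro q _ χ U V t0 t1 hq hU hV hV2 ht hr
  have hXr : (1 : ℝ) ≤ X := by exact_mod_cast e7
  have hX0 : (0 : ℝ) < X := by linarith only [hε, hε4, hXr]
  have hl2 := log3_le e7 (by linarith only [hε, hε4, e2])
  have hl1 := log3_ge_one e7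
  obtain ⟨L, hL⟩ : ∃ L : ℝ, L = Real.log X := ⟨_, rfl⟩
  obtain ⟨l, hl⟩ : ∃ l : ℝ, l = Real.log (X + 3) := ⟨_, rfl⟩
  rw [← hL] at e1 e2 e3 e3' e5 e6 hq hr hl2 ⊢
  rw [← hl] at hl1 hl2
  have hL1 : 1 ≤ L := by linarith only [hε, hε4, e2]
  have hL0 : 0 < L := by linarith only [hε, hε4, e2]
  have hl0 : 0 ≤ l := by linarith only [hε, hε4, hl1]
  -- the parameter `J`
  obtain ⟨J, hJ⟩ : ∃ J : ℕ, J = ⌈L ^ m⌉₊ := ⟨_, rfl⟩
  have hJ1 : L ^ m ≤ J := by rw [hJ]; exact Nat.le_ceil _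
  have hLm : 1 ≤ L ^ m := one_le_pow₀ hL1
  have hJ2 : (J : ℝ) ≤ 2 * L ^ m := by
    have : (J : ℝ) < L ^ m + 1 := by rw [hJ]; exact Nat.ceil_lt_add_one (by (clear * - e2; positivity))
    linarith only [hLm, this]
  have hJ3 : 1 ≤ J := by
    have : (1 : ℝ) ≤ J := hLm.trans hJ1
    exact_mod_cast this
  have hJX : J ≤ X := by
    have h1 : (J : ℝ) ≤ X := by
      rw [Real.rpow_one] at e5
      have h2 : L ^ (m + 1) = L ^ m * L := pow_succ _ _
      have h3 : L ^ m * 2 ≤ L ^ m * L := by gcongr; linarith only [hε, hε4, e2]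
      linarith only [e5, hJ2, h2, h3]
    exact_mod_cast h1
  have hsJ : L ^ (A + 50) ≤ Real.sqrt J := by
    apply Real.le_sqrt_of_sq_le
    rw [← pow_mul]
    refine le_trans (le_of_eq ?_) hJ1
    rw [hm]
    congr 1
    ring
  -- powers of `X`
  obtain ⟨Y1, hY1⟩ : ∃ Y1 : ℝ, Y1 = (X : ℝ) ^ (2 / 3 - ε) := ⟨_, rfl⟩
  obtain ⟨Y3, hY3⟩ : ∃ Y3 : ℝ, Y3 = (X : ℝ) ^ (2 / 3 - ε / 2) := ⟨_, rfl⟩
  have hY10 : 0 < Y1 := by rw [hY1]; (clear * - e7; positivity)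
  have hY30 : 0 < Y3 := by rw [hY3]; (clear * - e7; positivity)
  have hY13 : 4 * Y1 ≤ Y3 := by
    have h1 : Y3 = Y1 * (X : ℝ) ^ (ε / 2) := by
      rw [hY1, hY3, ← Real.rpow_add hX0]
      congr 1
      ring
    rw [h1]
    rw [pow_one] at e6
    nlinarith only [hε, hε4, e6, e2, hY10]
  have hY3X : 4 * Y3 ≤ X := by
    have h1 : (X : ℝ) = Y3 * (X : ℝ) ^ (1 / 3 + ε / 2) := by
      rw [hY3, ← Real.rpow_add hX0]
      rw [show 2 / 3 - ε / 2 + (1 / 3 + ε / 2) = (1 : ℝ) by ring, Real.rpow_one]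
    have h2 : (X : ℝ) ^ (ε / 2) ≤ (X : ℝ) ^ (1 / 3 + ε / 2) :=
      Real.rpow_le_rpow_of_exponent_le hXr (by linarith only [hε, hε4])
    rw [pow_one] at e6
    nlinarith only [hε, hε4, hV2, e6, e2, hY3, hY10, hY13, h1, h2]
  rw [← hY1] at hr
  rw [← hY3] at hV hV2
  have hY11 : 1 ≤ Y1 := by
    rw [hY1]
    exact Real.one_le_rpow hXr (by linarith only [hε4])
  have hV1 : (4 : ℝ) ≤ V := by linarith only [hV, hY13, hY11]
  have hVX : V ≤ X := by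
    have : (V : ℝ) ≤ X := by linarith only [hε, hε4, hV2, hY13, hY3X, hY11]
    exact_mod_cast this
  have hUr : (N0 : ℝ) + 3 ≤ U := e4.trans hU
  have hUN : N0 ≤ U := by
    have : (N0 : ℝ) ≤ U := by linarith only [hε, hε4, e4, hU]
    exact_mod_cast this
  have hT : t1 - t0 ≤ V := by
    have h1 := (hr t0 le_rfl ht).2
    have h2 := (hr t1 ht le_rfl).2
    have h3 := neg_abs_le t0
    have h4 := le_abs_self t1
    linarith only [hε, hε4, hV, hY13, hY11, h1, h2, h3, h4]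
  obtain ⟨D, hD⟩ : ∃ D : ℝ, D = 2 * (8 / ε) ^ A' / L ^ A' := ⟨_, rfl⟩
  have hD0 : 0 ≤ D := by rw [hD]; (clear * - hε e2; positivity)
  have hχ : ∀ a : ZMod q, ‖χ a‖ ≤ 1 := fun a => χ.norm_le_one a
  have hV1' : 1 ≤ V := by
    have : (1 : ℝ) ≤ V := by linarith only [hε, hε4, hV, hY13, hY11]
    exact_mod_cast this
  have hmain := hbil X V J (fun k => ((betaV V k : ℝ) : ℂ) * χ (k : ZMod q))
    (fun n => ((alphaU U n : ℝ) : ℂ) * χ (n : ZMod q)) t0 (t1 - t0) D hV1' hVX hJ3 hJX (by linarith only [ht]) hT hD0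
    (by
      intro k
      rw [norm_mul, Complex.norm_real, Real.norm_eq_abs]
      have h1 : |betaV V k| * ‖χ (k : ZMod q)‖ ≤ (k.divisors.card : ℝ) * 1 :=
        mul_le_mul (betaV_abs_le hV1' k) (hχ _) (norm_nonneg _) (Nat.cast_nonneg _)
      linarith only [h1])
    (by
      intro k hk
      rw [betaV_apply_of_le hV1' hk]
      simp)
    (by
      intro n
      rw [norm_mul]
      have h1 : ‖((alphaU U n : ℝ) : ℂ)‖ * ‖χ (n : ZMod q)‖ ≤ ArithmeticFunction.vonMangoldt n * 1 :=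
        mul_le_mul (alphaU_nonneg_le U n) (hχ _) (norm_nonneg _) ArithmeticFunction.vonMangoldt_nonneg
      linarith only [h1])
    (by
      intro t ht1 ht2 y hy
      obtain ⟨h3, h4⟩ := hr t ht1 (by linarith only [ht2])
      rcases le_or_gt y U with h5 | h5
      · have h6 : ∑ n ∈ Icc 1 y, ((alphaU U n : ℝ) : ℂ) * χ (n : ZMod q) * nit n t = 0 := by
          apply sum_eq_zero
          intro n hn
          rw [alphaU_apply_of_le ((Finset.mem_Icc.1 hn).2.trans h5)]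
          simp
        rw [h6, norm_zero]
        (clear * - hD0; positivity)
      · have hyr : (U : ℝ) ≤ y := by exact_mod_cast h5.le
        have hy1 : (X : ℝ) ^ (ε / 8) ≤ y := hU.trans hyr
        have hyX : (y : ℝ) ≤ X := by
          have h6 : (y : ℝ) * V ≤ 3 * X := by exact_mod_cast hy
          have h7 : (y : ℝ) * 4 ≤ y * V := by gcongr
          linarith only [hε, hε4, hY13, hY3X, hY11, h6, h7]
        have hy0 : (0 : ℝ) < y := by linarith only [hε, hε4, e4, hU, hyr]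
        have hlogy : ε / 8 * L ≤ Real.log y := by
          have h6 := Real.log_le_log (by (clear * - e7; positivity)) hy1
          rw [Real.log_rpow hX0, ← hL] at h6
          exact h6
        have hlogy2 : Real.log y ≤ L := by rw [hL]; exact Real.log_le_log hy0 hyX
        have hlogy0 : 0 < ε / 8 * L := by (clear * - hε e2; positivity)
        have hpw : (ε / 8 * L) ^ A' ≤ Real.log y ^ A' := pow_le_pow_left₀ hlogy0.le hlogy A'
        have hQ : (q : ℝ) ≤ Real.log y ^ A' := by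
          refine hq.trans (le_trans ?_ hpw)
          have h6 : (ε / 8 * L) ^ A' = (ε / 8) ^ A' * (L ^ A * L ^ (m + 13)) := by
            rw [mul_pow, ← pow_add]
            congr 2
            rw [hA']
            ring
          rw [h6]
          have h7 : L ≤ L ^ (m + 13) := by
            have := pow_le_pow_right₀ hL1 (show 1 ≤ m + 13 by omega)
            rwa [pow_one] at this
          have h8 : 1 ≤ (ε / 8) ^ A' * L := by
            have h9 : (ε / 8) ^ A' * (8 / ε) ^ A' = 1 := by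
              rw [← mul_pow]
              have : ε / 8 * (8 / ε) = 1 := by field_simp
              rw [this, one_pow]
            calc (1 : ℝ) = (ε / 8) ^ A' * (8 / ε) ^ A' := h9.symm
              _ ≤ (ε / 8) ^ A' * L := by gcongr
          calc L ^ A = 1 * L ^ A := (one_mul _).symm
            _ ≤ ((ε / 8) ^ A' * L) * L ^ A := by gcongr
            _ ≤ ((ε / 8) ^ A' * L ^ (m + 13)) * L ^ A := by gcongr
            _ = _ := by ring
        have hBt : Real.log y ^ B ≤ |t| :=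
          (pow_le_pow_left₀ (hlogy0.le.trans hlogy) hlogy2 B).trans h3
        have hCt : |t| ≤ (y : ℝ) ^ C0 := by
          have h6 : |t| ≤ X := by linarith only [hε, hε4, hY13, hY3X, hY11, h4]
          have h7 : (X : ℝ) ≤ (X : ℝ) ^ (ε / 8 * C0) := by
            have h8 : (8 : ℝ) / ε ≤ C0 := by rw [hC0]; exact Nat.le_ceil _
            have h9 : (1 : ℝ) ≤ ε / 8 * C0 := by
              have : ε / 8 * (8 / ε) = 1 := by field_simp
              rw [← this]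
              gcongr
            calc (X : ℝ) = (X : ℝ) ^ (1 : ℝ) := (Real.rpow_one _).symm
              _ ≤ _ := Real.rpow_le_rpow_of_exponent_le hXr h9
          rw [Real.rpow_mul hX0.le, Real.rpow_natCast] at h7
          have h8 : ((X : ℝ) ^ (ε / 8)) ^ C0 ≤ (y : ℝ) ^ C0 :=
            pow_le_pow_left₀ (by (clear * - e7; positivity)) hy1 C0
          linarith only [hε, hε4, hY13, hY3X, hY11, h4, h7, h8]
        have hvk := hN0 y (hUN.trans h5.le) q χ hQ t hBt hCt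
        have hs1 := hvk y le_rfl
        have hs2 := hvk U h5.le
        have h9 := alpha_sum χ U y h5.le t
        rw [h9]
        refine (norm_sub_le _ _).trans ?_
        have h10 : (y : ℝ) / Real.log y ^ A' ≤ y / (ε / 8 * L) ^ A' := by
          gcongr
        have h11 : 2 * ((y : ℝ) / (ε / 8 * L) ^ A') = D * y := by
          rw [hD, mul_pow]
          have h12 : (8 / ε) ^ A' = 1 / (ε / 8) ^ A' := by
            rw [← one_div_pow]
            congr 1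
            rw [one_div_div]
          rw [h12]
          have h13 : (ε / 8) ^ A' ≠ 0 := by (clear * - hε; positivity)
          field_simp
        have hs1' : ‖∑ n ∈ Icc 1 y, lam (chf χ) n * nit n t‖ ≤ y / Real.log y ^ A' := hs1
        have hs2' : ‖∑ n ∈ Icc 1 U, lam (chf χ) n * nit n t‖ ≤ y / Real.log y ^ A' := hs2
        linarith only [h10, h11, hs1', hs2'])
  rw [show t0 + (t1 - t0) = t1 by ring, ← hl] at hmain
  refine hmain.trans ?_
  obtain ⟨u, hu⟩ : ∃ u : ℝ, u = (X : ℝ) ^ 2 / L ^ (A + 2) := ⟨_, rfl⟩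
  have hu0 : 0 ≤ u := by rw [hu]; (clear * - e7 e2; positivity)
  have hX2 : (X : ℝ) ^ 2 = u * L ^ (A + 2) := by
    rw [hu]
    field_simp
  have f1 : (J : ℝ) ^ 2 * D ^ 2 ≤ (2 * L ^ m) ^ 2 * (4 * L / L ^ (2 * A')) := by
    have h1 : D ^ 2 = 4 * (8 / ε) ^ (2 * A') / L ^ (2 * A') := by
      rw [hD]
      rw [div_pow, mul_pow, ← pow_mul, ← pow_mul, mul_comm A' 2]
      norm_num
    rw [h1]
    gcongr
  have f2 : (2 * L ^ m) ^ 2 * (4 * L / L ^ (2 * A')) = 16 / L ^ (2 * A + 25) := by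
    have h1 : L ^ (2 * A') = L ^ (2 * A + 25) * (L ^ (2 * m) * L) := by
      have h2 : L ^ (2 * m) * L = L ^ (2 * m + 1) := (pow_succ _ _).symm
      rw [h2, ← pow_add]
      congr 1
      rw [hA']
      ring
    rw [h1]
    have h3 : (2 * L ^ m) ^ 2 = 4 * L ^ (2 * m) := by ring
    rw [h3]
    have h4 : L ^ (2 * m) ≠ 0 := by (clear * - e2; positivity)
    field_simp
    norm_num
  have f3 : 1 / Real.sqrt J ≤ 1 / L ^ (A + 50) := by gcongr
  have f4 : C * (X : ℝ) ^ 2 * l ^ 20 ≤ L * (X : ℝ) ^ 2 * (2 * L) ^ 20 := by gcongr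
  have f5 : L * (X : ℝ) ^ 2 * (2 * L) ^ 20 ≤ L ^ 23 * (X : ℝ) ^ 2 := by
    have h2 : L * (X : ℝ) ^ 2 * (2 * L) ^ 20 = 1048576 * (L ^ 21 * (X : ℝ) ^ 2) := by ring
    have h3 : L ^ 23 * (X : ℝ) ^ 2 = L ^ 2 * (L ^ 21 * (X : ℝ) ^ 2) := by ring
    rw [h2, h3]
    gcongr
    nlinarith only [e2]
  have f6 : C * (X : ℝ) ^ 2 * l ^ 20 * ((J : ℝ) ^ 2 * D ^ 2 + 1 / Real.sqrt J) ≤
      L ^ 23 * (X : ℝ) ^ 2 * (16 / L ^ (2 * A + 25) + 1 / L ^ (A + 50)) := by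
    rw [f2] at f1
    apply mul_le_mul (f4.trans f5) (add_le_add f1 f3) (by (clear * - hJ3; positivity)) (by (clear * - e7 e2; positivity))
  refine f6.trans ?_
  have g1 : L ^ 23 * (X : ℝ) ^ 2 * (16 / L ^ (2 * A + 25)) ≤ 16 * u := by
    have h1 : L ^ (2 * A + 25) = L ^ A * (L ^ 23 * L ^ (A + 2)) := by ring
    rw [h1, hu]
    have h2 : L ^ 23 * (X : ℝ) ^ 2 * (16 / (L ^ A * (L ^ 23 * L ^ (A + 2)))) =
        (1 / L ^ A) * (16 * ((X : ℝ) ^ 2 / L ^ (A + 2))) := by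
      have h4 : L ^ A ≠ 0 := by (clear * - e2; positivity)
      have h5 : L ^ (A + 2) ≠ 0 := by (clear * - e2; positivity)
      field_simp
    rw [h2]
    apply mul_le_of_le_one_left (by (clear * - e7 e2; positivity))
    rw [div_le_one (by (clear * - e2; positivity))]
    exact one_le_pow₀ hL1
  have g2 : L ^ 23 * (X : ℝ) ^ 2 * (1 / L ^ (A + 50)) ≤ u := by
    have h1 : L ^ (A + 50) = L ^ 25 * (L ^ 23 * L ^ (A + 2)) := by ring
    rw [h1, hu]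
    have h2 : L ^ 23 * (X : ℝ) ^ 2 * (1 / (L ^ 25 * (L ^ 23 * L ^ (A + 2)))) =
        (1 / L ^ 25) * ((X : ℝ) ^ 2 / L ^ (A + 2)) := by
      have h5 : L ^ (A + 2) ≠ 0 := by (clear * - e2; positivity)
      field_simp
    rw [h2]
    apply mul_le_of_le_one_left (by (clear * - e7 e2; positivity))
    rw [div_le_one (by (clear * - e2; positivity))]
    exact one_le_pow₀ hL1
  rw [mul_add]
  rw [le_div_iff₀ (by (clear * - e2; positivity))]
  have h1 : (L ^ 23 * (X : ℝ) ^ 2 * (16 / L ^ (2 * A + 25)) + L ^ 23 * (X : ℝ) ^ 2 * (1 / L ^ (A + 50))) *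
      (9 * L ^ A) ≤ (17 * u) * (9 * L ^ A) := by
    apply mul_le_mul_of_nonneg_right _ (by (clear * - e2; positivity))
    linarith only [g1, g2]
  have h2 : (17 * u) * (9 * L ^ A) = u * (153 * L ^ A) := by ring
  have h3 : 153 * L ^ A ≤ L ^ (A + 2) := by
    have h4 : L ^ (A + 2) = L ^ 2 * L ^ A := by ring
    rw [h4]
    gcongr
    nlinarith only [e2]
  have h4 : u * (153 * L ^ A) ≤ u * L ^ (A + 2) := by gcongr
  rw [← hX2] at h4
  linarith only [h1, h4]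

lemma cont_sum' {q : ℕ} (χ : DirichletCharacter ℂ q) (w : ℕ → ℂ) (X Y : ℕ) :
    Continuous (fun t : ℝ => ∑ k ∈ Ioc X Y, w k * (χ (k : ZMod q) * nit k t)) := by
  have h1 : (fun t : ℝ => ∑ k ∈ Ioc X Y, w k * (χ (k : ZMod q) * nit k t)) =
      fun t => ∑ k ∈ Ioc X Y, (w k * χ (k : ZMod q)) * nit k t := by
    funext t
    apply sum_congr rfl
    intro k _
    ring
  rw [h1]
  exact cont_sum _ _ _

open Pool.Agent.Lib.BV in
/-- Vaughan's identity, pointwise. -/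
lemma vau_pt {U V k : ℕ} (hk : U < k) : ArithmeticFunction.vonMangoldt k =
    -(∑ p ∈ k.divisorsAntidiagonal, (LU U * muV V) p.1 * 1) +
    (∑ p ∈ k.divisorsAntidiagonal, muV V p.1 * Real.log p.2) +
    (∑ p ∈ k.divisorsAntidiagonal, betaV V p.1 * alphaU U p.2) := by
  have h5 : ArithmeticFunction.vonMangoldt k = LU U k -
      ((LU U * muV V) * (ArithmeticFunction.zeta : ArithmeticFunction ℝ)) k +
      (muV V * ArithmeticFunction.log) k + (alphaU U * betaV V) k :=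
    congrArg (fun f : ArithmeticFunction ℝ => f k) (vaughan U V)
  rw [vau_LU_apply, if_neg (by omega), mul_comm (alphaU U) (betaV V)] at h5
  rw [ArithmeticFunction.mul_apply (f := LU U * muV V), ArithmeticFunction.mul_apply (f := muV V),
    ArithmeticFunction.mul_apply (f := betaV V)] at h5
  have h6 : ∑ p ∈ k.divisorsAntidiagonal, (LU U * muV V) p.1 *
      ((ArithmeticFunction.zeta : ArithmeticFunction ℝ)) p.2 =
      ∑ p ∈ k.divisorsAntidiagonal, (LU U * muV V) p.1 * 1 := by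
    apply sum_congr rfl
    intro p hp
    have h7 := Nat.mem_divisorsAntidiagonal.1 hp
    have h8 : p.2 ≠ 0 := by
      intro h
      rw [h, mul_zero] at h7
      omega
    rw [ArithmeticFunction.natCoe_apply, ArithmeticFunction.zeta_apply_ne h8, Nat.cast_one]
  rw [h6] at h5
  rw [h5]
  simp only [ArithmeticFunction.log_apply]
  ring

end DP3Aux

open DP3Aux Pool.Agent.Lib.BV in
theorem dir_poly3 (A : ℕ) (ε : ℝ) (hε : 0 < ε) : ∃ B : ℕ, ∀ᶠ X : ℕ in atTop, ∀ (q : ℕ) [NeZero q]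
    (χ : DirichletCharacter ℂ q), (q : ℝ) ≤ Real.log X ^ A → ∀ t0 t1 : ℝ, t0 ≤ t1 →
    (∀ t : ℝ, t0 ≤ t → t ≤ t1 → Real.log X ^ B ≤ |t| ∧ |t| ≤ (X : ℝ) ^ (2 / 3 - ε)) →
    ∫ t in t0..t1, ‖∑ n ∈ Ioc X (3 * X), lam (chf χ) n * nit n t‖ ^ 2 ≤ X ^ 2 / Real.log X ^ A := by
  obtain ⟨e, he⟩ : ∃ e : ℝ, e = min ε (1 / 4) := ⟨_, rfl⟩
  have he0 : 0 < e := by rw [he]; exact lt_min hε (by norm_num)
  have he4 : e ≤ 1 / 4 := by rw [he]; exact min_le_right _ _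
  have heε : e ≤ ε := by rw [he]; exact min_le_left _ _
  obtain ⟨B1, hB1⟩ := type_I A e he0 he4
  obtain ⟨B2, hB2⟩ := type_II A e he0 he4
  refine ⟨B1 + B2, ?_⟩
  filter_upwards [hB1, hB2, ev_log 10, ev_pow 1 (e / 8) (by positivity), eventually_ge_atTop 1] with X f1 f2 f3 f4 f5
  intro q _ χ hq t0 t1 ht hr
  have hXr : (1 : ℝ) ≤ X := by exact_mod_cast f5
  have hX0 : (0 : ℝ) < X := by linarith only [he0, he4, hXr]
  have hL1 : 1 ≤ Real.log X := by linarith only [he0, he4, f3]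
  rw [pow_one] at f4
  have hl1 := log3_ge_one f5
  -- the parameters
  obtain ⟨U, hU⟩ : ∃ U : ℕ, U = ⌈(X : ℝ) ^ (e / 8)⌉₊ := ⟨_, rfl⟩
  obtain ⟨V, hV⟩ : ∃ V : ℕ, V = ⌈(X : ℝ) ^ (2 / 3 - e / 2)⌉₊ := ⟨_, rfl⟩
  have hU1 : (X : ℝ) ^ (e / 8) ≤ U := by rw [hU]; exact Nat.le_ceil _
  have hV1 : (X : ℝ) ^ (2 / 3 - e / 2) ≤ V := by rw [hV]; exact Nat.le_ceil _
  have hU10 : (10 : ℝ) ≤ (X : ℝ) ^ (e / 8) := by linarith only [f3, f4]
  have hV10 : (X : ℝ) ^ (e / 8) ≤ (X : ℝ) ^ (2 / 3 - e / 2) :=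
    Real.rpow_le_rpow_of_exponent_le hXr (by linarith only [he0, he4])
  have hU2 : (U : ℝ) ≤ 2 * (X : ℝ) ^ (e / 8) := by
    have : (U : ℝ) < (X : ℝ) ^ (e / 8) + 1 := by rw [hU]; exact Nat.ceil_lt_add_one (by (clear * - f5; positivity))
    linarith only [he0, he4, f3, f4, this]
  have hV2 : (V : ℝ) ≤ 2 * (X : ℝ) ^ (2 / 3 - e / 2) := by
    have : (V : ℝ) < (X : ℝ) ^ (2 / 3 - e / 2) + 1 := by
      rw [hV]; exact Nat.ceil_lt_add_one (by (clear * - f5; positivity))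
    linarith only [he0, he4, f3, f4, hV10, this]
  have hU0 : 1 ≤ U := by
    have : (1 : ℝ) ≤ U := by linarith only [he0, he4, f3, f4, hU1]
    exact_mod_cast this
  have hV0 : 1 ≤ V := by
    have : (1 : ℝ) ≤ V := by linarith only [he0, he4, f3, f4, hV1, hV10]
    exact_mod_cast this
  have hUV : ((U * V : ℕ) : ℝ) ≤ 4 * (X : ℝ) ^ (2 / 3 - 3 * e / 8) := by
    push_cast
    have h1 : (X : ℝ) ^ (2 / 3 - 3 * e / 8) = (X : ℝ) ^ (e / 8) * (X : ℝ) ^ (2 / 3 - e / 2) := by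
      rw [← Real.rpow_add hX0]
      congr 1
      ring
    rw [h1]
    have h2 : (U : ℝ) * V ≤ (2 * (X : ℝ) ^ (e / 8)) * (2 * (X : ℝ) ^ (2 / 3 - e / 2)) := by gcongr
    linarith only [h2]
  have hV3 : (V : ℝ) ≤ 4 * (X : ℝ) ^ (2 / 3 - 3 * e / 8) := by
    refine le_trans ?_ hUV
    push_cast
    have h1 : (1 : ℝ) ≤ U := by exact_mod_cast hU0
    nlinarith only [he0, he4, f3, f4, hU1, hV1, hV10]
  have hUX : U ≤ X := by
    have h1 : (X : ℝ) ^ (1 - e / 8) * (X : ℝ) ^ (e / 8) = X := by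
      rw [← Real.rpow_add hX0]
      rw [show 1 - e / 8 + e / 8 = (1 : ℝ) by ring, Real.rpow_one]
    have h2 : (X : ℝ) ^ (e / 8) ≤ (X : ℝ) ^ (1 - e / 8) :=
      Real.rpow_le_rpow_of_exponent_le hXr (by linarith only [he0, he4])
    have h3 : (U : ℝ) ≤ X := by nlinarith only [he0, he4, f3, f4, hU2, h1, h2]
    exact_mod_cast h3
  have hUVX : ((U * V : ℕ) : ℝ) ≤ (X : ℝ) + 3 := by
    refine hUV.trans ?_
    have h1 : (X : ℝ) = (X : ℝ) ^ (2 / 3 - 3 * e / 8) * (X : ℝ) ^ (1 / 3 + 3 * e / 8) := by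
      rw [← Real.rpow_add hX0]
      rw [show 2 / 3 - 3 * e / 8 + (1 / 3 + 3 * e / 8) = (1 : ℝ) by ring, Real.rpow_one]
    have h2 : (X : ℝ) ^ (e / 8) ≤ (X : ℝ) ^ (1 / 3 + 3 * e / 8) :=
      Real.rpow_le_rpow_of_exponent_le hXr (by linarith only [he0, he4])
    have h3 : 0 < (X : ℝ) ^ (2 / 3 - 3 * e / 8) := by (clear * - f5; positivity)
    nlinarith only [he0, he4, f3, f4, hV1, hV10, hUV, hV3, h1, h2]
  -- the range of `t`
  have hr1 : ∀ t : ℝ, t0 ≤ t → t ≤ t1 → Real.log X ^ B1 ≤ |t| ∧ |t| ≤ (X : ℝ) ^ (2 / 3 - e) := by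
    intro t h1 h2
    obtain ⟨h3, h4⟩ := hr t h1 h2
    exact ⟨(pow_le_pow_right₀ hL1 (by omega)).trans h3,
      h4.trans (Real.rpow_le_rpow_of_exponent_le hXr (by linarith only [heε]))⟩
  have hr2 : ∀ t : ℝ, t0 ≤ t → t ≤ t1 → Real.log X ^ B2 ≤ |t| ∧ |t| ≤ (X : ℝ) ^ (2 / 3 - e) := by
    intro t h1 h2
    obtain ⟨h3, h4⟩ := hr t h1 h2
    exact ⟨(pow_le_pow_right₀ hL1 (by omega)).trans h3,
      h4.trans (Real.rpow_le_rpow_of_exponent_le hXr (by linarith only [heε]))⟩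
  -- the coefficients
  have hc1 : ∀ d, |(LU U * muV V) d| ≤ Real.log (X + 3) := by
    intro d
    by_cases hd : U * V < d
    · rw [LU_mul_muV_apply_of_gt hd, abs_zero]
      linarith only [he0, he4, hl1]
    · rcases Nat.eq_zero_or_pos d with h0 | h0
      · subst h0
        rw [ArithmeticFunction.map_zero, abs_zero]
        linarith only [he0, he4, hl1]
      · have h1 : |(LU U * muV V) d| ≤ Real.log d := by
          rw [ArithmeticFunction.mul_apply]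
          refine (abs_sum_le_sum_abs _ _).trans ?_
          have h2 : ∀ p ∈ d.divisorsAntidiagonal, |LU U p.1 * muV V p.2| ≤
              ArithmeticFunction.vonMangoldt p.1 := by
            intro p _
            rw [abs_mul]
            have h3 : |LU U p.1| ≤ ArithmeticFunction.vonMangoldt p.1 := by
              rw [vau_LU_apply]
              split_ifs
              · rw [abs_of_nonneg ArithmeticFunction.vonMangoldt_nonneg]
              · rw [abs_zero]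
                exact ArithmeticFunction.vonMangoldt_nonneg
            have h4 := mul_le_mul h3 (vau_muV_abs_le V p.2) (abs_nonneg _)
              ArithmeticFunction.vonMangoldt_nonneg
            rwa [mul_one] at h4
          refine (sum_le_sum h2).trans ?_
          have h5 := Nat.sum_divisorsAntidiagonal (n := d)
            (f := fun a _ => (ArithmeticFunction.vonMangoldt a : ℝ))
          rw [h5, ArithmeticFunction.vonMangoldt_sum]
        refine h1.trans ?_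
        have h2 : (d : ℝ) ≤ ((U * V : ℕ) : ℝ) := by exact_mod_cast (not_lt.1 hd)
        apply Real.log_le_log (by exact_mod_cast h0)
        linarith only [hUVX, h2]
  have hc2 : ∀ d, |muV V d| ≤ Real.log (X + 3) := by
    intro d
    exact (vau_muV_abs_le V d).trans hl1
  have hc2' : ∀ d, V < d → muV V d = 0 := by
    intro d hd
    rw [vau_muV_apply, if_neg (by omega)]
  -- the three sums
  obtain ⟨T1, hT1⟩ : ∃ T1 : ℝ → ℂ, T1 = fun t => ∑ k ∈ Ioc X (3 * X),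
    ((∑ p ∈ k.divisorsAntidiagonal, (LU U * muV V) p.1 * (fun _ : ℕ => (1 : ℝ)) p.2 : ℝ) : ℂ) *
      (χ (k : ZMod q) * nit k t) := ⟨_, rfl⟩
  obtain ⟨T2, hT2⟩ : ∃ T2 : ℝ → ℂ, T2 = fun t => ∑ k ∈ Ioc X (3 * X),
    ((∑ p ∈ k.divisorsAntidiagonal, muV V p.1 * (fun n : ℕ => Real.log n) p.2 : ℝ) : ℂ) *
      (χ (k : ZMod q) * nit k t) := ⟨_, rfl⟩
  obtain ⟨T3, hT3⟩ : ∃ T3 : ℝ → ℂ, T3 = fun t => ∑ k ∈ Ioc X (3 * X), (∑ p ∈ k.divisorsAntidiagonal,
      (((betaV V p.1 : ℝ) : ℂ) * χ (p.1 : ZMod q)) * (((alphaU U p.2 : ℝ) : ℂ) * χ (p.2 : ZMod q))) *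
        nit k t := ⟨_, rfl⟩
  have hI1 := f1 q χ (fun d => (LU U * muV V) d) (fun _ : ℕ => (1 : ℝ)) (U * V) t0 t1 hq
    (Nat.mul_pos hU0 hV0) hUV hc1 (fun d hd => LU_mul_muV_apply_of_gt hd) monotone_const
    (fun _ => zero_le_one) (by linarith only [he0, he4, hl1]) ht hr1
  have hI2 := f1 q χ (fun d => muV V d) (fun n : ℕ => Real.log n) V t0 t1 hq
    hV0 hV3 hc2 hc2' (by
      intro a b hab
      rcases Nat.eq_zero_or_pos a with h0 | h0
      · subst h0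
        simp only [Nat.cast_zero, Real.log_zero]
        exact Real.log_natCast_nonneg b
      · exact Real.log_le_log (by exact_mod_cast h0) (by exact_mod_cast hab))
    (fun n => Real.log_natCast_nonneg n) (by
      have h1 : 2 * Real.log ((X : ℝ) + 3) = Real.log (((X : ℝ) + 3) ^ 2) := by
        rw [Real.log_pow]
        push_cast
        ring
      rw [h1]
      push_cast
      refine Real.log_le_log (by linarith only [he0, he4, hXr]) ?_
      nlinarith only [he0, he4]) ht hr1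
  have hI3 := f2 q χ U V t0 t1 hq hU1 hV1 hV2 ht hr2
  have hsum : ∀ t : ℝ, ∑ n ∈ Ioc X (3 * X), lam (chf χ) n * nit n t = -T1 t + T2 t + T3 t := by
    intro t
    rw [hT1, hT2, hT3]
    dsimp only
    have h3 := conv_eq χ (fun d => betaV V d) (fun d => alphaU U d) (Ioc X (3 * X)) t
    rw [← h3, ← sum_neg_distrib, ← sum_add_distrib, ← sum_add_distrib]
    apply sum_congr rfl
    intro k hk
    have hkX := (Finset.mem_Ioc.1 hk).1
    have h4 : ArithmeticFunction.vonMangoldt k =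
        -(∑ p ∈ k.divisorsAntidiagonal, (LU U * muV V) p.1 * 1) +
        (∑ p ∈ k.divisorsAntidiagonal, muV V p.1 * Real.log p.2) +
        (∑ p ∈ k.divisorsAntidiagonal, betaV V p.1 * alphaU U p.2) := by
      exact vau_pt (by omega)
    unfold lam chf
    rw [h4]
    push_cast
    ring
  have hc1' : Continuous T1 := by
    rw [hT1]
    exact cont_sum' χ _ X (3 * X)
  have hc2'' : Continuous T2 := by
    rw [hT2]
    exact cont_sum' χ _ X (3 * X)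
  have hc3' : Continuous T3 := by
    rw [hT3]
    exact cont_sum _ _ _
  have hfin : ∫ t in t0..t1, ‖∑ n ∈ Ioc X (3 * X), lam (chf χ) n * nit n t‖ ^ 2 ≤
      3 * (∫ t in t0..t1, ‖T1 t‖ ^ 2) + 3 * (∫ t in t0..t1, ‖T2 t‖ ^ 2) + 3 * ∫ t in t0..t1, ‖T3 t‖ ^ 2 := by
    have k1 : ∫ t in t0..t1, ‖∑ n ∈ Ioc X (3 * X), lam (chf χ) n * nit n t‖ ^ 2 =
        ∫ t in t0..t1, ‖-T1 t + T2 t + T3 t‖ ^ 2 := by
      apply intervalIntegral.integral_congr
      intro t _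
      dsimp only
      rw [hsum t]
    have i1 : IntervalIntegrable (fun t => 3 * ‖T1 t‖ ^ 2) volume t0 t1 :=
      (continuous_const.mul (hc1'.norm.pow 2)).intervalIntegrable _ _
    have i2 : IntervalIntegrable (fun t => 3 * ‖T2 t‖ ^ 2) volume t0 t1 :=
      (continuous_const.mul (hc2''.norm.pow 2)).intervalIntegrable _ _
    have i3 : IntervalIntegrable (fun t => 3 * ‖T3 t‖ ^ 2) volume t0 t1 :=
      (continuous_const.mul (hc3'.norm.pow 2)).intervalIntegrable _ _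
    rw [k1, ← intervalIntegral.integral_const_mul, ← intervalIntegral.integral_const_mul,
      ← intervalIntegral.integral_const_mul, ← intervalIntegral.integral_add i1 i2,
      ← intervalIntegral.integral_add (i1.add i2) i3]
    apply intervalIntegral.integral_mono_on ht
    · exact (((hc1'.neg.add hc2'').add hc3').norm.pow 2).intervalIntegrable _ _
    · exact (i1.add i2).add i3
    · intro t _
      have e2 : ‖-T1 t + T2 t + T3 t‖ ≤ ‖T1 t‖ + ‖T2 t‖ + ‖T3 t‖ := by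
        refine (norm_add_le _ _).trans ?_
        have e4 := norm_add_le (-T1 t) (T2 t)
        rw [norm_neg] at e4
        linarith only [e4]
      have e3 : ‖-T1 t + T2 t + T3 t‖ ^ 2 ≤ (‖T1 t‖ + ‖T2 t‖ + ‖T3 t‖) ^ 2 :=
        pow_le_pow_left₀ (norm_nonneg _) e2 2
      nlinarith only [e3, sq_nonneg (‖T1 t‖ - ‖T2 t‖), sq_nonneg (‖T1 t‖ - ‖T3 t‖), sq_nonneg (‖T2 t‖ - ‖T3 t‖)]
  have hI1' : ∫ t in t0..t1, ‖T1 t‖ ^ 2 ≤ X ^ 2 / (9 * Real.log X ^ A) := by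
    rw [hT1]
    exact hI1
  have hI2' : ∫ t in t0..t1, ‖T2 t‖ ^ 2 ≤ X ^ 2 / (9 * Real.log X ^ A) := by
    rw [hT2]
    exact hI2
  have hI3' : ∫ t in t0..t1, ‖T3 t‖ ^ 2 ≤ X ^ 2 / (9 * Real.log X ^ A) := by
    rw [hT3]
    exact hI3
  have h9 : 9 * ((X : ℝ) ^ 2 / (9 * Real.log X ^ A)) = X ^ 2 / Real.log X ^ A := by
    have : Real.log X ^ A ≠ 0 := by (clear * - f3; positivity)
    field_simp
  linarith only [hfin, hI1', hI2', hI3', h9]

end Pool.Agent.VL
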