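import Pool.Agent.Lib.VK.SmallT
import Pool.Agent.Lib.VL.DirPoly3

/-!
# The full mean square up to height `X^(2/3 - ε)`
-/

set_option autoImplicit false

open Finset Filter MeasureTheory

namespace Pool.Agent.VL

open Pool.Agent.VK Pool.Agent.Lib.SW

namespace FullL23Aux

lemma cont_nit {n : ℕ} (hn : 1 ≤ n) : Continuous (fun t : ℝ => nit n t) := by
  unfold nit
  have h0 : ((n : ℝ) : ℂ) ≠ 0 := by
    have : (n : ℝ) ≠ 0 := by exact_mod_cast (by omega : n ≠ 0)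
    exact_mod_cast this
  have h1 : (fun t : ℝ => ((n : ℝ) : ℂ) ^ (-((t : ℂ) * Complex.I))) =
      fun t : ℝ => Complex.exp (Complex.log ((n : ℝ) : ℂ) * (-((t : ℂ) * Complex.I))) := by
    funext t
    rw [Complex.cpow_def_of_ne_zero h0]
  rw [h1]
  fun_prop

lemma cont_sum (c : ℕ → ℂ) (X : ℕ) :
    Continuous (fun t : ℝ => ‖∑ n ∈ Ioc X (3 * X), c n * nit n t‖ ^ 2) := by
  refine (Continuous.norm ?_).pow 2
  refine continuous_finsetSum _ fun n hn => ?_
  rw [mem_Ioc] at hn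
  exact continuous_const.mul (cont_nit (by omega))

/-- The sum without coefficients. -/
lemma zeta_bound : ∃ C : ℝ, 1 ≤ C ∧ ∀ (X : ℕ) (t : ℝ), 1 ≤ X → 1 ≤ |t| → |t| ≤ X →
    ‖∑ n ∈ Ioc X (3 * X), (1 : ℂ) * nit n t‖ ≤ C * X / |t| := by
  obtain ⟨C, hC, h⟩ := kl_sum
  refine ⟨3 * C, by linarith, ?_⟩
  intro X t hX ht htX
  have hX0 : (0 : ℝ) ≤ X := Nat.cast_nonneg X
  have h1 := h 1 X (2 * X) (fun _ => 1) t le_rfl hX le_rfl (fun _ => by simp) ht
    (by push_cast; linarith)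
  have h2 := h 1 (2 * X) (3 * X) (fun _ => 1) t le_rfl (by omega) (by omega) (fun _ => by simp) ht
    (by push_cast; linarith)
  have h3 : ∑ n ∈ Ioc X (3 * X), (1 : ℂ) * nit n t =
      ∑ n ∈ Ioc X (2 * X), (1 : ℂ) * nit n t + ∑ n ∈ Ioc (2 * X) (3 * X), (1 : ℂ) * nit n t := by
    rw [← sum_union (Finset.disjoint_left.2 fun a ha hb => by
      rw [mem_Ioc] at ha hb
      omega)]
    congr 1
    ext a
    rw [mem_union, mem_Ioc, mem_Ioc, mem_Ioc]
    omega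
  rw [h3]
  refine (norm_add_le _ _).trans ((add_le_add h1 h2).trans (le_of_eq ?_))
  push_cast
  ring

lemma int_inv_sq {a b : ℝ} (ha : 0 < a) (hab : a ≤ b) (c : ℝ) (hc : 0 ≤ c) :
    ∫ t in a..b, c / t ^ 2 ≤ c / a := by
  have hb : 0 < b := ha.trans_le hab
  have h1 : ∫ t in a..b, c / t ^ 2 = (-c / b) - (-c / a) := by
    refine intervalIntegral.integral_eq_sub_of_hasDerivAt (f := fun t => -c / t) ?_ ?_
    · intro t ht
      rw [Set.uIcc_of_le hab] at ht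
      have ht0 : t ≠ 0 := (ha.trans_le ht.1).ne'
      have h2 := (hasDerivAt_inv ht0).const_mul (-c)
      have h3 : (fun t => -c * t⁻¹) = fun t : ℝ => -c / t := by
        funext t
        rw [div_eq_mul_inv]
      rw [h3] at h2
      have h4 : c / t ^ 2 = -c * -(t ^ 2)⁻¹ := by
        rw [div_eq_mul_inv]
        ring
      rw [h4]
      exact h2
    · refine ContinuousOn.intervalIntegrable ?_
      rw [Set.uIcc_of_le hab]
      refine continuousOn_const.div (continuousOn_id.pow 2) fun t ht => ?_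
      have : 0 < t := ha.trans_le ht.1
      positivity
  rw [h1]
  have h4 : -c / b ≤ 0 := by
    rw [neg_div]
    have : 0 ≤ c / b := by positivity
    linarith
  have h5 : -c / a = -(c / a) := neg_div _ _
  rw [h5]
  linarith

lemma part {X : ℕ} {a b : ℝ} (hab : a ≤ b) (ha : 0 < a) (c : ℕ → ℂ) (s : ℂ) (hs : ‖s‖ ≤ 1)
    {G Z : ℝ} (hZ : 0 ≤ Z)
    (hg : ∫ t in a..b, ‖∑ n ∈ Ioc X (3 * X), c n * nit n t‖ ^ 2 ≤ G)
    (hz : ∀ t, a ≤ t → t ≤ b → ‖∑ n ∈ Ioc X (3 * X), (1 : ℂ) * nit n t‖ ≤ Z / t) :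
    ∫ t in a..b, ‖∑ n ∈ Ioc X (3 * X), (c n - s) * nit n t‖ ^ 2 ≤ 2 * G + 2 * (Z ^ 2 / a) := by
  have h1 : ∀ t, a ≤ t → t ≤ b → ‖∑ n ∈ Ioc X (3 * X), (c n - s) * nit n t‖ ^ 2 ≤
      2 * ‖∑ n ∈ Ioc X (3 * X), c n * nit n t‖ ^ 2 + 2 * (Z ^ 2 / t ^ 2) := by
    intro t h1 h2
    have ht : 0 < t := ha.trans_le h1
    have h3 : ∑ n ∈ Ioc X (3 * X), (c n - s) * nit n t =
        ∑ n ∈ Ioc X (3 * X), c n * nit n t - s * ∑ n ∈ Ioc X (3 * X), (1 : ℂ) * nit n t := by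
      rw [mul_sum, ← sum_sub_distrib]
      exact sum_congr rfl fun n _ => by ring
    have h4 : ‖∑ n ∈ Ioc X (3 * X), (c n - s) * nit n t‖ ≤
        ‖∑ n ∈ Ioc X (3 * X), c n * nit n t‖ + Z / t := by
      rw [h3]
      refine (norm_sub_le _ _).trans (add_le_add le_rfl ?_)
      rw [norm_mul]
      calc ‖s‖ * ‖∑ n ∈ Ioc X (3 * X), (1 : ℂ) * nit n t‖ ≤ 1 * (Z / t) :=
            mul_le_mul hs (hz t h1 h2) (norm_nonneg _) zero_le_one
        _ = Z / t := one_mul _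
    have h5 : 0 ≤ Z / t := by positivity
    have h6 : Z ^ 2 / t ^ 2 = (Z / t) ^ 2 := by rw [div_pow]
    rw [h6]
    have h7 := norm_nonneg (∑ n ∈ Ioc X (3 * X), (c n - s) * nit n t)
    have h8 := norm_nonneg (∑ n ∈ Ioc X (3 * X), c n * nit n t)
    nlinarith only [h4, h7, sq_nonneg (‖∑ n ∈ Ioc X (3 * X), c n * nit n t‖ - Z / t)]
  have hi1 : IntervalIntegrable (fun t => ‖∑ n ∈ Ioc X (3 * X), c n * nit n t‖ ^ 2) volume a b :=
    (cont_sum c X).intervalIntegrable _ _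
  have hi2 : IntervalIntegrable (fun t : ℝ => Z ^ 2 / t ^ 2) volume a b := by
    refine ContinuousOn.intervalIntegrable ?_
    rw [Set.uIcc_of_le hab]
    refine continuousOn_const.div (continuousOn_id.pow 2) fun t ht => ?_
    have : 0 < t := ha.trans_le ht.1
    positivity
  have h2 : ∫ t in a..b, ‖∑ n ∈ Ioc X (3 * X), (c n - s) * nit n t‖ ^ 2 ≤
      ∫ t in a..b, (2 * ‖∑ n ∈ Ioc X (3 * X), c n * nit n t‖ ^ 2 + 2 * (Z ^ 2 / t ^ 2)) := by
    refine intervalIntegral.integral_mono_on hab ?_ ((hi1.const_mul 2).add (hi2.const_mul 2)) ?_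
    · exact (cont_sum (fun n => c n - s) X).intervalIntegrable _ _
    · intro t ht
      exact h1 t ht.1 ht.2
  refine h2.trans ?_
  rw [intervalIntegral.integral_add (hi1.const_mul 2) (hi2.const_mul 2),
    intervalIntegral.integral_const_mul, intervalIntegral.integral_const_mul]
  have h3 := int_inv_sq ha hab (Z ^ 2) (by positivity)
  linarith

/-- The general form. -/
theorem full_gen (κ : ℝ) (hκ : κ ≤ 1)
    (hdir : ∀ A : ℕ, ∃ B : ℕ, ∀ᶠ X : ℕ in atTop, ∀ (q : ℕ) [NeZero q]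
      (χ : DirichletCharacter ℂ q), (q : ℝ) ≤ Real.log X ^ A → ∀ t0 t1 : ℝ, t0 ≤ t1 →
      (∀ t : ℝ, t0 ≤ t → t ≤ t1 → Real.log X ^ B ≤ |t| ∧ |t| ≤ (X : ℝ) ^ κ) →
      ∫ t in t0..t1, ‖∑ n ∈ Ioc X (3 * X), lam (chf χ) n * nit n t‖ ^ 2 ≤
        X ^ 2 / Real.log X ^ A) (A : ℕ) :
    ∀ᶠ X : ℕ in atTop, ∀ (q : ℕ) [NeZero q] (χ : DirichletCharacter ℂ q),
      (q : ℝ) ≤ Real.log X ^ A →
      ∫ t in (-((X : ℝ) ^ κ))..((X : ℝ) ^ κ), ‖∑ n ∈ Ioc X (3 * X), cc χ n * nit n t‖ ^ 2 ≤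
        X ^ 2 / Real.log X ^ A := by
  obtain ⟨C, hC, hz⟩ := zeta_bound
  obtain ⟨B0, hB0⟩ := hdir (A + 2)
  obtain ⟨B, hBdef⟩ : ∃ B, B = B0 + A + 2 := ⟨_, rfl⟩
  filter_upwards [hB0, small_t (A + B + 2) B, Pool.Agent.HLU.ev_log (8 + 36 * C ^ 2),
    eventually_ge_atTop 1] with X hdX hsX hLX hX q _ χ hq
  obtain ⟨L, hL⟩ : ∃ L, L = Real.log X := ⟨_, rfl⟩
  rw [← hL] at hdX hsX hLX hq ⊢
  have hC2 : 1 ≤ C ^ 2 := one_le_pow₀ hC
  have hL1 : 1 ≤ L := by linarith only [hLX, hC2]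
  have hL0 : 0 < L := by linarith only [hLX, hC2]
  have hX0 : (0 : ℝ) < X := by exact_mod_cast hX
  have hX1 : (1 : ℝ) ≤ X := by exact_mod_cast hX
  obtain ⟨T, hT⟩ : ∃ T, T = (X : ℝ) ^ κ := ⟨_, rfl⟩
  rw [← hT] at hdX ⊢
  have hT0 : 0 < T := by rw [hT]; positivity
  have hTX : T ≤ X := by
    rw [hT]
    calc (X : ℝ) ^ κ ≤ (X : ℝ) ^ (1 : ℝ) := Real.rpow_le_rpow_of_exponent_le hX1 hκ
      _ = X := Real.rpow_one _
  obtain ⟨T0, hT0d⟩ : ∃ T0, T0 = L ^ B := ⟨_, rfl⟩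
  have hT01 : 1 ≤ T0 := by rw [hT0d]; exact one_le_pow₀ hL1
  -- the coefficients
  obtain ⟨s, hs, hcc⟩ : ∃ s : ℂ, ‖s‖ ≤ 1 ∧ ∀ n, cc χ n = lam (chf χ) n - s := by
    classical
    by_cases h : χ = 1
    · exact ⟨1, by simp, fun n => by unfold cc; rw [if_pos h]⟩
    · exact ⟨0, by simp, fun n => by unfold cc; rw [if_neg h]⟩
  -- small frequencies
  have hsmall : ∀ S : ℝ, 0 ≤ S → S ≤ T0 →
      ∫ t in (-S)..S, ‖∑ n ∈ Ioc X (3 * X), cc χ n * nit n t‖ ^ 2 ≤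
        X ^ 2 / L ^ A * (2 / L) := by
    intro S hS hST
    have h1 : ∫ t in (-S)..S, ‖∑ n ∈ Ioc X (3 * X), cc χ n * nit n t‖ ^ 2 ≤
        ∫ _t in (-S)..S, (X / L ^ (A + B + 2)) ^ 2 := by
      refine intervalIntegral.integral_mono_on (by linarith only [hS])
        ((cont_sum (fun n => cc χ n) X).intervalIntegrable _ _) intervalIntegrable_const ?_
      intro t ht
      refine pow_le_pow_left₀ (norm_nonneg _) (hsX q χ (hq.trans ?_) t ?_) 2
      · exact pow_le_pow_right₀ hL1 (by omega)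
      · rw [← hT0d]
        exact (abs_le.2 ⟨ht.1, ht.2⟩).trans hST
    refine h1.trans ?_
    rw [intervalIntegral.integral_const, smul_eq_mul, sub_neg_eq_add]
    calc (S + S) * (X / L ^ (A + B + 2)) ^ 2 ≤ (L ^ B + L ^ B) * (X / L ^ (A + B + 2)) ^ 2 := by
          rw [hT0d] at hST
          exact mul_le_mul_of_nonneg_right (by linarith only [hST]) (by (clear * - hX hL1; positivity))
      _ = X ^ 2 / L ^ A * (2 / (L ^ A * L ^ B * L ^ 4)) := by
          rw [div_pow, ← pow_mul, show (A + B + 2) * 2 = A + A + B + B + 4 by ring]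
          simp only [pow_add]
          field_simp
          ring
      _ ≤ X ^ 2 / L ^ A * (2 / L) := by
          refine mul_le_mul_of_nonneg_left ?_ (by (clear * - hX hL1; positivity))
          refine div_le_div_of_nonneg_left (by norm_num) hL0 ?_
          have e1 : 1 ≤ L ^ A := one_le_pow₀ hL1
          have e2 : 1 ≤ L ^ B := one_le_pow₀ hL1
          have e3 : L ≤ L ^ 4 := le_self_pow₀ hL1 (by norm_num)
          calc L = 1 * 1 * L := by ring
            _ ≤ L ^ A * L ^ B * L ^ 4 := by gcongr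
  have hfin : ∀ u : ℝ, u ≤ 1 → X ^ 2 / L ^ A * u ≤ X ^ 2 / L ^ A := by
    intro u hu
    have h1 : 0 ≤ X ^ 2 / L ^ A := by (clear * - hX hL1; positivity)
    calc X ^ 2 / L ^ A * u ≤ X ^ 2 / L ^ A * 1 := mul_le_mul_of_nonneg_left hu h1
      _ = _ := mul_one _
  rcases le_total T T0 with hTT | hTT
  · refine (hsmall T hT0.le hTT).trans (hfin _ ?_)
    rw [div_le_one hL0]
    nlinarith only [hLX, hC2]
  · -- large frequencies
    have hB1 : L ^ B0 ≤ T0 := by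
      rw [hT0d]
      exact pow_le_pow_right₀ hL1 (by omega)
    have hqA : (q : ℝ) ≤ L ^ (A + 2) := hq.trans (pow_le_pow_right₀ hL1 (by omega))
    have hgp := hdX q χ hqA T0 T hTT (fun t h1 h2 => by
      have ht : 0 ≤ t := by linarith only [hT01, h1]
      rw [abs_of_nonneg ht]
      exact ⟨hB1.trans h1, h2⟩)
    have hgn := hdX q χ hqA (-T) (-T0) (by linarith only [hTT]) (fun t h1 h2 => by
      have ht : t ≤ 0 := by linarith only [hT01, h2]
      rw [abs_of_nonpos ht]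
      exact ⟨by linarith only [hB1, h2], by linarith only [h1]⟩)
    have hT00 : 0 < T0 := by linarith only [hT01]
    have hpos : ∫ t in T0..T, ‖∑ n ∈ Ioc X (3 * X), cc χ n * nit n t‖ ^ 2 ≤
        2 * (X ^ 2 / L ^ (A + 2)) + 2 * ((C * X) ^ 2 / T0) := by
      simp only [hcc]
      refine part hTT hT00 _ s hs (by (clear * - hC hX; positivity)) hgp ?_
      intro t h1 h2
      have ht : |t| = t := abs_of_nonneg (by linarith only [hT01, h1])
      have h3 := hz X t hX (by rw [ht]; linarith only [hT01, h1]) (by rw [ht]; linarith only [hTX, h2])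
      rwa [ht] at h3
    have hneg : ∫ t in (-T)..(-T0), ‖∑ n ∈ Ioc X (3 * X), cc χ n * nit n t‖ ^ 2 ≤
        2 * (X ^ 2 / L ^ (A + 2)) + 2 * ((C * X) ^ 2 / T0) := by
      have hconj : ∀ (c : ℕ → ℂ) (t : ℝ), ‖∑ n ∈ Ioc X (3 * X), c n * nit n (-t)‖ =
          ‖∑ n ∈ Ioc X (3 * X), (starRingEnd ℂ) (c n) * nit n t‖ := by
        intro c t
        rw [← RCLike.norm_conj (∑ n ∈ Ioc X (3 * X), c n * nit n (-t)), map_sum]
        congr 1
        refine sum_congr rfl fun n hn => ?_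
        rw [mem_Ioc] at hn
        rw [map_mul, Pool.Agent.VK.KLAux.nit_neg (by omega : 1 ≤ n), Complex.conj_conj]
      have h1 : ∀ c : ℕ → ℂ, ∫ t in (-T)..(-T0), ‖∑ n ∈ Ioc X (3 * X), c n * nit n t‖ ^ 2 =
          ∫ t in T0..T, ‖∑ n ∈ Ioc X (3 * X), (starRingEnd ℂ) (c n) * nit n t‖ ^ 2 := by
        intro c
        rw [← intervalIntegral.integral_comp_neg
          (fun t => ‖∑ n ∈ Ioc X (3 * X), c n * nit n t‖ ^ 2)]
        simp only [hconj]
      rw [h1] at hgn ⊢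
      simp only [hcc, map_sub]
      refine part hTT hT00 _ _ (by rw [RCLike.norm_conj]; exact hs) (by (clear * - hC hX; positivity)) hgn ?_
      intro t h1 h2
      have ht : |t| = t := abs_of_nonneg (by linarith only [hT01, h1])
      have h3 := hz X t hX (by rw [ht]; linarith only [hT01, h1]) (by rw [ht]; linarith only [hTX, h2])
      rwa [ht] at h3
    have hmid := hsmall T0 hT00.le le_rfl
    have hci : ∀ a b : ℝ, IntervalIntegrable
        (fun t => ‖∑ n ∈ Ioc X (3 * X), cc χ n * nit n t‖ ^ 2) volume a b := fun a b =>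
      (cont_sum (fun n => cc χ n) X).intervalIntegrable _ _
    rw [← intervalIntegral.integral_add_adjacent_intervals (hci (-T) (-T0)) (hci (-T0) T),
      ← intervalIntegral.integral_add_adjacent_intervals (hci (-T0) T0) (hci T0 T)]
    have hTA : L ^ A * L ≤ T0 := by
      rw [hT0d, ← pow_succ]
      exact pow_le_pow_right₀ hL1 (by omega)
    have e1 : (X : ℝ) ^ 2 / L ^ (A + 2) ≤ X ^ 2 / L ^ A * (1 / L) := by
      rw [← div_eq_mul_one_div, div_div, ← pow_succ]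
      exact div_le_div_of_nonneg_left (by (clear * - hX; positivity)) (by (clear * - hL1; positivity))
        (pow_le_pow_right₀ hL1 (by omega))
    have e2 : (C * X) ^ 2 / T0 ≤ X ^ 2 / L ^ A * (C ^ 2 / L) := by
      calc (C * X) ^ 2 / T0 ≤ (C * X) ^ 2 / (L ^ A * L) :=
            div_le_div_of_nonneg_left (by (clear * - hC hX; positivity)) (by (clear * - hL1; positivity)) hTA
        _ = X ^ 2 / L ^ A * (C ^ 2 / L) := by
            field_simp
    have e3 : X ^ 2 / L ^ A * (1 / L) * 4 + X ^ 2 / L ^ A * (C ^ 2 / L) * 4 +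
        X ^ 2 / L ^ A * (2 / L) = X ^ 2 / L ^ A * ((6 + 4 * C ^ 2) / L) := by
      field_simp
      ring
    have e4 := hfin ((6 + 4 * C ^ 2) / L) (by
      rw [div_le_one hL0]
      nlinarith only [hLX, hC2])
    linarith only [hpos, hneg, hmid, e1, e2, e3, e4]

end FullL23Aux

theorem full_l23 (A : ℕ) (ε : ℝ) (hε : 0 < ε) : ∀ᶠ X : ℕ in atTop, ∀ (q : ℕ) [NeZero q]
    (χ : DirichletCharacter ℂ q), (q : ℝ) ≤ Real.log X ^ A →
    ∫ t in (-((X : ℝ) ^ (2 / 3 - ε)))..((X : ℝ) ^ (2 / 3 - ε)), ‖∑ n ∈ Ioc X (3 * X), cc χ n * nit n t‖ ^ 2 ≤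
      X ^ 2 / Real.log X ^ A :=
  FullL23Aux.full_gen (2 / 3 - ε) (by linarith) (fun A => dir_poly3 A ε hε) A

end Pool.Agent.VL
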