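import Pool.Agent.Lib.VL.FullL23
import Pool.Agent.Lib.VK.GaussWin
import Pool.Agent.Lib.VK.SharpWin

/-!
# Almost all short intervals of length `X^(1/3 + ε)`, one character

The proofs are those of `VK.var_chi`, `VK.var_all` (file `VK/VarChi.lean`) with `1/2` replaced by `1/3`: in `var_chi3` take `T = X^(2/3 - ε/2)` and `full_l23 (A + 2) (ε/2)`;
`σ = (h/X) L^(-(A+10))`, so `σ T ≥ X^(ε/2) L^(-(A+10)) ≥ L` still holds as `h ≥ X^(1/3+ε)`.
-/

set_option autoImplicit false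

open Finset Filter

namespace Pool.Agent.VL

open Pool.Agent.VK

namespace VarChi3Aux

open Pool.Agent.Lib.SW

/-- A power of the logarithm is small. -/
lemma ev_rpow (k : ℕ) (C δ : ℝ) (hδ : 0 < δ) :
    ∀ᶠ x : ℕ in atTop, C * Real.log x ^ k ≤ (x : ℝ) ^ δ := by
  have h1 : (fun x : ℝ => Real.log x ^ (k : ℝ)) =o[atTop] fun x => x ^ δ :=
    isLittleO_log_rpow_rpow_atTop _ hδ
  have hc : 0 < 1 / (|C| + 1) := by positivity
  have h2 := h1.def hc
  have h3 := (tendsto_natCast_atTop_atTop (R := ℝ)).eventually h2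
  filter_upwards [h3, eventually_ge_atTop 1] with x hx hx1
  have hx1' : (1 : ℝ) ≤ x := by exact_mod_cast hx1
  have hL : 0 ≤ Real.log x := Real.log_nonneg hx1'
  rw [Real.rpow_natCast, Real.norm_of_nonneg (by positivity), Real.norm_of_nonneg (by positivity)]
    at hx
  have hC : 0 ≤ |C| := abs_nonneg C
  calc C * Real.log x ^ k ≤ (|C| + 1) * Real.log x ^ k :=
        mul_le_mul_of_nonneg_right (by linarith [le_abs_self C]) (by positivity)
    _ ≤ (|C| + 1) * (1 / (|C| + 1) * (x : ℝ) ^ δ) :=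
        mul_le_mul_of_nonneg_left hx (by linarith)
    _ = (x : ℝ) ^ δ := by field_simp

lemma ev_log (C : ℝ) : ∀ᶠ x : ℕ in atTop, C ≤ Real.log x :=
  (Real.tendsto_log_atTop.comp (tendsto_natCast_atTop_atTop (R := ℝ))).eventually_ge_atTop C

lemma norm_cc {q : ℕ} (χ : DirichletCharacter ℂ q) (n : ℕ) : ‖cc χ n‖ ≤ Real.log n + 1 := by
  unfold cc
  refine (norm_sub_le _ _).trans (add_le_add ?_ ?_)
  · unfold lam
    rw [norm_mul]
    have h2 := norm_chf_le χ n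
    have h3 : ‖((ArithmeticFunction.vonMangoldt n : ℝ) : ℂ)‖ ≤ Real.log n := by
      rw [Complex.norm_real, Real.norm_eq_abs, abs_of_nonneg ArithmeticFunction.vonMangoldt_nonneg]
      exact ArithmeticFunction.vonMangoldt_le_log
    calc _ ≤ 1 * Real.log n := mul_le_mul h2 h3 (norm_nonneg _) zero_le_one
      _ = _ := one_mul _
  · split_ifs <;> simp

/-- Bound for the values of `cc` up to `3 x`. -/
lemma norm_cc_le {q : ℕ} (χ : DirichletCharacter ℂ q) {x n : ℕ} (hx : 3 ≤ Real.log x)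
    (hn : n ≤ 3 * x) : ‖cc χ n‖ ≤ 2 * Real.log x := by
  refine (norm_cc χ n).trans ?_
  rcases Nat.eq_zero_or_pos n with rfl | hn0
  · simp
    linarith
  have hx0 : (0 : ℝ) < x := by
    rcases Nat.eq_zero_or_pos x with rfl | h
    · simp at hx
      linarith
    · exact_mod_cast h
  have h1 : Real.log n ≤ Real.log (3 * x) :=
    Real.log_le_log (by exact_mod_cast hn0) (by exact_mod_cast hn)
  rw [Real.log_mul (by norm_num) hx0.ne'] at h1
  have h2 : Real.log 3 ≤ 2 := by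
    have := Real.log_le_sub_one_of_pos (show (0 : ℝ) < 3 by norm_num)
    linarith
  linarith

theorem chi_gen (θ : ℝ) (hθ : 0 < θ)
    (H : ∀ (A : ℕ) (ε : ℝ), 0 < ε → ∀ᶠ X : ℕ in atTop, ∀ (q : ℕ) [NeZero q]
      (χ : DirichletCharacter ℂ q), (q : ℝ) ≤ Real.log X ^ A →
      ∫ t in (-((X : ℝ) ^ (1 - θ - ε)))..((X : ℝ) ^ (1 - θ - ε)),
        ‖∑ n ∈ Ioc X (3 * X), cc χ n * nit n t‖ ^ 2 ≤ X ^ 2 / Real.log X ^ A)
    (A : ℕ) (ε : ℝ) (hε : 0 < ε) : ∀ᶠ X : ℕ in atTop, ∀ (q : ℕ) [NeZero q]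
    (χ : DirichletCharacter ℂ q), (q : ℝ) ≤ Real.log X ^ A → ∀ h : ℕ, (X : ℝ) ^ (θ + ε) ≤ h → h ≤ X →
    ∑ u ∈ Icc X (2 * X), ‖∑ n ∈ Ioc u (u + h), cc χ n‖ ^ 2 ≤ X * (h : ℝ) ^ 2 / Real.log X ^ A := by
  obtain ⟨C, hC1, hC⟩ := sharp_win
  filter_upwards [H (A + 2) (ε / 2) (by linarith), eventually_ge_atTop 1, ev_log 4,
    ev_log (128 * C), ev_rpow (A + 2) (128 * C) (2 * θ) (by linarith),
    ev_rpow (2 * A + 12) (64 * C) 1 one_pos, ev_rpow (A + 11) 1 (ε / 2) (by linarith)]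
    with X hF hX1 hL4 hLC hE1 hE2 hE3
  intro q _ χ hq h hh hhX
  have hX0 : (1 : ℝ) ≤ X := by exact_mod_cast hX1
  have hXpos : (0 : ℝ) < X := by linarith only [hX0]
  have hexp : Real.exp (Real.log X) = X := Real.exp_log hXpos
  obtain ⟨L, hL⟩ : ∃ L : ℝ, L = Real.log X := ⟨_, rfl⟩
  rw [← hL] at hL4 hLC hE1 hE2 hE3 hexp hq
  have hF' := hF q χ
  rw [← hL] at hF'
  rw [← hL]
  have hL0 : 0 < L := by linarith only [hC1, hLC]
  have hhpos : (0 : ℝ) < h := lt_of_lt_of_le (Real.rpow_pos_of_pos hXpos _) hh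
  have hh1 : 1 ≤ h := by exact_mod_cast hhpos
  have hh1' : (1 : ℝ) ≤ h := by exact_mod_cast hh1
  have hhX' : (h : ℝ) ≤ X := by exact_mod_cast hhX
  have hqA : (q : ℝ) ≤ L ^ (A + 2) := hq.trans (pow_le_pow_right₀ (by linarith only [hC1, hLC]) (by omega))
  have hI := hF' hqA
  obtain ⟨σ, hσ⟩ : ∃ σ : ℝ, σ = (h : ℝ) / X / L ^ (A + 10) := ⟨_, rfl⟩
  obtain ⟨T, hT⟩ : ∃ T : ℝ, T = (X : ℝ) ^ (1 - θ - ε / 2) := ⟨_, rfl⟩
  rw [← hT] at hI
  have hσpos : 0 < σ := by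
    rw [hσ]
    (clear * - hX1 hL4 hh1; positivity)
  have hTpos : 0 < T := by
    rw [hT]
    exact Real.rpow_pos_of_pos hXpos _
  have hσT : L ≤ σ * T := by
    have e1 : (X : ℝ) ^ (θ + ε) * T = X * (X : ℝ) ^ (ε / 2) := by
      rw [hT, ← Real.rpow_add hXpos]
      have : θ + ε + (1 - θ - ε / 2) = 1 + ε / 2 := by ring
      rw [this, Real.rpow_add hXpos, Real.rpow_one]
    have e2 : X * (X : ℝ) ^ (ε / 2) ≤ h * T := by
      rw [← e1]
      exact mul_le_mul_of_nonneg_right hh hTpos.le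
    rw [one_mul] at hE3
    rw [hσ, div_div, div_mul_eq_mul_div, le_div_iff₀ (by (clear * - hX1 hL4; positivity))]
    calc L * (X * L ^ (A + 10)) = X * L ^ (A + 11) := by ring
      _ ≤ X * (X : ℝ) ^ (ε / 2) := mul_le_mul_of_nonneg_left hE3 hXpos.le
      _ ≤ h * T := e2
  have hexp' : Real.exp (-L) = 1 / X := by
    rw [Real.exp_neg, hexp, one_div]
  -- the Gaussian window
  have gw := gauss_win (Ioc X (3 * X)) (fun n hn => by
    have := mem_Ioc.1 hn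
    omega) (cc χ) σ T hσpos hTpos
  obtain ⟨gi, gb⟩ := gw
  have hK : ∀ n ∈ Ioc X (3 * X), ‖cc χ n‖ ≤ 2 * L := by
    intro n hn
    rw [hL]
    exact norm_cc_le χ (by rw [← hL]; linarith only [hC1, hLC]) (mem_Ioc.1 hn).2
  have hS : ∑ n ∈ Ioc X (3 * X), ‖cc χ n‖ ≤ 4 * X * L := by
    calc ∑ n ∈ Ioc X (3 * X), ‖cc χ n‖ ≤ ∑ n ∈ Ioc X (3 * X), 2 * L := sum_le_sum hK
      _ = 4 * X * L := by
          rw [sum_const, Nat.card_Ioc, nsmul_eq_mul]
          have : 3 * X - X = 2 * X := by omega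
          rw [this]
          push_cast
          ring
  have hS0 : 0 ≤ ∑ n ∈ Ioc X (3 * X), ‖cc χ n‖ := sum_nonneg fun _ _ => norm_nonneg _
  have hS2 : (∑ n ∈ Ioc X (3 * X), ‖cc χ n‖) ^ 2 ≤ (4 * X * L) ^ 2 := pow_le_pow_left₀ hS0 hS 2
  have hE : Real.exp (-(σ ^ 2 * T ^ 2 / 2)) / σ ≤ L ^ (A + 10) / X := by
    have a1 : Real.exp (-(σ ^ 2 * T ^ 2 / 2)) ≤ 1 / (X : ℝ) ^ 2 := by
      have a2 : -(σ ^ 2 * T ^ 2 / 2) ≤ -L + -L := by
        have : L ^ 2 ≤ (σ * T) ^ 2 := pow_le_pow_left₀ hL0.le hσT 2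
        rw [mul_pow] at this
        nlinarith only [hC1, hLC, this]
      refine (Real.exp_le_exp.mpr a2).trans ?_
      rw [Real.exp_add, hexp']
      apply le_of_eq
      field_simp
    have a3 : σ⁻¹ ≤ X * L ^ (A + 10) := by
      rw [hσ, div_div, inv_div, div_le_iff₀ hhpos]
      have : 0 ≤ X * L ^ (A + 10) := by (clear * - hX1 hL4; positivity)
      nlinarith only [hh1', this]
    calc Real.exp (-(σ ^ 2 * T ^ 2 / 2)) / σ = Real.exp (-(σ ^ 2 * T ^ 2 / 2)) * σ⁻¹ :=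
          div_eq_mul_inv _ _
      _ ≤ 1 / (X : ℝ) ^ 2 * (X * L ^ (A + 10)) :=
          mul_le_mul a1 a3 (inv_nonneg.mpr hσpos.le) (by (clear * - hX1; positivity))
      _ = L ^ (A + 10) / X := by
          field_simp
  have hE0 : 0 ≤ Real.exp (-(σ ^ 2 * T ^ 2 / 2)) / σ := by (clear * - hσpos; positivity)
  have hW : ∫ v : ℝ, ‖∑ n ∈ Ioc X (3 * X), cc χ n * (gs σ (v - Real.log n) : ℂ)‖ ^ 2 ≤
      (X : ℝ) ^ 2 / L ^ (A + 2) + 16 * X * L ^ (A + 12) := by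
    refine gb.trans (add_le_add hI ?_)
    calc (∑ n ∈ Ioc X (3 * X), ‖cc χ n‖) ^ 2 * (Real.exp (-(σ ^ 2 * T ^ 2 / 2)) / σ) ≤
          (4 * X * L) ^ 2 * (L ^ (A + 10) / X) := mul_le_mul hS2 hE hE0 (by (clear * - hX1 hL4; positivity))
      _ = 16 * X * L ^ (A + 12) := by
          field_simp
          ring
  -- the sharp window
  have hΛ1 : (1 : ℝ) ≤ 2 * L := by linarith only [hC1, hLC]
  have hσΛ' : X * σ * (2 * L) = 2 * h / L ^ (A + 9) := by
    rw [hσ]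
    field_simp
    ring
  have hσΛ : σ * (2 * L) ≤ 1 := by
    have e1 : σ * (2 * L) = (h : ℝ) / X * (2 / L ^ (A + 9)) := by
      rw [hσ]
      field_simp
      ring
    have e2 : (h : ℝ) / X ≤ 1 := (div_le_one hXpos).mpr hhX'
    have e3 : 2 / L ^ (A + 9) ≤ 1 := by
      rw [div_le_one (by (clear * - hL4; positivity))]
      calc (2 : ℝ) ≤ L ^ 1 := by
            rw [pow_one]
            linarith only [hC1, hLC]
        _ ≤ L ^ (A + 9) := pow_le_pow_right₀ (by linarith only [hC1, hLC]) (by omega)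
    rw [e1]
    calc (h : ℝ) / X * (2 / L ^ (A + 9)) ≤ 1 * 1 :=
          mul_le_mul e2 e3 (by (clear * - hL4; positivity)) zero_le_one
      _ = 1 := one_mul _
  have hsw := hC X h (cc χ) (2 * L) σ (2 * L) hX1 hh1 hhX hσpos hΛ1 hσΛ hK gi
  refine hsw.trans ?_
  have hR0 : 0 ≤ 1 + X * σ * (2 * L) + X * Real.exp (-((2 * L) ^ 2 / 2)) := by (clear * - hX1 hL4 hσpos; positivity)
  have hR : 1 + X * σ * (2 * L) + X * Real.exp (-((2 * L) ^ 2 / 2)) ≤
      2 + 2 * h / L ^ (A + 9) := by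
    have : X * Real.exp (-((2 * L) ^ 2 / 2)) ≤ 1 := by
      have a1 : Real.exp (-((2 * L) ^ 2 / 2)) ≤ Real.exp (-L) := by
        apply Real.exp_le_exp.mpr
        nlinarith only [hC1, hLC]
      rw [hexp'] at a1
      calc X * Real.exp (-((2 * L) ^ 2 / 2)) ≤ X * (1 / X) :=
            mul_le_mul_of_nonneg_left a1 hXpos.le
        _ = 1 := by field_simp
    rw [hσΛ']
    linarith only [this]
  have hR2 : (1 + X * σ * (2 * L) + X * Real.exp (-((2 * L) ^ 2 / 2))) ^ 2 ≤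
      8 + 8 * (h / L ^ (A + 9)) ^ 2 := by
    refine (pow_le_pow_left₀ hR0 hR 2).trans ?_
    have : 2 * (h : ℝ) / L ^ (A + 9) = 2 * (h / L ^ (A + 9)) := by ring
    rw [this]
    nlinarith only [sq_nonneg (1 - (h : ℝ) / L ^ (A + 9))]
  have hC0 : 0 < C := by linarith only [hC1]
  have t1 : C * ((h : ℝ) ^ 2 / X * (X ^ 2 / L ^ (A + 2))) ≤ X * (h : ℝ) ^ 2 / L ^ A / 4 := by
    have e1 : C * ((h : ℝ) ^ 2 / X * (X ^ 2 / L ^ (A + 2))) =
        X * (h : ℝ) ^ 2 / L ^ A * (C / L ^ 2) := by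
      rw [pow_add]
      field_simp
    have e2 : C / L ^ 2 ≤ 1 / 4 := by
      rw [div_le_div_iff₀ (by (clear * - hL4; positivity)) (by norm_num)]
      nlinarith only [hC1, hLC]
    rw [e1]
    calc X * (h : ℝ) ^ 2 / L ^ A * (C / L ^ 2) ≤ X * (h : ℝ) ^ 2 / L ^ A * (1 / 4) :=
          mul_le_mul_of_nonneg_left e2 (by (clear * - hX1 hL4 hh1; positivity))
      _ = X * (h : ℝ) ^ 2 / L ^ A / 4 := by ring
  have t2 : C * ((h : ℝ) ^ 2 / X * (16 * X * L ^ (A + 12))) ≤ X * (h : ℝ) ^ 2 / L ^ A / 4 := by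
    rw [Real.rpow_one] at hE2
    have e1 : C * ((h : ℝ) ^ 2 / X * (16 * X * L ^ (A + 12))) =
        (h : ℝ) ^ 2 * (64 * C * L ^ (2 * A + 12)) / L ^ A / 4 := by
      have : L ^ (2 * A + 12) = L ^ (A + 12) * L ^ A := by
        rw [← pow_add]
        congr 1
        omega
      rw [this]
      field_simp
      ring
    rw [e1]
    have e2 : (h : ℝ) ^ 2 * (64 * C * L ^ (2 * A + 12)) ≤ X * (h : ℝ) ^ 2 := by
      rw [mul_comm (X : ℝ)]
      exact mul_le_mul_of_nonneg_left hE2 (by (clear * - hh1; positivity))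
    gcongr
  have hhθ : 128 * C * L ^ (A + 2) ≤ (h : ℝ) ^ 2 := by
    refine hE1.trans ?_
    have e1 : (X : ℝ) ^ (2 * θ) = ((X : ℝ) ^ θ) ^ 2 := by
      rw [← Real.rpow_natCast, ← Real.rpow_mul hXpos.le]
      congr 1
      push_cast
      ring
    rw [e1]
    have e2 : (X : ℝ) ^ θ ≤ h :=
      (Real.rpow_le_rpow_of_exponent_le hX0 (by linarith only [hε])).trans hh
    exact pow_le_pow_left₀ (Real.rpow_pos_of_pos hXpos _).le e2 2
  have t3 : C * (X * (2 * L) ^ 2 * 8) ≤ X * (h : ℝ) ^ 2 / L ^ A / 4 := by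
    have e1 : C * (X * (2 * L) ^ 2 * 8) = X * (128 * C * L ^ (A + 2)) / L ^ A / 4 := by
      rw [pow_add]
      field_simp
      ring
    rw [e1]
    gcongr
  have t4 : C * (X * (2 * L) ^ 2 * (8 * (h / L ^ (A + 9)) ^ 2)) ≤
      X * (h : ℝ) ^ 2 / L ^ A / 4 := by
    have e1 : C * (X * (2 * L) ^ 2 * (8 * (h / L ^ (A + 9)) ^ 2)) =
        X * (h : ℝ) ^ 2 / L ^ A / 4 * (128 * C / L ^ (A + 16)) := by
      have : L ^ A * L ^ (A + 16) = (L ^ (A + 9)) ^ 2 / L ^ 2 := by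
        rw [eq_div_iff (by (clear * - hL4; positivity)), ← pow_mul, ← pow_add, ← pow_add]
        congr 1
        omega
      have h5 : X * (h : ℝ) ^ 2 / L ^ A / 4 * (128 * C / L ^ (A + 16)) =
          32 * C * X * (h : ℝ) ^ 2 / (L ^ A * L ^ (A + 16)) := by
        field_simp
        ring
      rw [h5, this]
      field_simp
      ring
    have e2 : 128 * C / L ^ (A + 16) ≤ 1 := by
      rw [div_le_one (by (clear * - hL4; positivity))]
      calc 128 * C ≤ L ^ 1 := by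
            rw [pow_one]
            exact hLC
        _ ≤ L ^ (A + 16) := pow_le_pow_right₀ (by linarith only [hC1, hLC]) (by omega)
    rw [e1]
    calc X * (h : ℝ) ^ 2 / L ^ A / 4 * (128 * C / L ^ (A + 16)) ≤
          X * (h : ℝ) ^ 2 / L ^ A / 4 * 1 := mul_le_mul_of_nonneg_left e2 (by (clear * - hX1 hL4 hh1; positivity))
      _ = _ := mul_one _
  have m1 := mul_le_mul_of_nonneg_left hW
    (show 0 ≤ C * ((h : ℝ) ^ 2 / X) by (clear * - hC1 hX1 hh1; positivity))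
  have m2 := mul_le_mul_of_nonneg_left hR2
    (show 0 ≤ C * (X * (2 * L) ^ 2) by (clear * - hC1 hX1 hL4; positivity))
  calc C * ((h : ℝ) ^ 2 / X *
        (∫ v : ℝ, ‖∑ n ∈ Ioc X (3 * X), cc χ n * (gs σ (v - Real.log n) : ℂ)‖ ^ 2) +
        X * (2 * L) ^ 2 *
          (1 + X * σ * (2 * L) + X * Real.exp (-((2 * L) ^ 2 / 2))) ^ 2) =
      C * ((h : ℝ) ^ 2 / X) *
        (∫ v : ℝ, ‖∑ n ∈ Ioc X (3 * X), cc χ n * (gs σ (v - Real.log n) : ℂ)‖ ^ 2) +
      C * (X * (2 * L) ^ 2) *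
          (1 + X * σ * (2 * L) + X * Real.exp (-((2 * L) ^ 2 / 2))) ^ 2 := by ring
    _ ≤ C * ((h : ℝ) ^ 2 / X) * ((X : ℝ) ^ 2 / L ^ (A + 2) + 16 * X * L ^ (A + 12)) +
        C * (X * (2 * L) ^ 2) * (8 + 8 * (h / L ^ (A + 9)) ^ 2) := add_le_add m1 m2
    _ = C * ((h : ℝ) ^ 2 / X * (X ^ 2 / L ^ (A + 2))) +
        C * ((h : ℝ) ^ 2 / X * (16 * X * L ^ (A + 12))) +
        C * (X * (2 * L) ^ 2 * 8) +
        C * (X * (2 * L) ^ 2 * (8 * (h / L ^ (A + 9)) ^ 2)) := by ring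
    _ ≤ X * (h : ℝ) ^ 2 / L ^ A := by linarith only [t1, t2, t3, t4]

/-- Dyadic decomposition. -/
lemma dyadic (F : ℕ → ℝ) (hF : ∀ u, 0 ≤ F u) (X0 N : ℕ) (hX0 : 1 ≤ X0) :
    ∑ u ∈ range (N + 1), F u ≤ ∑ u ∈ (range (N + 1)).filter (fun u => u < X0), F u +
      ∑ j ∈ (range (Nat.log 2 N + 1)).filter (fun j => 2 ^ j * X0 ≤ N),
        ∑ u ∈ Icc (2 ^ j * X0) (2 * (2 ^ j * X0)), F u := by
  rw [← sum_filter_add_sum_filter_not (range (N + 1)) (fun u => u < X0)]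
  apply add_le_add le_rfl
  have h1 : ∀ u ∈ (range (N + 1)).filter (fun u => ¬ u < X0), F u ≤
      ∑ j ∈ (range (Nat.log 2 N + 1)).filter (fun j => 2 ^ j * X0 ≤ N),
        if u ∈ Icc (2 ^ j * X0) (2 * (2 ^ j * X0)) then F u else 0 := by
    intro u hu
    rw [mem_filter, mem_range] at hu
    obtain ⟨hu1, hu2⟩ := hu
    have hq : 1 ≤ u / X0 := by
      rw [Nat.one_le_div_iff (by omega)]
      omega
    have h2 : 2 ^ Nat.log 2 (u / X0) ≤ u / X0 := Nat.pow_log_le_self 2 (by omega)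
    have h3 : u / X0 < 2 ^ (Nat.log 2 (u / X0) + 1) := Nat.lt_pow_succ_log_self (by norm_num) _
    have h4 : 2 ^ Nat.log 2 (u / X0) * X0 ≤ u :=
      (Nat.mul_le_mul_right X0 h2).trans (Nat.div_mul_le_self u X0)
    have h5 : u < 2 ^ (Nat.log 2 (u / X0) + 1) * X0 := by
      rwa [Nat.div_lt_iff_lt_mul (by omega)] at h3
    have h6 : Nat.log 2 (u / X0) ≤ Nat.log 2 N :=
      Nat.log_mono_right ((Nat.div_le_self u X0).trans (by omega))
    have hj : Nat.log 2 (u / X0) ∈ (range (Nat.log 2 N + 1)).filter (fun j => 2 ^ j * X0 ≤ N) := by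
      rw [mem_filter, mem_range]
      exact ⟨by omega, by omega⟩
    have h7 : (if u ∈ Icc (2 ^ Nat.log 2 (u / X0) * X0) (2 * (2 ^ Nat.log 2 (u / X0) * X0))
        then F u else 0) = F u := by
      rw [if_pos]
      rw [mem_Icc]
      refine ⟨h4, ?_⟩
      rw [pow_succ] at h5
      have : 2 * (2 ^ Nat.log 2 (u / X0) * X0) = 2 ^ Nat.log 2 (u / X0) * 2 * X0 := by ring
      omega
    calc F u = (if u ∈ Icc (2 ^ Nat.log 2 (u / X0) * X0) (2 * (2 ^ Nat.log 2 (u / X0) * X0))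
        then F u else 0) := h7.symm
      _ ≤ _ := single_le_sum (f := fun j => if u ∈ Icc (2 ^ j * X0) (2 * (2 ^ j * X0))
          then F u else 0) (fun j _ => by
            split_ifs
            · exact hF u
            · exact le_rfl) hj
  refine (sum_le_sum h1).trans ?_
  rw [sum_comm]
  refine sum_le_sum fun j _ => ?_
  rw [← sum_filter]
  refine sum_le_sum_of_subset_of_nonneg ?_ fun u _ _ => hF u
  intro u hu
  exact (mem_filter.1 hu).2

theorem all_gen (θ : ℝ)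
    (H : ∀ (A : ℕ) (ε : ℝ), 0 < ε → ∀ᶠ X : ℕ in atTop, ∀ (q : ℕ) [NeZero q]
      (χ : DirichletCharacter ℂ q), (q : ℝ) ≤ Real.log X ^ A → ∀ h : ℕ, (X : ℝ) ^ (θ + ε) ≤ h → h ≤ X →
      ∑ u ∈ Icc X (2 * X), ‖∑ n ∈ Ioc u (u + h), cc χ n‖ ^ 2 ≤ X * (h : ℝ) ^ 2 / Real.log X ^ A)
    (hθ : 0 < θ) (A : ℕ) (ε : ℝ) (hε : 0 < ε) : ∃ c : ℕ, ∀ᶠ x : ℕ in atTop, ∀ (q : ℕ) [NeZero q]
    (χ : DirichletCharacter ℂ q), (q : ℝ) ≤ Real.log x ^ A → ∀ h : ℕ, (x : ℝ) ^ (θ + ε) ≤ h →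
    (h : ℝ) ≤ x / Real.log x ^ c →
    ∑ u ∈ range (2 * x + 1), ‖∑ n ∈ Ioc u (u + h), cc χ n‖ ^ 2 ≤ x * (h : ℝ) ^ 2 / Real.log x ^ A := by
  obtain ⟨N0, hN0⟩ := eventually_atTop.mp (H (A + 4) (ε / 2) (by linarith))
  refine ⟨A + 12, ?_⟩
  filter_upwards [eventually_ge_atTop 1, ev_log 4, ev_log (12 * 2 ^ (A + 4)),
    ev_rpow (A + 8) (N0 + 1) 1 one_pos, ev_rpow (A + 8) 1 (1 / 2) (by norm_num),
    ev_rpow 0 (2 ^ (θ + ε / 2)) (ε / 2) (by linarith)]
    with x hx1 hL4 hLA hE1 hE2 hE3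
  intro q _ χ hq h hh hhx
  have hx0 : (1 : ℝ) ≤ x := by exact_mod_cast hx1
  have hxpos : (0 : ℝ) < x := by linarith only [hx0]
  obtain ⟨L, hL⟩ : ∃ L : ℝ, L = Real.log x := ⟨_, rfl⟩
  rw [Real.rpow_one] at hE1
  rw [one_mul] at hE2
  rw [pow_zero, mul_one] at hE3
  rw [← hL] at hL4 hLA hE1 hE2 hhx hq
  rw [← hL]
  have hL0 : 0 < L := by linarith only [hL4]
  have hhpos : (0 : ℝ) < h := lt_of_lt_of_le (Real.rpow_pos_of_pos hxpos _) hh
  have hM0 : 0 < x / L ^ (A + 8) := by positivity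
  have hM1 : (N0 : ℝ) + 1 ≤ x / L ^ (A + 8) := by
    rw [le_div_iff₀ (by positivity)]
    exact hE1
  obtain ⟨X0, hX0⟩ : ∃ X0 : ℕ, X0 = ⌈x / L ^ (A + 8)⌉₊ := ⟨_, rfl⟩
  have hX0a : x / L ^ (A + 8) ≤ X0 := by
    rw [hX0]
    exact Nat.le_ceil _
  have hX0b : (X0 : ℝ) ≤ 2 * (x / L ^ (A + 8)) := by
    have h1 : (X0 : ℝ) < x / L ^ (A + 8) + 1 := by
      rw [hX0]
      exact Nat.ceil_lt_add_one hM0.le
    have h2 : (0 : ℝ) ≤ N0 := Nat.cast_nonneg _
    linarith only [hM1, h1]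
  have hX01 : 1 ≤ X0 := by
    have : (0 : ℝ) < X0 := lt_of_lt_of_le hM0 hX0a
    exact_mod_cast this
  have hX0N : N0 ≤ X0 := by
    have : (N0 : ℝ) ≤ X0 := by linarith only [hM1, hX0a]
    exact_mod_cast this
  have hhx' : (h : ℝ) ≤ x := by
    refine hhx.trans ?_
    apply div_le_self hxpos.le
    exact one_le_pow₀ (by linarith only [hL4])
  have hhx'' : h ≤ x := by exact_mod_cast hhx'
  obtain ⟨F, hF⟩ : ∃ F : ℕ → ℝ, F = fun u => ‖∑ n ∈ Ioc u (u + h), cc χ n‖ ^ 2 := ⟨_, rfl⟩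
  have hF0 : ∀ u, 0 ≤ F u := fun u => by
    rw [hF]
    (clear * -; positivity)
  have hmain := dyadic F hF0 X0 (2 * x) hX01
  have hFe : ∑ u ∈ range (2 * x + 1), ‖∑ n ∈ Ioc u (u + h), cc χ n‖ ^ 2 =
      ∑ u ∈ range (2 * x + 1), F u := by rw [hF]
  rw [hFe]
  refine hmain.trans ?_
  -- small u
  have p1 : ∑ u ∈ (range (2 * x + 1)).filter (fun u => u < X0), F u ≤
      x * (h : ℝ) ^ 2 / L ^ A / 2 := by
    have b1 : ∀ u ∈ (range (2 * x + 1)).filter (fun u => u < X0), F u ≤ (h * (2 * L)) ^ 2 := by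
      intro u hu
      rw [mem_filter, mem_range] at hu
      rw [hF]
      dsimp only
      refine pow_le_pow_left₀ (norm_nonneg _) ?_ 2
      refine (norm_sum_le _ _).trans ?_
      calc ∑ n ∈ Ioc u (u + h), ‖cc χ n‖ ≤ ∑ n ∈ Ioc u (u + h), 2 * L := by
            refine sum_le_sum fun n hn => ?_
            rw [mem_Ioc] at hn
            rw [hL]
            exact norm_cc_le χ (by rw [← hL]; linarith only [hL4]) (by omega)
        _ = h * (2 * L) := by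
            rw [sum_const, Nat.card_Ioc, nsmul_eq_mul]
            have : u + h - u = h := by omega
            rw [this]
    have b2 : ((range (2 * x + 1)).filter (fun u => u < X0)).card ≤ X0 := by
      calc _ ≤ (range X0).card := card_le_card (by
            intro u hu
            rw [mem_filter] at hu
            exact mem_range.2 hu.2)
        _ = X0 := card_range _
    have b3 : ∑ u ∈ (range (2 * x + 1)).filter (fun u => u < X0), F u ≤
        X0 * (h * (2 * L)) ^ 2 := by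
      refine (sum_le_card_nsmul _ _ _ b1).trans ?_
      rw [nsmul_eq_mul]
      exact mul_le_mul_of_nonneg_right (by exact_mod_cast b2) (by (clear * - hL4 hhpos; positivity))
    refine b3.trans ?_
    have b4 : (X0 : ℝ) * (h * (2 * L)) ^ 2 ≤ 2 * (x / L ^ (A + 8)) * (h * (2 * L)) ^ 2 :=
      mul_le_mul_of_nonneg_right hX0b (by (clear * - hL4 hhpos; positivity))
    refine b4.trans ?_
    have b5 : 2 * (x / L ^ (A + 8)) * (h * (2 * L)) ^ 2 =
        x * (h : ℝ) ^ 2 / L ^ A / 2 * (16 / L ^ 6) := by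
      have : L ^ (A + 8) = L ^ A * L ^ 8 := pow_add _ _ _
      rw [this]
      field_simp
      ring
    have b6 : 16 / L ^ 6 ≤ 1 := by
      rw [div_le_one (by (clear * - hL4; positivity))]
      calc (16 : ℝ) ≤ 4 ^ 6 := by norm_num
        _ ≤ L ^ 6 := pow_le_pow_left₀ (by norm_num) hL4 6
    rw [b5]
    calc x * (h : ℝ) ^ 2 / L ^ A / 2 * (16 / L ^ 6) ≤ x * (h : ℝ) ^ 2 / L ^ A / 2 * 1 :=
          mul_le_mul_of_nonneg_left b6 (by (clear * - hx1 hL4 hhpos; positivity))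
      _ = _ := mul_one _
  -- dyadic ranges
  have p2 : ∑ j ∈ (range (Nat.log 2 (2 * x) + 1)).filter (fun j => 2 ^ j * X0 ≤ 2 * x),
        ∑ u ∈ Icc (2 ^ j * X0) (2 * (2 ^ j * X0)), F u ≤ x * (h : ℝ) ^ 2 / L ^ A / 2 := by
    have b1 : ∀ j ∈ (range (Nat.log 2 (2 * x) + 1)).filter (fun j => 2 ^ j * X0 ≤ 2 * x),
        ∑ u ∈ Icc (2 ^ j * X0) (2 * (2 ^ j * X0)), F u ≤
          2 * x * (h : ℝ) ^ 2 / (L / 2) ^ (A + 4) := by
      intro j hj
      rw [mem_filter] at hj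
      obtain ⟨-, hj⟩ := hj
      obtain ⟨Y, hY⟩ : ∃ Y : ℕ, Y = 2 ^ j * X0 := ⟨_, rfl⟩
      rw [← hY] at hj ⊢
      have hY0 : X0 ≤ Y := by
        rw [hY]
        exact Nat.le_mul_of_pos_left _ (by (clear * -; positivity))
      have hYx : (Y : ℝ) ≤ 2 * x := by exact_mod_cast hj
      have hYX : (X0 : ℝ) ≤ Y := by exact_mod_cast hY0
      have hYpos : (0 : ℝ) < Y := lt_of_lt_of_le (lt_of_lt_of_le hM0 hX0a) hYX
      have hlog : L / 2 ≤ Real.log Y := by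
        have c1 : (x : ℝ) ^ (1 / 2 : ℝ) ≤ Y := by
          refine le_trans ?_ (hX0a.trans hYX)
          rw [le_div_iff₀ (by (clear * - hL4; positivity))]
          calc (x : ℝ) ^ (1 / 2 : ℝ) * L ^ (A + 8) ≤ (x : ℝ) ^ (1 / 2 : ℝ) * (x : ℝ) ^ (1 / 2 : ℝ) :=
                mul_le_mul_of_nonneg_left hE2 (by (clear * - hx1; positivity))
            _ = x := by
                rw [← Real.rpow_add hxpos]
                norm_num
        have c2 := Real.log_le_log (Real.rpow_pos_of_pos hxpos _) c1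
        rw [Real.log_rpow hxpos, ← hL] at c2
        linarith only [c2]
      have hqY : (q : ℝ) ≤ Real.log Y ^ (A + 4) := by
        have c1 : (L / 2) ^ (A + 4) ≤ Real.log Y ^ (A + 4) :=
          pow_le_pow_left₀ (by (clear * - hL4; positivity)) hlog _
        refine le_trans ?_ c1
        refine hq.trans ?_
        rw [div_pow, le_div_iff₀ (by (clear * -; positivity)), pow_add L A 4]
        apply mul_le_mul_of_nonneg_left _ (by (clear * - hL4; positivity))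
        have c2 : (2 : ℝ) ^ (A + 4) ≤ L := by
          have : (0 : ℝ) ≤ 2 ^ (A + 4) := by (clear * -; positivity)
          linarith only [hLA, hL4]
        calc (2 : ℝ) ^ (A + 4) ≤ L ^ 1 := by rwa [pow_one]
          _ ≤ L ^ 4 := pow_le_pow_right₀ (by linarith only [hL4]) (by norm_num)
      have hhY : (Y : ℝ) ^ (θ + ε / 2) ≤ h := by
        calc (Y : ℝ) ^ (θ + ε / 2) ≤ (2 * x : ℝ) ^ (θ + ε / 2) :=
              Real.rpow_le_rpow hYpos.le hYx (by linarith only [hθ, hε])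
          _ = 2 ^ (θ + ε / 2) * (x : ℝ) ^ (θ + ε / 2) :=
              Real.mul_rpow (by norm_num) hxpos.le
          _ ≤ (x : ℝ) ^ (ε / 2) * (x : ℝ) ^ (θ + ε / 2) :=
              mul_le_mul_of_nonneg_right hE3 (by (clear * - hx1; positivity))
          _ = (x : ℝ) ^ (θ + ε) := by
              rw [← Real.rpow_add hxpos]
              congr 1
              ring
          _ ≤ h := hh
      have hhY' : h ≤ Y := by
        have c1 : (h : ℝ) ≤ Y := by
          refine hhx.trans (le_trans ?_ (hX0a.trans hYX))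
          apply div_le_div_of_nonneg_left hxpos.le (by (clear * - hL4; positivity))
          exact pow_le_pow_right₀ (by linarith only [hL4]) (by omega)
        exact_mod_cast c1
      have hHY := hN0 Y (hX0N.trans hY0) q χ hqY h hhY hhY'
      rw [hF]
      refine hHY.trans ?_
      have c3 : (L / 2) ^ (A + 4) ≤ Real.log Y ^ (A + 4) :=
        pow_le_pow_left₀ (by (clear * - hL4; positivity)) hlog _
      have c4 : (Y : ℝ) * (h : ℝ) ^ 2 ≤ 2 * x * (h : ℝ) ^ 2 :=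
        mul_le_mul_of_nonneg_right hYx (by (clear * - hhpos; positivity))
      exact div_le_div₀ (by (clear * - hx1 hhpos; positivity)) c4 (by (clear * - hL4; positivity)) c3
    have b2 : (((range (Nat.log 2 (2 * x) + 1)).filter (fun j => 2 ^ j * X0 ≤ 2 * x)).card : ℝ) ≤
        3 * L := by
      have c1 : ((range (Nat.log 2 (2 * x) + 1)).filter (fun j => 2 ^ j * X0 ≤ 2 * x)).card ≤
          Nat.log 2 (2 * x) + 1 := by
        refine (card_filter_le _ _).trans ?_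
        rw [card_range]
      have c2 : (Nat.log 2 (2 * x) : ℝ) * Real.log 2 ≤ Real.log (2 * x) := by
        have d1 : 2 ^ Nat.log 2 (2 * x) ≤ 2 * x := Nat.pow_log_le_self 2 (by omega)
        have d2 : (2 : ℝ) ^ Nat.log 2 (2 * x) ≤ 2 * x := by exact_mod_cast d1
        have d3 := Real.log_le_log (by (clear * -; positivity)) d2
        rwa [Real.log_pow] at d3
      rw [Real.log_mul (by norm_num) hxpos.ne', ← hL] at c2
      have c3 : Real.log 2 > 0.6931471803 := Real.log_two_gt_d9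
      have c4 : Real.log 2 < 0.6931471808 := Real.log_two_lt_d9
      have c5 : (0 : ℝ) ≤ (Nat.log 2 (2 * x) : ℝ) := Nat.cast_nonneg _
      have c6 : (Nat.log 2 (2 * x) : ℝ) + 1 ≤ 3 * L := by nlinarith only [hL4, c2, c3, c4]
      refine le_trans ?_ c6
      exact_mod_cast c1
    refine (sum_le_card_nsmul _ _ _ b1).trans ?_
    rw [nsmul_eq_mul]
    calc (((range (Nat.log 2 (2 * x) + 1)).filter (fun j => 2 ^ j * X0 ≤ 2 * x)).card : ℝ) *
          (2 * x * (h : ℝ) ^ 2 / (L / 2) ^ (A + 4)) ≤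
          3 * L * (2 * x * (h : ℝ) ^ 2 / (L / 2) ^ (A + 4)) :=
          mul_le_mul_of_nonneg_right b2 (by (clear * - hx1 hL4 hhpos; positivity))
      _ = x * (h : ℝ) ^ 2 / L ^ A / 2 * (12 * 2 ^ (A + 4) / L ^ 3) := by
          have : L ^ (A + 4) = L ^ A * L ^ 4 := pow_add _ _ _
          rw [div_pow, this]
          field_simp
          ring
      _ ≤ x * (h : ℝ) ^ 2 / L ^ A / 2 * 1 := by
          apply mul_le_mul_of_nonneg_left _ (by (clear * - hx1 hL4 hhpos; positivity))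
          rw [div_le_one (by (clear * - hL4; positivity))]
          calc 12 * 2 ^ (A + 4) ≤ L ^ 1 := by
                rw [pow_one]
                exact hLA
            _ ≤ L ^ 3 := pow_le_pow_right₀ (by linarith only [hL4]) (by norm_num)
      _ = _ := mul_one _
  linarith only [p1, p2]

end VarChi3Aux

theorem var_chi3 (A : ℕ) (ε : ℝ) (hε : 0 < ε) : ∀ᶠ X : ℕ in atTop, ∀ (q : ℕ) [NeZero q]
    (χ : DirichletCharacter ℂ q), (q : ℝ) ≤ Real.log X ^ A → ∀ h : ℕ, (X : ℝ) ^ (1 / 3 + ε) ≤ h → h ≤ X →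
    ∑ u ∈ Icc X (2 * X), ‖∑ n ∈ Ioc u (u + h), cc χ n‖ ^ 2 ≤ X * (h : ℝ) ^ 2 / Real.log X ^ A := by
  refine VarChi3Aux.chi_gen (1 / 3) (by norm_num) (fun A' ε' hε' => ?_) A ε hε
  have h1 : (1 : ℝ) - 1 / 3 - ε' = 2 / 3 - ε' := by ring
  rw [h1]
  exact full_l23 A' ε' hε'

theorem var_all3 (A : ℕ) (ε : ℝ) (hε : 0 < ε) : ∃ c : ℕ, ∀ᶠ x : ℕ in atTop, ∀ (q : ℕ) [NeZero q]
    (χ : DirichletCharacter ℂ q), (q : ℝ) ≤ Real.log x ^ A → ∀ h : ℕ, (x : ℝ) ^ (1 / 3 + ε) ≤ h →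
    (h : ℝ) ≤ x / Real.log x ^ c →
    ∑ u ∈ range (2 * x + 1), ‖∑ n ∈ Ioc u (u + h), cc χ n‖ ^ 2 ≤ x * (h : ℝ) ^ 2 / Real.log x ^ A :=
  VarChi3Aux.all_gen (1 / 3) var_chi3 (by norm_num) A ε hε

end Pool.Agent.VL
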