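import Pool.Agent.Lib.HLT.Geom

/-!
# Spaced points and the dual large sieve

PROOF SKETCH (`spaced_sum`). `d i = β i - round (β i) ∈ [-1/2, 1/2]`, `|d i| = nrm (β i)`, cell `k i = ⌊d i / δ⌋ : ℤ`. If `k i = k j`, `i ≠ j`, then `|d i - d j| < δ`, but `nrm (β i - β j) ≤ |d i - d j|` (it differs from
`β i - β j` by an integer; `round_le`), contradiction: `k` is injective on `s`. The cells `0`, `-1` contribute at most `2 G`. In the cell `k ≥ 1` `nrm ≥ k δ`, in the cell `k ≤ -2` `nrm ≥ (-k - 1) δ`: there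
`mn H (β i) ≤ min H (1/(2 j δ))` (`mn_le_left`, `mn_le_right`), `j ≥ 1`, so `mn^2 ≤ 2 H^2/(1 + (2 j δ H)^2)` and `sum_(j ≥ 1) 1/(1 + c^2 j^2) ≤ π/(2c)` (or any bound `C/c`: e.g. for finite sums compare with
the telescoping bound `1/(1 + c^2 j^2) ≤ (arctan (c j) - arctan (c (j-1)))/c`). Total `≤ 2 G + 2 · 2 H^2 · C/(2 δ H)`.

PROOF SKETCH (`ls_dual`). Let `Y = max X ⌈1/δ⌉₊ ≤ X + 2/δ`, `≥ 1`. With `S y = sum c i ex (y β i)` for `y : ℤ` and `D θ = sum_(j < 2Y) ex (j θ)`, `|D θ|^2 = sum_(|k| < 2Y) (2Y - |k|) ex (k θ)`, so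
`Y sum_(y < Y) |S y|^2 ≤ sum_(|k| < 2Y) (2Y - |k|) |S k|^2 = sum_(i,j) c i conj (c j) |D (β i - β j)|^2 ≤ sum_i |c i|^2 sum_j |D (β i - β j)|^2`
(`|c i c j| ≤ (|c i|^2 + |c j|^2)/2`, symmetry). (To avoid integers `k < 0`: shift, i.e. use `sum_(j, j' < 2Y) |S (j - j')|`, or write the double sum `sum_(j, j' < 2Y) f (j - j')`; an equivalent route: for every `y0 < Y`...
`sum_(j < 2Y) sum_(j' < 2Y) S(j - j') conj(...)`. One can also bound `sum_(y < Y) |S y|^2` by `(1/Y) sum_(j' < Y) sum_(j < 2Y) |S' (j, j')|^2` with `S' (j, j') = sum_i c i ex ((j - j') β i)`, each `y < Y` being attained by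
the `Y` pairs `(y + j', j')`, and then extend `j'` to `j' < 2Y` as all terms are nonnegative.) By `geom` `|D θ| ≤ mn (2Y) θ` (first term `j = 0` shifted) and `spaced_sum` with `H = 2Y`, `G = 4Y^2`, for the points `β i - β j`, `j ∈ s`:
`≤ C (4 Y^2 + 2Y/δ) ≤ C' Y^2`.
-/

set_option autoImplicit false

open Finset

namespace Pool.Agent.VL

open Pool.Agent.HLT

namespace LsDualAux

lemma tele {c : ℝ} (hc : 0 < c) (n : ℕ) :
    ∑ k ∈ range n, 1 / (1 + c * ((k + 1 : ℕ) : ℝ)) ^ 2 ≤ 1 / c * (1 - 1 / (1 + c * n)) := by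
  induction n with
  | zero => simp
  | succ n ih =>
    rw [sum_range_succ]
    have hn : (0 : ℝ) ≤ c * n := by positivity
    have h1 : (0 : ℝ) < 1 + c * n := by linarith
    have h2 : (0 : ℝ) < 1 + c * ((n + 1 : ℕ) : ℝ) := by positivity
    have h3 : 1 + c * (n : ℝ) ≤ 1 + c * ((n + 1 : ℕ) : ℝ) := by
      push_cast
      linarith
    have h4 : 1 / (1 + c * ((n + 1 : ℕ) : ℝ)) ^ 2 ≤
        1 / ((1 + c * n) * (1 + c * ((n + 1 : ℕ) : ℝ))) := by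
      apply one_div_le_one_div_of_le (by positivity)
      rw [sq]
      exact mul_le_mul_of_nonneg_right h3 h2.le
    have h5 : 1 / ((1 + c * n) * (1 + c * ((n + 1 : ℕ) : ℝ))) =
        1 / c * (1 / (1 + c * n) - 1 / (1 + c * ((n + 1 : ℕ) : ℝ))) := by
      push_cast at h2 ⊢
      field_simp
      ring
    have h6 : 1 / c * (1 - 1 / (1 + c * ((n + 1 : ℕ) : ℝ))) = 1 / c * (1 - 1 / (1 + c * n)) +
        1 / c * (1 / (1 + c * n) - 1 / (1 + c * ((n + 1 : ℕ) : ℝ))) := by ring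
    rw [h6]
    linarith

lemma half_sum {ι : Type} (s : Finset ι) (β : ι → ℝ) {δ H G : ℝ} (hδ : 0 < δ) (hH : 1 ≤ H)
    (hG : 0 ≤ G) (hsp : ∀ i ∈ s, ∀ j ∈ s, i ≠ j → δ ≤ |nrm (β i) - nrm (β j)|)
    (hGm : ∀ i ∈ s, mn H (β i) ^ 2 ≤ G) :
    ∑ i ∈ s, mn H (β i) ^ 2 ≤ G + 2 * (H / δ) := by
  classical
  have hH0 : 0 < H := by linarith
  set c := 2 * δ * H with hc
  have hc0 : 0 < c := by positivity
  set f : ℕ → ℝ := fun k => if k = 0 then G else 4 * H ^ 2 * (1 / (1 + c * (k : ℝ)) ^ 2) with hf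
  have hf0 : ∀ k, 0 ≤ f k := by
    intro k
    rw [hf]
    simp only
    split_ifs
    · exact hG
    · positivity
  set κ : ι → ℕ := fun i => ⌊nrm (β i) / δ⌋₊ with hκ
  have hκ1 : ∀ i, (κ i : ℝ) * δ ≤ nrm (β i) := fun i =>
    (le_div_iff₀ hδ).1 (Nat.floor_le (div_nonneg (nrm_nonneg _) hδ.le))
  have hκ2 : ∀ i, nrm (β i) < ((κ i : ℝ) + 1) * δ := fun i =>
    (div_lt_iff₀ hδ).1 (Nat.lt_floor_add_one _)
  have h1 : ∀ i ∈ s, mn H (β i) ^ 2 ≤ f (κ i) := by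
    intro i hi
    by_cases h0 : κ i = 0
    · rw [hf]
      simp only
      rw [if_pos h0]
      exact hGm i hi
    · rw [hf]
      simp only
      rw [if_neg h0]
      have hk1 : (1 : ℝ) ≤ κ i := by exact_mod_cast Nat.one_le_iff_ne_zero.2 h0
      have hkd : 0 < (κ i : ℝ) * δ := by positivity
      have hn : 0 < nrm (β i) := lt_of_lt_of_le hkd (hκ1 i)
      have m1 := mn_le_left hH0.le (β i)
      have m2 := mn_le_right hH0.le hn
      have m0 := mn_nonneg hH0.le (β i)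
      rw [le_div_iff₀ (by linarith)] at m2
      have m3 : mn H (β i) * (2 * ((κ i : ℝ) * δ)) ≤ 1 :=
        (mul_le_mul_of_nonneg_left (by linarith [hκ1 i]) m0).trans m2
      have m4 : mn H (β i) * (1 + c * κ i) ≤ 2 * H := by
        have e1 : mn H (β i) * (1 + c * κ i) = mn H (β i) +
            (mn H (β i) * (2 * ((κ i : ℝ) * δ))) * H := by
          rw [hc]
          ring
        rw [e1]
        have := mul_le_mul_of_nonneg_right m3 hH0.le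
        linarith
      have hp : 0 < 1 + c * (κ i : ℝ) := by positivity
      have m5 : mn H (β i) ≤ 2 * H / (1 + c * κ i) := (le_div_iff₀ hp).2 m4
      calc mn H (β i) ^ 2 ≤ (2 * H / (1 + c * κ i)) ^ 2 := pow_le_pow_left₀ m0 m5 2
        _ = _ := by
          rw [div_pow]
          ring
  have hinj : Set.InjOn κ (s : Set ι) := by
    intro i hi j hj hij
    by_contra hne
    have h2 := hsp i hi j hj hne
    have a1 := hκ1 i
    have a2 := hκ2 i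
    have a3 := hκ1 j
    have a4 := hκ2 j
    rw [hij] at a1 a2
    have h3 : |nrm (β i) - nrm (β j)| < δ := by
      rw [abs_lt]
      constructor <;> linarith
    linarith
  obtain ⟨n, hn⟩ := (s.image κ).exists_nat_subset_range
  calc ∑ i ∈ s, mn H (β i) ^ 2 ≤ ∑ i ∈ s, f (κ i) := sum_le_sum h1
    _ = ∑ k ∈ s.image κ, f k := (sum_image hinj).symm
    _ ≤ ∑ k ∈ range (n + 1), f k := by
        refine sum_le_sum_of_subset_of_nonneg (hn.trans ?_) fun k _ _ => hf0 k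
        exact range_subset_range.2 (Nat.le_succ n)
    _ = ∑ k ∈ range n, f (k + 1) + f 0 := sum_range_succ' _ _
    _ ≤ 4 * H ^ 2 * (1 / c) + G := by
        refine add_le_add ?_ (le_of_eq (by rw [hf]; simp))
        have e1 : ∀ k ∈ range n, f (k + 1) = 4 * H ^ 2 * (1 / (1 + c * ((k + 1 : ℕ) : ℝ)) ^ 2) := by
          intro k _
          rw [hf]
          simp only
          rw [if_neg (Nat.succ_ne_zero k)]
        rw [sum_congr rfl e1, ← mul_sum]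
        refine mul_le_mul_of_nonneg_left ((tele hc0 n).trans ?_) (by positivity)
        have h2 : 0 ≤ 1 / (1 + c * (n : ℝ)) := by positivity
        have h3 : 0 ≤ 1 / c := by positivity
        calc 1 / c * (1 - 1 / (1 + c * n)) ≤ 1 / c * 1 :=
              mul_le_mul_of_nonneg_left (by linarith) h3
          _ = 1 / c := mul_one _
    _ = G + 2 * (H / δ) := by
        rw [hc]
        field_simp
        ring

lemma nrm_sub_le (a b : ℝ) : nrm (a - b) ≤ |(a - round a) - (b - round b)| := by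
  unfold nrm
  have h := round_le (a - b) (round a - round b)
  refine h.trans (le_of_eq ?_)
  congr 1
  push_cast
  ring

lemma nrm_neg (a : ℝ) : nrm (-a) = nrm a := by
  have h : ∀ x : ℝ, nrm (-x) ≤ nrm x := by
    intro x
    unfold nrm
    refine (round_le (-x) (-round x)).trans (le_of_eq ?_)
    rw [← abs_neg]
    congr 1
    push_cast
    ring
  refine le_antisymm (h a) ?_
  have := h (-a)
  rwa [neg_neg] at this

end LsDualAux

open LsDualAux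

theorem spaced_sum : ∃ C : ℝ, 1 ≤ C ∧ ∀ {ι : Type} (s : Finset ι) (β : ι → ℝ) (δ H G : ℝ), 0 < δ → δ ≤ 1 → 1 ≤ H →
    (∀ i ∈ s, ∀ j ∈ s, i ≠ j → δ ≤ nrm (β i - β j)) → 0 ≤ G → (∀ i ∈ s, mn H (β i) ^ 2 ≤ G) →
    ∑ i ∈ s, mn H (β i) ^ 2 ≤ C * (G + H / δ) := by
  classical
  refine ⟨4, by norm_num, ?_⟩
  intro ι s β δ H G hδ _ hH hsp hG hGm
  rw [← Finset.sum_filter_add_sum_filter_not s (fun i => 0 ≤ β i - round (β i))]
  have h1 := half_sum (s.filter fun i => 0 ≤ β i - round (β i)) β hδ hH hG (by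
    intro i hi j hj hij
    rw [mem_filter] at hi hj
    refine (hsp i hi.1 j hj.1 hij).trans ((nrm_sub_le _ _).trans (le_of_eq ?_))
    unfold nrm
    rw [abs_of_nonneg hi.2, abs_of_nonneg hj.2]) (fun i hi => hGm i (mem_filter.1 hi).1)
  have h2 := half_sum (s.filter fun i => ¬ 0 ≤ β i - round (β i)) β hδ hH hG (by
    intro i hi j hj hij
    rw [mem_filter, not_le] at hi hj
    refine (hsp i hi.1 j hj.1 hij).trans ((nrm_sub_le _ _).trans (le_of_eq ?_))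
    unfold nrm
    rw [abs_of_neg hi.2, abs_of_neg hj.2, ← abs_neg]
    congr 1
    ring) (fun i hi => hGm i (mem_filter.1 hi).1)
  have h3 : 0 ≤ H / δ := by positivity
  linarith

namespace LsDualAux

/-- the kernel -/
noncomputable def DD (N : ℕ) (θ : ℝ) : ℂ := ∑ j ∈ range N, ex (j * θ)

lemma norm_DD_le (N : ℕ) (θ : ℝ) : ‖DD N θ‖ ≤ mn N θ := by
  have h1 : ∑ n ∈ Icc 1 N, ex (n * θ) = ex θ * DD N θ := by
    unfold DD
    rw [mul_sum]
    have h2 : Icc 1 N = (range N).image (fun n => n + 1) := by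
      ext x
      simp only [mem_range, mem_image, mem_Icc]
      constructor
      · intro hx
        exact ⟨x - 1, by omega, by omega⟩
      · rintro ⟨y, hy, rfl⟩
        omega
    rw [h2, sum_image (by intro a _ b _ hab; simpa using hab)]
    refine sum_congr rfl fun n _ => ?_
    rw [← ex_add]
    congr 1
    push_cast
    ring
  have h3 := geom N θ
  rwa [h1, norm_mul, norm_ex, one_mul] at h3

lemma DD_neg (N : ℕ) (θ : ℝ) : DD N (-θ) = (starRingEnd ℂ) (DD N θ) := by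
  unfold DD
  rw [map_sum]
  refine sum_congr rfl fun j _ => ?_
  rw [← ex_neg]
  congr 1
  ring

lemma norm_DD_neg (N : ℕ) (θ : ℝ) : ‖DD N (-θ)‖ = ‖DD N θ‖ := by
  rw [DD_neg, Complex.norm_conj]

/-- the shifted sum -/
noncomputable def S2 {ι : Type} (s : Finset ι) (β : ι → ℝ) (c : ι → ℂ) (j j' : ℕ) : ℂ :=
  ∑ i ∈ s, c i * ex (((j : ℝ) - j') * β i)

lemma expand {ι : Type} (s : Finset ι) (β : ι → ℝ) (c : ι → ℂ) (N : ℕ) :
    ((∑ j' ∈ range N, ∑ j ∈ range N, ‖S2 s β c j j'‖ ^ 2 : ℝ) : ℂ) =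
      ∑ i ∈ s, ∑ l ∈ s, (c i * (starRingEnd ℂ) (c l)) *
        (DD N (β i - β l) * (starRingEnd ℂ) (DD N (β i - β l))) := by
  have h1 : ∀ j j' : ℕ, ((‖S2 s β c j j'‖ ^ 2 : ℝ) : ℂ) =
      ∑ i ∈ s, ∑ l ∈ s, (c i * (starRingEnd ℂ) (c l)) *
        (ex (j * (β i - β l)) * (starRingEnd ℂ) (ex (j' * (β i - β l)))) := by
    intro j j'
    push_cast
    rw [← Complex.mul_conj']
    unfold S2
    rw [map_sum, sum_mul_sum]
    refine sum_congr rfl fun i _ => sum_congr rfl fun l _ => ?_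
    rw [map_mul, ← ex_neg, ← ex_neg]
    have e1 : ex (((j : ℝ) - j') * β i) * ex (-(((j : ℝ) - j') * β l)) =
        ex (j * (β i - β l)) * ex (-(j' * (β i - β l))) := by
      rw [← ex_add, ← ex_add]
      congr 1
      ring
    rw [← e1]
    ring
  have h2 : ∀ i l, DD N (β i - β l) * (starRingEnd ℂ) (DD N (β i - β l)) =
      ∑ j' ∈ range N, ∑ j ∈ range N,
        (ex (j * (β i - β l)) * (starRingEnd ℂ) (ex (j' * (β i - β l)))) := by
    intro i l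
    unfold DD
    rw [map_sum, sum_mul_sum, sum_comm]
  rw [Complex.ofReal_sum]
  simp_rw [Complex.ofReal_sum, h1, h2, mul_sum]
  -- reorder the sums
  rw [sum_comm' (s := range N) (t := fun _ => range N) (s' := fun _ => range N) (t' := range N)
    (by intro x y; tauto)]
  have h3 : ∀ F : ℕ → ℕ → ι → ι → ℂ, ∑ j ∈ range N, ∑ j' ∈ range N, ∑ i ∈ s, ∑ l ∈ s, F j j' i l =
      ∑ i ∈ s, ∑ l ∈ s, ∑ j' ∈ range N, ∑ j ∈ range N, F j j' i l := by
    intro F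
    calc ∑ j ∈ range N, ∑ j' ∈ range N, ∑ i ∈ s, ∑ l ∈ s, F j j' i l
        = ∑ j ∈ range N, ∑ i ∈ s, ∑ j' ∈ range N, ∑ l ∈ s, F j j' i l :=
          sum_congr rfl fun j _ => sum_comm
      _ = ∑ j ∈ range N, ∑ i ∈ s, ∑ l ∈ s, ∑ j' ∈ range N, F j j' i l :=
          sum_congr rfl fun j _ => sum_congr rfl fun i _ => sum_comm
      _ = ∑ i ∈ s, ∑ j ∈ range N, ∑ l ∈ s, ∑ j' ∈ range N, F j j' i l := sum_comm
      _ = ∑ i ∈ s, ∑ l ∈ s, ∑ j ∈ range N, ∑ j' ∈ range N, F j j' i l :=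
          sum_congr rfl fun i _ => sum_comm
      _ = ∑ i ∈ s, ∑ l ∈ s, ∑ j' ∈ range N, ∑ j ∈ range N, F j j' i l :=
          sum_congr rfl fun i _ => sum_congr rfl fun l _ => sum_comm
  exact h3 (fun j j' i l => (c i * (starRingEnd ℂ) (c l)) *
        (ex (j * (β i - β l)) * (starRingEnd ℂ) (ex (j' * (β i - β l)))))

lemma quad_le {ι : Type} (s : Finset ι) (β : ι → ℝ) (c : ι → ℂ) (N : ℕ) {K : ℝ}
    (hK : ∀ i ∈ s, ∑ l ∈ s, ‖DD N (β i - β l)‖ ^ 2 ≤ K) :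
    ∑ j' ∈ range N, ∑ j ∈ range N, ‖S2 s β c j j'‖ ^ 2 ≤ K * ∑ i ∈ s, ‖c i‖ ^ 2 := by
  have h0 : 0 ≤ ∑ j' ∈ range N, ∑ j ∈ range N, ‖S2 s β c j j'‖ ^ 2 :=
    sum_nonneg fun _ _ => sum_nonneg fun _ _ => by positivity
  have h1 : ∑ j' ∈ range N, ∑ j ∈ range N, ‖S2 s β c j j'‖ ^ 2 =
      ‖((∑ j' ∈ range N, ∑ j ∈ range N, ‖S2 s β c j j'‖ ^ 2 : ℝ) : ℂ)‖ := by
    rw [Complex.norm_real, Real.norm_eq_abs, abs_of_nonneg h0]
  rw [h1, expand]
  have h2 : ‖∑ i ∈ s, ∑ l ∈ s, (c i * (starRingEnd ℂ) (c l)) *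
        (DD N (β i - β l) * (starRingEnd ℂ) (DD N (β i - β l)))‖ ≤
      ∑ i ∈ s, ∑ l ∈ s, (1 / 2 * (‖c i‖ ^ 2 * ‖DD N (β i - β l)‖ ^ 2) +
        1 / 2 * (‖c l‖ ^ 2 * ‖DD N (β l - β i)‖ ^ 2)) := by
    refine (norm_sum_le _ _).trans (sum_le_sum fun i _ => (norm_sum_le _ _).trans
      (sum_le_sum fun l _ => ?_))
    rw [norm_mul, norm_mul, norm_mul, Complex.norm_conj, Complex.norm_conj,
      show β l - β i = -(β i - β l) by ring, norm_DD_neg]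
    have e1 : ‖c i‖ * ‖c l‖ ≤ 1 / 2 * (‖c i‖ ^ 2 + ‖c l‖ ^ 2) := by
      nlinarith [sq_nonneg (‖c i‖ - ‖c l‖)]
    have e2 : 0 ≤ ‖DD N (β i - β l)‖ * ‖DD N (β i - β l)‖ := by positivity
    calc ‖c i‖ * ‖c l‖ * (‖DD N (β i - β l)‖ * ‖DD N (β i - β l)‖) ≤
          1 / 2 * (‖c i‖ ^ 2 + ‖c l‖ ^ 2) * (‖DD N (β i - β l)‖ * ‖DD N (β i - β l)‖) :=
          mul_le_mul_of_nonneg_right e1 e2
      _ = _ := by ring
  refine h2.trans ?_
  simp_rw [sum_add_distrib, ← mul_sum]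
  have h3 : ∑ i ∈ s, ‖c i‖ ^ 2 * ∑ l ∈ s, ‖DD N (β i - β l)‖ ^ 2 ≤ K * ∑ i ∈ s, ‖c i‖ ^ 2 := by
    rw [mul_sum]
    refine sum_le_sum fun i hi => ?_
    rw [mul_comm K]
    exact mul_le_mul_of_nonneg_left (hK i hi) (by positivity)
  have h4 : ∑ i ∈ s, ∑ l ∈ s, ‖c l‖ ^ 2 * ‖DD N (β l - β i)‖ ^ 2 =
      ∑ i ∈ s, ‖c i‖ ^ 2 * ∑ l ∈ s, ‖DD N (β i - β l)‖ ^ 2 := by
    rw [sum_comm]
    exact sum_congr rfl fun i _ => by rw [mul_sum]
  rw [h4]
  linarith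

end LsDualAux

open LsDualAux

theorem ls_dual : ∃ C : ℝ, 1 ≤ C ∧ ∀ {ι : Type} (s : Finset ι) (β : ι → ℝ) (c : ι → ℂ) (δ : ℝ) (X : ℕ), 0 < δ → δ ≤ 1 →
    (∀ i ∈ s, ∀ j ∈ s, i ≠ j → δ ≤ nrm (β i - β j)) →
    ∑ y ∈ range X, ‖∑ i ∈ s, c i * ex (y * β i)‖ ^ 2 ≤ C * (X + 1 / δ) * ∑ i ∈ s, ‖c i‖ ^ 2 := by
  obtain ⟨C, hC1, hC⟩ := spaced_sum
  refine ⟨12 * C, by linarith, ?_⟩
  intro ι s β c δ X hδ hδ1 hsp
  have h1δ : 1 ≤ 1 / δ := by
    rw [le_div_iff₀ hδ]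
    linarith
  set Y := max X ⌈1 / δ⌉₊ with hY
  have hYX : X ≤ Y := le_max_left _ _
  have hYδ : 1 / δ ≤ Y := (Nat.le_ceil _).trans (by exact_mod_cast le_max_right _ _)
  have hY1 : (1 : ℝ) ≤ Y := h1δ.trans hYδ
  have hY0 : (0 : ℝ) < Y := by linarith
  have hYle : (Y : ℝ) ≤ 2 * (X + 1 / δ) := by
    have e1 : (Y : ℝ) ≤ max (X : ℝ) (⌈1 / δ⌉₊ : ℝ) := by
      rw [hY]
      push_cast
      exact le_rfl
    refine e1.trans (max_le ?_ ?_)
    · have := Nat.cast_nonneg (α := ℝ) X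
      linarith
    · have e2 := (Nat.ceil_lt_add_one (show 0 ≤ 1 / δ by linarith)).le
      have := Nat.cast_nonneg (α := ℝ) X
      linarith
  have hK : ∀ i ∈ s, ∑ l ∈ s, ‖DD (2 * Y) (β i - β l)‖ ^ 2 ≤ 6 * C * (Y : ℝ) ^ 2 := by
    intro i hi
    have e0 : (((2 * Y : ℕ)) : ℝ) = 2 * Y := by push_cast; ring
    have h2 := hC s (fun l => β i - β l) δ ((2 * Y : ℕ) : ℝ) (((2 * Y : ℕ) : ℝ) ^ 2) hδ hδ1
      (by rw [e0]; linarith) (by
        intro l hl l' hl' hne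
        have e1 : β i - β l - (β i - β l') = -(β l - β l') := by ring
        rw [e1, nrm_neg]
        exact hsp l hl l' hl' hne) (by positivity) (by
        intro l _
        exact pow_le_pow_left₀ (mn_nonneg (Nat.cast_nonneg _) _) (mn_le_left (Nat.cast_nonneg _) _) 2)
    have h3 : ∑ l ∈ s, ‖DD (2 * Y) (β i - β l)‖ ^ 2 ≤
        ∑ l ∈ s, mn ((2 * Y : ℕ) : ℝ) (β i - β l) ^ 2 :=
      sum_le_sum fun l _ => pow_le_pow_left₀ (norm_nonneg _) (norm_DD_le _ _) 2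
    refine h3.trans (h2.trans ?_)
    have h4 : ((2 * Y : ℕ) : ℝ) / δ ≤ 2 * (Y : ℝ) ^ 2 := by
      rw [e0]
      calc 2 * (Y : ℝ) / δ = 2 * Y * (1 / δ) := by ring
        _ ≤ 2 * Y * Y := mul_le_mul_of_nonneg_left hYδ (by positivity)
        _ = _ := by ring
    have h5 : ((2 * Y : ℕ) : ℝ) ^ 2 = 4 * (Y : ℝ) ^ 2 := by
      rw [e0]
      ring
    rw [h5]
    have hC0 : 0 ≤ C := by linarith
    calc C * (4 * (Y : ℝ) ^ 2 + ((2 * Y : ℕ) : ℝ) / δ) ≤ C * (4 * (Y : ℝ) ^ 2 + 2 * (Y : ℝ) ^ 2) :=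
          mul_le_mul_of_nonneg_left (by linarith) hC0
      _ = _ := by ring
  have hq := quad_le s β c (2 * Y) hK
  set T := ∑ y ∈ range Y, ‖∑ i ∈ s, c i * ex (y * β i)‖ ^ 2 with hT
  have hT0 : ∑ y ∈ range X, ‖∑ i ∈ s, c i * ex (y * β i)‖ ^ 2 ≤ T :=
    sum_le_sum_of_subset_of_nonneg (range_subset_range.2 hYX) fun _ _ _ => by positivity
  have hYT : (Y : ℝ) * T ≤ ∑ j' ∈ range (2 * Y), ∑ j ∈ range (2 * Y), ‖S2 s β c j j'‖ ^ 2 := by
    have h2 : ∑ j' ∈ range Y, ∑ j ∈ range (2 * Y), ‖S2 s β c j j'‖ ^ 2 ≤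
        ∑ j' ∈ range (2 * Y), ∑ j ∈ range (2 * Y), ‖S2 s β c j j'‖ ^ 2 :=
      sum_le_sum_of_subset_of_nonneg (range_subset_range.2 (by omega)) fun _ _ _ =>
        sum_nonneg fun _ _ => by positivity
    refine le_trans ?_ h2
    have h3 : ∀ j' ∈ range Y, T ≤ ∑ j ∈ range (2 * Y), ‖S2 s β c j j'‖ ^ 2 := by
      intro j' hj'
      rw [mem_range] at hj'
      have h4 : T = ∑ j ∈ (range Y).image (fun y => y + j'), ‖S2 s β c j j'‖ ^ 2 := by
        rw [sum_image (by intro a _ b _ hab; simpa using hab), hT]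
        refine sum_congr rfl fun y _ => ?_
        unfold S2
        congr 2
        refine sum_congr rfl fun i _ => ?_
        congr 2
        push_cast
        ring
      rw [h4]
      refine sum_le_sum_of_subset_of_nonneg ?_ fun _ _ _ => by positivity
      intro j hj
      obtain ⟨y, hy, rfl⟩ := mem_image.1 hj
      rw [mem_range] at hy ⊢
      omega
    calc (Y : ℝ) * T = ∑ _j' ∈ range Y, T := by rw [sum_const, card_range, nsmul_eq_mul]
      _ ≤ _ := sum_le_sum h3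
  have hA : 0 ≤ ∑ i ∈ s, ‖c i‖ ^ 2 := sum_nonneg fun _ _ => by positivity
  have h6 : (Y : ℝ) * T ≤ Y * (6 * C * Y * ∑ i ∈ s, ‖c i‖ ^ 2) := by
    refine (hYT.trans hq).trans (le_of_eq ?_)
    ring
  have h7 : T ≤ 6 * C * Y * ∑ i ∈ s, ‖c i‖ ^ 2 := le_of_mul_le_mul_left h6 hY0
  refine hT0.trans (h7.trans ?_)
  refine mul_le_mul_of_nonneg_right ?_ hA
  calc 6 * C * (Y : ℝ) ≤ 6 * C * (2 * (X + 1 / δ)) :=
        mul_le_mul_of_nonneg_left hYle (by linarith)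
    _ = _ := by ring

end Pool.Agent.VL
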