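import Pool.Agent.Lib.VL.VarChi3
import Pool.Agent.Lib.VL.NuWin3

/-!
# Major arcs in short intervals of length `x^(1/3 + ε)`

`major_core` is the deterministic part: the sum over the window is split in the `n` not coprime to `q` (at most `q^2`), the
classes `b` coprime to `q` (orthogonality of the characters, and `nu_win3`), and the proper prime powers (`power_win`).
-/

set_option autoImplicit false

open Finset Filter Pool.Agent.HLT

namespace Pool.Agent.VL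

open Pool.Agent.VK

lemma lp_le_vM (n : ℕ) : HLT.lp n ≤ ArithmeticFunction.vonMangoldt n := by
  unfold HLT.lp
  split_ifs with hp
  · rw [ArithmeticFunction.vonMangoldt_apply_prime hp]
  · exact ArithmeticFunction.vonMangoldt_nonneg

lemma not_coprime_win {z q : ℕ} (hq1 : 1 ≤ q) (hq : q ≤ z) (I : Finset ℕ) :
    ∑ n ∈ I.filter (fun n => ¬ n.Coprime q), |ff z n| ≤ (q : ℝ) ^ 2 := by
  have h1 : ∀ n ∈ I.filter (fun n => ¬ n.Coprime q), |ff z n| = lp n := by
    intro n hn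
    rw [Finset.mem_filter] at hn
    unfold ff
    rw [nu_zero hq1 hq hn.2 rfl, sub_zero, abs_of_nonneg (lp_nonneg n)]
  rw [Finset.sum_congr rfl h1]
  have h2 : ∀ n ∈ I.filter (fun n => ¬ n.Coprime q), lp n ≠ 0 → n ∈ Icc 1 q := by
    intro n hn hne
    rw [Finset.mem_filter] at hn
    unfold HLT.lp at hne
    have hp : n.Prime := by
      by_contra h
      rw [if_neg h] at hne
      exact hne rfl
    have h5 : n ∣ q := by
      rcases (Nat.coprime_or_dvd_of_prime hp q) with h | h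
      · exact absurd h hn.2
      · exact h
    exact Finset.mem_Icc.2 ⟨hp.one_lt.le, Nat.le_of_dvd hq1 h5⟩
  calc ∑ n ∈ I.filter (fun n => ¬ n.Coprime q), lp n
      = ∑ n ∈ (I.filter (fun n => ¬ n.Coprime q)).filter (fun n => lp n ≠ 0), lp n := by
        rw [Finset.sum_filter_ne_zero]
    _ ≤ ∑ n ∈ Icc 1 q, lp n := by
        refine Finset.sum_le_sum_of_subset_of_nonneg ?_ fun n _ _ => lp_nonneg n
        intro n hn
        rw [Finset.mem_filter] at hn
        exact h2 n hn.1 hn.2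
    _ ≤ ∑ n ∈ Icc 1 q, (q : ℝ) := by
        refine Finset.sum_le_sum fun n hn => ?_
        rw [Finset.mem_Icc] at hn
        have h6 : Real.log n ≤ n := (Real.log_le_sub_one_of_pos (by
          exact_mod_cast hn.1)).trans (by linarith)
        have h7 : (n : ℝ) ≤ q := by exact_mod_cast hn.2
        exact (lp_le n).trans (h6.trans h7)
    _ = (q : ℝ) ^ 2 := by
        rw [Finset.sum_const, Nat.card_Icc, nsmul_eq_mul]
        push_cast
        ring

/-- Windows sums of squares. -/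
lemma window_sum (f : ℕ → ℝ) (hf : ∀ n, 0 ≤ f n) (M h : ℕ) :
    ∑ u ∈ range M, ∑ n ∈ Ioc u (u + h), f n ≤ h * ∑ n ∈ Icc 1 (M + h), f n := by
  have h1 : ∀ u, ∑ n ∈ Ioc u (u + h), f n = ∑ j ∈ Icc 1 h, f (u + j) := by
    intro u
    have h2 : Ioc u (u + h) = (Icc 1 h).image (fun j => u + j) := by
      ext n
      simp only [mem_Ioc, mem_image, mem_Icc]
      constructor
      · intro hn
        exact ⟨n - u, by omega, by omega⟩
      · rintro ⟨j, hj, rfl⟩
        omega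
    rw [h2, Finset.sum_image]
    intro i _ j _ hij
    simp only at hij
    omega
  rw [Finset.sum_congr rfl (fun u _ => h1 u), Finset.sum_comm]
  have h3 : ∀ j ∈ Icc 1 h, ∑ u ∈ range M, f (u + j) ≤ ∑ n ∈ Icc 1 (M + h), f n := by
    intro j hj
    rw [mem_Icc] at hj
    have h4 : ∑ u ∈ range M, f (u + j) = ∑ n ∈ (range M).image (fun u => u + j), f n := by
      rw [Finset.sum_image]
      intro i _ k _ hik
      simp only at hik
      omega
    rw [h4]
    refine Finset.sum_le_sum_of_subset_of_nonneg ?_ (fun n _ _ => hf n)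
    intro n hn
    rw [mem_image] at hn
    obtain ⟨u, hu, rfl⟩ := hn
    rw [mem_range] at hu
    rw [mem_Icc]
    omega
  calc ∑ j ∈ Icc 1 h, ∑ u ∈ range M, f (u + j) ≤ ∑ j ∈ Icc 1 h, ∑ n ∈ Icc 1 (M + h), f n :=
        Finset.sum_le_sum h3
    _ = _ := by rw [Finset.sum_const, Nat.card_Icc, nsmul_eq_mul, Nat.add_sub_cancel]

/-- The proper prime powers. -/
lemma power_win (M h : ℕ) (hM : 1 ≤ M) :
    ∑ u ∈ range M, (∑ n ∈ Ioc u (u + h), (ArithmeticFunction.vonMangoldt n - lp n)) ^ 2 ≤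
      (h : ℝ) ^ 2 * (2 * Real.sqrt ((M + h : ℕ) : ℝ) * Real.log ((M + h : ℕ) : ℝ) ^ 2) := by
  set g : ℕ → ℝ := fun n => ArithmeticFunction.vonMangoldt n - lp n with hg
  have hg0 : ∀ n, 0 ≤ g n := fun n => sub_nonneg.2 (lp_le_vM n)
  have h1 : ∀ u ∈ range M, (∑ n ∈ Ioc u (u + h), g n) ^ 2 ≤ h * ∑ n ∈ Ioc u (u + h), g n ^ 2 := by
    intro u _
    have := sq_sum_le_card_mul_sum_sq (s := Ioc u (u + h)) (f := g)
    rwa [Nat.card_Ioc, Nat.add_sub_cancel_left] at this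
  refine (Finset.sum_le_sum h1).trans ?_
  rw [← Finset.mul_sum]
  have h2 := window_sum (fun n => g n ^ 2) (fun n => sq_nonneg _) M h
  have hy : (1:ℝ) ≤ ((M + h : ℕ) : ℝ) := by
    exact_mod_cast (by omega : 1 ≤ M + h)
  have h3 : ∑ n ∈ Icc 1 (M + h), g n ^ 2 ≤ Real.log ((M + h : ℕ) : ℝ) * ∑ n ∈ Icc 1 (M + h), g n := by
    rw [Finset.mul_sum]
    refine Finset.sum_le_sum fun n hn => ?_
    rw [mem_Icc] at hn
    have h4 : g n ≤ Real.log ((M + h : ℕ) : ℝ) := by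
      have h5 : g n ≤ ArithmeticFunction.vonMangoldt n := by
        simp only [hg]
        linarith [lp_nonneg n]
      refine h5.trans (ArithmeticFunction.vonMangoldt_le_log.trans ?_)
      apply Real.log_le_log (by exact_mod_cast hn.1)
      exact_mod_cast hn.2
    have := hg0 n
    nlinarith only [h4, this]
  have h4 : ∑ n ∈ Icc 1 (M + h), g n ≤ 2 * Real.sqrt ((M + h : ℕ) : ℝ) * Real.log ((M + h : ℕ) : ℝ) := by
    simp only [hg]
    rw [Finset.sum_sub_distrib, MinorPrime.psi_eq, MinorPrime.theta_eq]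
    exact (le_abs_self _).trans (Chebyshev.abs_psi_sub_theta_le_sqrt_mul_log hy)
  have hlog : 0 ≤ Real.log ((M + h : ℕ) : ℝ) := Real.log_nonneg hy
  have hh : (0:ℝ) ≤ h := Nat.cast_nonneg h
  calc (h:ℝ) * ∑ u ∈ range M, ∑ n ∈ Ioc u (u + h), g n ^ 2
      ≤ h * (h * ∑ n ∈ Icc 1 (M + h), g n ^ 2) := by gcongr
    _ ≤ h * (h * (Real.log ((M + h : ℕ) : ℝ) *
        (2 * Real.sqrt ((M + h : ℕ) : ℝ) * Real.log ((M + h : ℕ) : ℝ)))) := by
        gcongr
        exact h3.trans (mul_le_mul_of_nonneg_left h4 hlog)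
    _ = _ := by ring

/-- Orthogonality. -/
lemma class_vM (q : ℕ) [NeZero q] (b : ℕ) (hb : b.Coprime q) (I : Finset ℕ) :
    ((∑ n ∈ I.filter (fun n => n % q = b % q), ArithmeticFunction.vonMangoldt n : ℝ) : ℂ) =
      (q.totient : ℂ)⁻¹ * ∑ χ : DirichletCharacter ℂ q, χ ((b : ZMod q)⁻¹) * ∑ n ∈ I, cc χ n +
        (I.card : ℂ) / q.totient := by
  classical
  have hφ : (q.totient : ℂ) ≠ 0 := by
    exact_mod_cast (Nat.totient_pos.2 (Nat.pos_of_ne_zero (NeZero.ne q))).ne'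
  have hu : IsUnit (b : ZMod q) := (ZMod.isUnit_iff_coprime b q).2 hb
  have h1 : ∀ χ : DirichletCharacter ℂ q, χ ((b : ZMod q)⁻¹) * ∑ n ∈ I, cc χ n =
      ∑ n ∈ I, χ ((b : ZMod q)⁻¹) * χ (n : ZMod q) * ((ArithmeticFunction.vonMangoldt n : ℝ) : ℂ) -
        (if χ = 1 then (I.card : ℂ) else 0) := by
    intro χ
    unfold cc Pool.Agent.Lib.SW.lam Pool.Agent.Lib.SW.chf
    rw [Finset.sum_sub_distrib, mul_sub, Finset.mul_sum]
    congr 1
    · refine Finset.sum_congr rfl fun n _ => by ring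
    · by_cases hχ : χ = 1
      · rw [hχ]
        simp only [if_true, Finset.sum_const, nsmul_eq_mul, mul_one]
        have hub : IsUnit ((b : ZMod q)⁻¹) := by
          exact IsUnit.of_mul_eq_one_right _ (ZMod.coe_mul_inv_eq_one b hb)
        rw [MulChar.one_apply hub, one_mul]
      · simp [hχ]
  rw [Finset.sum_congr rfl (fun χ _ => h1 χ), Finset.sum_sub_distrib, Finset.sum_comm]
  have h2 : ∀ n ∈ I, ∑ χ : DirichletCharacter ℂ q, χ ((b : ZMod q)⁻¹) * χ (n : ZMod q) *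
      ((ArithmeticFunction.vonMangoldt n : ℝ) : ℂ) =
      if n % q = b % q then (q.totient : ℂ) * ((ArithmeticFunction.vonMangoldt n : ℝ) : ℂ) else 0 := by
    intro n _
    rw [← Finset.sum_mul, DirichletCharacter.sum_char_inv_mul_char_eq ℂ hu]
    have h3 : ((b : ZMod q) = (n : ZMod q)) ↔ n % q = b % q := by
      rw [ZMod.natCast_eq_natCast_iff]
      exact ⟨fun h => h.symm, fun h => h.symm⟩
    by_cases h4 : n % q = b % q
    · rw [if_pos (h3.2 h4), if_pos h4]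
    · rw [if_neg (fun h => h4 (h3.1 h)), if_neg h4, zero_mul]
  rw [Finset.sum_congr rfl h2, ← Finset.sum_filter, ← Finset.mul_sum, Finset.sum_ite_eq' Finset.univ
    (1 : DirichletCharacter ℂ q), if_pos (Finset.mem_univ _)]
  push_cast
  field_simp
  ring

lemma ex_mod (q : ℕ) (hq : 1 ≤ q) (a : ℤ) (n : ℕ) :
    ex (n * (a / q)) = ex (((n % q : ℕ) : ℝ) * (a / q)) := by
  have hq0 : (q : ℝ) ≠ 0 := by
    exact_mod_cast (by omega : q ≠ 0)
  have h2 : (n : ℝ) = ((n % q : ℕ) : ℝ) + q * ((n / q : ℕ) : ℝ) := by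
    exact_mod_cast (Nat.mod_add_div n q).symm
  generalize n / q = k at h2
  have h1 : (n : ℝ) * (a / q) = ((n % q : ℕ) : ℝ) * (a / q) + ((k : ℤ) * a : ℤ) := by
    conv_lhs => rw [h2]
    push_cast
    field_simp
  rw [h1, ex_add_int]

lemma class_bd (q : ℕ) [NeZero q] (z h u : ℕ) (F : ℝ)
    (hnu : ∀ b : ℕ, b.Coprime q →
      |∑ n ∈ (Ioc u (u + h)).filter (fun n => n % q = b % q), nuz z n - h / (q.totient : ℝ)| ≤ F)
    (b : ℕ) (hb : b.Coprime q) :
    |∑ n ∈ (Ioc u (u + h)).filter (fun n => n % q = b % q),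
      (ArithmeticFunction.vonMangoldt n - nuz z n)| ≤
      (q.totient : ℝ)⁻¹ * ∑ χ : DirichletCharacter ℂ q, ‖∑ n ∈ Ioc u (u + h), cc χ n‖ + F := by
  have h1 := class_vM q b hb (Ioc u (u + h))
  have h2 := hnu b hb
  set A : ℝ := ∑ n ∈ (Ioc u (u + h)).filter (fun n => n % q = b % q),
    ArithmeticFunction.vonMangoldt n with hA
  set N : ℝ := ∑ n ∈ (Ioc u (u + h)).filter (fun n => n % q = b % q), nuz z n with hN
  rw [Finset.sum_sub_distrib, ← hA, ← hN]
  have h3 : |A - h / (q.totient : ℝ)| ≤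
      (q.totient : ℝ)⁻¹ * ∑ χ : DirichletCharacter ℂ q, ‖∑ n ∈ Ioc u (u + h), cc χ n‖ := by
    have h4 : ((A - h / (q.totient : ℝ) : ℝ) : ℂ) = (q.totient : ℂ)⁻¹ *
        ∑ χ : DirichletCharacter ℂ q, χ ((b : ZMod q)⁻¹) * ∑ n ∈ Ioc u (u + h), cc χ n := by
      rw [Complex.ofReal_sub, h1, Nat.card_Ioc, Nat.add_sub_cancel_left]
      push_cast
      ring
    have h5 : |A - h / (q.totient : ℝ)| = ‖((A - h / (q.totient : ℝ) : ℝ) : ℂ)‖ := by
      rw [Complex.norm_real, Real.norm_eq_abs]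
    rw [h5, h4, norm_mul]
    have h6 : ‖((q.totient : ℂ)⁻¹)‖ = (q.totient : ℝ)⁻¹ := by
      rw [norm_inv, Complex.norm_natCast]
    rw [h6]
    refine mul_le_mul_of_nonneg_left ?_ (by positivity)
    refine (norm_sum_le _ _).trans (Finset.sum_le_sum fun χ _ => ?_)
    rw [norm_mul]
    have h7 : ‖χ ((b : ZMod q)⁻¹)‖ ≤ 1 := χ.norm_le_one _
    have h8 := norm_nonneg (∑ n ∈ Ioc u (u + h), cc χ n)
    nlinarith only [h7, h8]
  have h9 : A - N = (A - h / (q.totient : ℝ)) - (N - h / (q.totient : ℝ)) := by ring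
  rw [h9]
  exact (abs_sub _ _).trans (add_le_add h3 h2)

lemma point_bd (q : ℕ) [NeZero q] (a : ℤ) (z h u : ℕ) (hq : q ≤ z) (F : ℝ)
    (hnu : ∀ b : ℕ, b.Coprime q →
      |∑ n ∈ (Ioc u (u + h)).filter (fun n => n % q = b % q), nuz z n - h / (q.totient : ℝ)| ≤ F) :
    ‖∑ n ∈ Ioc u (u + h), (ff z n : ℂ) * ex (n * (a / q))‖ ≤
      (q : ℝ) ^ 2 + (∑ χ : DirichletCharacter ℂ q, ‖∑ n ∈ Ioc u (u + h), cc χ n‖ + q * F) +
      ∑ n ∈ Ioc u (u + h), (ArithmeticFunction.vonMangoldt n - HLT.lp n) := by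
  classical
  have hq1 : 1 ≤ q := Nat.pos_of_ne_zero (NeZero.ne q)
  have hF : 0 ≤ F := (abs_nonneg _).trans (hnu 1 (Nat.coprime_one_left q))
  set I := Ioc u (u + h) with hI
  rw [← Finset.sum_filter_add_sum_filter_not I (fun n => ¬ n.Coprime q)]
  have hA : ‖∑ n ∈ I.filter (fun n => ¬ n.Coprime q), (ff z n : ℂ) * ex (n * (a / q))‖ ≤ (q : ℝ) ^ 2 := by
    refine le_trans ?_ (not_coprime_win hq1 hq I)
    refine (norm_sum_le _ _).trans (le_of_eq ?_)
    refine Finset.sum_congr rfl fun n _ => ?_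
    rw [norm_mul, norm_ex, mul_one, Complex.norm_real, Real.norm_eq_abs]
  have hsplit : ∑ n ∈ I.filter (fun n => ¬ ¬ n.Coprime q), (ff z n : ℂ) * ex (n * (a / q)) =
      ∑ n ∈ I.filter (fun n => n.Coprime q),
        ((ArithmeticFunction.vonMangoldt n - nuz z n : ℝ) : ℂ) * ex (n * (a / q)) -
      ∑ n ∈ I.filter (fun n => n.Coprime q),
        ((ArithmeticFunction.vonMangoldt n - HLT.lp n : ℝ) : ℂ) * ex (n * (a / q)) := by
    simp only [not_not]
    rw [← Finset.sum_sub_distrib]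
    refine Finset.sum_congr rfl fun n _ => ?_
    unfold ff
    push_cast
    ring
  have hC : ‖∑ n ∈ I.filter (fun n => n.Coprime q),
        ((ArithmeticFunction.vonMangoldt n - HLT.lp n : ℝ) : ℂ) * ex (n * (a / q))‖ ≤
      ∑ n ∈ I, (ArithmeticFunction.vonMangoldt n - HLT.lp n) := by
    refine (norm_sum_le _ _).trans ?_
    have h1 : ∀ n ∈ I.filter (fun n => n.Coprime q),
        ‖((ArithmeticFunction.vonMangoldt n - HLT.lp n : ℝ) : ℂ) * ex (n * (a / q))‖ =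
        ArithmeticFunction.vonMangoldt n - HLT.lp n := by
      intro n _
      rw [norm_mul, norm_ex, mul_one, Complex.norm_real, Real.norm_eq_abs,
        abs_of_nonneg (sub_nonneg.2 (lp_le_vM n))]
    rw [Finset.sum_congr rfl h1]
    exact Finset.sum_le_sum_of_subset_of_nonneg (Finset.filter_subset _ _)
      (fun n _ _ => sub_nonneg.2 (lp_le_vM n))
  have hB : ‖∑ n ∈ I.filter (fun n => n.Coprime q),
        ((ArithmeticFunction.vonMangoldt n - nuz z n : ℝ) : ℂ) * ex (n * (a / q))‖ ≤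
      ∑ χ : DirichletCharacter ℂ q, ‖∑ n ∈ I, cc χ n‖ + q * F := by
    have hmaps : ∀ n ∈ I.filter (fun n => n.Coprime q), n % q ∈ (range q).filter q.Coprime := by
      intro n hn
      rw [mem_filter] at hn
      rw [mem_filter, mem_range]
      refine ⟨Nat.mod_lt _ hq1, ?_⟩
      have : Nat.gcd (n % q) q = Nat.gcd n q := by
        rw [Nat.gcd_comm n q, Nat.gcd_rec q n]
      unfold Nat.Coprime at *
      rw [Nat.gcd_comm, this]
      exact hn.2
    rw [← Finset.sum_fiberwise_of_maps_to hmaps]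
    have hfib : ∀ b ∈ (range q).filter q.Coprime,
        ∑ n ∈ (I.filter (fun n => n.Coprime q)).filter (fun n => n % q = b),
          ((ArithmeticFunction.vonMangoldt n - nuz z n : ℝ) : ℂ) * ex (n * (a / q)) =
        ex ((b : ℝ) * (a / q)) * ((∑ n ∈ I.filter (fun n => n % q = b % q),
          (ArithmeticFunction.vonMangoldt n - nuz z n) : ℝ) : ℂ) := by
      intro b hb
      rw [mem_filter, mem_range] at hb
      have hset : (I.filter (fun n => n.Coprime q)).filter (fun n => n % q = b) =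
          I.filter (fun n => n % q = b % q) := by
        ext n
        simp only [mem_filter]
        rw [Nat.mod_eq_of_lt hb.1]
        constructor
        · rintro ⟨⟨h1, _⟩, h3⟩
          exact ⟨h1, h3⟩
        · rintro ⟨h1, h3⟩
          refine ⟨⟨h1, ?_⟩, h3⟩
          have : Nat.gcd (n % q) q = Nat.gcd n q := by
            rw [Nat.gcd_comm n q, Nat.gcd_rec q n]
          have h4 := hb.2
          unfold Nat.Coprime at *
          rw [← this, h3, Nat.gcd_comm]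
          exact h4
      rw [hset, Complex.ofReal_sum, Finset.mul_sum]
      refine Finset.sum_congr rfl fun n hn => ?_
      rw [mem_filter, Nat.mod_eq_of_lt hb.1] at hn
      rw [ex_mod q hq1 a n, hn.2, mul_comm]
    rw [Finset.sum_congr rfl hfib]
    refine (norm_sum_le _ _).trans ?_
    have hb2 : ∀ b ∈ (range q).filter q.Coprime,
        ‖ex ((b : ℝ) * (a / q)) * ((∑ n ∈ I.filter (fun n => n % q = b % q),
          (ArithmeticFunction.vonMangoldt n - nuz z n) : ℝ) : ℂ)‖ ≤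
        (q.totient : ℝ)⁻¹ * ∑ χ : DirichletCharacter ℂ q, ‖∑ n ∈ I, cc χ n‖ + F := by
      intro b hb
      rw [mem_filter] at hb
      rw [norm_mul, norm_ex, one_mul, Complex.norm_real, Real.norm_eq_abs]
      exact class_bd q z h u F hnu b (Nat.coprime_comm.1 hb.2)
    refine (Finset.sum_le_sum hb2).trans ?_
    rw [Finset.sum_const, nsmul_eq_mul]
    have hcard : (((range q).filter q.Coprime).card : ℝ) = q.totient := by
      rfl
    rw [hcard]
    have hφ : (0:ℝ) < q.totient := by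
      exact_mod_cast Nat.totient_pos.2 hq1
    have hφq : (q.totient : ℝ) ≤ q := by
      exact_mod_cast Nat.totient_le q
    rw [mul_add, ← mul_assoc, mul_inv_cancel₀ hφ.ne', one_mul]
    have := mul_le_mul_of_nonneg_right hφq hF
    linarith only [this]
  rw [hsplit]
  refine (norm_add_le _ _).trans ?_
  have h1 := norm_sub_le (∑ n ∈ I.filter (fun n => n.Coprime q),
        ((ArithmeticFunction.vonMangoldt n - nuz z n : ℝ) : ℂ) * ex (n * (a / q)))
      (∑ n ∈ I.filter (fun n => n.Coprime q),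
        ((ArithmeticFunction.vonMangoldt n - HLT.lp n : ℝ) : ℂ) * ex (n * (a / q)))
  linarith

theorem major_core (q : ℕ) [NeZero q] (a : ℤ) (z x h : ℕ) (hq : q ≤ z) (E F : ℝ)
    (hvar : ∀ χ : DirichletCharacter ℂ q,
      ∑ u ∈ range (2 * x + 1), ‖∑ n ∈ Ioc u (u + h), cc χ n‖ ^ 2 ≤ E)
    (hnu : ∀ u b : ℕ, b.Coprime q →
      |∑ n ∈ (Ioc u (u + h)).filter (fun n => n % q = b % q), nuz z n - h / (q.totient : ℝ)| ≤ F) :
    ∑ u ∈ range (2 * x + 1), ‖∑ n ∈ Ioc u (u + h), (ff z n : ℂ) * ex (n * (a / q))‖ ^ 2 ≤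
      3 * ((2 * x + 1) * (q : ℝ) ^ 4 + (2 * q ^ 2 * E + (2 * x + 1) * (2 * (q : ℝ) ^ 2 * F ^ 2)) +
        (h : ℝ) ^ 2 * (2 * Real.sqrt ((2 * x + 1 + h : ℕ) : ℝ) *
          Real.log ((2 * x + 1 + h : ℕ) : ℝ) ^ 2)) := by
  classical
  have hq1 : 1 ≤ q := Nat.pos_of_ne_zero (NeZero.ne q)
  set P : ℕ → ℝ := fun u => ∑ χ : DirichletCharacter ℂ q, ‖∑ n ∈ Ioc u (u + h), cc χ n‖ with hP
  set G : ℕ → ℝ := fun u => ∑ n ∈ Ioc u (u + h), (ArithmeticFunction.vonMangoldt n - HLT.lp n) with hG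
  have hcardχ : (Fintype.card (DirichletCharacter ℂ q) : ℝ) ≤ q := by
    rw [← Nat.card_eq_fintype_card, DirichletCharacter.card_eq_totient_of_hasEnoughRootsOfUnity ℂ q]
    exact_mod_cast Nat.totient_le q
  have h1 : ∀ u ∈ range (2 * x + 1),
      ‖∑ n ∈ Ioc u (u + h), (ff z n : ℂ) * ex (n * (a / q))‖ ^ 2 ≤
      3 * ((q : ℝ) ^ 4 + (2 * q * ∑ χ : DirichletCharacter ℂ q,
        ‖∑ n ∈ Ioc u (u + h), cc χ n‖ ^ 2 + 2 * (q : ℝ) ^ 2 * F ^ 2) + G u ^ 2) := by
    intro u _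
    have h2 := point_bd q a z h u hq F (hnu u)
    have h3 : P u ^ 2 ≤ q * ∑ χ : DirichletCharacter ℂ q, ‖∑ n ∈ Ioc u (u + h), cc χ n‖ ^ 2 := by
      have h4 := sq_sum_le_card_mul_sum_sq (s := (Finset.univ : Finset (DirichletCharacter ℂ q)))
        (f := fun χ => ‖∑ n ∈ Ioc u (u + h), cc χ n‖)
      refine h4.trans ?_
      rw [Finset.card_univ]
      exact mul_le_mul_of_nonneg_right hcardχ (Finset.sum_nonneg fun χ _ => sq_nonneg _)
    have h5 : ‖∑ n ∈ Ioc u (u + h), (ff z n : ℂ) * ex (n * (a / q))‖ ^ 2 ≤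
        ((q : ℝ) ^ 2 + (P u + q * F) + G u) ^ 2 :=
      pow_le_pow_left₀ (norm_nonneg _) h2 2
    refine h5.trans ?_
    have h6 : ((q : ℝ) ^ 2 + (P u + q * F) + G u) ^ 2 ≤
        3 * ((q : ℝ) ^ 4 + (P u + q * F) ^ 2 + G u ^ 2) := by
      nlinarith only [sq_nonneg ((q : ℝ) ^ 2 - (P u + q * F)), sq_nonneg ((q : ℝ) ^ 2 - G u),
        sq_nonneg ((P u + q * F) - G u)]
    have h7 : (P u + q * F) ^ 2 ≤ 2 * P u ^ 2 + 2 * (q : ℝ) ^ 2 * F ^ 2 := by
      nlinarith only [sq_nonneg (P u - q * F)]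
    linarith only [h3, h6, h7]
  refine (Finset.sum_le_sum h1).trans ?_
  rw [← Finset.mul_sum, Finset.sum_add_distrib, Finset.sum_add_distrib, Finset.sum_add_distrib,
    Finset.sum_const, Finset.sum_const, Finset.card_range, nsmul_eq_mul, nsmul_eq_mul,
    ← Finset.mul_sum]
  have h8 := power_win (2 * x + 1) h (by omega)
  have h9 : ∑ u ∈ range (2 * x + 1), ∑ χ : DirichletCharacter ℂ q,
      ‖∑ n ∈ Ioc u (u + h), cc χ n‖ ^ 2 ≤ q * E := by
    rw [Finset.sum_comm]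
    calc ∑ χ : DirichletCharacter ℂ q, ∑ u ∈ range (2 * x + 1), ‖∑ n ∈ Ioc u (u + h), cc χ n‖ ^ 2
        ≤ ∑ χ : DirichletCharacter ℂ q, E := Finset.sum_le_sum fun χ _ => hvar χ
      _ = (Fintype.card (DirichletCharacter ℂ q) : ℝ) * E := by
          rw [Finset.sum_const, Finset.card_univ, nsmul_eq_mul]
      _ ≤ q * E := by
          refine mul_le_mul_of_nonneg_right hcardχ ?_
          exact (Finset.sum_nonneg fun u _ => sq_nonneg _).trans (hvar 1)
  have h10 : 2 * (q : ℝ) * ∑ u ∈ range (2 * x + 1), ∑ χ : DirichletCharacter ℂ q,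
      ‖∑ n ∈ Ioc u (u + h), cc χ n‖ ^ 2 ≤ 2 * q ^ 2 * E := by
    calc _ ≤ 2 * (q : ℝ) * (q * E) := by gcongr
      _ = _ := by ring
  have h11 : (((2 * x + 1 : ℕ) : ℝ)) = 2 * x + 1 := by push_cast; ring
  rw [h11]
  have h12 : ∑ u ∈ range (2 * x + 1), G u ^ 2 ≤ (h : ℝ) ^ 2 * (2 * Real.sqrt ((2 * x + 1 + h : ℕ) : ℝ) *
          Real.log ((2 * x + 1 + h : ℕ) : ℝ) ^ 2) := h8
  linarith only [h8, h10]

theorem major_win3 (A1 B : ℕ) (ε : ℝ) (hε : 0 < ε) : ∃ c : ℕ, ∀ A : ℕ, A1 ≤ A → ∀ᶠ x : ℕ in atTop, ∀ (q : ℕ) (a : ℤ),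
    1 ≤ q → (q : ℝ) ≤ Real.log x ^ A1 → ∀ h : ℕ, (x : ℝ) ^ (1 / 3 + ε) ≤ h → (h : ℝ) ≤ x / Real.log x ^ c →
    ∑ u ∈ range (2 * x + 1), ‖∑ n ∈ Ioc u (u + h), (ff (zA A x) n : ℂ) * ex (n * (a / q))‖ ^ 2 ≤
      x * (h : ℝ) ^ 2 / Real.log x ^ B := by
  obtain ⟨c, hc⟩ := var_all3 (2 * A1 + B + 1) ε hε
  refine ⟨c, fun A hA => ?_⟩
  have hlim : Tendsto (fun x : ℕ => Real.log x) atTop atTop :=
    Real.tendsto_log_atTop.comp tendsto_natCast_atTop_atTop
  -- `log x ^ m ≤ x ^ δ`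
  have hpow : ∀ (m : ℕ) (δ : ℝ), 0 < δ → ∀ᶠ x : ℕ in atTop, Real.log x ^ m ≤ (x : ℝ) ^ δ := by
    intro m δ hδ
    have h2 := (isLittleO_log_rpow_rpow_atTop (m : ℝ) hδ).comp_tendsto
      (tendsto_natCast_atTop_atTop (R := ℝ))
    have h3 := h2.bound (c := 1) one_pos
    filter_upwards [h3, hlim.eventually_ge_atTop 0] with x hx hx0
    simp only [Function.comp_apply, one_mul, Real.rpow_natCast] at hx
    rw [Real.norm_of_nonneg (by positivity), Real.norm_of_nonneg (by positivity)] at hx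
    exact hx
  filter_upwards [hc, nu_win3 A (A1 + B + 1) ε hε, hlim.eventually_ge_atTop 200,
    hpow (B + 4) (1 / 2) (by norm_num), hpow (4 * A1 + B + 1) (1 / 3) (by norm_num),
    eventually_ge_atTop 3] with x h1 h2 hL h3 h4 hx3
  intro q a hq1 hqA h hh1 hh2
  have : NeZero q := ⟨by omega⟩
  set L : ℝ := Real.log x with hLdef
  have hL1 : 1 ≤ L := by linarith only [hL]
  have hL0 : 0 < L := by linarith only [hL]
  have hx1 : (1:ℝ) ≤ x := by exact_mod_cast (by omega : 1 ≤ x)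
  have hx0 : (0:ℝ) < x := by linarith only [hx1]
  have hqz : q ≤ zA A x := by
    unfold zA
    apply Nat.le_floor
    exact hqA.trans (pow_le_pow_right₀ hL1 hA)
  have hhx : (h : ℝ) ≤ x := hh2.trans (div_le_self hx0.le (one_le_pow₀ hL1))
  have hhx' : h ≤ x := by exact_mod_cast hhx
  have hhε : (x : ℝ) ^ ε ≤ h :=
    (Real.rpow_le_rpow_of_exponent_le hx1 (by linarith)).trans hh1
  have hh3 : (x : ℝ) ^ (1 / 3 : ℝ) ≤ h :=
    (Real.rpow_le_rpow_of_exponent_le hx1 (by linarith only [hε])).trans hh1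
  have hh0 : (0 : ℝ) < h := lt_of_lt_of_le (by (clear * - hx3; positivity)) hh3
  have hqr : (0:ℝ) ≤ q := Nat.cast_nonneg q
  have hcore := major_core q a (zA A x) x h hqz (x * (h : ℝ) ^ 2 / L ^ (2 * A1 + B + 1))
    (h / L ^ (A1 + B + 1))
    (fun χ => h1 q χ (hqA.trans (pow_le_pow_right₀ hL1 (by omega))) h hh1 hh2)
    (fun u b hb => h2 u h hhε (by omega) q b hq1 hqz hb)
  refine hcore.trans ?_
  have hq2 : (q : ℝ) ^ 2 ≤ L ^ (2 * A1) := by
    calc (q : ℝ) ^ 2 ≤ (L ^ A1) ^ 2 := pow_le_pow_left₀ hqr hqA 2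
      _ = L ^ (2 * A1) := by rw [← pow_mul, mul_comm]
  have hq4 : (q : ℝ) ^ 4 ≤ L ^ (4 * A1) := by
    calc (q : ℝ) ^ 4 ≤ (L ^ A1) ^ 4 := pow_le_pow_left₀ hqr hqA 4
      _ = L ^ (4 * A1) := by rw [← pow_mul, mul_comm]
  have h2x : (2 * (x : ℝ) + 1) ≤ 3 * x := by linarith only [hx1]
  -- the target
  set R : ℝ := x * (h : ℝ) ^ 2 / L ^ B with hR
  have hR0 : 0 ≤ R := by (clear * - hx3 hL hh0; positivity)
  have hh1' : (1:ℝ) ≤ h := by
    have : (0:ℝ) < h := hh0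
    have h5 : 0 < h := by exact_mod_cast this
    exact_mod_cast h5
  -- first term
  have t1 : (2 * (x : ℝ) + 1) * (q : ℝ) ^ 4 ≤ R / 50 := by
    have e1 : L ^ (4 * A1 + B + 1) ≤ h := h4.trans hh3
    have e2 : L ^ (4 * A1) * L ^ B * 200 ≤ h := by
      refine le_trans ?_ e1
      rw [pow_add, pow_add, pow_one]
      gcongr
    rw [hR, le_div_iff₀ (by norm_num), le_div_iff₀ (by (clear * - hL; positivity))]
    calc (2 * (x : ℝ) + 1) * (q : ℝ) ^ 4 * 50 * L ^ B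
        ≤ (3 * x) * L ^ (4 * A1) * 50 * L ^ B := by gcongr
      _ = x * (L ^ (4 * A1) * L ^ B * 150) := by ring
      _ ≤ x * (L ^ (4 * A1) * L ^ B * 200) := by gcongr; norm_num
      _ ≤ x * (h : ℝ) ^ 2 := by
          gcongr
          nlinarith only [hh1', e2]
  have t2 : 2 * (q : ℝ) ^ 2 * (x * (h : ℝ) ^ 2 / L ^ (2 * A1 + B + 1)) ≤ R / 50 := by
    calc 2 * (q : ℝ) ^ 2 * (x * (h : ℝ) ^ 2 / L ^ (2 * A1 + B + 1))
        ≤ 2 * L ^ (2 * A1) * (x * (h : ℝ) ^ 2 / L ^ (2 * A1 + B + 1)) := by gcongr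
      _ = R * (2 / L) := by
          rw [hR, pow_add, pow_add, pow_one]
          field_simp
      _ ≤ R * (1 / 50) := by
          refine mul_le_mul_of_nonneg_left ?_ hR0
          rw [div_le_div_iff₀ hL0 (by norm_num)]
          linarith only [hL]
      _ = R / 50 := by ring
  have t3 : (2 * (x : ℝ) + 1) * (2 * (q : ℝ) ^ 2 * (h / L ^ (A1 + B + 1)) ^ 2) ≤ R / 20 := by
    calc (2 * (x : ℝ) + 1) * (2 * (q : ℝ) ^ 2 * (h / L ^ (A1 + B + 1)) ^ 2)
        ≤ (3 * x) * (2 * L ^ (2 * A1) * (h / L ^ (A1 + B + 1)) ^ 2) := by gcongr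
      _ = R * (6 / L ^ (B + 2)) := by
          rw [hR, div_pow, ← pow_mul]
          have : (A1 + B + 1) * 2 = 2 * A1 + B + (B + 2) := by ring
          rw [this, pow_add, pow_add]
          field_simp
          ring
      _ ≤ R * (1 / 20) := by
          refine mul_le_mul_of_nonneg_left ?_ hR0
          rw [div_le_div_iff₀ (by (clear * - hL; positivity)) (by norm_num)]
          have : L ≤ L ^ (B + 2) := le_self_pow₀ hL1 (by omega)
          linarith only [hL, this]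
      _ = R / 20 := by ring
  have t4 : (h : ℝ) ^ 2 * (2 * Real.sqrt ((2 * x + 1 + h : ℕ) : ℝ) *
          Real.log ((2 * x + 1 + h : ℕ) : ℝ) ^ 2) ≤ R / 10 := by
    have e1 : ((2 * x + 1 + h : ℕ) : ℝ) ≤ 4 * x := by
      have : 2 * x + 1 + h ≤ 4 * x := by omega
      exact_mod_cast this
    have e0 : (1:ℝ) ≤ ((2 * x + 1 + h : ℕ) : ℝ) := by
      exact_mod_cast (by omega : 1 ≤ 2 * x + 1 + h)
    have e2 : Real.sqrt ((2 * x + 1 + h : ℕ) : ℝ) ≤ 2 * (x : ℝ) ^ (1 / 2 : ℝ) := by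
      calc Real.sqrt ((2 * x + 1 + h : ℕ) : ℝ) ≤ Real.sqrt (4 * x) := Real.sqrt_le_sqrt e1
        _ = 2 * (x : ℝ) ^ (1 / 2 : ℝ) := by
            rw [Real.sqrt_mul (by norm_num), Real.sqrt_eq_rpow x]
            congr 1
            rw [show (4:ℝ) = 2 ^ 2 by norm_num, Real.sqrt_sq (by norm_num)]
    have e3 : Real.log ((2 * x + 1 + h : ℕ) : ℝ) ≤ 2 * L := by
      have h5 : Real.log ((2 * x + 1 + h : ℕ) : ℝ) ≤ Real.log (4 * x) :=
        Real.log_le_log (by linarith only [e0]) e1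
      have h6 : Real.log (4 * x) = 2 * Real.log 2 + L := by
        rw [Real.log_mul (by norm_num) hx0.ne', show (4:ℝ) = 2 ^ 2 by norm_num, Real.log_pow, hLdef]
        norm_num
      have := Real.log_two_lt_d9
      rw [h6] at h5
      linarith only [hL, h5, this]
    have e4 : 0 ≤ Real.log ((2 * x + 1 + h : ℕ) : ℝ) := Real.log_nonneg e0
    have e5 : 160 * L ^ 2 * L ^ B ≤ (x : ℝ) ^ (1 / 2 : ℝ) := by
      refine le_trans ?_ h3
      have : (160:ℝ) ≤ L ^ 2 := by nlinarith only [hL]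
      calc 160 * L ^ 2 * L ^ B ≤ L ^ 2 * L ^ 2 * L ^ B := by gcongr
        _ = L ^ (B + 4) := by ring
    have e6 : (x : ℝ) = (x : ℝ) ^ (1 / 2 : ℝ) * (x : ℝ) ^ (1 / 2 : ℝ) := by
      rw [← Real.rpow_add hx0]
      norm_num
    rw [hR, le_div_iff₀ (by norm_num), le_div_iff₀ (by (clear * - hL; positivity))]
    calc (h : ℝ) ^ 2 * (2 * Real.sqrt ((2 * x + 1 + h : ℕ) : ℝ) *
          Real.log ((2 * x + 1 + h : ℕ) : ℝ) ^ 2) * 10 * L ^ B
        ≤ (h : ℝ) ^ 2 * (2 * (2 * (x : ℝ) ^ (1 / 2 : ℝ)) * (2 * L) ^ 2) * 10 * L ^ B := by gcongr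
      _ = (h : ℝ) ^ 2 * ((x : ℝ) ^ (1 / 2 : ℝ) * (160 * L ^ 2 * L ^ B)) := by ring
      _ ≤ (h : ℝ) ^ 2 * ((x : ℝ) ^ (1 / 2 : ℝ) * (x : ℝ) ^ (1 / 2 : ℝ)) := by gcongr
      _ = x * (h : ℝ) ^ 2 := by rw [← e6]; ring
  linarith only [hR0, t1, t2, t3, t4]

end Pool.Agent.VL
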