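import Pool.Agent.Lib.VK.KL

/-!
# Second derivative test for `sum f(n) n^(-iv)`, `N ≤ q |v|`, `q^2 |v| ≤ N^2`

PROOF SKETCH (`kl_gen`, Kusmin-Landau). `z m = exp (i g m)`, `d m = g (m+1) - g m ∈ [θ, 3]` decreasing. `z (m+1) = z m exp (i d m)`, so
`z m = (z m - z (m+1)) c m`, `c m = 1/(1 - exp (i d m)) = 1/2 + (i/2) cot (d m / 2)` (`0 < d m / 2 ≤ 3/2 < π/2`), `|c m| ≤ C/θ`. Abel summation:
`|sum_(M ≤ m < N) z m| ≤ |c M| + |c (N-1)| + sum |c (m+1) - c m|`, and the last sum telescopes because `cot` is decreasing and `d` is decreasing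
(`|c (m+1) - c m| = (cot (d (m+1)/2) - cot (d m/2))/2`). See also the proof of `VK.kl_sum`. The last term `z N` contributes `1 ≤ 3/θ`.

PROOF SKETCH (`vdc_sum`). One residue class modulo `q`: `n = q m + b`, `m` runs over an interval `I` of at most `N/q + 1 ≤ 2N/q` integers (`N ≥ q`, as
`q^2 ≤ q^2 |v| ≤ N^2`; all `n` in `(N, 2N]`); `z m = (q m + b)^(-iv)`. Van der Corput's inequality: for `1 ≤ h0 ≤ |I|`:
`|sum_I z m|^2 ≤ ((|I| + h0)/h0^2) sum_(|h| < h0) (h0 - |h|) |sum_(m, m+h ∈ I) z (m+h) conj (z m)|` (Cauchy-Schwarz for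
`h0 sum_I z m = sum_(k) sum_(0 ≤ r < h0) z (k + r)`, `z = 0` outside `I`, `k` in an interval of `|I| + h0 - 1` integers).
For `1 ≤ h < h0`: `z (m+h) conj (z m) = exp (-i g m)`, `g m = v log ((q (m+h) + b)/(q m + b))`, whose increments have constant sign, decreasing absolute value
(`(n+q h)/n` is decreasing and convex in `n`... : `log (1 + q h/n) - log (1 + q h/(n+q))` is positive and decreasing in `n`), at most
`|v| q h · q/N^2 ≤ 1` if `h ≤ N^2/(q^2 |v|)`, and at least `|v| q^2 h/(c N^2)` (`c` an absolute constant; `q h ≤ N`). So `kl_gen` gives `≤ C N^2/(|v| q^2 h)`.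
Choose `h0 = ⌊N^2/(q^2 |v|)⌋ ≥ 1` (`≤ N/q` as `N ≤ q |v|`; so `h0 ≥ N^2/(2 q^2 |v|)`; if `h0 > |I|` then `|I| ≤ N/q ≤ |v| q ...`: use `min h0 |I|`, or: the interval may be short,
van der Corput's inequality holds for all `h0 ≥ 1` with the factor `(|I| + h0)/h0`, and `|I| ≤ 2N/q`, `h0 ≤ N/q`):
`|sum_I|^2 ≤ (3N/(q h0)) (2N/q + 2 sum_(h < h0) C N^2/(|v| q^2 h)) ≤ C' |v| + C' (N/q) (1 + log N) ≤ C'' |v| (1 + log N)` (`N/q ≤ |v|`).
Sum over the `q` classes: `≤ C q √|v| (1 + log N)`.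
-/

set_option autoImplicit false

open Finset

namespace Pool.Agent.VL

open Pool.Agent.VK

namespace VdCAux


/-- the sequence extended by zero -/
noncomputable def ext (z : ℕ → ℂ) (L : ℕ) (j : ℤ) : ℂ := if 0 ≤ j ∧ j < L then z j.toNat else 0

lemma ext_of_notMem {z : ℕ → ℂ} {L : ℕ} {j : ℤ} (h : ¬ (0 ≤ j ∧ j < L)) : ext z L j = 0 := by
  unfold ext
  rw [if_neg h]

/-- the correlations -/
noncomputable def cor (z : ℕ → ℂ) (L : ℕ) (t : ℤ) : ℂ :=
  ∑ j ∈ Ico (0 : ℤ) L, ext z L (j + t) * (starRingEnd ℂ) (ext z L j)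

lemma cor_shift (z : ℕ → ℂ) (L : ℕ) (t a b : ℤ) (ha : a ≤ 0) (hb : L ≤ b) :
    ∑ j ∈ Ico a b, ext z L (j + t) * (starRingEnd ℂ) (ext z L j) = cor z L t := by
  unfold cor
  symm
  apply sum_subset
  · intro j hj
    rw [mem_Ico] at hj ⊢
    omega
  · intro j _ hj
    rw [mem_Ico] at hj
    rw [ext_of_notMem hj, map_zero, mul_zero]

lemma cor_pair (z : ℕ → ℂ) (L H : ℕ) (r s : ℕ) (hs : s < H) :
    ∑ k ∈ Ico (0 : ℤ) (L + H), ext z L (k - r) * (starRingEnd ℂ) (ext z L (k - s)) =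
      cor z L (s - r) := by
  rw [← cor_shift z L (s - r) (-s) (L + H - s) (by omega) (by omega)]
  refine sum_bij' (fun k _ => k - s) (fun j _ => j + s) ?_ ?_ ?_ ?_ ?_
  · intro k hk
    rw [mem_Ico] at hk ⊢
    omega
  · intro k hk
    rw [mem_Ico] at hk ⊢
    omega
  · intro k _
    ring
  · intro k _
    ring
  · intro k _
    rw [show k - s + ((s : ℤ) - r) = k - r by ring]

lemma cor_neg (z : ℕ → ℂ) (L : ℕ) (t : ℤ) : cor z L (-t) = (starRingEnd ℂ) (cor z L t) := by
  have h1 : ∀ t : ℤ, cor z L t =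
      ∑ j ∈ Ico (- |t|) (L + |t|), ext z L (j + t) * (starRingEnd ℂ) (ext z L j) := by
    intro t
    rw [cor_shift z L t _ _ (by have := abs_nonneg t; omega) (by have := abs_nonneg t; omega)]
  have h2 : cor z L (-t) =
      ∑ j ∈ Ico (0 - t) (L - t), ext z L j * (starRingEnd ℂ) (ext z L (j + t)) := by
    unfold cor
    refine sum_bij' (fun k _ => k - t) (fun j _ => j + t) ?_ ?_ ?_ ?_ ?_
    · intro k hk
      rw [mem_Ico] at hk ⊢
      omega
    · intro k hk
      rw [mem_Ico] at hk ⊢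
      omega
    · intro k _
      ring
    · intro k _
      ring
    · intro k _
      rw [show k - t + t = k by ring, show k + -t = k - t by ring]
  rw [h2, h1, map_sum]
  have h3 : ∀ j, (starRingEnd ℂ) (ext z L (j + t) * (starRingEnd ℂ) (ext z L j)) =
      ext z L j * (starRingEnd ℂ) (ext z L (j + t)) := by
    intro j
    rw [map_mul, Complex.conj_conj, mul_comm]
  simp only [h3]
  apply sum_subset
  · intro j hj
    rw [mem_Ico] at hj ⊢
    have := neg_abs_le t
    have := le_abs_self t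
    omega
  · intro j _ hj
    rw [mem_Ico] at hj
    rw [ext_of_notMem (j := j + t) (by omega), map_zero, mul_zero]

lemma sum_ext (z : ℕ → ℂ) (L H : ℕ) (r : ℕ) (hr : r < H) :
    ∑ k ∈ Ico (0 : ℤ) (L + H), ext z L (k - r) = ∑ m ∈ range L, z m := by
  have h1 : ∑ m ∈ range L, z m = ∑ k ∈ Ico (r : ℤ) (L + r), ext z L (k - r) := by
    refine sum_bij' (fun m _ => (m : ℤ) + r) (fun k _ => (k - r).toNat) ?_ ?_ ?_ ?_ ?_
    · intro m hm
      rw [mem_range] at hm
      rw [mem_Ico]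
      omega
    · intro k hk
      rw [mem_Ico] at hk
      rw [mem_range]
      omega
    · intro m _
      simp
    · intro k hk
      rw [mem_Ico] at hk
      omega
    · intro m hm
      rw [mem_range] at hm
      unfold ext
      rw [if_pos (by omega)]
      congr 1
      omega
  rw [h1]
  symm
  apply sum_subset
  · intro j hj
    rw [mem_Ico] at hj ⊢
    omega
  · intro j _ hj
    rw [mem_Ico] at hj
    rw [ext_of_notMem (by omega)]

lemma cor_nat (z : ℕ → ℂ) (L h : ℕ) :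
    cor z L h = ∑ m ∈ range (L - h), z (m + h) * (starRingEnd ℂ) (z m) := by
  have h1 : ∑ m ∈ range (L - h), z (m + h) * (starRingEnd ℂ) (z m) =
      ∑ j ∈ Ico (0 : ℤ) ((L - h : ℕ) : ℤ), ext z L (j + h) * (starRingEnd ℂ) (ext z L j) := by
    refine sum_bij' (fun m _ => (m : ℤ)) (fun k _ => k.toNat) ?_ ?_ ?_ ?_ ?_
    · intro m hm
      rw [mem_range] at hm
      rw [mem_Ico]
      omega
    · intro k hk
      rw [mem_Ico] at hk
      rw [mem_range]
      omega
    · intro m _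
      simp
    · intro k hk
      rw [mem_Ico] at hk
      show ((k.toNat : ℕ) : ℤ) = k
      omega
    · intro m hm
      rw [mem_range] at hm
      unfold ext
      rw [if_pos (by omega), if_pos (by omega)]
      congr 2
  rw [h1]
  unfold cor
  symm
  apply sum_subset
  · intro j hj
    rw [mem_Ico] at hj ⊢
    omega
  · intro j hj hj2
    rw [mem_Ico] at hj hj2
    rw [ext_of_notMem (j := j + h) (by omega), zero_mul]

lemma row_sum (c : ℕ → ℝ) (hc : ∀ h, 0 ≤ c h) (H r : ℕ) (hr : r < H) :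
    ∑ s ∈ range H, c ((s : ℤ) - r).natAbs ≤ c 0 + 2 * ∑ h ∈ Ico 1 H, c h := by
  have h1 : range H = (range r ∪ {r}) ∪ Ico (r + 1) H := by
    ext s
    rw [mem_union, mem_union, mem_range, mem_range, mem_singleton, mem_Ico]
    omega
  rw [h1, sum_union, sum_union, sum_singleton]
  · have h2 : ∑ s ∈ range r, c ((s : ℤ) - r).natAbs ≤ ∑ h ∈ Ico 1 H, c h := by
      have h3 : ∑ s ∈ range r, c ((s : ℤ) - r).natAbs = ∑ h ∈ Ico 1 (r + 1), c h := by
        refine sum_bij' (fun s _ => r - s) (fun h _ => r - h) ?_ ?_ ?_ ?_ ?_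
        · intro s hs
          rw [mem_range] at hs
          rw [mem_Ico]
          omega
        · intro s hs
          rw [mem_Ico] at hs
          rw [mem_range]
          omega
        · intro s hs
          rw [mem_range] at hs
          show r - (r - s) = s
          omega
        · intro s hs
          rw [mem_Ico] at hs
          show r - (r - s) = s
          omega
        · intro s hs
          rw [mem_range] at hs
          congr 1
          omega
      rw [h3]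
      apply sum_le_sum_of_subset_of_nonneg
      · intro h hh
        rw [mem_Ico] at hh ⊢
        omega
      · intro h _ _
        exact hc h
    have h4 : ∑ s ∈ Ico (r + 1) H, c ((s : ℤ) - r).natAbs ≤ ∑ h ∈ Ico 1 H, c h := by
      have h3 : ∑ s ∈ Ico (r + 1) H, c ((s : ℤ) - r).natAbs = ∑ h ∈ Ico 1 (H - r), c h := by
        refine sum_bij' (fun s _ => s - r) (fun h _ => h + r) ?_ ?_ ?_ ?_ ?_
        · intro s hs
          rw [mem_Ico] at hs ⊢
          omega
        · intro s hs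
          rw [mem_Ico] at hs ⊢
          omega
        · intro s hs
          rw [mem_Ico] at hs
          show s - r + r = s
          omega
        · intro s hs
          rw [mem_Ico] at hs
          show s + r - r = s
          omega
        · intro s hs
          rw [mem_Ico] at hs
          congr 1
          omega
      rw [h3]
      apply sum_le_sum_of_subset_of_nonneg
      · intro h hh
        rw [mem_Ico] at hh ⊢
        omega
      · intro h _ _
        exact hc h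
    have h5 : ((r : ℤ) - r).natAbs = 0 := by omega
    rw [h5]
    linarith
  · rw [disjoint_left]
    intro s hs
    rw [mem_range] at hs
    rw [mem_singleton]
    omega
  · rw [disjoint_left]
    intro s hs
    rw [mem_union, mem_range, mem_singleton] at hs
    rw [mem_Ico]
    omega

/-- van der Corput's inequality. -/
lemma vdc_ineq (z : ℕ → ℂ) (L H : ℕ) (hH : 1 ≤ H) :
    (H : ℝ) * ‖∑ m ∈ range L, z m‖ ^ 2 ≤ (L + H) *
      (‖∑ m ∈ range L, z m * (starRingEnd ℂ) (z m)‖ + 2 * ∑ h ∈ Ico 1 H,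
        ‖∑ m ∈ range (L - h), z (m + h) * (starRingEnd ℂ) (z m)‖) := by
  have hH0 : (0 : ℝ) < H := by exact_mod_cast hH
  set S := ∑ m ∈ range L, z m with hS
  set a : ℤ → ℂ := fun k => ∑ r ∈ range H, ext z L (k - r) with ha
  have h1 : (H : ℂ) * S = ∑ k ∈ Ico (0 : ℤ) (L + H), a k := by
    rw [ha]
    simp only
    rw [sum_comm]
    rw [sum_congr rfl (fun r hr => sum_ext z L H r (mem_range.1 hr)), sum_const, card_range,
      nsmul_eq_mul]
  have h2 : ‖(H : ℂ) * S‖ ^ 2 ≤ (L + H) * ∑ k ∈ Ico (0 : ℤ) (L + H), ‖a k‖ ^ 2 := by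
    rw [h1]
    calc ‖∑ k ∈ Ico (0 : ℤ) (L + H), a k‖ ^ 2 ≤ (∑ k ∈ Ico (0 : ℤ) (L + H), ‖a k‖) ^ 2 :=
          pow_le_pow_left₀ (norm_nonneg _) (norm_sum_le _ _) 2
      _ ≤ (#(Ico (0 : ℤ) (L + H)) : ℝ) * ∑ k ∈ Ico (0 : ℤ) (L + H), ‖a k‖ ^ 2 :=
          sq_sum_le_card_mul_sum_sq
      _ = (L + H) * ∑ k ∈ Ico (0 : ℤ) (L + H), ‖a k‖ ^ 2 := by
          rw [Int.card_Ico, sub_zero]
          congr 1
          have : ((L : ℤ) + H).toNat = L + H := by omega
          rw [this]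
          push_cast
          ring
  have h3 : ((∑ k ∈ Ico (0 : ℤ) (L + H), ‖a k‖ ^ 2 : ℝ) : ℂ) =
      ∑ r ∈ range H, ∑ s ∈ range H, cor z L (s - r) := by
    push_cast
    have h4 : ∀ k : ℤ, ((‖a k‖ : ℂ)) ^ 2 = ∑ r ∈ range H, ∑ s ∈ range H,
        ext z L (k - r) * (starRingEnd ℂ) (ext z L (k - s)) := by
      intro k
      rw [← Complex.mul_conj', ha]
      simp only [map_sum]
      rw [sum_mul_sum]
    simp only [h4]
    rw [sum_comm]
    refine sum_congr rfl fun r _ => ?_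
    rw [sum_comm]
    refine sum_congr rfl fun s hs => ?_
    exact cor_pair z L H r s (mem_range.1 hs)
  have h5 : ∑ k ∈ Ico (0 : ℤ) (L + H), ‖a k‖ ^ 2 ≤
      H * (‖cor z L 0‖ + 2 * ∑ h ∈ Ico 1 H, ‖cor z L (h : ℤ)‖) := by
    have h6 : ‖((∑ k ∈ Ico (0 : ℤ) (L + H), ‖a k‖ ^ 2 : ℝ) : ℂ)‖ =
        ∑ k ∈ Ico (0 : ℤ) (L + H), ‖a k‖ ^ 2 := by
      rw [Complex.norm_real, Real.norm_eq_abs, abs_of_nonneg (sum_nonneg fun _ _ => by positivity)]
    rw [← h6, h3]
    refine (norm_sum_le _ _).trans ?_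
    have h7 : ∀ r ∈ range H, ‖∑ s ∈ range H, cor z L (s - r)‖ ≤
        ‖cor z L 0‖ + 2 * ∑ h ∈ Ico 1 H, ‖cor z L (h : ℤ)‖ := by
      intro r hr
      refine (norm_sum_le _ _).trans ?_
      have h8 := row_sum (fun h => ‖cor z L (h : ℤ)‖) (fun _ => norm_nonneg _) H r
        (mem_range.1 hr)
      simp only [Nat.cast_zero] at h8
      refine le_trans (le_of_eq (sum_congr rfl fun s _ => ?_)) h8
      rcases le_total 0 ((s : ℤ) - r) with h9 | h9
      · have h10 : ((((s : ℤ) - r).natAbs : ℕ) : ℤ) = s - r := by omega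
        rw [h10]
      · have h10 : ((((s : ℤ) - r).natAbs : ℕ) : ℤ) = -(s - r) := by omega
        rw [h10, cor_neg, RCLike.norm_conj]
    refine (sum_le_sum h7).trans (le_of_eq ?_)
    rw [sum_const, card_range, nsmul_eq_mul]
  have h6 : cor z L 0 = ∑ m ∈ range L, z m * (starRingEnd ℂ) (z m) := by
    have := cor_nat z L 0
    simpa using this
  rw [h6] at h5
  simp only [cor_nat] at h5
  rw [norm_mul, Complex.norm_natCast, mul_pow] at h2
  have h7 : (H : ℝ) ^ 2 * ‖S‖ ^ 2 ≤ (L + H) * (H *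
      (‖∑ m ∈ range L, z m * (starRingEnd ℂ) (z m)‖ + 2 * ∑ h ∈ Ico 1 H,
        ‖∑ m ∈ range (L - h), z (m + h) * (starRingEnd ℂ) (z m)‖)) :=
    h2.trans (mul_le_mul_of_nonneg_left h5 (by positivity))
  have h8 : (H : ℝ) * ((H : ℝ) * ‖S‖ ^ 2) ≤ H * ((L + H) *
      (‖∑ m ∈ range L, z m * (starRingEnd ℂ) (z m)‖ + 2 * ∑ h ∈ Ico 1 H,
        ‖∑ m ∈ range (L - h), z (m + h) * (starRingEnd ℂ) (z m)‖)) := by
    calc _ = (H : ℝ) ^ 2 * ‖S‖ ^ 2 := by ring
      _ ≤ _ := h7
      _ = _ := by ring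
  exact le_of_mul_le_mul_left h8 hH0


/-- The coefficient `(1/2) cot (θ/2)`. -/
noncomputable def ct (θ : ℝ) : ℝ := 1 / (2 * Real.tan (θ / 2))

lemma half_lt {θ : ℝ} (h1 : θ ≤ 3) : θ / 2 < Real.pi / 2 := by
  have := Real.pi_gt_three
  linarith

lemma tan_pos' {θ : ℝ} (h0 : 0 < θ) (h1 : θ ≤ 3) : 0 < Real.tan (θ / 2) :=
  Real.tan_pos_of_pos_of_lt_pi_div_two (by linarith) (half_lt h1)

lemma ct_nonneg {θ : ℝ} (h0 : 0 < θ) (h1 : θ ≤ 3) : 0 ≤ ct θ := by
  have := tan_pos' h0 h1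
  unfold ct
  positivity

lemma ct_le {θ : ℝ} (h0 : 0 < θ) (h1 : θ ≤ 3) : ct θ ≤ 1 / θ := by
  unfold ct
  have h2 := Real.lt_tan (x := θ / 2) (by linarith) (half_lt h1)
  exact one_div_le_one_div_of_le h0 (by linarith)

lemma ct_anti {θ θ' : ℝ} (h0 : 0 < θ') (h1 : θ ≤ 3) (h : θ' ≤ θ) : ct θ ≤ ct θ' := by
  unfold ct
  have h2 := tan_pos' h0 (h.trans h1)
  have h3 : Real.tan (θ' / 2) ≤ Real.tan (θ / 2) := by
    rcases eq_or_lt_of_le h with h4 | h4
    · rw [h4]
    · exact (Real.tan_lt_tan_of_lt_of_lt_pi_div_two (by have := Real.pi_pos; linarith)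
        (half_lt h1) (by linarith)).le
  exact one_div_le_one_div_of_le (by linarith) (by linarith)

lemma ident {θ : ℝ} (h0 : 0 < θ) (h1 : θ ≤ 3) :
    (1 - Complex.exp ((θ : ℂ) * Complex.I)) * (1 / 2 + (ct θ : ℂ) * Complex.I) = 1 := by
  have hs : 0 < Real.sin (θ / 2) := Real.sin_pos_of_pos_of_lt_pi (by linarith) (by
    have := Real.pi_gt_three
    linarith)
  have hc : ct θ = Real.cos (θ / 2) / (2 * Real.sin (θ / 2)) := by
    unfold ct
    rw [Real.tan_eq_sin_div_cos, ← mul_div_assoc, one_div_div]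
  have he : Complex.exp ((θ : ℂ) * Complex.I) = ((Real.cos θ : ℝ) : ℂ) +
      ((Real.sin θ : ℝ) : ℂ) * Complex.I := by
    rw [Complex.exp_mul_I, Complex.ofReal_cos, Complex.ofReal_sin]
  have h2 : Real.cos θ = 1 - 2 * Real.sin (θ / 2) ^ 2 := by
    have h3 := Real.cos_sq' (θ / 2)
    have h4 := Real.cos_two_mul (θ / 2)
    rw [show 2 * (θ / 2) = θ by ring] at h4
    rw [h4, h3]
    ring
  have h5 : Real.sin θ = 2 * Real.sin (θ / 2) * Real.cos (θ / 2) := by
    have h4 := Real.sin_two_mul (θ / 2)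
    rw [show 2 * (θ / 2) = θ by ring] at h4
    exact h4
  rw [he, h2, h5, hc]
  have hs' : ((Real.sin (θ / 2) : ℝ) : ℂ) ≠ 0 := by exact_mod_cast hs.ne'
  have hone : ((Real.sin (θ / 2) : ℝ) : ℂ) ^ 2 + ((Real.cos (θ / 2) : ℝ) : ℂ) ^ 2 = 1 := by
    exact_mod_cast Real.sin_sq_add_cos_sq (θ / 2)
  push_cast at hs' hone ⊢
  field_simp
  have hI : Complex.I ^ 2 = -1 := Complex.I_sq
  linear_combination (2 * Complex.sin ((θ : ℂ) / 2)) * hone -
    (2 * Complex.sin ((θ : ℂ) / 2) * Complex.cos ((θ : ℂ) / 2) ^ 2) * hI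

lemma seq_bound {F : ℕ → ℂ} {θ : ℕ → ℝ} (M : ℕ) (hF : ∀ m, ‖F m‖ = 1)
    (hstep : ∀ m ≤ M, F (m + 1) = F m * Complex.exp ((θ m : ℂ) * Complex.I))
    (h0 : ∀ m ≤ M, 0 < θ m) (h1 : ∀ m ≤ M, θ m ≤ 3)
    (hanti : ∀ m, m + 1 ≤ M → θ (m + 1) ≤ θ m) :
    ‖∑ m ∈ range (M + 1), F m‖ ≤ 1 + 2 / θ M := by
  have hA : ∀ R ≤ M, ‖∑ m ∈ range (R + 1), (F m - F (m + 1)) * (ct (θ m) : ℂ) +
      F (R + 1) * (ct (θ R) : ℂ)‖ ≤ ct (θ R) := by
    intro R
    induction R with
    | zero =>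
      intro _
      rw [zero_add, sum_range_one]
      have : (F 0 - F (0 + 1)) * (ct (θ 0) : ℂ) + F (0 + 1) * (ct (θ 0) : ℂ) =
          F 0 * (ct (θ 0) : ℂ) := by ring
      rw [this, norm_mul, hF, one_mul, Complex.norm_real, Real.norm_eq_abs,
        abs_of_nonneg (ct_nonneg (h0 0 (Nat.zero_le _)) (h1 0 (Nat.zero_le _)))]
    | succ R ih =>
      intro hR
      have ih' := ih (by omega)
      rw [sum_range_succ]
      have h2 : ∑ m ∈ range (R + 1), (F m - F (m + 1)) * (ct (θ m) : ℂ) +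
          (F (R + 1) - F (R + 1 + 1)) * (ct (θ (R + 1)) : ℂ) +
            F (R + 1 + 1) * (ct (θ (R + 1)) : ℂ) =
          (∑ m ∈ range (R + 1), (F m - F (m + 1)) * (ct (θ m) : ℂ) +
            F (R + 1) * (ct (θ R) : ℂ)) +
            F (R + 1) * (((ct (θ (R + 1)) - ct (θ R) : ℝ)) : ℂ) := by
        push_cast
        ring
      rw [h2]
      refine (norm_add_le _ _).trans ?_
      rw [norm_mul, hF, one_mul, Complex.norm_real, Real.norm_eq_abs,
        abs_of_nonneg (sub_nonneg.2 (ct_anti (h0 (R + 1) hR) (h1 R (by omega)) (hanti R hR)))]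
      linarith
  have hsum : ∑ m ∈ range (M + 1), F m = (F 0 - F (M + 1)) * (1 / 2) +
      (∑ m ∈ range (M + 1), (F m - F (m + 1)) * (ct (θ m) : ℂ)) * Complex.I := by
    have h2 : ∀ m ∈ range (M + 1), F m = (F m - F (m + 1)) * (1 / 2) +
        ((F m - F (m + 1)) * (ct (θ m) : ℂ)) * Complex.I := by
      intro m hm
      have hm' : m ≤ M := by
        rw [mem_range] at hm
        omega
      have h3 := ident (h0 m hm') (h1 m hm')
      have h4 : F m - F (m + 1) = F m * (1 - Complex.exp ((θ m : ℂ) * Complex.I)) := by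
        rw [hstep m hm']
        ring
      rw [h4]
      linear_combination (-F m) * h3
    rw [sum_congr rfl h2, sum_add_distrib, ← sum_mul, ← sum_mul, sum_range_sub']
  have h2 : ‖∑ m ∈ range (M + 1), (F m - F (m + 1)) * (ct (θ m) : ℂ)‖ ≤ 2 * ct (θ M) := by
    have h3 := hA M le_rfl
    have h4 : ‖F (M + 1) * (ct (θ M) : ℂ)‖ = ct (θ M) := by
      rw [norm_mul, hF, one_mul, Complex.norm_real, Real.norm_eq_abs,
        abs_of_nonneg (ct_nonneg (h0 M le_rfl) (h1 M le_rfl))]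
    have h5 := norm_sub_le (∑ m ∈ range (M + 1), (F m - F (m + 1)) * (ct (θ m) : ℂ) +
      F (M + 1) * (ct (θ M) : ℂ)) (F (M + 1) * (ct (θ M) : ℂ))
    rw [add_sub_cancel_right] at h5
    linarith
  rw [hsum]
  refine (norm_add_le _ _).trans ?_
  have h6 : ‖(F 0 - F (M + 1)) * (1 / 2 : ℂ)‖ ≤ 1 := by
    rw [norm_mul]
    have h7 := norm_sub_le (F 0) (F (M + 1))
    rw [hF, hF] at h7
    have h8 : ‖(1 / 2 : ℂ)‖ = 1 / 2 := by norm_num
    rw [h8]
    linarith
  have h9 := ct_le (h0 M le_rfl) (h1 M le_rfl)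
  have h11 : ‖(∑ m ∈ range (M + 1), (F m - F (m + 1)) * (ct (θ m) : ℂ)) * Complex.I‖ =
      ‖∑ m ∈ range (M + 1), (F m - F (m + 1)) * (ct (θ m) : ℂ)‖ := by
    rw [norm_mul, Complex.norm_I, mul_one]
  rw [h11]
  have h10 : 2 / θ M = 2 * (1 / θ M) := by ring
  rw [h10]
  linarith only [h2, h6, h9]

lemma kl_range (g : ℕ → ℝ) (L : ℕ) (θ : ℝ) (h0 : 0 < θ) (h3 : θ ≤ 3)
    (h1 : ∀ m < L, θ ≤ g (m + 1) - g m ∧ g (m + 1) - g m ≤ 3)
    (h2 : ∀ m, m + 1 < L → g (m + 2) - g (m + 1) ≤ g (m + 1) - g m) :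
    ‖∑ m ∈ range (L + 1), Complex.exp ((g m : ℂ) * Complex.I)‖ ≤ 8 / θ := by
  have hn : ∀ m, ‖Complex.exp ((g m : ℂ) * Complex.I)‖ = 1 := fun m =>
    Complex.norm_exp_ofReal_mul_I _
  have h13 : 1 ≤ 3 / θ := by
    rw [le_div_iff₀ h0]
    linarith
  rcases Nat.eq_zero_or_pos L with hL | hL
  · subst hL
    rw [zero_add, sum_range_one, hn]
    have : 8 / θ = 3 / θ + 5 / θ := by ring
    have h5 : 0 ≤ 5 / θ := by positivity
    linarith
  · obtain ⟨M, rfl⟩ : ∃ M, L = M + 1 := ⟨L - 1, by omega⟩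
    rw [sum_range_succ]
    refine (norm_add_le _ _).trans ?_
    rw [hn]
    have h4 := seq_bound (F := fun m => Complex.exp ((g m : ℂ) * Complex.I))
      (θ := fun m => g (m + 1) - g m) M hn
      (by
        intro m _
        show Complex.exp ((g (m + 1) : ℂ) * Complex.I) = _
        rw [← Complex.exp_add]
        congr 1
        push_cast
        ring)
      (fun m hm => lt_of_lt_of_le h0 (h1 m (by omega)).1)
      (fun m hm => (h1 m (by omega)).2)
      (fun m hm => h2 m (by omega))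
    have h5 : 2 / (g (M + 1) - g M) ≤ 2 / θ :=
      div_le_div_of_nonneg_left (by norm_num) h0 (h1 M (by omega)).1
    have h6 : 8 / θ = 3 / θ + 3 / θ + 2 / θ := by ring
    linarith

lemma le_of_sq_le_sq {a b : ℝ} (h : a ^ 2 ≤ b ^ 2) (hb : 0 ≤ b) : a ≤ b := by
  rcases le_or_gt a b with h1 | h1
  · exact h1
  · nlinarith

lemma dlog {n q h : ℝ} (hn : 0 < n) (hq : 0 < q) (hh : 0 < h) :
    (Real.log (n + q) - Real.log (n + q + q * h)) - (Real.log n - Real.log (n + q * h)) =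
      Real.log (1 + q ^ 2 * h / (n * (n + q + q * h))) := by
  have h1 : 1 + q ^ 2 * h / (n * (n + q + q * h)) =
      ((n + q) * (n + q * h)) / (n * (n + q + q * h)) := by
    field_simp
    ring
  rw [h1, Real.log_div (by positivity) (by positivity), Real.log_mul (by positivity) (by positivity),
    Real.log_mul (by positivity) (by positivity)]
  ring

lemma log_lower {x : ℝ} (h0 : 0 ≤ x) (h1 : x ≤ 1) : x / 2 ≤ Real.log (1 + x) := by
  have h2 := Real.log_le_sub_one_of_pos (show (0 : ℝ) < (1 + x)⁻¹ by positivity)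
  rw [Real.log_inv] at h2
  have h3 : x / 2 ≤ 1 - (1 + x)⁻¹ := by
    have h4 : 1 - (1 + x)⁻¹ = x / (1 + x) := by
      field_simp
      ring
    rw [h4]
    exact div_le_div_of_nonneg_left h0 (by positivity) (by linarith)
  linarith

lemma log_upper {x : ℝ} (h0 : 0 ≤ x) : Real.log (1 + x) ≤ x := by
  have h2 := Real.log_le_sub_one_of_pos (show (0 : ℝ) < 1 + x by positivity)
  linarith

lemma corr_bound {q n₀ N : ℕ} (hq : 1 ≤ q) (hN : N ≤ n₀) (hN1 : 1 ≤ N) {w : ℝ} (hw : 1 ≤ w)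
    (M : ℕ) (hM : n₀ + q * M ≤ 2 * N) (h : ℕ) (hh : 1 ≤ h)
    (hhw : (q : ℝ) ^ 2 * w * h ≤ (N : ℝ) ^ 2) :
    ‖∑ m ∈ range (M + 1 - h), nit (n₀ + q * (m + h)) (-w) *
      (starRingEnd ℂ) (nit (n₀ + q * m) (-w))‖ ≤ 64 * ((N : ℝ) ^ 2 / (w * (q : ℝ) ^ 2)) * (h : ℝ)⁻¹ := by
  have hq0 : (0 : ℝ) < q := by exact_mod_cast hq
  have hN0 : (0 : ℝ) < N := by exact_mod_cast hN1
  have hw0 : 0 < w := by linarith
  have hh0 : (0 : ℝ) < h := by exact_mod_cast hh
  rcases Nat.lt_or_ge M h with hMh | hMh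
  · rw [show M + 1 - h = 0 by omega, sum_range_zero, norm_zero]
    positivity
  · obtain ⟨P, rfl⟩ : ∃ P, M = P + h := ⟨M - h, by omega⟩
    rw [show P + h + 1 - h = P + 1 by omega]
    set g : ℕ → ℝ := fun m => w * (Real.log ((n₀ : ℝ) + q * m) -
      Real.log ((n₀ : ℝ) + q * m + q * h)) with hg
    have hn0 : (0 : ℝ) < n₀ := by
      have : 0 < n₀ := by omega
      exact_mod_cast this
    have hNn : (N : ℝ) ≤ n₀ := by exact_mod_cast hN
    have h1 : ∑ m ∈ range (P + 1), nit (n₀ + q * (m + h)) (-w) *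
        (starRingEnd ℂ) (nit (n₀ + q * m) (-w)) =
        (starRingEnd ℂ) (∑ m ∈ range (P + 1), Complex.exp ((g m : ℂ) * Complex.I)) := by
      rw [map_sum]
      refine sum_congr rfl fun m _ => ?_
      rw [KLAux.nit_exp (by omega), KLAux.nit_exp (by omega), ← Complex.exp_conj,
        ← Complex.exp_conj, ← Complex.exp_add, map_mul, map_mul, Complex.conj_ofReal,
        Complex.conj_ofReal, Complex.conj_I]
      congr 1
      rw [hg]
      have e1 : ((n₀ + q * (m + h) : ℕ) : ℝ) = (n₀ : ℝ) + q * m + q * h := by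
        push_cast
        ring
      have e2 : ((n₀ + q * m : ℕ) : ℝ) = (n₀ : ℝ) + q * m := by
        push_cast
        ring
      rw [e1, e2]
      push_cast
      ring
    rw [h1, RCLike.norm_conj]
    have hstep : ∀ m : ℕ, g (m + 1) - g m = w * Real.log (1 + (q : ℝ) ^ 2 * h /
        (((n₀ : ℝ) + q * m) * ((n₀ : ℝ) + q * m + q + q * h))) := by
      intro m
      have hn : (0 : ℝ) < (n₀ : ℝ) + q * m := by positivity
      rw [← dlog hn hq0 hh0, hg]
      have e1 : (n₀ : ℝ) + q * ((m + 1 : ℕ) : ℝ) = (n₀ : ℝ) + q * m + q := by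
        push_cast
        ring
      simp only [e1]
      ring
    have hx1 : ∀ m : ℕ, (q : ℝ) ^ 2 * h / (((n₀ : ℝ) + q * m) * ((n₀ : ℝ) + q * m + q + q * h)) ≤
        (q : ℝ) ^ 2 * h / (N : ℝ) ^ 2 := by
      intro m
      refine div_le_div_of_nonneg_left (by positivity) (by positivity) ?_
      have hn : (N : ℝ) ≤ (n₀ : ℝ) + q * m := by
        have : (0 : ℝ) ≤ q * m := by positivity
        linarith only [hNn, this]
      have hn2 : (N : ℝ) ≤ (n₀ : ℝ) + q * m + q + q * h := by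
        have : (0 : ℝ) ≤ q * h := by positivity
        linarith only [hq0, hn, this]
      rw [sq]
      exact mul_le_mul hn hn2 hN0.le (by linarith only [hN0, hn])
    have hθ : (w * (q : ℝ) ^ 2 * h / (8 * (N : ℝ) ^ 2)) ≤ 1 := by
      rw [div_le_one (by positivity)]
      nlinarith only [hhw]
    have h2 := kl_range g P (w * (q : ℝ) ^ 2 * h / (8 * (N : ℝ) ^ 2)) (by positivity)
      (by linarith only [hθ])
      (by
        intro m hm
        rw [hstep]
        have hx0 : 0 ≤ (q : ℝ) ^ 2 * h /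
            (((n₀ : ℝ) + q * m) * ((n₀ : ℝ) + q * m + q + q * h)) := by positivity
        have hb1 : (q : ℝ) ^ 2 * h / (N : ℝ) ^ 2 ≤ 1 := by
          rw [div_le_one (by positivity)]
          have : (q : ℝ) ^ 2 * h ≤ (q : ℝ) ^ 2 * w * h := by
            have : (0 : ℝ) ≤ (q : ℝ) ^ 2 * h := by positivity
            nlinarith only [hw, this]
          linarith only [hhw, this]
        have hb2 : w * ((q : ℝ) ^ 2 * h / (N : ℝ) ^ 2) ≤ 1 := by
          rw [← mul_div_assoc, div_le_one (by positivity)]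
          linarith only [hhw]
        have hx := hx1 m
        constructor
        · have h3 := log_lower hx0 (hx.trans hb1)
          have h4 : (q : ℝ) ^ 2 * h / (4 * (N : ℝ) ^ 2) ≤
              (q : ℝ) ^ 2 * h / (((n₀ : ℝ) + q * m) * ((n₀ : ℝ) + q * m + q + q * h)) := by
            refine div_le_div_of_nonneg_left (by (clear * - hq hh; positivity)) (by (clear * - hq hh hn0; positivity)) ?_
            have hn1 : (n₀ : ℝ) + q * m + q + q * h ≤ 2 * N := by
              have h5 : n₀ + q * (m + 1 + h) ≤ 2 * N := by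
                have h6 : q * (m + 1 + h) ≤ q * (P + h) := Nat.mul_le_mul_left q (by omega)
                omega
              have h6 : ((n₀ + q * (m + 1 + h) : ℕ) : ℝ) ≤ ((2 * N : ℕ) : ℝ) := by exact_mod_cast h5
              push_cast at h6
              linarith only [h6]
            have hn2 : (n₀ : ℝ) + q * m ≤ 2 * N := by
              have : (0 : ℝ) ≤ q * h := by (clear * - hq hh; positivity)
              linarith only [hq0, hn1, this]
            have h7 : ((n₀ : ℝ) + q * m) * ((n₀ : ℝ) + q * m + q + q * h) ≤ (2 * N) * (2 * N) :=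
              mul_le_mul hn2 hn1 (by (clear * - hq hh hn0; positivity)) (by (clear * - hN1; positivity))
            linarith only [h7]
          have h8 : w * (q : ℝ) ^ 2 * h / (8 * (N : ℝ) ^ 2) =
              w * (((q : ℝ) ^ 2 * h / (4 * (N : ℝ) ^ 2)) / 2) := by
            field_simp
            ring
          rw [h8]
          exact mul_le_mul_of_nonneg_left (by linarith only [h3, h4]) hw0.le
        · have h3 := log_upper hx0
          have h4 := mul_le_mul_of_nonneg_left (h3.trans hx) hw0.le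
          linarith only [hb2, h4])
      (by
        intro m _
        have e : g (m + 2) - g (m + 1) = g ((m + 1) + 1) - g (m + 1) := rfl
        rw [e, hstep, hstep]
        refine mul_le_mul_of_nonneg_left (Real.log_le_log (by positivity) ?_) hw0.le
        have h3 : (q : ℝ) ^ 2 * h / (((n₀ : ℝ) + q * (m + 1 : ℕ)) *
            ((n₀ : ℝ) + q * (m + 1 : ℕ) + q + q * h)) ≤
            (q : ℝ) ^ 2 * h / (((n₀ : ℝ) + q * m) * ((n₀ : ℝ) + q * m + q + q * h)) := by
          refine div_le_div_of_nonneg_left (by positivity) (by positivity) ?_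
          have h4 : (q : ℝ) * m ≤ q * (m + 1 : ℕ) := by
            push_cast
            nlinarith only [hq0]
          exact mul_le_mul (by linarith only [h4]) (by linarith only [h4]) (by positivity) (by positivity)
        linarith only [h3])
    refine h2.trans (le_of_eq ?_)
    field_simp
    ring

lemma harm (H N : ℕ) (hN : 1 ≤ N) (hH : H ≤ N) :
    ∑ h ∈ Ico 1 H, ((h : ℝ))⁻¹ ≤ 1 + Real.log N := by
  rcases Nat.lt_or_ge H 2 with h1 | h1
  · rw [Ico_eq_empty (by omega), sum_empty]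
    have := Real.log_nonneg (show (1 : ℝ) ≤ N by exact_mod_cast hN)
    linarith
  · obtain ⟨K, rfl⟩ : ∃ K, H = K + 1 := ⟨H - 1, by omega⟩
    have h2 := harmonic_le_one_add_log K
    have h3 : ∑ h ∈ Ico 1 (K + 1), ((h : ℝ))⁻¹ = ((harmonic K : ℚ) : ℝ) := by
      unfold harmonic
      rw [sum_Ico_eq_sum_range]
      push_cast
      refine sum_congr rfl fun i _ => ?_
      rw [add_comm]
    rw [h3]
    refine h2.trans ?_
    have h4 : Real.log K ≤ Real.log N :=
      Real.log_le_log (by exact_mod_cast (by omega : 0 < K)) (by exact_mod_cast (by omega : K ≤ N))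
    linarith

/-- One residue class. -/
lemma class_vdc {q n₀ N : ℕ} (hq : 1 ≤ q) (hN : N ≤ n₀) (hN1 : 1 ≤ N) {w : ℝ} (hw : 1 ≤ w)
    (M : ℕ) (hM : n₀ + q * M ≤ 2 * N) (h1 : (N : ℝ) ≤ q * w)
    (h2 : (q : ℝ) ^ 2 * w ≤ (N : ℝ) ^ 2) :
    ‖∑ m ∈ range (M + 1), nit (n₀ + q * m) (-w)‖ ≤ 28 * (Real.sqrt w * (1 + Real.log N)) := by
  have hq0 : (0 : ℝ) < q := by exact_mod_cast hq
  have hN0 : (0 : ℝ) < N := by exact_mod_cast hN1
  have hw0 : 0 < w := by linarith
  have hlog : 0 ≤ Real.log N := Real.log_nonneg (by exact_mod_cast hN1)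
  have hqN : (q : ℝ) ≤ N := by
    have h3 : (q : ℝ) ^ 2 ≤ (N : ℝ) ^ 2 := by nlinarith only [hw, h2]
    exact le_of_sq_le_sq h3 hN0.le
  set x : ℝ := (N : ℝ) ^ 2 / ((q : ℝ) ^ 2 * w) with hx
  have hx1 : 1 ≤ x := by
    rw [hx, le_div_iff₀ (by positivity)]
    linarith only [h2]
  set H : ℕ := ⌊x⌋₊ with hH
  have hH1 : 1 ≤ H := by
    rw [hH]
    exact Nat.floor_pos.2 hx1
  have hHx : (H : ℝ) ≤ x := Nat.floor_le (by linarith only [hx1])
  have hxH : x ≤ 2 * H := by
    have h3 : x < H + 1 := Nat.lt_floor_add_one x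
    have h4 : (1 : ℝ) ≤ H := by exact_mod_cast hH1
    linarith only [h3, h4]
  have hH0 : (0 : ℝ) < H := by exact_mod_cast hH1
  have hxN : x ≤ N / q := by
    rw [hx, div_le_div_iff₀ (by positivity) hq0]
    have h3 : (N : ℝ) * N ≤ N * (q * w) := mul_le_mul_of_nonneg_left h1 hN0.le
    have h4 := mul_le_mul_of_nonneg_right h3 hq0.le
    calc (N : ℝ) ^ 2 * q = N * N * q := by ring
      _ ≤ N * (q * w) * q := h4
      _ = _ := by ring
  have hHN : H ≤ N := by
    have h3 : (H : ℝ) ≤ N := by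
      refine (hHx.trans hxN).trans ?_
      rw [div_le_iff₀ hq0]
      have : (1 : ℝ) ≤ q := by exact_mod_cast hq
      nlinarith only [this]
    exact_mod_cast h3
  have hL : ((M + 1 : ℕ) : ℝ) ≤ 2 * (N / q) := by
    have h3 : (q : ℝ) * M ≤ N := by
      have h4 : q * M ≤ N := by omega
      exact_mod_cast h4
    have h5 : (M : ℝ) ≤ N / q := by
      rw [le_div_iff₀ hq0]
      linarith only [h3]
    have h6 : (1 : ℝ) ≤ N / q := by
      rw [le_div_iff₀ hq0]
      linarith only [hqN]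
    push_cast
    linarith only [hx1, hxN, h5]
  have h3 := vdc_ineq (fun m => nit (n₀ + q * m) (-w)) (M + 1) H hH1
  have h4 : ‖∑ m ∈ range (M + 1), nit (n₀ + q * m) (-w) *
      (starRingEnd ℂ) (nit (n₀ + q * m) (-w))‖ ≤ 2 * (N / q) := by
    refine (norm_sum_le _ _).trans ?_
    have h5 : ∀ m ∈ range (M + 1), ‖nit (n₀ + q * m) (-w) *
        (starRingEnd ℂ) (nit (n₀ + q * m) (-w))‖ ≤ 1 := by
      intro m _
      rw [norm_mul, RCLike.norm_conj, norm_nit (by omega), one_mul]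
    refine (sum_le_sum h5).trans ?_
    rw [sum_const, card_range, nsmul_eq_mul, mul_one]
    exact hL
  have h5 : ∑ h ∈ Ico 1 H, ‖∑ m ∈ range (M + 1 - h), nit (n₀ + q * (m + h)) (-w) *
      (starRingEnd ℂ) (nit (n₀ + q * m) (-w))‖ ≤
      64 * ((N : ℝ) ^ 2 / (w * (q : ℝ) ^ 2)) * (1 + Real.log N) := by
    have h6 : ∀ h ∈ Ico 1 H, ‖∑ m ∈ range (M + 1 - h), nit (n₀ + q * (m + h)) (-w) *
        (starRingEnd ℂ) (nit (n₀ + q * m) (-w))‖ ≤
        64 * ((N : ℝ) ^ 2 / (w * (q : ℝ) ^ 2)) * (h : ℝ)⁻¹ := by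
      intro h hh
      rw [mem_Ico] at hh
      refine corr_bound hq hN hN1 hw M hM h hh.1 ?_
      have h7 : (h : ℝ) ≤ x := by
        refine le_trans ?_ hHx
        exact_mod_cast hh.2.le
      rw [hx, le_div_iff₀ (by (clear * - hq hw; positivity))] at h7
      linarith only [h7]
    refine (sum_le_sum h6).trans ?_
    rw [← mul_sum]
    exact mul_le_mul_of_nonneg_left (harm H N hN1 hHN) (by (clear * - hq hN1 hw; positivity))
  set S : ℝ := ‖∑ m ∈ range (M + 1), nit (n₀ + q * m) (-w)‖ with hS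
  have h6 : (H : ℝ) * S ^ 2 ≤ (3 * (N / q)) * (2 * (N / q) +
      2 * (64 * ((N : ℝ) ^ 2 / (w * (q : ℝ) ^ 2)) * (1 + Real.log N))) := by
    refine h3.trans ?_
    refine mul_le_mul ?_ ?_ (by (clear * -; positivity)) (by (clear * - hq hN1; positivity))
    · linarith only [hHx, hxN, hL]
    · exact add_le_add h4 (mul_le_mul_of_nonneg_left h5 (by norm_num))
  have h7 : x * S ^ 2 ≤ 2 * ((3 * (N / q)) * (2 * (N / q) +
      2 * (64 * ((N : ℝ) ^ 2 / (w * (q : ℝ) ^ 2)) * (1 + Real.log N)))) := by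
    have h8 : x * S ^ 2 ≤ 2 * H * S ^ 2 := mul_le_mul_of_nonneg_right hxH (by (clear * -; positivity))
    linarith only [h6, h8]
  have h8 : S ^ 2 ≤ 12 * w + 768 * ((N / q) * (1 + Real.log N)) := by
    have h9 : x * (12 * w + 768 * ((N / q) * (1 + Real.log N))) = 2 * ((3 * (N / q)) *
        (2 * (N / q) + 2 * (64 * ((N : ℝ) ^ 2 / (w * (q : ℝ) ^ 2)) * (1 + Real.log N)))) := by
      rw [hx]
      field_simp
      ring
    rw [← h9] at h7
    exact le_of_mul_le_mul_left h7 (by linarith only [hx1])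
  have h9 : S ^ 2 ≤ 780 * (w * (1 + Real.log N)) := by
    have h10 : (N : ℝ) / q ≤ w := by
      rw [div_le_iff₀ hq0]
      linarith only [h1]
    have h11 : (N : ℝ) / q * (1 + Real.log N) ≤ w * (1 + Real.log N) :=
      mul_le_mul_of_nonneg_right h10 (by linarith only [hlog])
    have h12 : w ≤ w * (1 + Real.log N) := by nlinarith only [hw, hlog]
    linarith only [h8, h11, h12]
  have h10 : S ^ 2 ≤ (28 * (Real.sqrt w * (1 + Real.log N))) ^ 2 := by
    have h11 : (28 * (Real.sqrt w * (1 + Real.log N))) ^ 2 =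
        784 * (w * (1 + Real.log N) ^ 2) := by
      rw [mul_pow, mul_pow, Real.sq_sqrt hw0.le]
      norm_num
    rw [h11]
    have h12 : w * (1 + Real.log N) ≤ w * (1 + Real.log N) ^ 2 :=
      mul_le_mul_of_nonneg_left (by nlinarith only [hlog]) hw0.le
    have h13 : 0 ≤ w * (1 + Real.log N) ^ 2 := by (clear * - hw; positivity)
    linarith only [h9, h12, h13]
  exact le_of_sq_le_sq h10 (by (clear * - hw; positivity))

/-- One residue class, both signs. -/
lemma class_vdc' {q n₀ N : ℕ} (hq : 1 ≤ q) (hN : N ≤ n₀) (hN1 : 1 ≤ N) {v : ℝ} (hv : 1 ≤ |v|)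
    (M : ℕ) (hM : n₀ + q * M ≤ 2 * N) (h1 : (N : ℝ) ≤ q * |v|)
    (h2 : (q : ℝ) ^ 2 * |v| ≤ (N : ℝ) ^ 2) :
    ‖∑ m ∈ range (M + 1), nit (n₀ + q * m) v‖ ≤ 28 * (Real.sqrt |v| * (1 + Real.log N)) := by
  have h3 : ‖∑ m ∈ range (M + 1), nit (n₀ + q * m) v‖ =
      ‖∑ m ∈ range (M + 1), nit (n₀ + q * m) (-|v|)‖ := by
    rcases le_or_gt 0 v with h | h
    · rw [abs_of_nonneg h]
      have h2 : ∑ m ∈ range (M + 1), nit (n₀ + q * m) (-v) =
          (starRingEnd ℂ) (∑ m ∈ range (M + 1), nit (n₀ + q * m) v) := by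
        rw [map_sum]
        exact sum_congr rfl fun m _ => KLAux.nit_neg (by omega) v
      rw [h2, RCLike.norm_conj]
    · rw [abs_of_neg h, neg_neg]
  rw [h3]
  exact class_vdc hq hN hN1 hv M hM h1 h2

/-- Reduction to residue classes. -/
lemma by_classes (q N N' : ℕ) (f : ZMod q → ℂ) (v B : ℝ) (hq : 1 ≤ q) (hN' : N' ≤ 2 * N)
    (hf : ∀ a, ‖f a‖ ≤ 1) (hB : 0 ≤ B)
    (h : ∀ n₀ M : ℕ, N ≤ n₀ → n₀ + q * M ≤ 2 * N →
      ‖∑ m ∈ range (M + 1), nit (n₀ + q * m) v‖ ≤ B) :
    ‖∑ n ∈ Ioc N N', f (n : ZMod q) * nit n v‖ ≤ q * B := by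
  obtain ⟨L, hL⟩ : ∃ L, L = N' - N := ⟨_, rfl⟩
  have h1 : ∑ n ∈ Ioc N N', f (n : ZMod q) * nit n v =
      ∑ j ∈ range L, f ((N + 1 + j : ℕ) : ZMod q) * nit (N + 1 + j) v := by
    refine sum_bij' (fun n _ => n - (N + 1)) (fun j _ => N + 1 + j) ?_ ?_ ?_ ?_ ?_
    · intro n hn
      rw [mem_Ioc] at hn
      rw [mem_range]
      omega
    · intro j hj
      rw [mem_range] at hj
      rw [mem_Ioc]
      omega
    · intro n hn
      rw [mem_Ioc] at hn
      show N + 1 + (n - (N + 1)) = n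
      omega
    · intro j _
      show N + 1 + j - (N + 1) = j
      omega
    · intro n hn
      rw [mem_Ioc] at hn
      show _ = f ((N + 1 + (n - (N + 1)) : ℕ) : ZMod q) * nit (N + 1 + (n - (N + 1))) v
      rw [show N + 1 + (n - (N + 1)) = n by omega]
  rw [h1, ← sum_fiberwise_of_maps_to (t := range q) (g := fun j => j % q)
    (fun j _ => mem_range.2 (Nat.mod_lt _ hq))]
  refine (norm_sum_le _ _).trans ?_
  have hcls : ∀ r ∈ range q, ‖∑ j ∈ (range L).filter (fun j => j % q = r),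
      f ((N + 1 + j : ℕ) : ZMod q) * nit (N + 1 + j) v‖ ≤ B := by
    intro r hr
    rw [mem_range] at hr
    rcases Nat.lt_or_ge r L with hrL | hrL
    · obtain ⟨M, hM⟩ : ∃ M, M = (L - 1 - r) / q := ⟨_, rfl⟩
      have hM1 : q * M ≤ L - 1 - r := by
        rw [hM]
        exact Nat.mul_div_le _ _
      have hM2 : ∀ m, r + q * m < L → m ≤ M := by
        intro m hm
        rw [hM, Nat.le_div_iff_mul_le hq]
        obtain ⟨t, ht⟩ : ∃ t, t = q * m := ⟨_, rfl⟩
        rw [mul_comm m q, ← ht]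
        rw [← ht] at hm
        omega
      have h2 : ∑ j ∈ (range L).filter (fun j => j % q = r),
          f ((N + 1 + j : ℕ) : ZMod q) * nit (N + 1 + j) v =
          ∑ m ∈ range (M + 1), f ((N + 1 + r : ℕ) : ZMod q) * nit (N + 1 + r + q * m) v := by
        refine sum_bij' (fun j _ => j / q) (fun m _ => r + q * m) ?_ ?_ ?_ ?_ ?_
        · intro j hj
          rw [mem_filter, mem_range] at hj
          rw [mem_range, Nat.lt_succ_iff]
          refine hM2 _ ?_
          have h3 := Nat.mod_add_div j q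
          rw [hj.2] at h3
          rw [h3]
          exact hj.1
        · intro m hm
          rw [mem_range, Nat.lt_succ_iff] at hm
          rw [mem_filter, mem_range]
          refine ⟨?_, ?_⟩
          · have h4 := Nat.mul_le_mul_left q hm
            obtain ⟨t, ht⟩ : ∃ t, t = q * m := ⟨_, rfl⟩
            obtain ⟨s, hs⟩ : ∃ s, s = q * M := ⟨_, rfl⟩
            rw [← ht] at h4 ⊢
            rw [← hs] at h4 hM1
            omega
          · rw [Nat.add_mul_mod_self_left, Nat.mod_eq_of_lt hr]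
        · intro j hj
          rw [mem_filter] at hj
          show r + q * (j / q) = j
          have h3 := Nat.mod_add_div j q
          rw [hj.2] at h3
          exact h3
        · intro m _
          show (r + q * m) / q = m
          rw [Nat.add_mul_div_left _ _ hq, Nat.div_eq_of_lt hr, zero_add]
        · intro j hj
          rw [mem_filter] at hj
          have h3 := Nat.mod_add_div j q
          rw [hj.2] at h3
          show f ((N + 1 + j : ℕ) : ZMod q) * nit (N + 1 + j) v =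
            f ((N + 1 + r : ℕ) : ZMod q) * nit (N + 1 + r + q * (j / q)) v
          have h4 : N + 1 + r + q * (j / q) = N + 1 + j := by omega
          have h5 : ((N + 1 + j : ℕ) : ZMod q) = ((N + 1 + r : ℕ) : ZMod q) := by
            rw [← h4]
            push_cast
            simp
          rw [h4, h5]
      rw [h2, ← mul_sum, norm_mul]
      have h3 := h (N + 1 + r) M (by omega) (by omega)
      calc ‖f ((N + 1 + r : ℕ) : ZMod q)‖ * ‖∑ m ∈ range (M + 1), nit (N + 1 + r + q * m) v‖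
          ≤ 1 * B := mul_le_mul (hf _) h3 (norm_nonneg _) zero_le_one
        _ = _ := one_mul _
    · have h2 : (range L).filter (fun j => j % q = r) = ∅ := by
        rw [filter_eq_empty_iff]
        intro j hj h3
        rw [mem_range] at hj
        have h4 := Nat.mod_le j q
        omega
      rw [h2, sum_empty, norm_zero]
      exact hB
  refine (sum_le_sum hcls).trans (le_of_eq ?_)
  rw [sum_const, card_range, nsmul_eq_mul]

end VdCAux


open VdCAux in
theorem kl_gen : ∃ C : ℝ, 1 ≤ C ∧ ∀ (g : ℕ → ℝ) (M N : ℕ) (θ : ℝ), 0 < θ → θ ≤ 3 → M ≤ N →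
    (∀ m : ℕ, M ≤ m → m < N → θ ≤ g (m + 1) - g m ∧ g (m + 1) - g m ≤ 3) →
    (∀ m : ℕ, M ≤ m → m + 1 < N → g (m + 2) - g (m + 1) ≤ g (m + 1) - g m) →
    ‖∑ m ∈ Icc M N, Complex.exp ((g m : ℂ) * Complex.I)‖ ≤ C / θ := by
  refine ⟨8, by norm_num, ?_⟩
  intro g M N θ h0 h3 hMN h1 h2
  obtain ⟨L, rfl⟩ : ∃ L, N = M + L := ⟨N - M, by omega⟩
  have h4 : ∑ m ∈ Icc M (M + L), Complex.exp ((g m : ℂ) * Complex.I) =
      ∑ m ∈ range (L + 1), Complex.exp ((g (M + m) : ℂ) * Complex.I) := by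
    refine sum_bij' (fun m _ => m - M) (fun m _ => M + m) ?_ ?_ ?_ ?_ ?_
    · intro m hm
      rw [mem_Icc] at hm
      rw [mem_range]
      omega
    · intro m hm
      rw [mem_range] at hm
      rw [mem_Icc]
      omega
    · intro m hm
      rw [mem_Icc] at hm
      show M + (m - M) = m
      omega
    · intro m _
      show M + m - M = m
      omega
    · intro m hm
      rw [mem_Icc] at hm
      show _ = Complex.exp ((g (M + (m - M)) : ℂ) * Complex.I)
      rw [show M + (m - M) = m by omega]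
  rw [h4]
  apply kl_range (fun m => g (M + m)) L θ h0 h3
  · intro m hm
    exact h1 (M + m) (by omega) (by omega)
  · intro m hm
    exact h2 (M + m) (by omega) (by omega)

open VdCAux in
theorem vdc_sum : ∃ C : ℝ, 1 ≤ C ∧ ∀ (q N N' : ℕ) (f : ZMod q → ℂ) (v : ℝ), 1 ≤ q → 1 ≤ N →
    N' ≤ 2 * N → (∀ a, ‖f a‖ ≤ 1) → 1 ≤ |v| → (N : ℝ) ≤ q * |v| → (q : ℝ) ^ 2 * |v| ≤ (N : ℝ) ^ 2 →
    ‖∑ n ∈ Ioc N N', f (n : ZMod q) * nit n v‖ ≤ C * q * Real.sqrt |v| * (1 + Real.log N) := by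
  refine ⟨28, by norm_num, ?_⟩
  intro q N N' f v hq hN hN' hf hv h1 h2
  have hlog : 0 ≤ Real.log N := Real.log_nonneg (by exact_mod_cast hN)
  have h3 := by_classes q N N' f v (28 * (Real.sqrt |v| * (1 + Real.log N))) hq hN' hf
    (by positivity) (fun n₀ M hn hM => class_vdc' hq hn hN hv M hM h1 h2)
  refine h3.trans (le_of_eq ?_)
  ring

end Pool.Agent.VL
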